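import Pool.Agent.Lib.MP_d0515f_al.Num

/-! Small polynomial systems used in the final elimination. -/

namespace TDP

variable {K : Type*} [Field K] [Num17 K]

/-- the case `g ≠ 0` -/
theorem gcase (T g x y z : K) (hg : g ≠ 0) (hT : T ≠ 0)
    (h5 : T * x * y = (5 * x + 21 * g * y) * z)
    (h6 : 34125 * g * (5 * x + 21 * g * y) * z + 4200 * T * g ^ 3 * (5 * x + 21 * g * y)
      + 28665 * y ^ 2 * z - T * (35280 * g ^ 2 * y ^ 2 + 2750 * x ^ 2 + 4851 * y ^ 3) = 0)
    (h7 : (5 * x + 21 * g * y) * (z - 8 * T * g ^ 2) * (4 * z + T * g ^ 2) = 0) :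
    (x = 0 ∧ y = 0) ∨ (x = 504 * g ^ 3 ∧ y = 60 * g ^ 2 ∧ z = 8 * T * g ^ 2) ∨
      (8 * x = -63 * g ^ 3 ∧ 4 * y = -15 * g ^ 2 ∧ 4 * z = -(T * g ^ 2)) := by
  have hg2 : g ^ 2 ≠ 0 := pow_ne_zero 2 hg
  rcases mul_eq_zero.mp h7 with h7 | hz
  · rcases mul_eq_zero.mp h7 with hl | hz
    · -- `ℓ = 0`
      left
      have hxy : x * y = 0 := by
        have : T * (x * y) = 0 := by rw [← mul_assoc, h5, hl, zero_mul]
        exact (mul_eq_zero.mp this).resolve_left hT
      rcases mul_eq_zero.mp hxy with h | h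
      · refine ⟨h, ?_⟩
        rw [h] at hl
        have : g * y = 0 := cz (nz21 (K := K)) (by linear_combination hl)
        exact (mul_eq_zero.mp this).resolve_left hg
      · refine ⟨?_, h⟩
        rw [h] at hl
        exact cz (nz5 (K := K)) (by linear_combination hl)
    · -- `z = 8 T g²`
      have hz' : z = 8 * T * g ^ 2 := by linear_combination hz
      subst hz'
      have e1 : x * (y - 40 * g ^ 2) - 168 * g ^ 3 * y = 0 := by
        have : T * (x * (y - 40 * g ^ 2) - 168 * g ^ 3 * y) = 0 := by linear_combination h5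
        exact (mul_eq_zero.mp this).resolve_left hT
      have e2 : 277200 * g ^ 3 * (5 * x + 21 * g * y) + 194040 * g ^ 2 * y ^ 2 - 2750 * x ^ 2
          - 4851 * y ^ 3 = 0 := by
        have : T * (277200 * g ^ 3 * (5 * x + 21 * g * y) + 194040 * g ^ 2 * y ^ 2 - 2750 * x ^ 2
          - 4851 * y ^ 3) = 0 := by linear_combination h6
        exact (mul_eq_zero.mp this).resolve_left hT
      have e3 : y ^ 3 * (y - 60 * g ^ 2) ^ 2 = 0 := by
        refine cz (nz4851 (K := K)) ?_
        linear_combination (-1 : K) * ((y - 40 * g ^ 2) ^ 2 * e2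
          - (1386000 * g ^ 3 * (y - 40 * g ^ 2)
            - 2750 * (x * (y - 40 * g ^ 2) + 168 * g ^ 3 * y)) * e1)
      rcases mul_eq_zero.mp e3 with h | h
      · left
        have hy : y = 0 := pow_eq_zero_iff (by norm_num) |>.mp h
        refine ⟨?_, hy⟩
        rw [hy] at e1
        have : g ^ 2 * x = 0 := cz (nz40 (K := K)) (by linear_combination (-1 : K) * e1)
        exact (mul_eq_zero.mp this).resolve_left hg2
      · right; left
        have hy : y - 60 * g ^ 2 = 0 := pow_eq_zero_iff (by norm_num) |>.mp h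
        have hy' : y = 60 * g ^ 2 := by linear_combination hy
        refine ⟨?_, hy', rfl⟩
        rw [hy'] at e1
        have : g ^ 2 * (x - 504 * g ^ 3) = 0 := cz (nz20 (K := K)) (by linear_combination e1)
        have := (mul_eq_zero.mp this).resolve_left hg2
        linear_combination this
  · -- `4 z = - T g²`
    have e1 : x * (4 * y + 5 * g ^ 2) + 21 * g ^ 3 * y = 0 := by
      have : T * (x * (4 * y + 5 * g ^ 2) + 21 * g ^ 3 * y) = 0 := by
        linear_combination 4 * h5 + (5 * x + 21 * g * y) * hz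
      exact (mul_eq_zero.mp this).resolve_left hT
    have e2 : -17325 * g ^ 3 * (5 * x + 21 * g * y) - 169785 * g ^ 2 * y ^ 2 - 11000 * x ^ 2
        - 19404 * y ^ 3 = 0 := by
      have : T * (-17325 * g ^ 3 * (5 * x + 21 * g * y) - 169785 * g ^ 2 * y ^ 2 - 11000 * x ^ 2
        - 19404 * y ^ 3) = 0 := by
        linear_combination 4 * h6 - (34125 * g * (5 * x + 21 * g * y) + 28665 * y ^ 2) * hz
      exact (mul_eq_zero.mp this).resolve_left hT
    have e3 : y ^ 2 * (4 * y + 15 * g ^ 2) ^ 3 = 0 := by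
      refine cz (nz4851 (K := K)) ?_
      linear_combination (-1 : K) * ((4 * y + 5 * g ^ 2) ^ 2 * e2
        - (-86625 * g ^ 3 * (4 * y + 5 * g ^ 2)
          - 11000 * (x * (4 * y + 5 * g ^ 2) - 21 * g ^ 3 * y)) * e1)
    rcases mul_eq_zero.mp e3 with h | h
    · left
      have hy : y = 0 := pow_eq_zero_iff (by norm_num) |>.mp h
      refine ⟨?_, hy⟩
      rw [hy] at e1
      have : g ^ 2 * x = 0 := cz (nz5 (K := K)) (by linear_combination e1)
      exact (mul_eq_zero.mp this).resolve_left hg2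
    · right; right
      have hy : 4 * y + 15 * g ^ 2 = 0 := pow_eq_zero_iff (by norm_num) |>.mp h
      refine ⟨?_, by linear_combination hy, by linear_combination hz⟩
      have : g ^ 2 * (8 * x + 63 * g ^ 3) = 0 := by
        refine cz (nz5 (K := K)) ?_
        linear_combination (-4 : K) * e1 + (4 * x + 21 * g ^ 3) * hy
      have := (mul_eq_zero.mp this).resolve_left hg2
      linear_combination this

/-- the case `g = 0` -/
theorem zcase (T w X Y : K) (hT : T ≠ 0)
    (h5 : T * X * Y = 165 * X * w)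
    (h6 : 945945 * Y ^ 2 * w - T * (2750 * X ^ 2 + 4851 * Y ^ 3) = 0)
    (h7 : X * w ^ 2 = 0) :
    (X = 0 ∧ Y = 0) ∨ (X = 0 ∧ 195 * w = T * Y) := by
  have hX : X = 0 := by
    rcases mul_eq_zero.mp h7 with h | h
    · exact h
    · have hw : w = 0 := pow_eq_zero_iff (by norm_num) |>.mp h
      rw [hw] at h5 h6
      by_contra hX
      have hY : Y = 0 := by
        have : T * X * Y = 0 := by linear_combination h5
        exact (mul_eq_zero.mp this).resolve_left (mul_ne_zero hT hX)
      rw [hY] at h6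
      have : T * X ^ 2 = 0 := cz (nz2750 (K := K)) (by linear_combination (-1 : K) * h6)
      exact (mul_ne_zero hT (pow_ne_zero 2 hX)) this
  rw [hX] at h6
  have : Y ^ 2 * (195 * w - T * Y) = 0 := cz (nz4851 (K := K)) (by linear_combination h6)
  rcases mul_eq_zero.mp this with h | h
  · exact Or.inl ⟨hX, pow_eq_zero_iff (by norm_num) |>.mp h⟩
  · exact Or.inr ⟨hX, by linear_combination h⟩

end TDP
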