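import Mathlib

/-! Fields in which the primes up to `17` are invertible. -/

namespace TDP

/-- the primes up to `17` are nonzero in `K` -/
class Num17 (K : Type*) [Field K] : Prop where
  two : (2 : K) ≠ 0
  three : (3 : K) ≠ 0
  five : (5 : K) ≠ 0
  seven : (7 : K) ≠ 0
  eleven : (11 : K) ≠ 0
  thirteen : (13 : K) ≠ 0
  seventeen : (17 : K) ≠ 0

instance {K : Type*} [Field K] [CharZero K] : Num17 K where
  two := by norm_num
  three := by norm_num
  five := by norm_num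
  seven := by norm_num
  eleven := by norm_num
  thirteen := by norm_num
  seventeen := by norm_num

theorem Num17.of_ne {K : Type*} [Field K] (h : ∀ m : ℕ, 0 < m → m ≤ 17 → (m : K) ≠ 0) :
    Num17 K where
  two := by exact_mod_cast h 2 (by norm_num) (by norm_num)
  three := by exact_mod_cast h 3 (by norm_num) (by norm_num)
  five := by exact_mod_cast h 5 (by norm_num) (by norm_num)
  seven := by exact_mod_cast h 7 (by norm_num) (by norm_num)
  eleven := by exact_mod_cast h 11 (by norm_num) (by norm_num)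
  thirteen := by exact_mod_cast h 13 (by norm_num) (by norm_num)
  seventeen := by exact_mod_cast h 17 (by norm_num) (by norm_num)

/-- the numbers `1, …, d + 8`, `2 d + 1` and `2 d + 3` are nonzero in `K` -/
structure Good (K : Type*) [Field K] (d : ℕ) : Prop where
  ne : ∀ l : ℕ, 0 < l → l ≤ d + 8 → (l : K) ≠ 0
  t1 : (2 * (d : K) + 1) ≠ 0
  t3 : (2 * (d : K) + 3) ≠ 0

theorem Good.of_charZero (K : Type*) [Field K] [CharZero K] (d : ℕ) : Good K d where
  ne := fun l hl _ => Nat.cast_ne_zero.mpr (by omega)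
  t1 := by
    have : ((2 * d + 1 : ℕ) : K) ≠ 0 := Nat.cast_ne_zero.mpr (by omega)
    push_cast at this
    exact this
  t3 := by
    have : ((2 * d + 3 : ℕ) : K) ≠ 0 := Nat.cast_ne_zero.mpr (by omega)
    push_cast at this
    exact this

/-- cancel a nonzero factor -/
theorem cz {K : Type*} [Field K] {c x : K} (hc : c ≠ 0) (h : c * x = 0) : x = 0 :=
  (mul_eq_zero.mp h).resolve_left hc

variable {K : Type*} [Field K] [Num17 K]

theorem nz2 : (2 : K) ≠ 0 := Num17.two

theorem nz3 : (3 : K) ≠ 0 := Num17.three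

theorem nz4 : (4 : K) ≠ 0 := by
  have e : (4 : K) = 2 ^ 2 := by norm_num
  rw [e]
  simp [Num17.two]

theorem nz5 : (5 : K) ≠ 0 := Num17.five

theorem nz6 : (6 : K) ≠ 0 := by
  have e : (6 : K) = 2 * 3 := by norm_num
  rw [e]
  simp [Num17.two, Num17.three]

theorem nz7 : (7 : K) ≠ 0 := Num17.seven

theorem nz8 : (8 : K) ≠ 0 := by
  have e : (8 : K) = 2 ^ 3 := by norm_num
  rw [e]
  simp [Num17.two]

theorem nz9 : (9 : K) ≠ 0 := by
  have e : (9 : K) = 3 ^ 2 := by norm_num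
  rw [e]
  simp [Num17.three]

theorem nz10 : (10 : K) ≠ 0 := by
  have e : (10 : K) = 2 * 5 := by norm_num
  rw [e]
  simp [Num17.two, Num17.five]

theorem nz11 : (11 : K) ≠ 0 := Num17.eleven

theorem nz12 : (12 : K) ≠ 0 := by
  have e : (12 : K) = 2 ^ 2 * 3 := by norm_num
  rw [e]
  simp [Num17.two, Num17.three]

theorem nz13 : (13 : K) ≠ 0 := Num17.thirteen

theorem nz15 : (15 : K) ≠ 0 := by
  have e : (15 : K) = 3 * 5 := by norm_num
  rw [e]
  simp [Num17.three, Num17.five]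

theorem nz16 : (16 : K) ≠ 0 := by
  have e : (16 : K) = 2 ^ 4 := by norm_num
  rw [e]
  simp [Num17.two]

theorem nz17 : (17 : K) ≠ 0 := Num17.seventeen

theorem nz20 : (20 : K) ≠ 0 := by
  have e : (20 : K) = 2 ^ 2 * 5 := by norm_num
  rw [e]
  simp [Num17.two, Num17.five]

theorem nz21 : (21 : K) ≠ 0 := by
  have e : (21 : K) = 3 * 7 := by norm_num
  rw [e]
  simp [Num17.three, Num17.seven]

theorem nz24 : (24 : K) ≠ 0 := by
  have e : (24 : K) = 2 ^ 3 * 3 := by norm_num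
  rw [e]
  simp [Num17.two, Num17.three]

theorem nz25 : (25 : K) ≠ 0 := by
  have e : (25 : K) = 5 ^ 2 := by norm_num
  rw [e]
  simp [Num17.five]

theorem nz30 : (30 : K) ≠ 0 := by
  have e : (30 : K) = 2 * 3 * 5 := by norm_num
  rw [e]
  simp [Num17.two, Num17.three, Num17.five]

theorem nz40 : (40 : K) ≠ 0 := by
  have e : (40 : K) = 2 ^ 3 * 5 := by norm_num
  rw [e]
  simp [Num17.two, Num17.five]

theorem nz42 : (42 : K) ≠ 0 := by
  have e : (42 : K) = 2 * 3 * 7 := by norm_num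
  rw [e]
  simp [Num17.two, Num17.three, Num17.seven]

theorem nz48 : (48 : K) ≠ 0 := by
  have e : (48 : K) = 2 ^ 4 * 3 := by norm_num
  rw [e]
  simp [Num17.two, Num17.three]

theorem nz60 : (60 : K) ≠ 0 := by
  have e : (60 : K) = 2 ^ 2 * 3 * 5 := by norm_num
  rw [e]
  simp [Num17.two, Num17.three, Num17.five]

theorem nz66 : (66 : K) ≠ 0 := by
  have e : (66 : K) = 2 * 3 * 11 := by norm_num
  rw [e]
  simp [Num17.two, Num17.three, Num17.eleven]

theorem nz90 : (90 : K) ≠ 0 := by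
  have e : (90 : K) = 2 * 3 ^ 2 * 5 := by norm_num
  rw [e]
  simp [Num17.two, Num17.three, Num17.five]

theorem nz120 : (120 : K) ≠ 0 := by
  have e : (120 : K) = 2 ^ 3 * 3 * 5 := by norm_num
  rw [e]
  simp [Num17.two, Num17.three, Num17.five]

theorem nz126 : (126 : K) ≠ 0 := by
  have e : (126 : K) = 2 * 3 ^ 2 * 7 := by norm_num
  rw [e]
  simp [Num17.two, Num17.three, Num17.seven]

theorem nz132 : (132 : K) ≠ 0 := by
  have e : (132 : K) = 2 ^ 2 * 3 * 11 := by norm_num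
  rw [e]
  simp [Num17.two, Num17.three, Num17.eleven]

theorem nz144 : (144 : K) ≠ 0 := by
  have e : (144 : K) = 2 ^ 4 * 3 ^ 2 := by norm_num
  rw [e]
  simp [Num17.two, Num17.three]

theorem nz180 : (180 : K) ≠ 0 := by
  have e : (180 : K) = 2 ^ 2 * 3 ^ 2 * 5 := by norm_num
  rw [e]
  simp [Num17.two, Num17.three, Num17.five]

theorem nz195 : (195 : K) ≠ 0 := by
  have e : (195 : K) = 3 * 5 * 13 := by norm_num
  rw [e]
  simp [Num17.three, Num17.five, Num17.thirteen]

theorem nz210 : (210 : K) ≠ 0 := by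
  have e : (210 : K) = 2 * 3 * 5 * 7 := by norm_num
  rw [e]
  simp [Num17.two, Num17.three, Num17.five, Num17.seven]

theorem nz240 : (240 : K) ≠ 0 := by
  have e : (240 : K) = 2 ^ 4 * 3 * 5 := by norm_num
  rw [e]
  simp [Num17.two, Num17.three, Num17.five]

theorem nz396 : (396 : K) ≠ 0 := by
  have e : (396 : K) = 2 ^ 2 * 3 ^ 2 * 11 := by norm_num
  rw [e]
  simp [Num17.two, Num17.three, Num17.eleven]

theorem nz420 : (420 : K) ≠ 0 := by
  have e : (420 : K) = 2 ^ 2 * 3 * 5 * 7 := by norm_num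
  rw [e]
  simp [Num17.two, Num17.three, Num17.five, Num17.seven]

theorem nz432 : (432 : K) ≠ 0 := by
  have e : (432 : K) = 2 ^ 4 * 3 ^ 3 := by norm_num
  rw [e]
  simp [Num17.two, Num17.three]

theorem nz510 : (510 : K) ≠ 0 := by
  have e : (510 : K) = 2 * 3 * 5 * 17 := by norm_num
  rw [e]
  simp [Num17.two, Num17.three, Num17.five, Num17.seventeen]

theorem nz525 : (525 : K) ≠ 0 := by
  have e : (525 : K) = 3 * 5 ^ 2 * 7 := by norm_num
  rw [e]
  simp [Num17.three, Num17.five, Num17.seven]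

theorem nz675 : (675 : K) ≠ 0 := by
  have e : (675 : K) = 3 ^ 3 * 5 ^ 2 := by norm_num
  rw [e]
  simp [Num17.three, Num17.five]

theorem nz945 : (945 : K) ≠ 0 := by
  have e : (945 : K) = 3 ^ 3 * 5 * 7 := by norm_num
  rw [e]
  simp [Num17.three, Num17.five, Num17.seven]

theorem nz1260 : (1260 : K) ≠ 0 := by
  have e : (1260 : K) = 2 ^ 2 * 3 ^ 2 * 5 * 7 := by norm_num
  rw [e]
  simp [Num17.two, Num17.three, Num17.five, Num17.seven]

theorem nz1344 : (1344 : K) ≠ 0 := by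
  have e : (1344 : K) = 2 ^ 6 * 3 * 7 := by norm_num
  rw [e]
  simp [Num17.two, Num17.three, Num17.seven]

theorem nz1728 : (1728 : K) ≠ 0 := by
  have e : (1728 : K) = 2 ^ 6 * 3 ^ 3 := by norm_num
  rw [e]
  simp [Num17.two, Num17.three]

theorem nz2730 : (2730 : K) ≠ 0 := by
  have e : (2730 : K) = 2 * 3 * 5 * 7 * 13 := by norm_num
  rw [e]
  simp [Num17.two, Num17.three, Num17.five, Num17.seven, Num17.thirteen]

theorem nz2750 : (2750 : K) ≠ 0 := by
  have e : (2750 : K) = 2 * 5 ^ 3 * 11 := by norm_num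
  rw [e]
  simp [Num17.two, Num17.five, Num17.eleven]

theorem nz3780 : (3780 : K) ≠ 0 := by
  have e : (3780 : K) = 2 ^ 2 * 3 ^ 3 * 5 * 7 := by norm_num
  rw [e]
  simp [Num17.two, Num17.three, Num17.five, Num17.seven]

theorem nz4851 : (4851 : K) ≠ 0 := by
  have e : (4851 : K) = 3 ^ 2 * 7 ^ 2 * 11 := by norm_num
  rw [e]
  simp [Num17.three, Num17.seven, Num17.eleven]

theorem nz7560 : (7560 : K) ≠ 0 := by
  have e : (7560 : K) = 2 ^ 3 * 3 ^ 3 * 5 * 7 := by norm_num
  rw [e]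
  simp [Num17.two, Num17.three, Num17.five, Num17.seven]

theorem nz11520 : (11520 : K) ≠ 0 := by
  have e : (11520 : K) = 2 ^ 8 * 3 ^ 2 * 5 := by norm_num
  rw [e]
  simp [Num17.two, Num17.three, Num17.five]

theorem nz15120 : (15120 : K) ≠ 0 := by
  have e : (15120 : K) = 2 ^ 4 * 3 ^ 3 * 5 * 7 := by norm_num
  rw [e]
  simp [Num17.two, Num17.three, Num17.five, Num17.seven]

theorem nz20736 : (20736 : K) ≠ 0 := by
  have e : (20736 : K) = 2 ^ 8 * 3 ^ 4 := by norm_num
  rw [e]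
  simp [Num17.two, Num17.three]

theorem nz21780 : (21780 : K) ≠ 0 := by
  have e : (21780 : K) = 2 ^ 2 * 3 ^ 2 * 5 * 11 ^ 2 := by norm_num
  rw [e]
  simp [Num17.two, Num17.three, Num17.five, Num17.eleven]

theorem nz33792 : (33792 : K) ≠ 0 := by
  have e : (33792 : K) = 2 ^ 10 * 3 * 11 := by norm_num
  rw [e]
  simp [Num17.two, Num17.three, Num17.eleven]

theorem nz38025 : (38025 : K) ≠ 0 := by
  have e : (38025 : K) = 3 ^ 2 * 5 ^ 2 * 13 ^ 2 := by norm_num
  rw [e]
  simp [Num17.three, Num17.five, Num17.thirteen]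

theorem nz46332 : (46332 : K) ≠ 0 := by
  have e : (46332 : K) = 2 ^ 2 * 3 ^ 4 * 11 * 13 := by norm_num
  rw [e]
  simp [Num17.two, Num17.three, Num17.eleven, Num17.thirteen]

theorem nz58212 : (58212 : K) ≠ 0 := by
  have e : (58212 : K) = 2 ^ 2 * 3 ^ 3 * 7 ^ 2 * 11 := by norm_num
  rw [e]
  simp [Num17.two, Num17.three, Num17.seven, Num17.eleven]

theorem nz149688 : (149688 : K) ≠ 0 := by
  have e : (149688 : K) = 2 ^ 3 * 3 ^ 5 * 7 * 11 := by norm_num
  rw [e]
  simp [Num17.two, Num17.three, Num17.seven, Num17.eleven]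

theorem nz299376 : (299376 : K) ≠ 0 := by
  have e : (299376 : K) = 2 ^ 4 * 3 ^ 5 * 7 * 11 := by norm_num
  rw [e]
  simp [Num17.two, Num17.three, Num17.seven, Num17.eleven]

theorem nz737280 : (737280 : K) ≠ 0 := by
  have e : (737280 : K) = 2 ^ 14 * 3 ^ 2 * 5 := by norm_num
  rw [e]
  simp [Num17.two, Num17.three, Num17.five]

theorem nz873180 : (873180 : K) ≠ 0 := by
  have e : (873180 : K) = 2 ^ 2 * 3 ^ 4 * 5 * 7 ^ 2 * 11 := by norm_num
  rw [e]
  simp [Num17.two, Num17.three, Num17.five, Num17.seven, Num17.eleven]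

theorem nz4633200 : (4633200 : K) ≠ 0 := by
  have e : (4633200 : K) = 2 ^ 4 * 3 ^ 4 * 5 ^ 2 * 11 * 13 := by norm_num
  rw [e]
  simp [Num17.two, Num17.three, Num17.five, Num17.eleven, Num17.thirteen]

theorem nz5591040 : (5591040 : K) ≠ 0 := by
  have e : (5591040 : K) = 2 ^ 12 * 3 * 5 * 7 * 13 := by norm_num
  rw [e]
  simp [Num17.two, Num17.three, Num17.five, Num17.seven, Num17.thirteen]

theorem nz16711680 : (16711680 : K) ≠ 0 := by
  have e : (16711680 : K) = 2 ^ 16 * 3 * 5 * 17 := by norm_num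
  rw [e]
  simp [Num17.two, Num17.three, Num17.five, Num17.seventeen]

theorem nz19459440 : (19459440 : K) ≠ 0 := by
  have e : (19459440 : K) = 2 ^ 4 * 3 ^ 5 * 5 * 7 * 11 * 13 := by norm_num
  rw [e]
  simp [Num17.two, Num17.three, Num17.five, Num17.seven, Num17.eleven, Num17.thirteen]

theorem nz33359040 : (33359040 : K) ≠ 0 := by
  have e : (33359040 : K) = 2 ^ 6 * 3 ^ 6 * 5 * 11 * 13 := by norm_num
  rw [e]
  simp [Num17.two, Num17.three, Num17.five, Num17.eleven, Num17.thirteen]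

theorem nz66718080 : (66718080 : K) ≠ 0 := by
  have e : (66718080 : K) = 2 ^ 7 * 3 ^ 6 * 5 * 11 * 13 := by norm_num
  rw [e]
  simp [Num17.two, Num17.three, Num17.five, Num17.eleven, Num17.thirteen]

theorem nz196035840 : (196035840 : K) ≠ 0 := by
  have e : (196035840 : K) = 2 ^ 8 * 3 ^ 2 * 5 * 7 * 11 * 13 * 17 := by norm_num
  rw [e]
  simp [Num17.two, Num17.three, Num17.five, Num17.seven, Num17.eleven, Num17.thirteen, Num17.seventeen]

theorem nz233513280 : (233513280 : K) ≠ 0 := by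
  have e : (233513280 : K) = 2 ^ 6 * 3 ^ 6 * 5 * 7 * 11 * 13 := by norm_num
  rw [e]
  simp [Num17.two, Num17.three, Num17.five, Num17.seven, Num17.eleven, Num17.thirteen]

theorem nz486486000 : (486486000 : K) ≠ 0 := by
  have e : (486486000 : K) = 2 ^ 4 * 3 ^ 5 * 5 ^ 3 * 7 * 11 * 13 := by norm_num
  rw [e]
  simp [Num17.two, Num17.three, Num17.five, Num17.seven, Num17.eleven, Num17.thirteen]

theorem nz1191890700 : (1191890700 : K) ≠ 0 := by
  have e : (1191890700 : K) = 2 ^ 2 * 3 ^ 5 * 5 ^ 2 * 7 ^ 3 * 11 * 13 := by norm_num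
  rw [e]
  simp [Num17.two, Num17.three, Num17.five, Num17.seven, Num17.eleven, Num17.thirteen]

theorem nz24324300000 : (24324300000 : K) ≠ 0 := by
  have e : (24324300000 : K) = 2 ^ 5 * 3 ^ 5 * 5 ^ 5 * 7 * 11 * 13 := by norm_num
  rw [e]
  simp [Num17.two, Num17.three, Num17.five, Num17.seven, Num17.eleven, Num17.thirteen]

theorem nz521026506000 : (521026506000 : K) ≠ 0 := by
  have e : (521026506000 : K) = 2 ^ 4 * 3 ^ 7 * 5 ^ 3 * 7 ^ 2 * 11 * 13 * 17 := by norm_num
  rw [e]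
  simp [Num17.two, Num17.three, Num17.five, Num17.seven, Num17.eleven, Num17.thirteen, Num17.seventeen]

theorem nz656756100000 : (656756100000 : K) ≠ 0 := by
  have e : (656756100000 : K) = 2 ^ 5 * 3 ^ 8 * 5 ^ 5 * 7 * 11 * 13 := by norm_num
  rw [e]
  simp [Num17.two, Num17.three, Num17.five, Num17.seven, Num17.eleven, Num17.thirteen]

theorem nz1286191146240 : (1286191146240 : K) ≠ 0 := by
  have e : (1286191146240 : K) = 2 ^ 8 * 3 ^ 10 * 5 * 7 * 11 * 13 * 17 := by norm_num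
  rw [e]
  simp [Num17.two, Num17.three, Num17.five, Num17.seven, Num17.eleven, Num17.thirteen, Num17.seventeen]

theorem nz24825380580000 : (24825380580000 : K) ≠ 0 := by
  have e : (24825380580000 : K) = 2 ^ 5 * 3 ^ 11 * 5 ^ 4 * 7 ^ 2 * 11 * 13 := by norm_num
  rw [e]
  simp [Num17.two, Num17.three, Num17.five, Num17.seven, Num17.eleven, Num17.thirteen]

theorem nz1587600 : (1587600 : K) ≠ 0 := by
  have e : (1587600 : K) = 2 ^ 4 * 3 ^ 4 * 5 ^ 2 * 7 ^ 2 := by norm_num
  rw [e]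
  simp [Num17.two, Num17.three, Num17.five, Num17.seven]

theorem nz33 : (33 : K) ≠ 0 := by
  have e : (33 : K) = 3 * 11 := by norm_num
  rw [e]
  simp [Num17.three, Num17.eleven]

theorem nz36 : (36 : K) ≠ 0 := by
  have e : (36 : K) = 2 ^ 2 * 3 ^ 2 := by norm_num
  rw [e]
  simp [Num17.two, Num17.three]

theorem nz315 : (315 : K) ≠ 0 := by
  have e : (315 : K) = 3 ^ 2 * 5 * 7 := by norm_num
  rw [e]
  simp [Num17.three, Num17.five, Num17.seven]

theorem nz225 : (225 : K) ≠ 0 := by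
  have e : (225 : K) = 3 ^ 2 * 5 ^ 2 := by norm_num
  rw [e]
  simp [Num17.three, Num17.five]

theorem nz450 : (450 : K) ≠ 0 := by
  have e : (450 : K) = 2 * 3 ^ 2 * 5 ^ 2 := by norm_num
  rw [e]
  simp [Num17.two, Num17.three, Num17.five]

theorem nz27 : (27 : K) ≠ 0 := by
  have e : (27 : K) = 3 ^ 3 := by norm_num
  rw [e]
  simp [Num17.three]

theorem nz18 : (18 : K) ≠ 0 := by
  have e : (18 : K) = 2 * 3 ^ 2 := by norm_num
  rw [e]
  simp [Num17.two, Num17.three]

theorem nz14 : (14 : K) ≠ 0 := by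
  have e : (14 : K) = 2 * 7 := by norm_num
  rw [e]
  simp [Num17.two, Num17.seven]

theorem nz28 : (28 : K) ≠ 0 := by
  have e : (28 : K) = 2 ^ 2 * 7 := by norm_num
  rw [e]
  simp [Num17.two, Num17.seven]

theorem nz63 : (63 : K) ≠ 0 := by
  have e : (63 : K) = 3 ^ 2 * 7 := by norm_num
  rw [e]
  simp [Num17.three, Num17.seven]

theorem nz70 : (70 : K) ≠ 0 := by
  have e : (70 : K) = 2 * 5 * 7 := by norm_num
  rw [e]
  simp [Num17.two, Num17.five, Num17.seven]

theorem nz1512 : (1512 : K) ≠ 0 := by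
  have e : (1512 : K) = 2 ^ 3 * 3 ^ 3 * 7 := by norm_num
  rw [e]
  simp [Num17.two, Num17.three, Num17.seven]

theorem nz2835 : (2835 : K) ≠ 0 := by
  have e : (2835 : K) = 3 ^ 4 * 5 * 7 := by norm_num
  rw [e]
  simp [Num17.three, Num17.five, Num17.seven]

theorem nz1417500 : (1417500 : K) ≠ 0 := by
  have e : (1417500 : K) = 2 ^ 2 * 3 ^ 4 * 5 ^ 4 * 7 := by norm_num
  rw [e]
  simp [Num17.two, Num17.three, Num17.five, Num17.seven]

theorem nz2025 : (2025 : K) ≠ 0 := by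
  have e : (2025 : K) = 3 ^ 4 * 5 ^ 2 := by norm_num
  rw [e]
  simp [Num17.three, Num17.five]

theorem nz28350 : (28350 : K) ≠ 0 := by
  have e : (28350 : K) = 2 * 3 ^ 4 * 5 ^ 2 * 7 := by norm_num
  rw [e]
  simp [Num17.two, Num17.three, Num17.five, Num17.seven]

theorem nz128 : (128 : K) ≠ 0 := by
  have e : (128 : K) = 2 ^ 7 := by norm_num
  rw [e]
  simp [Num17.two]

theorem nz64 : (64 : K) ≠ 0 := by
  have e : (64 : K) = 2 ^ 6 := by norm_num
  rw [e]
  simp [Num17.two]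

theorem nz14175 : (14175 : K) ≠ 0 := by
  have e : (14175 : K) = 3 ^ 4 * 5 ^ 2 * 7 := by norm_num
  rw [e]
  simp [Num17.three, Num17.five, Num17.seven]

end TDP
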