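import Pool.Agent.Lib.MP_d0515f_al.IdDefs
import Pool.Agent.Lib.MP_d0515f_al.Num

/-! Identity of degree 4. -/

set_option linter.unusedVariables false
set_option maxRecDepth 20000

namespace TDP

variable {K : Type*} [Field K] [Num17 K]

theorem R4 (n s a p q β g : K) : T4 n s a p q (FF n s a p β g) - M4 n β (-g) =
    VV n * (n ^ 2 - 9) / 525 * P4 n s a p q β g := by
  have h2 := nz2 (K := K)
  have h4 := nz4 (K := K)
  have h60 := nz60 (K := K)
  have h180 := nz180 (K := K)
  have h525 := nz525 (K := K)
  have h15120 := nz15120 (K := K)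
  simp only [FF, VV, T4, T4_1, T4_2, T4_3, M4, P4, Z1, Z2]
  field_simp
  ring

end TDP
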