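import Pool.Agent.Lib.MP_d0515f_al.IdDefs
import Pool.Agent.Lib.MP_d0515f_al.Num

/-! Identity of degree 5. -/

set_option linter.unusedVariables false
set_option maxRecDepth 20000

namespace TDP

variable {K : Type*} [Field K] [Num17 K]

theorem R5 (n s a p q β g : K) : T5 n s a p q (FF n s a p β g) - M5 n β (-g) =
    VV n * (n^2 - 9) * (n^2 - 16) / 58212 * Q5 n a p β g
      + KA5 n s a p q β g * (VV n / 210 * P3 n s a p q β g) := by
  have h2 := nz2 (K := K)
  have h4 := nz4 (K := K)
  have h60 := nz60 (K := K)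
  have h126 := nz126 (K := K)
  have h180 := nz180 (K := K)
  have h210 := nz210 (K := K)
  have h58212 := nz58212 (K := K)
  have h149688 := nz149688 (K := K)
  have h299376 := nz299376 (K := K)
  simp only [FF, VV, T5, T5_1, T5_2, T5_3, M5, P3, Z1, Z2, Q5, XX3, YY2, KA5]
  field_simp
  ring

end TDP
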