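import Pool.Agent.Lib.MP_d0515f_al.IdDefs
import Pool.Agent.Lib.MP_d0515f_al.Num

/-! Identity of degree 6. -/

set_option linter.unusedVariables false
set_option maxRecDepth 20000

namespace TDP

variable {K : Type*} [Field K] [Num17 K]

theorem R6 (n s a p q β g : K) : T6 n s a p q (FF n s a p β g) - M6 n β (-g) =
    VV n * (n^2 - 9) * (n^2 - 16) * (n^2 - 25) / 1191890700 * Q6 n a p β g
      + KA6 n s a p q β g * (VV n / 210 * P3 n s a p q β g)
      + KB6 n s a p q β g * (VV n * (n ^ 2 - 9) / 525 * P4 n s a p q β g) := by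
  have h2 := nz2 (K := K)
  have h4 := nz4 (K := K)
  have h60 := nz60 (K := K)
  have h180 := nz180 (K := K)
  have h210 := nz210 (K := K)
  have h396 := nz396 (K := K)
  have h525 := nz525 (K := K)
  have h873180 := nz873180 (K := K)
  have h233513280 := nz233513280 (K := K)
  have h1191890700 := nz1191890700 (K := K)
  simp only [FF, VV, T6, T6_1, T6_2, T6_3, T6_4, T6_5, T6_6, M6, P3, P4, Z1, Z2, Q6, XX3, YY2, KA6_1, KA6_2, KA6, KB6]
  field_simp
  ring

end TDP
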