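import Pool.Agent.Lib.MP_d0515f_al.IdDefs
import Pool.Agent.Lib.MP_d0515f_al.Num

/-! Identity of degree 7. -/

set_option linter.unusedVariables false
set_option maxRecDepth 20000

namespace TDP

variable {K : Type*} [Field K] [Num17 K]

theorem R7 (n s a p q β g : K) : T7 n s a p q (FF n s a p β g) - M7 n β (-g) =
    VV n * (n^2 - 9) * (n^2 - 16) / 19459440 * Q7 n a p β g
      + KA7 n s a p q β g * (VV n / 210 * P3 n s a p q β g)
      + KB7 n s a p q β g * (VV n * (n ^ 2 - 9) / 525 * P4 n s a p q β g) := by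
  have h2 := nz2 (K := K)
  have h4 := nz4 (K := K)
  have h60 := nz60 (K := K)
  have h180 := nz180 (K := K)
  have h210 := nz210 (K := K)
  have h525 := nz525 (K := K)
  have h46332 := nz46332 (K := K)
  have h4633200 := nz4633200 (K := K)
  have h19459440 := nz19459440 (K := K)
  have h33359040 := nz33359040 (K := K)
  have h66718080 := nz66718080 (K := K)
  simp only [FF, VV, T7, T7_1, T7_2, T7_3, T7_4, T7_5, T7_6, T7_7, M7, P3, P4, Z1, Z2, Q7, XX3, YY2, KA7_1, KA7_2, KA7, KB7]
  field_simp
  ring

end TDP
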