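import Pool.Agent.Lib.MP_d0515f_al.Id8a

/-! Identity of degree 8, case b (generated by computer). -/

set_option linter.unusedVariables false
set_option maxRecDepth 20000

namespace TDP

variable {K : Type*} [Field K]

/-- cofactor -/
def KA8b (n s a q β : K) : K :=
    ((3010*n^15 - 189140*n^13 + 4994080*n^11 - 70269628*n^9 + 544512254*n^7 - 2220552880*n^5 + 4179682656*n^3 - 2438180352*n)*a^5
      + (51975*n^13 + 2149875*n^11 - 108783675*n^9 + 1661948145*n^7 - 10914583680*n^5 + 28114566480*n^3 - 18755349120*n)*a^3*β^2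
      + (-8292375*n^11 + 212837625*n^9 - 2353376025*n^7 + 12752014275*n^5 - 29602673100*n^3 + 18999489600*n)*a*β^4
      + (425250*n^13 - 22113000*n^11 + 510810300*n^9 - 6136673400*n^7 + 36425639250*n^5 - 89716863600*n^3 + 58938775200*n)*q^2*a
      + (-1304100*n^13 + 72235800*n^11 - 1692971280*n^9 + 20291099400*n^7 - 119946366540*n^5 + 294668992800*n^3 - 193391686080*n)*s*q*a^2
      + (-49754250*n^11 + 1277025750*n^9 - 14120256150*n^7 + 76512085650*n^5 - 177616038600*n^3 + 113996937600*n)*s*q*β^2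
      + (557550*n^13 - 31203900*n^11 + 732972240*n^9 - 8781844500*n^7 + 51878596770*n^5 - 127397415600*n^3 + 83598337440*n)*s^2*a^3
      + (24877125*n^11 - 638512875*n^9 + 7060128075*n^7 - 38256042825*n^5 + 88808019300*n^3 - 56998468800*n)*s^2*a*β^2) / 24825380580000

/-- cofactor -/
def KB8b (n s a q β : K) : K :=
    ((-280*n^15 + 6440*n^13 + 243152*n^11 - 12384944*n^9 + 197718664*n^7 - 1340461304*n^5 + 3512758464*n^3 - 2357880192*n)*a^4
      + (30450*n^13 - 1801800*n^11 + 44264220*n^9 - 538669560*n^7 + 3175222050*n^5 - 7753658640*n^3 + 5074613280*n)*a^2*β^2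
      + (921375*n^11 - 27027000*n^9 + 312161850*n^7 - 1694592900*n^5 + 3900671775*n^3 - 2492135100*n)*β^4
      + (141750*n^13 - 7371000*n^11 + 170270100*n^9 - 2045557800*n^7 + 12141879750*n^5 - 29905621200*n^3 + 19646258400*n)*q^2
      + (-63000*n^13 + 3276000*n^11 - 75675600*n^9 + 909136800*n^7 - 5396391000*n^5 + 13291387200*n^3 - 8731670400*n)*s*q*a) / 656756100000

theorem R8b [Num17 K] (n s a q β : K) :
    T8b n s a q (FF n s a (2 * a ^ 2 / 9) β 0) - M8l n β =
    VV n * (n^2 - 9) * (n^2 - 16) / 521026506000 * Q8 n β (4 * a ^ 2 / 3)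
      + KA8b n s a q β * P3 n s a (2 * a ^ 2 / 9) q β 0
      + KB8b n s a q β * P4 n s a (2 * a ^ 2 / 9) q β 0 := by
  have h2 := nz2 (K := K)
  have h3 := nz3 (K := K)
  have h4 := nz4 (K := K)
  have h9 := nz9 (K := K)
  have h60 := nz60 (K := K)
  have h180 := nz180 (K := K)
  have h11520 := nz11520 (K := K)
  have h521026506000 := nz521026506000 (K := K)
  have h656756100000 := nz656756100000 (K := K)
  have h1286191146240 := nz1286191146240 (K := K)
  have h24825380580000 := nz24825380580000 (K := K)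
  simp only [T8b, T8b_1, T8b_2, T8b_3, T8b_4, T8b_5, T8b_6, M8l, FF, VV, Q8, KA8b, KB8b, P3, P4, Z1, Z2]
  field_simp
  ring

end TDP
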