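import Pool.Agent.Lib.MP_d0515f_al.Id2
import Pool.Agent.Lib.MP_d0515f_al.Id3
import Pool.Agent.Lib.MP_d0515f_al.Id4
import Pool.Agent.Lib.MP_d0515f_al.Id5
import Pool.Agent.Lib.MP_d0515f_al.Id6
import Pool.Agent.Lib.MP_d0515f_al.Id7
import Pool.Agent.Lib.MP_d0515f_al.Id8b
import Pool.Agent.Lib.MP_d0515f_al.AlgCore

/-! The final elimination. -/

set_option linter.unusedVariables false
set_option linter.unusedSectionVars false

namespace TDP

variable {K : Type*} [Field K] [Num17 K]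

theorem Q5_eq (n a p β g : K) : Q5 n a p β g =
    (4 * n ^ 2 - 1) * (XX3 a p - 8 * g ^ 3) * (YY2 a p - 4 * g ^ 2)
      - (5 * (XX3 a p - 8 * g ^ 3) + 21 * g * (YY2 a p - 4 * g ^ 2))
        * (33 * β ^ 2 - (n ^ 2 + 8) * g ^ 2) := by
  simp only [Q5]
  ring

theorem Q6_eq (n a p β g : K) : 11 * Q6 n a p β g =
    34125 * g * (5 * (XX3 a p - 8 * g ^ 3) + 21 * g * (YY2 a p - 4 * g ^ 2))
        * (33 * β ^ 2 - (n ^ 2 + 8) * g ^ 2)
      + 4200 * (4 * n ^ 2 - 1) * g ^ 3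
        * (5 * (XX3 a p - 8 * g ^ 3) + 21 * g * (YY2 a p - 4 * g ^ 2))
      + 28665 * (YY2 a p - 4 * g ^ 2) ^ 2 * (33 * β ^ 2 - (n ^ 2 + 8) * g ^ 2)
      - (4 * n ^ 2 - 1) * (35280 * g ^ 2 * (YY2 a p - 4 * g ^ 2) ^ 2
        + 2750 * (XX3 a p - 8 * g ^ 3) ^ 2 + 4851 * (YY2 a p - 4 * g ^ 2) ^ 3) := by
  simp only [Q6]
  ring

theorem Q7_eq (n a p β g : K) : 121 * (4 * n ^ 2 - 1) * Q7 n a p β g =
    20 * (n ^ 2 - 25) * (n ^ 2 - 36)
        * ((5 * (XX3 a p - 8 * g ^ 3) + 21 * g * (YY2 a p - 4 * g ^ 2))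
          * (33 * β ^ 2 - (n ^ 2 + 8) * g ^ 2 - 8 * (4 * n ^ 2 - 1) * g ^ 2)
          * (4 * (33 * β ^ 2 - (n ^ 2 + 8) * g ^ 2) + (4 * n ^ 2 - 1) * g ^ 2))
      + 121 * ((4 * n ^ 2 - 1) * (20 * n ^ 4 - 440 * n ^ 2 + 4116) * g ^ 2
        + (4 * n ^ 2 - 1) * (n ^ 4 - 61 * n ^ 2 + 900) * (YY2 a p - 4 * g ^ 2)
        + (20 * n ^ 4 - 245 * n ^ 2 + 645) * (33 * β ^ 2 - (n ^ 2 + 8) * g ^ 2))
        * Q5 n a p β g := by
  simp only [Q5, Q7]
  ring

/-- `X² = Y³` forces `p = 0` -/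
theorem p_zero (a p : K) (hD : a ^ 2 - 4 * p ≠ 0) (h : XX3 a p ^ 2 = YY2 a p ^ 3) : p = 0 := by
  have h1 : 432 * (p ^ 2 * (a ^ 2 - 4 * p)) = 0 := by
    simp only [XX3, YY2] at h
    linear_combination (-1 : K) * h
  have h2 : p ^ 2 * (a ^ 2 - 4 * p) = 0 := cz (nz432 (K := K)) h1
  exact pow_eq_zero_iff (by norm_num) |>.mp ((mul_eq_zero.mp h2).resolve_right hD)

/-- in each of the three branches `q = 0` -/
theorem q_zero (n s a q β g : K) (ha : a ≠ 0) (hg : g ≠ 0)
    (hP3 : P3 n s a 0 q β g = 0) (hP4 : P4 n s a 0 q β g = 0)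
    (hc : (a = -g) ∨ (a = -4 * g ∧ β ^ 2 = n ^ 2 * g ^ 2) ∨ (4 * a = -g ∧ 4 * β ^ 2 = g ^ 2)) :
    q = 0 := by
  have h2 := nz2 (K := K)
  have key : 2 * Z2 s a 0 q = 2 * (a * Z1 s a q) → q = 0 := by
    intro h
    have e : 2 * Z2 s a 0 q = (a ^ 2 - 4 * 0) * s ^ 2 + (a * s - 2 * q) ^ 2 := by
      rw [Z2]; field_simp
    rw [e] at h
    simp only [Z1] at h
    have : q ^ 2 = 0 := cz (nz4 (K := K)) (by linear_combination h)
    exact pow_eq_zero_iff (by norm_num) |>.mp this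
  have e4 : ∀ w : K, β ^ 2 = w → 2 * P4 n s a 0 q β g =
      225 * (3 * Z2 s a 0 q - a * Z1 s a q)
    + 30 * w * (2 * a ^ 2 - 17 * g ^ 2)
    - 2 * (n ^ 2 + 56) * a ^ 4
    + 4 * (n ^ 2 - 4) * a ^ 2 * g ^ 2
    - 2 * (n ^ 2 - 64) * g ^ 4 := by
    intro w hw
    rw [P4, hw]
    field_simp
    ring
  have e3 : ∀ w : K, β ^ 2 = w → P3 n s a 0 q β g =
      945 * Z1 s a q + 315 * (2 * g - a) * w + (31 * n ^ 2 - 244) * a ^ 3
        + (84 - 21 * n ^ 2) * a * g ^ 2 + (10 * n ^ 2 - 160) * g ^ 3 := by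
    intro w hw
    rw [P3, hw]
    ring
  apply key
  apply mul_left_cancel₀ (nz14175 (K := K))
  rcases hc with h | ⟨h, hw⟩ | ⟨h, hw⟩
  · have hg' : g = -a := by rw [h]; ring
    have e3' := e3 _ rfl
    have e4' := e4 _ rfl
    rw [hP3] at e3'
    rw [hP4] at e4'
    subst hg'
    linear_combination (-42 : K) * e4' + (20 * a) * e3'
  · have e3' := e3 _ hw
    have e4' := e4 _ hw
    rw [hP3] at e3'
    rw [hP4] at e4'
    subst h
    linear_combination (-42 : K) * e4' + (20 * (-4 * g)) * e3'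
  · have hg' : g = -4 * a := by linear_combination h
    subst hg'
    have hw' : β ^ 2 = 4 * a ^ 2 := by
      apply mul_left_cancel₀ (nz4 (K := K))
      linear_combination hw
    have e3' := e3 _ hw'
    have e4' := e4 _ hw'
    rw [hP3] at e3'
    rw [hP4] at e4'
    linear_combination (-42 : K) * e4' + (20 * a) * e3'

theorem natsq_ne (n m : ℕ) (h : m < n) (h7 : m ≤ 7) (hN : ∀ l : ℕ, 0 < l → l ≤ n + 7 → (l : K) ≠ 0) :
    (n : K) ^ 2 - (m : K) ^ 2 ≠ 0 := by
  have e : (n : K) ^ 2 - (m : K) ^ 2 = ((n - m : ℕ) : K) * ((n + m : ℕ) : K) := by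
    rw [Nat.cast_sub h.le]
    push_cast
    ring
  rw [e]
  exact mul_ne_zero (hN _ (by omega) (by omega)) (hN _ (by omega) (by omega))

theorem F_eq (n : ℕ) (hn : 2 ≤ n) (hN : ∀ l : ℕ, 0 < l → l ≤ n + 7 → (l : K) ≠ 0)
    (s a p q F β g : K)
    (h2 : T2 (n : K) s a p q F = M2 (n : K) β (-g)) : F = FF (n : K) s a p β g := by
  have h := R2 (n : K) s a p q β g
  rw [← h2] at h
  have h1 : 60 * ((n : K) * ((n : K) ^ 2 - (1 : ℕ) ^ 2) * (F - FF (n : K) s a p β g)) = 0 := by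
    simp only [T2] at h
    rw [sub_eq_zero, div_left_inj' (nz180 (K := K))] at h
    push_cast
    linear_combination h
  have h1' := cz (nz60 (K := K)) h1
  have h3 : (n : K) * ((n : K) ^ 2 - (1 : ℕ) ^ 2) ≠ 0 := by
    apply mul_ne_zero
    · exact hN _ (by omega) (by omega)
    · exact natsq_ne n 1 (by omega) (by norm_num) hN
  have := (mul_eq_zero.mp h1').resolve_left h3
  linear_combination this

theorem VV_ne (n : ℕ) (hn : 3 ≤ n) (hN : ∀ l : ℕ, 0 < l → l ≤ n + 7 → (l : K) ≠ 0) :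
    VV (n : K) ≠ 0 := by
  have e : VV (n : K) = (n : K) * ((n : K) ^ 2 - (1 : ℕ) ^ 2) * ((n : K) ^ 2 - (2 : ℕ) ^ 2) / 180 := by
    rw [VV]; push_cast; ring
  rw [e]
  refine div_ne_zero (mul_ne_zero (mul_ne_zero ?_ (natsq_ne n 1 (by omega) (by norm_num) hN))
    (natsq_ne n 2 (by omega) (by norm_num) hN)) (nz180 (K := K))
  exact hN _ (by omega) (by omega)

/-- the reduced conditions for `n ≥ 8` -/
theorem conds (n : ℕ) (hn : 8 ≤ n) (hN : ∀ l : ℕ, 0 < l → l ≤ n + 7 → (l : K) ≠ 0)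
    (nT : 4 * (n : K) ^ 2 - 1 ≠ 0)
    (s a p q F β g : K)
    (h2 : T2 (n : K) s a p q F = M2 (n : K) β (-g))
    (h3 : T3 (n : K) s a p q F = M3 (n : K) β (-g))
    (h4 : T4 (n : K) s a p q F = M4 (n : K) β (-g))
    (h5 : T5 (n : K) s a p q F = M5 (n : K) β (-g))
    (h6 : T6 (n : K) s a p q F = M6 (n : K) β (-g))
    (h7 : T7 (n : K) s a p q F = M7 (n : K) β (-g)) :
    F = FF (n : K) s a p β g ∧ P3 (n : K) s a p q β g = 0 ∧ P4 (n : K) s a p q β g = 0 ∧
      (4 * (n : K) ^ 2 - 1) * (XX3 a p - 8 * g ^ 3) * (YY2 a p - 4 * g ^ 2)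
        = (5 * (XX3 a p - 8 * g ^ 3) + 21 * g * (YY2 a p - 4 * g ^ 2))
        * (33 * β ^ 2 - ((n : K) ^ 2 + 8) * g ^ 2) ∧
      34125 * g * (5 * (XX3 a p - 8 * g ^ 3) + 21 * g * (YY2 a p - 4 * g ^ 2))
        * (33 * β ^ 2 - ((n : K) ^ 2 + 8) * g ^ 2)
      + 4200 * (4 * (n : K) ^ 2 - 1) * g ^ 3
        * (5 * (XX3 a p - 8 * g ^ 3) + 21 * g * (YY2 a p - 4 * g ^ 2))
      + 28665 * (YY2 a p - 4 * g ^ 2) ^ 2 * (33 * β ^ 2 - ((n : K) ^ 2 + 8) * g ^ 2)
      - (4 * (n : K) ^ 2 - 1) * (35280 * g ^ 2 * (YY2 a p - 4 * g ^ 2) ^ 2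
        + 2750 * (XX3 a p - 8 * g ^ 3) ^ 2 + 4851 * (YY2 a p - 4 * g ^ 2) ^ 3) = 0 ∧
      (5 * (XX3 a p - 8 * g ^ 3) + 21 * g * (YY2 a p - 4 * g ^ 2))
          * (33 * β ^ 2 - ((n : K) ^ 2 + 8) * g ^ 2 - 8 * (4 * (n : K) ^ 2 - 1) * g ^ 2)
          * (4 * (33 * β ^ 2 - ((n : K) ^ 2 + 8) * g ^ 2) + (4 * (n : K) ^ 2 - 1) * g ^ 2) = 0 := by
  have hF := F_eq n (by omega) hN s a p q F β g h2
  subst hF
  -- nonvanishing
  have hV : VV (n : K) ≠ 0 := VV_ne n (by omega) hN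
  have n3 : (n : K) ^ 2 - 9 ≠ 0 := by
    have := natsq_ne (K := K) n 3 (by omega) (by norm_num) hN; push_cast at this; norm_num at this; exact this
  have n4 : (n : K) ^ 2 - 16 ≠ 0 := by
    have := natsq_ne (K := K) n 4 (by omega) (by norm_num) hN; push_cast at this; norm_num at this; exact this
  have n5 : (n : K) ^ 2 - 25 ≠ 0 := by
    have := natsq_ne (K := K) n 5 (by omega) (by norm_num) hN; push_cast at this; norm_num at this; exact this
  have n6 : (n : K) ^ 2 - 36 ≠ 0 := by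
    have := natsq_ne (K := K) n 6 (by omega) (by norm_num) hN; push_cast at this; norm_num at this; exact this
  -- the conditions
  have hP3 : P3 (n : K) s a p q β g = 0 := by
    have := R3 (n : K) s a p q β g
    rw [h3, sub_self] at this
    exact (mul_eq_zero.mp this.symm).resolve_left (div_ne_zero hV (nz210 (K := K)))
  have hP4 : P4 (n : K) s a p q β g = 0 := by
    have := R4 (n : K) s a p q β g
    rw [h4, sub_self] at this
    exact (mul_eq_zero.mp this.symm).resolve_left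
      (div_ne_zero (mul_ne_zero hV n3) (nz525 (K := K)))
  have hQ5 : Q5 (n : K) a p β g = 0 := by
    have := R5 (n : K) s a p q β g
    rw [h5, sub_self, hP3] at this
    simp only [mul_zero, add_zero] at this
    exact (mul_eq_zero.mp this.symm).resolve_left
      (div_ne_zero (mul_ne_zero (mul_ne_zero hV n3) n4) (nz58212 (K := K)))
  have hQ6 : Q6 (n : K) a p β g = 0 := by
    have := R6 (n : K) s a p q β g
    rw [h6, sub_self, hP3, hP4] at this
    simp only [mul_zero, add_zero] at this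
    exact (mul_eq_zero.mp this.symm).resolve_left
      (div_ne_zero (mul_ne_zero (mul_ne_zero (mul_ne_zero hV n3) n4) n5) (nz1191890700 (K := K)))
  have hQ7 : Q7 (n : K) a p β g = 0 := by
    have := R7 (n : K) s a p q β g
    rw [h7, sub_self, hP3, hP4] at this
    simp only [mul_zero, add_zero] at this
    exact (mul_eq_zero.mp this.symm).resolve_left
      (div_ne_zero (mul_ne_zero (mul_ne_zero hV n3) n4) (nz19459440 (K := K)))
  have E5 := Q5_eq (n : K) a p β g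
  have E6 := Q6_eq (n : K) a p β g
  have E7 := Q7_eq (n : K) a p β g
  rw [hQ5] at E5 E7
  rw [hQ6] at E6
  rw [hQ7] at E7
  simp only [mul_zero, add_zero] at E6 E7
  have E7' := (mul_eq_zero.mp E7.symm).resolve_left
    (mul_ne_zero (mul_ne_zero (nz20 (K := K)) n5) n6)
  exact ⟨rfl, hP3, hP4, by linear_combination (-1 : K) * E5, E6.symm, E7'⟩

/-- in the systematic case the reduced discriminant is a square -/
theorem alg_sq (n : ℕ) (hn : 8 ≤ n) (hN : ∀ l : ℕ, 0 < l → l ≤ n + 7 → (l : K) ≠ 0)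
    (nT : 4 * (n : K) ^ 2 - 1 ≠ 0)
    (s c q F β γ : K)
    (h2 : T2 (n : K) s (2 * c) (c ^ 2) q F = M2 (n : K) β γ)
    (h3 : T3 (n : K) s (2 * c) (c ^ 2) q F = M3 (n : K) β γ)
    (h4 : T4 (n : K) s (2 * c) (c ^ 2) q F = M4 (n : K) β γ)
    (h5 : T5 (n : K) s (2 * c) (c ^ 2) q F = M5 (n : K) β γ)
    (h6 : T6 (n : K) s (2 * c) (c ^ 2) q F = M6 (n : K) β γ)
    (h7 : T7 (n : K) s (2 * c) (c ^ 2) q F = M7 (n : K) β γ) :
    IsSquare (s ^ 2 - 4 * F) := by
  obtain ⟨g, hg⟩ : ∃ g : K, g = -γ := ⟨_, rfl⟩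
  have hγ : γ = -g := by rw [hg]; ring
  subst hγ
  obtain ⟨hF, -, -, E5, E6, E7⟩ := conds n hn hN nT s (2 * c) (c ^ 2) q F β g h2 h3 h4 h5 h6 h7
  have hX : XX3 (2 * c) (c ^ 2) = 8 * c ^ 3 := by rw [XX3]; ring
  have hY : YY2 (2 * c) (c ^ 2) = 4 * c ^ 2 := by rw [YY2]; ring
  have h4 := nz4 (K := K)
  have h60 := nz60 (K := K)
  have e : 60 * (s ^ 2 - 4 * F) = 60 * β ^ 2 - ((n : K) ^ 2 - 4) * (4 * c ^ 2 - 4 * g ^ 2) := by
    rw [hF, FF]; field_simp; ring
  rw [hX, hY] at E5 E6 E7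
  by_cases hg0 : g = 0
  · subst hg0
    rcases zcase (4 * (n : K) ^ 2 - 1) (β ^ 2) (8 * c ^ 3) (4 * c ^ 2) nT
      (by linear_combination E5) (by linear_combination E6)
      (cz (nz21780 (K := K)) (by linear_combination E7)) with ⟨h, -⟩ | ⟨h, -⟩
    all_goals
      have hc : c = 0 := by
        have : c ^ 3 = 0 := cz (nz8 (K := K)) (by linear_combination h)
        exact pow_eq_zero_iff (by norm_num) |>.mp this
      rw [hc] at e
      refine ⟨β, ?_⟩
      apply mul_left_cancel₀ h60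
      linear_combination e
  · have hg2 : g ^ 2 ≠ 0 := pow_ne_zero 2 hg0
    rcases gcase (4 * (n : K) ^ 2 - 1) g (8 * c ^ 3 - 8 * g ^ 3) (4 * c ^ 2 - 4 * g ^ 2)
      (33 * β ^ 2 - ((n : K) ^ 2 + 8) * g ^ 2) hg0 nT E5 E6 E7 with
      ⟨-, hy⟩ | ⟨-, hy, hz⟩ | ⟨-, hy, hz⟩
    · refine ⟨β, ?_⟩
      apply mul_left_cancel₀ h60
      linear_combination e - ((n : K) ^ 2 - 4) * hy
    · have hw : β ^ 2 = (n : K) ^ 2 * g ^ 2 := by
        apply mul_left_cancel₀ (nz33 (K := K))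
        linear_combination hz
      refine ⟨2 * g, ?_⟩
      apply mul_left_cancel₀ h60
      linear_combination e - ((n : K) ^ 2 - 4) * hy + 60 * hw
    · have hw : 4 * β ^ 2 = g ^ 2 := by
        apply mul_left_cancel₀ (nz33 (K := K))
        linear_combination hz
      refine ⟨(n : K) * g / 4, ?_⟩
      have e2 : (n : K) * g / 4 * ((n : K) * g / 4) = (n : K) ^ 2 * g ^ 2 / 16 := by
        have h16 := nz16 (K := K)
        field_simp
        ring
      rw [e2, eq_div_iff (nz16 (K := K))]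
      apply mul_left_cancel₀ (nz15 (K := K))
      linear_combination 4 * e - ((n : K) ^ 2 - 4) * hy + 60 * hw

theorem alg (n : ℕ) (hn : 8 ≤ n) (hN : ∀ l : ℕ, 0 < l → l ≤ n + 7 → (l : K) ≠ 0)
    (nT : 4 * (n : K) ^ 2 - 1 ≠ 0)
    (b1 b2 c1 c2 F β γ : K)
    (h2 : T2 (n : K) (b1 + b2) (c1 + c2) (c1 * c2) (b1 * c2 + b2 * c1) F = M2 (n : K) β γ)
    (h3 : T3 (n : K) (b1 + b2) (c1 + c2) (c1 * c2) (b1 * c2 + b2 * c1) F = M3 (n : K) β γ)
    (h4 : T4 (n : K) (b1 + b2) (c1 + c2) (c1 * c2) (b1 * c2 + b2 * c1) F = M4 (n : K) β γ)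
    (h5 : T5 (n : K) (b1 + b2) (c1 + c2) (c1 * c2) (b1 * c2 + b2 * c1) F = M5 (n : K) β γ)
    (h6 : T6 (n : K) (b1 + b2) (c1 + c2) (c1 * c2) (b1 * c2 + b2 * c1) F = M6 (n : K) β γ)
    (h7 : T7 (n : K) (b1 + b2) (c1 + c2) (c1 * c2) (b1 * c2 + b2 * c1) F = M7 (n : K) β γ)
    (h8a : c1 + c2 = 0 → γ = 0 →
      T8a (n : K) (b1 + b2) (c1 * c2) (b1 * c2 + b2 * c1) F = M8l (n : K) β)
    (h8b : 9 * (c1 * c2) = 2 * (c1 + c2) ^ 2 → γ = 0 →
      T8b (n : K) (b1 + b2) (c1 + c2) (b1 * c2 + b2 * c1) F = M8l (n : K) β) :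
    c1 = c2 ∨ (c1 = 0 ∧ b1 = 0) ∨ (c2 = 0 ∧ b2 = 0) := by
  by_cases hcc : c1 = c2
  · exact Or.inl hcc
  right
  obtain ⟨g, hg⟩ : ∃ g : K, g = -γ := ⟨_, rfl⟩
  have hγ : γ = -g := by rw [hg]; ring
  subst hγ
  obtain ⟨s, hs⟩ : ∃ s : K, s = b1 + b2 := ⟨_, rfl⟩
  obtain ⟨a, ha⟩ : ∃ a : K, a = c1 + c2 := ⟨_, rfl⟩
  obtain ⟨p, hp⟩ : ∃ p : K, p = c1 * c2 := ⟨_, rfl⟩
  obtain ⟨q, hq⟩ : ∃ q : K, q = b1 * c2 + b2 * c1 := ⟨_, rfl⟩
  rw [← hs, ← ha, ← hp, ← hq] at h2 h3 h4 h5 h6 h7 h8a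
  rw [← hs, ← ha, ← hp, ← hq] at h8b
  have hD : a ^ 2 - 4 * p ≠ 0 := by
    have e : a ^ 2 - 4 * p = (c1 - c2) ^ 2 := by rw [ha, hp]; ring
    rw [e]
    exact pow_ne_zero 2 (sub_ne_zero.mpr hcc)
  obtain ⟨hF, hP3, hP4, E5, E6, E7'⟩ := conds n hn hN nT s a p q F β g h2 h3 h4 h5 h6 h7
  subst hF
  have hV : VV (n : K) ≠ 0 := VV_ne n (by omega) hN
  have n3 : (n : K) ^ 2 - 9 ≠ 0 := by
    have := natsq_ne (K := K) n 3 (by omega) (by norm_num) hN; push_cast at this; norm_num at this; exact this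
  have n4 : (n : K) ^ 2 - 16 ≠ 0 := by
    have := natsq_ne (K := K) n 4 (by omega) (by norm_num) hN; push_cast at this; norm_num at this; exact this
  have n5 : (n : K) ^ 2 - 25 ≠ 0 := by
    have := natsq_ne (K := K) n 5 (by omega) (by norm_num) hN; push_cast at this; norm_num at this; exact this
  have n6 : (n : K) ^ 2 - 36 ≠ 0 := by
    have := natsq_ne (K := K) n 6 (by omega) (by norm_num) hN; push_cast at this; norm_num at this; exact this
  have n7 : (n : K) ^ 2 - 49 ≠ 0 := by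
    have := natsq_ne (K := K) n 7 (by omega) (by norm_num) hN; push_cast at this; norm_num at this; exact this
  -- reduction of the conclusion to `p = 0`, `q = 0`
  have fin : p = 0 → q = 0 → (c1 = 0 ∧ b1 = 0) ∨ (c2 = 0 ∧ b2 = 0) := by
    intro hp0 hq0
    rw [hp] at hp0
    rw [hq] at hq0
    rcases mul_eq_zero.mp hp0 with h | h
    · left
      refine ⟨h, ?_⟩
      rw [h, mul_zero, add_zero] at hq0
      rcases mul_eq_zero.mp hq0 with h' | h'
      · exact h'
      · exact absurd (h.trans h'.symm) hcc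
    · right
      refine ⟨h, ?_⟩
      rw [h, mul_zero, zero_add] at hq0
      rcases mul_eq_zero.mp hq0 with h' | h'
      · exact h'
      · exact absurd (h'.trans h.symm) hcc
  by_cases hg0 : g = 0
  · -- `g = 0`
    subst hg0
    have E5' : (4 * (n : K) ^ 2 - 1) * XX3 a p * YY2 a p = 165 * XX3 a p * β ^ 2 := by
      linear_combination E5
    have E6' : 945945 * YY2 a p ^ 2 * β ^ 2
        - (4 * (n : K) ^ 2 - 1) * (2750 * XX3 a p ^ 2 + 4851 * YY2 a p ^ 3) = 0 := by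
      linear_combination E6
    have E7'' : XX3 a p * (β ^ 2) ^ 2 = 0 := by
      exact cz (nz21780 (K := K)) (by linear_combination E7')
    rcases zcase _ _ _ _ nT E5' E6' E7'' with ⟨hX, hY⟩ | ⟨hX, hW⟩
    · have hp0 : p = 0 := by
        apply p_zero a p hD
        rw [hX, hY]; ring
      subst hp0
      have ha0 : a = 0 := by
        simp only [YY2] at hY
        have : a ^ 2 = 0 := cz (nz4 (K := K)) (by linear_combination hY)
        exact pow_eq_zero_iff (by norm_num) |>.mp this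
      exfalso
      apply hD
      rw [ha0]; ring
    · -- degree 8
      exfalso
      have hq8 := Q8_eq (n : K) β (YY2 a p) hW
      have hX' : a * (9 * p - 2 * a ^ 2) = 0 := by
        simp only [XX3] at hX
        exact cz (nz4 (K := K)) (by linear_combination hX)
      have hY0 : YY2 a p = 0 := by
        have hQ8 : Q8 (n : K) β (YY2 a p) = 0 := by
          rcases mul_eq_zero.mp hX' with ha0 | hpa
          · subst ha0
            have h8 := h8a rfl (by ring)
            have := R8a (n : K) s p q β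
            rw [h8, sub_self, hP3, hP4] at this
            simp only [mul_zero, add_zero] at this
            have e : YY2 (0 : K) p = -12 * p := by rw [YY2]; ring
            rw [e]
            exact (mul_eq_zero.mp this.symm).resolve_left
              (div_ne_zero (mul_ne_zero (mul_ne_zero hV n3) n4) (nz521026506000 (K := K)))
          · have hpa' : p = 2 * a ^ 2 / 9 := by
              rw [eq_div_iff (nz9 (K := K))]
              linear_combination hpa
            subst hpa'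
            have h9 := nz9 (K := K)
            have h3' := nz3 (K := K)
            have h8 := h8b (by field_simp) (by ring)
            have := R8b (n : K) s a q β
            rw [h8, sub_self, hP3, hP4] at this
            simp only [mul_zero, add_zero] at this
            have e : YY2 a (2 * a ^ 2 / 9) = 4 * a ^ 2 / 3 := by
              rw [YY2]; field_simp; ring
            rw [e]
            exact (mul_eq_zero.mp this.symm).resolve_left
              (div_ne_zero (mul_ne_zero (mul_ne_zero hV n3) n4) (nz521026506000 (K := K)))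
        rw [hQ8] at hq8
        have hq9 : (4 * (n : K) ^ 2 - 1) * ((n : K) ^ 2 - 25) * ((n : K) ^ 2 - 36)
            * ((n : K) ^ 2 - 49) * YY2 a p ^ 4 = 0 :=
          cz (nz1587600 (K := K)) (by linear_combination hq8)
        have := (mul_eq_zero.mp hq9).resolve_left
          (mul_ne_zero (mul_ne_zero (mul_ne_zero nT n5) n6) n7)
        exact pow_eq_zero_iff (by norm_num) |>.mp this
      have hp0 : p = 0 := by
        apply p_zero a p hD
        rw [hX, hY0]; ring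
      subst hp0
      have ha0 : a = 0 := by
        simp only [YY2] at hY0
        have : a ^ 2 = 0 := cz (nz4 (K := K)) (by linear_combination hY0)
        exact pow_eq_zero_iff (by norm_num) |>.mp this
      apply hD
      rw [ha0]; ring
  · -- `g ≠ 0`
    have hg2 : g ^ 2 ≠ 0 := pow_ne_zero 2 hg0
    have G := gcase (4 * (n : K) ^ 2 - 1) g (XX3 a p - 8 * g ^ 3) (YY2 a p - 4 * g ^ 2)
      (33 * β ^ 2 - ((n : K) ^ 2 + 8) * g ^ 2) hg0 nT E5 E6 E7'
    rcases G with ⟨hx, hy⟩ | ⟨hx, hy, hz⟩ | ⟨hx, hy, hz⟩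
    · have hX : XX3 a p = 8 * g ^ 3 := by linear_combination hx
      have hY : YY2 a p = 4 * g ^ 2 := by linear_combination hy
      have hp0 : p = 0 := p_zero a p hD (by rw [hX, hY]; ring)
      subst hp0
      simp only [XX3, YY2] at hX hY
      have e : g ^ 2 * (a + g) = 0 :=
        cz (nz8 (K := K)) (by linear_combination (-1 : K) * hX - (2 * a) * hY)
      have e' := (mul_eq_zero.mp e).resolve_left hg2
      have ha' : a = -g := by linear_combination e'
      have ha0 : a ≠ 0 := by rw [ha']; exact neg_ne_zero.mpr hg0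
      exact fin rfl (q_zero _ _ _ _ _ _ ha0 hg0 hP3 hP4 (Or.inl ha'))
    · have hX : XX3 a p = 512 * g ^ 3 := by linear_combination hx
      have hY : YY2 a p = 64 * g ^ 2 := by linear_combination hy
      have hp0 : p = 0 := p_zero a p hD (by rw [hX, hY]; ring)
      subst hp0
      simp only [XX3, YY2] at hX hY
      have e : g ^ 2 * (a + 4 * g) = 0 := by
        exact cz (nz128 (K := K)) (by linear_combination (-1 : K) * hX - (2 * a) * hY)
      have e' := (mul_eq_zero.mp e).resolve_left hg2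
      have ha' : a = -4 * g := by linear_combination e'
      have ha0 : a ≠ 0 := by rw [ha']; exact mul_ne_zero (neg_ne_zero.mpr (nz4 (K := K))) hg0
      have hw : β ^ 2 = (n : K) ^ 2 * g ^ 2 := by
        apply mul_left_cancel₀ (nz33 (K := K))
        linear_combination hz
      exact fin rfl (q_zero _ _ _ _ _ _ ha0 hg0 hP3 hP4 (Or.inr (Or.inl ⟨ha', hw⟩)))
    · have hX : 8 * XX3 a p = g ^ 3 := by linear_combination hx
      have hY : 4 * YY2 a p = g ^ 2 := by linear_combination hy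
      have hp0 : p = 0 := p_zero a p hD (by
        apply mul_left_cancel₀ (nz64 (K := K))
        linear_combination (8 * XX3 a p + g ^ 3) * hX
          - ((4 * YY2 a p) ^ 2 + 4 * YY2 a p * g ^ 2 + g ^ 4) * hY)
      subst hp0
      simp only [XX3, YY2] at hX hY
      have e : g ^ 2 * (4 * a + g) = 0 := by
        linear_combination (-1 : K) * hX - (4 * a) * hY
      have e' := (mul_eq_zero.mp e).resolve_left hg2
      have ha' : 4 * a = -g := by linear_combination e'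
      have ha0 : a ≠ 0 := by
        intro h0
        rw [h0] at ha'
        apply hg0
        linear_combination ha'
      have hw : 4 * β ^ 2 = g ^ 2 := by
        apply mul_left_cancel₀ (nz33 (K := K))
        linear_combination hz
      exact fin rfl (q_zero _ _ _ _ _ _ ha0 hg0 hP3 hP4 (Or.inr (Or.inr ⟨ha', hw⟩)))

end TDP
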