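import Pool.Agent.Lib.MP_d0515f_al.Defs

/-! Tridiagonal action on a chain of vectors: minimal polynomial and traces of powers. -/

namespace TDP

open Module Polynomial

variable {K V : Type*} [Field K] [AddCommGroup V] [Module K V]

/-- `T` acts tridiagonally (with subdiagonal entries `1`) on the basis `r 0, …, r (n-1)` -/
structure Chain (T : Module.End K V) (n : ℕ) (r : ℕ → V) (D ψ : ℕ → K) : Prop where
  zero : T (r 0) = r 1 + D 0 • r 0
  succ : ∀ j : ℕ, T (r (j + 1)) = r (j + 2) + D (j + 1) • r (j + 1) + ψ (j + 1) • r j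
  r_end : ∀ j : ℕ, n ≤ j → r j = 0
  li : LinearIndependent K (fun i : Fin n => r i)
  span_eq : Submodule.span K (Set.range fun i : Fin n => r i) = ⊤

theorem rr_eq_aeval (T : Module.End K V) (μ : ℕ → K) (v : V) (k : ℕ) :
    rr T μ v k = aeval T (∏ i ∈ Finset.range k, (X - Polynomial.C (μ i))) v := by
  induction k with
  | zero => simp [rr]
  | succ k ih =>
    rw [Finset.prod_range_succ, mul_comm, map_mul, Module.End.mul_apply, ← ih]
    simp [rr, Algebra.algebraMap_eq_smul_one]

private theorem mem_S (r : ℕ → V) {i k : ℕ} (h : i < k) :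
    r i ∈ Submodule.span K (Set.range fun i : Fin k => r i) :=
  Submodule.subset_span ⟨⟨i, h⟩, rfl⟩

private theorem S_mono (r : ℕ → V) {k l : ℕ} (h : k ≤ l) :
    Submodule.span K (Set.range fun i : Fin k => r i) ≤
      Submodule.span K (Set.range fun i : Fin l => r i) := by
  rw [Submodule.span_le]
  rintro _ ⟨i, rfl⟩
  exact mem_S r (lt_of_lt_of_le i.2 h)

private theorem Chain.T_sub {T : Module.End K V} {n : ℕ} {r : ℕ → V} {D ψ : ℕ → K}
    (h : Chain T n r D ψ) (i : ℕ) :
    T (r i) - r (i + 1) ∈ Submodule.span K (Set.range fun j : Fin (i + 1) => r j) := by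
  cases i with
  | zero =>
    rw [h.zero, add_sub_cancel_left]
    exact Submodule.smul_mem _ _ (mem_S r (Nat.lt_succ_self 0))
  | succ j =>
    rw [h.succ j]
    have e : r (j + 2) + D (j + 1) • r (j + 1) + ψ (j + 1) • r j - r (j + 1 + 1) =
        D (j + 1) • r (j + 1) + ψ (j + 1) • r j := by
      show r (j + 2) + D (j + 1) • r (j + 1) + ψ (j + 1) • r j - r (j + 2) = _
      abel
    rw [e]
    exact Submodule.add_mem _ (Submodule.smul_mem _ _ (mem_S r (Nat.lt_succ_self _)))
      (Submodule.smul_mem _ _ (mem_S r (by omega)))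

private theorem Chain.T_map {T : Module.End K V} {n : ℕ} {r : ℕ → V} {D ψ : ℕ → K}
    (h : Chain T n r D ψ) (k : ℕ) {w : V}
    (hw : w ∈ Submodule.span K (Set.range fun i : Fin k => r i)) :
    T w ∈ Submodule.span K (Set.range fun i : Fin (k + 1) => r i) := by
  refine Submodule.span_induction (p := fun w _ => T w ∈
    Submodule.span K (Set.range fun i : Fin (k + 1) => r i)) ?_ ?_ ?_ ?_ hw
  · rintro _ ⟨i, rfl⟩
    have h1 := S_mono (K := K) r (show (i : ℕ) + 1 ≤ k + 1 by omega) (h.T_sub i)
    have h2 : r ((i : ℕ) + 1) ∈ Submodule.span K (Set.range fun i : Fin (k + 1) => r i) :=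
      mem_S r (by omega)
    have := Submodule.add_mem _ h1 h2
    rwa [sub_add_cancel] at this
  · rw [map_zero]; exact Submodule.zero_mem _
  · intro x y _ _ hx hy
    rw [map_add]; exact Submodule.add_mem _ hx hy
  · intro a x _ hx
    rw [map_smul]; exact Submodule.smul_mem _ _ hx

/-- the raising sequence of `T` is triangular with respect to the chain -/
theorem Chain.rr_mem {T : Module.End K V} {n : ℕ} {r : ℕ → V} {D ψ : ℕ → K}
    (h : Chain T n r D ψ) (μ : ℕ → K) (k : ℕ) :
    rr T μ (r 0) k - r k ∈ Submodule.span K (Set.range fun i : Fin k => r i) := by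
  induction k with
  | zero => simp [rr]
  | succ k ih =>
    have h1 : rr T μ (r 0) k ∈ Submodule.span K (Set.range fun i : Fin (k + 1) => r i) := by
      have := Submodule.add_mem _ (S_mono (K := K) r (Nat.le_succ k) ih)
        (mem_S (K := K) r (Nat.lt_succ_self k))
      rwa [sub_add_cancel] at this
    have e : rr T μ (r 0) (k + 1) - r (k + 1) =
        T (rr T μ (r 0) k - r k) + (T (r k) - r (k + 1)) - μ k • rr T μ (r 0) k := by
      rw [map_sub]
      show T (rr T μ (r 0) k) - μ k • rr T μ (r 0) k - r (k + 1) = _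
      abel
    rw [e]
    exact Submodule.sub_mem _ (Submodule.add_mem _ (h.T_map k ih) (h.T_sub k))
      (Submodule.smul_mem _ _ h1)

private theorem Chain.finrank_eq {T : Module.End K V} {n : ℕ} {r : ℕ → V}
    {D ψ : ℕ → K} (h : Chain T n r D ψ) : finrank K V = n := by
  have b : Basis (Fin n) K V := Basis.mk h.li (by rw [h.span_eq])
  rw [finrank_eq_card_basis b, Fintype.card_fin]

private theorem Chain.aeval_mem {T : Module.End K V} {n : ℕ} {r : ℕ → V} {D ψ : ℕ → K}
    (h : Chain T n r D ψ) (q : K[X]) (hq : q.Monic) :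
    aeval T q (r 0) - r q.natDegree ∈
      Submodule.span K (Set.range fun i : Fin q.natDegree => r i) := by
  have hX : ∀ i : ℕ, (T ^ i) (r 0) - r i ∈ Submodule.span K (Set.range fun j : Fin i => r j) := by
    intro i
    have h1 := h.rr_mem (fun _ => 0) i
    rw [rr_eq_aeval] at h1
    simpa using h1
  have hX' : ∀ i : ℕ, ∀ m : ℕ, i < m →
      (T ^ i) (r 0) ∈ Submodule.span K (Set.range fun j : Fin m => r j) := by
    intro i m hm
    have := Submodule.add_mem _ (S_mono (K := K) r hm.le (hX i)) (mem_S (K := K) r hm)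
    rwa [sub_add_cancel] at this
  have e : aeval T q (r 0) - r q.natDegree =
      (∑ i ∈ Finset.range q.natDegree, q.coeff i • (T ^ i) (r 0)) +
        ((T ^ q.natDegree) (r 0) - r q.natDegree) := by
    rw [aeval_eq_sum_range, Finset.sum_range_succ, LinearMap.add_apply, LinearMap.sum_apply,
      hq.coeff_natDegree, one_smul]
    simp only [LinearMap.smul_apply]
    abel
  rw [e]
  refine Submodule.add_mem _ (Submodule.sum_mem _ fun i hi => ?_) (hX _)
  exact Submodule.smul_mem _ _ (hX' i _ (Finset.mem_range.1 hi))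

theorem Chain.natDegree_minpoly [FiniteDimensional K V] {T : Module.End K V} {n : ℕ} {r : ℕ → V}
    {D ψ : ℕ → K} (h : Chain T n r D ψ) : (minpoly K T).natDegree = n := by
  have hmon : (minpoly K T).Monic := minpoly.monic (Algebra.IsIntegral.isIntegral T)
  apply le_antisymm
  · have h1 := Polynomial.natDegree_le_of_dvd (LinearMap.minpoly_dvd_charpoly T)
      (LinearMap.charpoly_monic T).ne_zero
    rwa [LinearMap.charpoly_natDegree, h.finrank_eq] at h1
  · by_contra hlt
    push Not at hlt
    have h1 := h.aeval_mem (minpoly K T) hmon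
    rw [minpoly.aeval, LinearMap.zero_apply, zero_sub] at h1
    have h2 := (Submodule.neg_mem_iff _).1 h1
    have h3 := h.li.notMem_span_image (s := {i : Fin n | (i : ℕ) < (minpoly K T).natDegree})
      (x := ⟨(minpoly K T).natDegree, hlt⟩) (by simp)
    apply h3
    refine Submodule.span_mono ?_ h2
    rintro _ ⟨i, rfl⟩
    exact ⟨⟨i, i.2.trans hlt⟩, i.2, rfl⟩

private theorem Chain.cyclic {T : Module.End K V} {n : ℕ} {r : ℕ → V} {D ψ : ℕ → K}
    (h : Chain T n r D ψ) (v : V) : ∃ q : K[X], aeval T q (r 0) = v := by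
  have hr : ∀ j : ℕ, (∃ q : K[X], aeval T q (r 0) = r j) ∧
      ∃ q : K[X], aeval T q (r 0) = r (j + 1) := by
    intro j
    induction j with
    | zero =>
      refine ⟨⟨1, by simp⟩, ⟨X - C (D 0), ?_⟩⟩
      rw [map_sub, aeval_X, aeval_C, LinearMap.sub_apply, h.zero, Module.algebraMap_end_apply]
      show r 1 + D 0 • r 0 - D 0 • r 0 = r (0 + 1)
      rw [add_sub_cancel_right]
    | succ j ih =>
      obtain ⟨⟨q₀, h₀⟩, ⟨q₁, h₁⟩⟩ := ih
      refine ⟨⟨q₁, h₁⟩, ⟨X * q₁ - C (D (j + 1)) * q₁ - C (ψ (j + 1)) * q₀, ?_⟩⟩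
      rw [map_sub, map_sub, map_mul, map_mul, map_mul, aeval_X, aeval_C, aeval_C,
        LinearMap.sub_apply, LinearMap.sub_apply, Module.End.mul_apply, Module.End.mul_apply,
        Module.End.mul_apply, h₀, h₁, Module.algebraMap_end_apply, Module.algebraMap_end_apply,
        h.succ j]
      show _ = r (j + 2)
      abel
  have hv : v ∈ Submodule.span K (Set.range fun i : Fin n => r i) := by
    rw [h.span_eq]; trivial
  refine Submodule.span_induction (p := fun v _ => ∃ q : K[X], aeval T q (r 0) = v)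
    ?_ ?_ ?_ ?_ hv
  · rintro _ ⟨i, rfl⟩
    exact (hr i).1
  · exact ⟨0, by simp⟩
  · rintro x y _ _ ⟨p, hp⟩ ⟨q, hq⟩
    exact ⟨p + q, by rw [map_add, LinearMap.add_apply, hp, hq]⟩
  · rintro a x _ ⟨p, hp⟩
    exact ⟨a • p, by rw [map_smul, LinearMap.smul_apply, hp]⟩

theorem Chain.minpoly_eq [FiniteDimensional K V] {T : Module.End K V} {n : ℕ} {r : ℕ → V}
    {D ψ : ℕ → K} (h : Chain T n r D ψ) (μ : ℕ → K) (h0 : rr T μ (r 0) n = 0) :
    minpoly K T = ∏ i ∈ Finset.range n, (X - Polynomial.C (μ i)) := by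
  have hmon : (minpoly K T).Monic := minpoly.monic (Algebra.IsIntegral.isIntegral T)
  have hpmon : (∏ i ∈ Finset.range n, (X - Polynomial.C (μ i))).Monic :=
    monic_prod_of_monic _ _ fun i _ => monic_X_sub_C _
  have hdeg : (∏ i ∈ Finset.range n, (X - Polynomial.C (μ i))).natDegree = n := by
    rw [natDegree_prod_of_monic _ _ fun i _ => monic_X_sub_C _]
    simp
  have hz : aeval T (∏ i ∈ Finset.range n, (X - Polynomial.C (μ i))) = 0 := by
    ext v
    obtain ⟨q, rfl⟩ := h.cyclic v
    rw [← Module.End.mul_apply, ← map_mul, mul_comm, map_mul, Module.End.mul_apply,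
      ← rr_eq_aeval, h0, map_zero, LinearMap.zero_apply]
  have hdvd := minpoly.dvd K T hz
  refine (Polynomial.eq_of_monic_of_dvd_of_natDegree_le hmon hpmon hdvd ?_).symm
  rw [hdeg, h.natDegree_minpoly]

theorem rr_eq_zero_of_minpoly [FiniteDimensional K V] {T : Module.End K V} {n : ℕ}
    (μ : ℕ → K) (hm : minpoly K T = ∏ i ∈ Finset.range n, (X - Polynomial.C (μ i))) (v : V) :
    rr T μ v n = 0 := by
  rw [rr_eq_aeval, ← hm, minpoly.aeval, LinearMap.zero_apply]

/-- shifting `T` by a scalar -/
theorem rr_shift (T : Module.End K V) (μ : ℕ → K) (κ : K) (v : V) (k : ℕ) :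
    rr (T - κ • 1) (fun i => μ i - κ) v k = rr T μ v k := by
  induction k with
  | zero => rfl
  | succ k ih =>
    show (T - κ • 1) (rr (T - κ • 1) (fun i => μ i - κ) v k) -
      (μ k - κ) • rr (T - κ • 1) (fun i => μ i - κ) v k = T (rr T μ v k) - μ k • rr T μ v k
    rw [ih, LinearMap.sub_apply, LinearMap.smul_apply, Module.End.one_apply, sub_smul]
    abel

private theorem rr_succ (T : Module.End K V) (μ : ℕ → K) (v : V) (j : ℕ) :
    T (rr T μ v j) = μ j • rr T μ v j + rr T μ v (j + 1) := by
  show _ = μ j • rr T μ v j + (T (rr T μ v j) - μ j • rr T μ v j)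
  abel

private theorem rr_zero_of_le (T : Module.End K V) (μ : ℕ → K) (v : V) {n : ℕ}
    (h0 : rr T μ v n = 0) (j : ℕ) : rr T μ v (n + j) = 0 := by
  induction j with
  | zero => exact h0
  | succ j ih =>
    show T (rr T μ v (n + j)) - μ (n + j) • rr T μ v (n + j) = 0
    rw [ih, map_zero, smul_zero, sub_zero]

private theorem rr_pow_mem (T : Module.End K V) (μ : ℕ → K) (v : V) (j k : ℕ) :
    (T ^ k) (rr T μ v j) - μ j ^ k • rr T μ v j ∈
      Submodule.span K (Set.range fun i : ℕ => rr T μ v (j + 1 + i)) := by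
  have hT : ∀ w ∈ Submodule.span K (Set.range fun i : ℕ => rr T μ v (j + 1 + i)),
      T w ∈ Submodule.span K (Set.range fun i : ℕ => rr T μ v (j + 1 + i)) := by
    intro w hw
    refine Submodule.span_induction (p := fun w _ => T w ∈
      Submodule.span K (Set.range fun i : ℕ => rr T μ v (j + 1 + i))) ?_ ?_ ?_ ?_ hw
    · rintro _ ⟨i, rfl⟩
      show T (rr T μ v (j + 1 + i)) ∈ _
      rw [rr_succ]
      exact Submodule.add_mem _ (Submodule.smul_mem _ _ (Submodule.subset_span ⟨i, rfl⟩))
        (Submodule.subset_span ⟨i + 1, rfl⟩)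
    · rw [map_zero]; exact Submodule.zero_mem _
    · intro x y _ _ hx hy
      rw [map_add]; exact Submodule.add_mem _ hx hy
    · intro a x _ hx
      rw [map_smul]; exact Submodule.smul_mem _ _ hx
  induction k with
  | zero => simp
  | succ k ih =>
    have e : (T ^ (k + 1)) (rr T μ v j) - μ j ^ (k + 1) • rr T μ v j =
        T ((T ^ k) (rr T μ v j) - μ j ^ k • rr T μ v j) + μ j ^ k • rr T μ v (j + 1) := by
      rw [pow_succ', Module.End.mul_apply, map_sub, map_smul, rr_succ, pow_succ, mul_smul,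
        smul_add]
      abel
    rw [e]
    exact Submodule.add_mem _ (hT _ ih)
      (Submodule.smul_mem _ _ (Submodule.subset_span ⟨0, rfl⟩))

theorem Chain.trace_pow [FiniteDimensional K V] {T : Module.End K V} {n : ℕ} {r : ℕ → V}
    {D ψ : ℕ → K} (h : Chain T n r D ψ) (μ : ℕ → K) (h0 : rr T μ (r 0) n = 0) (k : ℕ) :
    LinearMap.trace K V (T ^ k) = ∑ i ∈ Finset.range n, μ i ^ k := by
  -- the vectors `rr T μ (r 0) j`, `j < n`, form a basis
  have hspan : ∀ m : ℕ, Submodule.span K (Set.range fun i : Fin m => r i) ≤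
      Submodule.span K (Set.range fun i : Fin m => rr T μ (r 0) i) := by
    intro m
    induction m with
    | zero =>
      rw [Submodule.span_le]
      rintro _ ⟨i, _⟩
      exact i.elim0
    | succ m ih =>
      have hle : Submodule.span K (Set.range fun i : Fin m => rr T μ (r 0) i) ≤
          Submodule.span K (Set.range fun i : Fin (m + 1) => rr T μ (r 0) i) :=
        S_mono (fun i => rr T μ (r 0) i) (Nat.le_succ m)
      rw [Submodule.span_le]
      rintro _ ⟨i, rfl⟩
      rcases Nat.lt_succ_iff_lt_or_eq.1 i.2 with hi | hi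
      · exact hle (ih (mem_S r hi))
      · have h1 := hle (ih (h.rr_mem μ m))
        have h2 : rr T μ (r 0) m ∈
            Submodule.span K (Set.range fun i : Fin (m + 1) => rr T μ (r 0) i) :=
          mem_S (fun i => rr T μ (r 0) i) (Nat.lt_succ_self m)
        have h3 := Submodule.sub_mem _ h2 h1
        rw [sub_sub_cancel] at h3
        show r i ∈ _
        rw [hi]
        exact h3
  have htop : ⊤ ≤ Submodule.span K (Set.range fun i : Fin n => rr T μ (r 0) i) := by
    rw [← h.span_eq]
    exact hspan n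
  have hcard : Fintype.card (Fin n) = finrank K V := by
    rw [Fintype.card_fin, h.finrank_eq]
  have hb : ∀ i : Fin n, basisOfTopLeSpanOfCardEqFinrank
      (fun i : Fin n => rr T μ (r 0) i) htop hcard i = rr T μ (r 0) i := by
    intro i
    rw [coe_basisOfTopLeSpanOfCardEqFinrank]
  generalize basisOfTopLeSpanOfCardEqFinrank
      (fun i : Fin n => rr T μ (r 0) i) htop hcard = b at hb
  rw [LinearMap.trace_eq_matrix_trace K b, Matrix.trace, Finset.sum_range]
  refine Finset.sum_congr rfl fun j _ => ?_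
  rw [Matrix.diag_apply, LinearMap.toMatrix_apply]
  have h1 := rr_pow_mem T μ (r 0) j k
  have h2 : ∀ w ∈ Submodule.span K (Set.range fun i : ℕ => rr T μ (r 0) (j + 1 + i)),
      b.repr w j = 0 := by
    intro w hw
    refine Submodule.span_induction (p := fun w _ => b.repr w j = 0) ?_ ?_ ?_ ?_ hw
    · rintro _ ⟨i, rfl⟩
      show b.repr (rr T μ (r 0) ((j : ℕ) + 1 + i)) j = 0
      by_cases hi : (j : ℕ) + 1 + i < n
      · have e := hb ⟨(j : ℕ) + 1 + i, hi⟩
        rw [← e, Basis.repr_self, Finsupp.single_eq_of_ne]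
        intro he
        have := congrArg Fin.val he
        simp only at this
        omega
      · have e : rr T μ (r 0) ((j : ℕ) + 1 + i) = 0 := by
          have := rr_zero_of_le T μ (r 0) h0 ((j : ℕ) + 1 + i - n)
          rwa [show n + ((j : ℕ) + 1 + i - n) = (j : ℕ) + 1 + i by omega] at this
        rw [e, map_zero, Finsupp.zero_apply]
    · rw [map_zero, Finsupp.zero_apply]
    · intro x y _ _ hx hy
      rw [map_add, Finsupp.add_apply, hx, hy, add_zero]
    · intro a x _ hx
      rw [map_smul, Finsupp.smul_apply, hx, smul_zero]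
  have h3 := h2 _ h1
  rw [← hb j, map_sub, map_smul, Finsupp.sub_apply, Finsupp.smul_apply, Basis.repr_self,
    Finsupp.single_eq_same, smul_eq_mul, mul_one, sub_eq_zero] at h3
  exact h3

end TDP
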