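import Mathlib

/-!
# Tridiagonal pairs with beta = 2 and the linear combinations `A + t B`

Definitions used for MP_d0515f_al.
-/

namespace TDP

open Module Polynomial

variable {K V : Type*} [Field K] [AddCommGroup V] [Module K V]

/-- the `i`-th eigenspace `V_i` of `A` in the ordering given by `θ 0, …, θ d`;
it is `0` when `i < 0` or `i > d` (so `V_{-1} = V_{d+1} = 0`) -/
noncomputable def eigS (A : Module.End K V) (d : ℕ) (θ : ℕ → K) (i : ℤ) : Submodule K V :=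
  if 0 ≤ i ∧ i ≤ (d : ℤ) then A.eigenspace (θ i.toNat) else ⊥

/-- `A` is diagonalizable, its eigenvalues are exactly the distinct scalars `θ 0, …, θ d`, and the
corresponding ordering `V_0, …, V_d` of its eigenspaces satisfies
`B V_i ⊆ V_{i-1} + V_i + V_{i+1}` -/
structure HalfTD (A B : Module.End K V) (d : ℕ) (θ : ℕ → K) : Prop where
  inj : ∀ i j : ℕ, i ≤ d → j ≤ d → θ i = θ j → i = j
  ne_bot : ∀ i : ℕ, i ≤ d → A.eigenspace (θ i) ≠ ⊥
  iSup_eq : (⨆ i : ℤ, eigS A d θ i) = ⊤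
  tri : ∀ i : ℤ, ∀ v ∈ eigS A d θ i,
    B v ∈ eigS A d θ (i - 1) ⊔ eigS A d θ i ⊔ eigS A d θ (i + 1)

/-- `A, B` is a tridiagonal pair on `V`, with eigenvalue sequences `θ 0, …, θ d` of `A` and
`θs 0, …, θs δ` of `B` in orderings for which the tridiagonal conditions hold -/
structure IsTDPair (A B : Module.End K V) (d δ : ℕ) (θ θs : ℕ → K) : Prop where
  left : HalfTD A B d θ
  right : HalfTD B A δ θs
  irred : ∀ W : Submodule K V, (∀ w ∈ W, A w ∈ W) → (∀ w ∈ W, B w ∈ W) → W = ⊥ ∨ W = ⊤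

/-- the condition `β = 2` for one eigenvalue sequence:
`(θ_{i-2} - θ_{i+1}) / (θ_{i-1} - θ_i) = β + 1 = 3` for `2 ≤ i ≤ d - 1` -/
def BetaTwo (d : ℕ) (θ : ℕ → K) : Prop :=
  ∀ i : ℕ, 2 ≤ i → i + 1 ≤ d → θ (i - 2) - θ (i + 1) = 3 * (θ (i - 1) - θ i)

/-- `t` is feasible for the pair `A, B` of diameter `d` -/
def Feasible (A B : Module.End K V) (d : ℕ) (t : K) : Prop :=
  ∃ a b c : K, minpoly K (A + t • B) =
    ∏ i ∈ Finset.range (d + 1), (X - C (a + b * (i : K) + c * (i : K) ^ 2))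

/-- the raising sequence `r 0 = v`, `r (k+1) = (A - θ k) r k` -/
def rr (A : Module.End K V) (θ : ℕ → K) (v : V) : ℕ → V
  | 0 => v
  | k + 1 => A (rr A θ v k) - θ k • rr A θ v k

/-- the sum of the eigenspaces `V_j`, `j < k` -/
noncomputable def LT (A : Module.End K V) (d : ℕ) (θ : ℕ → K) (k : ℕ) : Submodule K V :=
  ⨆ j : {j : ℤ // j < (k : ℤ)}, eigS A d θ j

/-- the sum of the eigenspaces `V_j`, `k ≤ j` -/
noncomputable def GE (A : Module.End K V) (d : ℕ) (θ : ℕ → K) (k : ℕ) : Submodule K V :=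
  ⨆ j : {j : ℤ // (k : ℤ) ≤ j}, eigS A d θ j

/-- what is used about the two filtrations `L k = V*_0 + … + V*_{k-1}` and
`G k = V_k + … + V_d` -/
structure LevelData (A B : Module.End K V) (d : ℕ) (θ θs : ℕ → K)
    (L G : ℕ → Submodule K V) : Prop where
  L_zero : L 0 = ⊥
  L_top : L (d + 1) = ⊤
  G_zero : G 0 = ⊤
  G_bot : G (d + 1) = ⊥
  L_mono : ∀ k, L k ≤ L (k + 1)
  G_anti : ∀ k, G (k + 1) ≤ G k
  A_L : ∀ k, ∀ v ∈ L k, A v ∈ L (k + 1)
  B_L : ∀ k, ∀ v ∈ L (k + 1), B v - θs k • v ∈ L k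
  A_G : ∀ k, k ≤ d → ∀ v ∈ G k, A v - θ k • v ∈ G (k + 1)
  B_G : ∀ k, ∀ v ∈ G (k + 1), B v ∈ G k
  flat : ∀ k, L k ⊓ G k = ⊥
  inj0 : ∀ v ∈ L 1, rr A θ v d = 0 → v = 0
  inj1 : 2 ≤ d → ∀ u ∈ L 2, rr A (fun i => θ (i + 1)) u (d - 2) = 0 → u = 0

end TDP
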