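import Pool.Agent.Lib.MP_d0515f_al.Defs

/-! The two filtrations of a tridiagonal pair. -/

namespace TDP

open Module

variable {K V : Type*} [Field K] [AddCommGroup V] [Module K V]
variable {A B : Module.End K V} {d δ : ℕ} {θ θs : ℕ → K}

/-! ### generalities on one half -/

theorem eigS_of_mem (A : Module.End K V) {d : ℕ} (θ : ℕ → K) {i : ℕ} (hi : i ≤ d) :
    eigS A d θ (i : ℤ) = A.eigenspace (θ i) := by
  unfold eigS
  rw [if_pos ⟨by positivity, by exact_mod_cast hi⟩]
  simp

theorem eigS_of_not (A : Module.End K V) {d : ℕ} (θ : ℕ → K) {i : ℤ}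
    (hi : ¬(0 ≤ i ∧ i ≤ (d : ℤ))) : eigS A d θ i = ⊥ := if_neg hi

theorem mem_eigS (A : Module.End K V) {d : ℕ} (θ : ℕ → K) {i : ℤ} {v : V}
    (hv : v ∈ eigS A d θ i) :
    v = 0 ∨ ∃ j : ℕ, j ≤ d ∧ i = (j : ℤ) ∧ v ∈ A.eigenspace (θ j) := by
  by_cases hi : 0 ≤ i ∧ i ≤ (d : ℤ)
  · right
    obtain ⟨j, rfl⟩ : ∃ j : ℕ, i = (j : ℤ) := ⟨i.toNat, by omega⟩
    have hj : j ≤ d := by omega
    refine ⟨j, hj, rfl, ?_⟩
    rwa [eigS_of_mem A θ hj] at hv
  · left
    rw [eigS_of_not A θ hi] at hv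
    simpa using hv

theorem eigS_le_LT (A : Module.End K V) (d : ℕ) (θ : ℕ → K) {i : ℤ} {k : ℕ} (h : i < (k : ℤ)) :
    eigS A d θ i ≤ LT A d θ k :=
  le_iSup (fun j : {j : ℤ // j < (k : ℤ)} => eigS A d θ j) ⟨i, h⟩

theorem eigS_le_GE (A : Module.End K V) (d : ℕ) (θ : ℕ → K) {i : ℤ} {k : ℕ} (h : (k : ℤ) ≤ i) :
    eigS A d θ i ≤ GE A d θ k :=
  le_iSup (fun j : {j : ℤ // (k : ℤ) ≤ j} => eigS A d θ j) ⟨i, h⟩

theorem LT_le {A : Module.End K V} {d : ℕ} {θ : ℕ → K} {k : ℕ} {S : Submodule K V}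
    (h : ∀ i : ℤ, i < (k : ℤ) → eigS A d θ i ≤ S) : LT A d θ k ≤ S :=
  iSup_le fun j => h j j.2

theorem GE_le {A : Module.End K V} {d : ℕ} {θ : ℕ → K} {k : ℕ} {S : Submodule K V}
    (h : ∀ i : ℤ, (k : ℤ) ≤ i → eigS A d θ i ≤ S) : GE A d θ k ≤ S :=
  iSup_le fun j => h j j.2

theorem LT_mono' (A : Module.End K V) (d : ℕ) (θ : ℕ → K) {k l : ℕ} (h : k ≤ l) :
    LT A d θ k ≤ LT A d θ l :=
  LT_le fun i hi => eigS_le_LT A d θ (lt_of_lt_of_le hi (by exact_mod_cast h))

theorem GE_anti' (A : Module.End K V) (d : ℕ) (θ : ℕ → K) {k l : ℕ} (h : k ≤ l) :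
    GE A d θ l ≤ GE A d θ k :=
  GE_le fun i hi => eigS_le_GE A d θ (le_trans (by exact_mod_cast h) hi)

theorem LT_zero' (A : Module.End K V) (d : ℕ) (θ : ℕ → K) : LT A d θ 0 = ⊥ := by
  rw [eq_bot_iff]
  refine LT_le fun i hi => ?_
  rw [eigS_of_not A θ (by push_cast at hi; omega)]

theorem GE_bot' (A : Module.End K V) (θ : ℕ → K) {d k : ℕ} (h : d < k) : GE A d θ k = ⊥ := by
  rw [eq_bot_iff]
  refine GE_le fun i hi => ?_
  rw [eigS_of_not A θ (by omega)]

theorem HalfTD.LT_top (h : HalfTD A B d θ) {k : ℕ} (hk : d < k) : LT A d θ k = ⊤ := by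
  rw [eq_top_iff, ← h.iSup_eq]
  refine iSup_le fun i => ?_
  by_cases hi : 0 ≤ i ∧ i ≤ (d : ℤ)
  · exact eigS_le_LT A d θ (by omega)
  · rw [eigS_of_not A θ hi]; exact bot_le

theorem HalfTD.GE_top (h : HalfTD A B d θ) : GE A d θ 0 = ⊤ := by
  rw [eq_top_iff, ← h.iSup_eq]
  refine iSup_le fun i => ?_
  by_cases hi : 0 ≤ i ∧ i ≤ (d : ℤ)
  · exact eigS_le_GE A d θ (by omega)
  · rw [eigS_of_not A θ hi]; exact bot_le

/-- elements of `LT` are handled one eigenspace at a time -/
theorem LT_induct {A : Module.End K V} {d : ℕ} {θ : ℕ → K} {k : ℕ} (T : Module.End K V)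
    {S : Submodule K V} (h : ∀ i : ℤ, i < (k : ℤ) → ∀ v ∈ eigS A d θ i, T v ∈ S) :
    ∀ v ∈ LT A d θ k, T v ∈ S := by
  have : LT A d θ k ≤ S.comap T := LT_le fun i hi v hv => h i hi v hv
  intro v hv
  exact this hv

theorem GE_induct {A : Module.End K V} {d : ℕ} {θ : ℕ → K} {k : ℕ} (T : Module.End K V)
    {S : Submodule K V} (h : ∀ i : ℤ, (k : ℤ) ≤ i → ∀ v ∈ eigS A d θ i, T v ∈ S) :
    ∀ v ∈ GE A d θ k, T v ∈ S := by
  have : GE A d θ k ≤ S.comap T := GE_le fun i hi v hv => h i hi v hv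
  intro v hv
  exact this hv

theorem HalfTD.B_LT (h : HalfTD A B d θ) (k : ℕ) : ∀ v ∈ LT A d θ k, B v ∈ LT A d θ (k + 1) := by
  refine LT_induct B fun i hi v hv => ?_
  have h1 := h.tri i v hv
  have hle : eigS A d θ (i - 1) ⊔ eigS A d θ i ⊔ eigS A d θ (i + 1) ≤ LT A d θ (k + 1) := by
    refine sup_le (sup_le ?_ ?_) ?_ <;> refine eigS_le_LT A d θ ?_ <;> push_cast <;> omega
  exact hle h1

theorem HalfTD.B_GE (h : HalfTD A B d θ) (k : ℕ) : ∀ v ∈ GE A d θ (k + 1), B v ∈ GE A d θ k := by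
  refine GE_induct B fun i hi v hv => ?_
  have h1 := h.tri i v hv
  have hle : eigS A d θ (i - 1) ⊔ eigS A d θ i ⊔ eigS A d θ (i + 1) ≤ GE A d θ k := by
    refine sup_le (sup_le ?_ ?_) ?_ <;> refine eigS_le_GE A d θ ?_ <;> push_cast at hi <;> omega
  exact hle h1

/-- `A - θ k` maps `V_0 + … + V_k` into `V_0 + … + V_{k-1}` -/
theorem HalfTD.A_LT (h : HalfTD A B d θ) (k : ℕ) :
    ∀ v ∈ LT A d θ (k + 1), A v - θ k • v ∈ LT A d θ k := by
  by_cases hk : k ≤ d
  · have key := LT_induct (A := A) (d := d) (θ := θ) (k := k + 1)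
      (T := A - θ k • (1 : Module.End K V)) (S := LT A d θ k) ?_
    · intro v hv
      simpa using key v hv
    · intro i hi v hv
      rcases mem_eigS A θ hv with rfl | ⟨j, hj, rfl, hv'⟩
      · simp
      · have hval : (A - θ k • (1 : Module.End K V)) v = (θ j - θ k) • v := by
          have := Module.End.mem_eigenspace_iff.mp hv'
          simp [this, sub_smul]
        rw [hval]
        by_cases hjk : j = k
        · subst hjk; simp
        · exact (LT A d θ k).smul_mem _ (eigS_le_LT A d θ (by omega) hv)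
  · intro v _
    rw [h.LT_top (by omega)]
    exact Submodule.mem_top

/-- `A - θ k` maps `V_k + … + V_d` into `V_{k+1} + … + V_d` -/
theorem HalfTD.A_GE (_h : HalfTD A B d θ) (k : ℕ) :
    ∀ v ∈ GE A d θ k, A v - θ k • v ∈ GE A d θ (k + 1) := by
  have key := GE_induct (A := A) (d := d) (θ := θ) (k := k)
    (T := A - θ k • (1 : Module.End K V)) (S := GE A d θ (k + 1)) ?_
  · intro v hv
    simpa using key v hv
  · intro i hi v hv
    rcases mem_eigS A θ hv with rfl | ⟨j, hj, rfl, hv'⟩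
    · simp
    · have hval : (A - θ k • (1 : Module.End K V)) v = (θ j - θ k) • v := by
        have := Module.End.mem_eigenspace_iff.mp hv'
        simp [this, sub_smul]
      rw [hval]
      by_cases hjk : j = k
      · subst hjk; simp
      · exact (GE A d θ (k + 1)).smul_mem _ (eigS_le_GE A d θ (by push_cast; omega) hv)

/-- a nonzero eigenspace is not contained in the sum of the others -/
theorem HalfTD.LT_ne_top (h : HalfTD A B d θ) {k : ℕ} (hk : k ≤ d) : LT A d θ k ≠ ⊤ := by
  intro htop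
  have hind := Module.End.eigenspaces_iSupIndep A
  have hdis := hind (θ d)
  have hle : LT A d θ k ≤ ⨆ μ, ⨆ (_ : μ ≠ θ d), A.eigenspace μ := by
    refine LT_le fun i hi => ?_
    intro v hv
    rcases mem_eigS A θ hv with rfl | ⟨j, hj, rfl, hv'⟩
    · exact Submodule.zero_mem _
    · have hne : θ j ≠ θ d := by
        intro he
        have := h.inj j d hj le_rfl he
        omega
      exact (le_iSup₂_of_le (θ j) hne le_rfl : A.eigenspace (θ j) ≤ _) hv'
  rw [htop, top_le_iff] at hle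
  rw [hle] at hdis
  exact h.ne_bot d le_rfl (disjoint_top.mp hdis)

theorem HalfTD.LT_one (h : HalfTD A B d θ) : LT A d θ 1 ≠ ⊥ := by
  intro hb
  apply h.ne_bot 0 (Nat.zero_le _)
  rw [eq_bot_iff, ← hb, ← eigS_of_mem A θ (Nat.zero_le d)]
  exact eigS_le_LT A d θ (by norm_num)

theorem eigS_rev (A : Module.End K V) (d : ℕ) (θ : ℕ → K) (i : ℤ) :
    eigS A d (fun n => θ (d - n)) i = eigS A d θ ((d : ℤ) - i) := by
  unfold eigS
  by_cases hi : 0 ≤ i ∧ i ≤ (d : ℤ)
  · rw [if_pos hi, if_pos (by omega)]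
    congr 1
    have : ((d : ℤ) - i).toNat = d - i.toNat := by omega
    rw [this]
  · rw [if_neg hi, if_neg (by omega)]

theorem HalfTD.rev (h : HalfTD A B d θ) : HalfTD A B d (fun n => θ (d - n)) where
  inj := by
    intro i j hi hj he
    have := h.inj (d - i) (d - j) (by omega) (by omega) he
    omega
  ne_bot := fun i _ => h.ne_bot (d - i) (by omega)
  iSup_eq := by
    rw [eq_top_iff, ← h.iSup_eq]
    refine iSup_le fun i => ?_
    have : eigS A d θ i = eigS A d (fun n => θ (d - n)) ((d : ℤ) - i) := by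
      rw [eigS_rev]; congr 1; ring
    rw [this]
    exact le_iSup (fun i => eigS A d (fun n => θ (d - n)) i) ((d : ℤ) - i)
  tri := by
    intro i v hv
    rw [eigS_rev] at hv
    have h1 := h.tri _ v hv
    rw [eigS_rev, eigS_rev, eigS_rev]
    have e1 : (d : ℤ) - i - 1 = (d : ℤ) - (i + 1) := by ring
    have e2 : (d : ℤ) - i + 1 = (d : ℤ) - (i - 1) := by ring
    rw [e1, e2] at h1
    have hle : eigS A d θ ((d : ℤ) - (i + 1)) ⊔ eigS A d θ ((d : ℤ) - i) ⊔
        eigS A d θ ((d : ℤ) - (i - 1)) ≤ eigS A d θ ((d : ℤ) - (i - 1)) ⊔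
        eigS A d θ ((d : ℤ) - i) ⊔ eigS A d θ ((d : ℤ) - (i + 1)) := by
      refine sup_le (sup_le ?_ ?_) ?_
      · exact le_sup_right
      · exact le_sup_of_le_left le_sup_right
      · exact le_sup_of_le_left le_sup_left
    exact hle h1

theorem rr_smul_eig (A : Module.End K V) (φ : ℕ → K) {μ : K} {w : V}
    (hw : w ∈ A.eigenspace μ) (m : ℕ) :
    rr A φ w m = (∏ j ∈ Finset.range m, (μ - φ j)) • w := by
  induction m with
  | zero => simp [rr]
  | succ m ih =>
    have hA := Module.End.mem_eigenspace_iff.mp hw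
    rw [rr, ih, map_smul, hA, Finset.prod_range_succ, smul_smul, smul_smul, ← sub_smul]
    congr 1
    ring

theorem rr_sub (A : Module.End K V) (φ : ℕ → K) (v w : V) (m : ℕ) :
    rr A φ (v - w) m = rr A φ v m - rr A φ w m := by
  induction m with
  | zero => simp [rr]
  | succ m ih => simp only [rr, ih, map_sub, smul_sub]; abel

theorem rr_smul (A : Module.End K V) (φ : ℕ → K) (c : K) (v : V) (m : ℕ) :
    rr A φ (c • v) m = c • rr A φ v m := by
  induction m with
  | zero => simp [rr]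
  | succ m ih => simp only [rr, ih, map_smul, smul_sub, smul_comm c]

theorem ker_rr (A : Module.End K V) (φ : ℕ → K) (S : Submodule K V) (m : ℕ)
    (hinj : ∀ i j, i < m → j < m → φ i = φ j → i = j)
    (hS : ∀ j, j < m → A.eigenspace (φ j) ≤ S) (v : V) (hv : rr A φ v m = 0) : v ∈ S := by
  induction m generalizing v with
  | zero => simp only [rr] at hv; subst hv; exact S.zero_mem
  | succ m ih =>
    have hw : rr A φ v m ∈ A.eigenspace (φ m) := by
      rw [Module.End.mem_eigenspace_iff]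
      exact sub_eq_zero.mp (by simpa [rr] using hv)
    set c : K := ∏ j ∈ Finset.range m, (φ m - φ j) with hc
    have hc0 : c ≠ 0 := by
      rw [hc, Finset.prod_ne_zero_iff]
      intro j hj
      rw [Finset.mem_range] at hj
      intro h0
      have := hinj m j (by omega) (by omega) (sub_eq_zero.mp h0)
      omega
    have hu : rr A φ (v - c⁻¹ • rr A φ v m) m = 0 := by
      rw [rr_sub, rr_smul, rr_smul_eig A φ hw m, smul_smul, inv_mul_cancel₀ hc0, one_smul,
        sub_self]
    have h1 := ih (fun i j hi hj => hinj i j (by omega) (by omega))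
      (fun j hj => hS j (by omega)) _ hu
    have h2 : c⁻¹ • rr A φ v m ∈ S := S.smul_mem _ (hS m (by omega) hw)
    have := S.add_mem h1 h2
    simpa using this

/-! ### the two halves together -/

/-- swapping the two halves -/
theorem IsTDPair.swap (h : IsTDPair A B d δ θ θs) : IsTDPair B A δ d θs θ :=
  ⟨h.right, h.left, fun W h1 h2 => h.irred W h2 h1⟩

theorem IsTDPair.rev (h : IsTDPair A B d δ θ θs) :
    IsTDPair A B d δ (fun n => θ (d - n)) θs :=
  ⟨h.left.rev, h.right, h.irred⟩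

/-- invariance of a supremum -/
theorem iSup_inv {ι : Sort*} (W : ι → Submodule K V) (T : Module.End K V)
    (h : ∀ i, ∀ v ∈ W i, T v ∈ ⨆ i, W i) : ∀ v ∈ ⨆ i, W i, T v ∈ ⨆ i, W i := by
  have : (⨆ i, W i) ≤ (⨆ i, W i).comap T := iSup_le fun i v hv => h i v hv
  intro v hv
  exact this hv

theorem IsTDPair.delta_le (h : IsTDPair A B d δ θ θs) : δ ≤ d := by
  set W : ℕ → Submodule K V := fun k => LT B δ θs (k + 1) ⊓ GE A d θ k with hW
  have hmem : ∀ k v, v ∈ W k → v ∈ ⨆ k, W k := fun k v hv => (le_iSup W k) hv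
  have hA : ∀ v ∈ ⨆ k, W k, A v ∈ ⨆ k, W k := by
    refine iSup_inv W A fun k v hv => ?_
    obtain ⟨hv1, hv2⟩ := Submodule.mem_inf.mp hv
    have h1 : A v - θ k • v ∈ W (k + 1) := by
      refine Submodule.mem_inf.mpr ⟨?_, h.left.A_GE k v hv2⟩
      exact Submodule.sub_mem _ (h.right.B_LT (k + 1) v hv1)
        (Submodule.smul_mem _ _ (LT_mono' B δ θs (by omega) hv1))
    have h2 := Submodule.add_mem _ (hmem (k + 1) _ h1)
      (Submodule.smul_mem _ (θ k) (hmem k v hv))
    simpa using h2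
  have hB : ∀ v ∈ ⨆ k, W k, B v ∈ ⨆ k, W k := by
    refine iSup_inv W B fun k v hv => ?_
    obtain ⟨hv1, hv2⟩ := Submodule.mem_inf.mp hv
    have h0 : B v - θs k • v ∈ LT B δ θs k := h.right.A_LT k v hv1
    have h1 : B v - θs k • v ∈ ⨆ k, W k := by
      cases k with
      | zero =>
        rw [LT_zero'] at h0
        rw [(Submodule.mem_bot K).mp h0]
        exact Submodule.zero_mem _
      | succ k =>
        refine hmem k _ (Submodule.mem_inf.mpr ⟨h0, ?_⟩)
        exact Submodule.sub_mem _ (h.left.B_GE k v hv2)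
          (Submodule.smul_mem _ _ (GE_anti' A d θ (by omega) hv2))
    have h2 := Submodule.add_mem _ h1 (Submodule.smul_mem _ (θs k) (hmem k v hv))
    simpa using h2
  have hne : (⨆ k, W k) ≠ ⊥ := by
    intro hb
    apply h.right.LT_one
    rw [eq_bot_iff, ← hb]
    refine le_trans ?_ (le_iSup W 0)
    simp only [hW, zero_add]
    rw [h.left.GE_top, inf_top_eq]
  have htop := (h.irred _ hA hB).resolve_left hne
  have hle : (⨆ k, W k) ≤ LT B δ θs (d + 1) := by
    refine iSup_le fun k => ?_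
    by_cases hk : k ≤ d
    · exact le_trans inf_le_left (LT_mono' B δ θs (by omega))
    · simp only [hW]
      rw [GE_bot' A θ (by omega), inf_bot_eq]
      exact bot_le
  by_contra hcon
  have : LT B δ θs (d + 1) ≠ ⊤ := h.right.LT_ne_top (by omega)
  rw [htop, top_le_iff] at hle
  exact this hle

/-- the two diameters agree -/
theorem IsTDPair.diam_eq (h : IsTDPair A B d δ θ θs) : d = δ :=
  le_antisymm h.swap.delta_le h.delta_le

theorem IsTDPair.flatness (h : IsTDPair A B d d θ θs) (k : ℕ) :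
    LT B d θs k ⊓ GE A d θ k = ⊥ := by
  set W : ℕ → Submodule K V := fun k => LT B d θs k ⊓ GE A d θ k with hW
  have hmem : ∀ k v, v ∈ W k → v ∈ ⨆ k, W k := fun k v hv => (le_iSup W k) hv
  have hA : ∀ v ∈ ⨆ k, W k, A v ∈ ⨆ k, W k := by
    refine iSup_inv W A fun k v hv => ?_
    obtain ⟨hv1, hv2⟩ := Submodule.mem_inf.mp hv
    have h1 : A v - θ k • v ∈ W (k + 1) := by
      refine Submodule.mem_inf.mpr ⟨?_, h.left.A_GE k v hv2⟩
      exact Submodule.sub_mem _ (h.right.B_LT k v hv1)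
        (Submodule.smul_mem _ _ (LT_mono' B d θs (by omega) hv1))
    have h2 := Submodule.add_mem _ (hmem (k + 1) _ h1)
      (Submodule.smul_mem _ (θ k) (hmem k v hv))
    simpa using h2
  have hB : ∀ v ∈ ⨆ k, W k, B v ∈ ⨆ k, W k := by
    refine iSup_inv W B fun k v hv => ?_
    obtain ⟨hv1, hv2⟩ := Submodule.mem_inf.mp hv
    cases k with
    | zero =>
      rw [LT_zero'] at hv1
      rw [(Submodule.mem_bot K).mp hv1, map_zero]
      exact Submodule.zero_mem _
    | succ k =>
      have h0 : B v - θs k • v ∈ LT B d θs k := h.right.A_LT k v hv1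
      have h1 : B v - θs k • v ∈ ⨆ k, W k := by
        refine hmem k _ (Submodule.mem_inf.mpr ⟨h0, ?_⟩)
        exact Submodule.sub_mem _ (h.left.B_GE k v hv2)
          (Submodule.smul_mem _ _ (GE_anti' A d θ (by omega) hv2))
      have h2 := Submodule.add_mem _ h1 (Submodule.smul_mem _ (θs k) (hmem (k + 1) v hv))
      simpa using h2
  have hle : (⨆ k, W k) ≤ LT B d θs d := by
    refine iSup_le fun k => ?_
    by_cases hk : k ≤ d
    · exact le_trans inf_le_left (LT_mono' B d θs hk)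
    · simp only [hW]
      rw [GE_bot' A θ (by omega), inf_bot_eq]
      exact bot_le
  have hne : (⨆ k, W k) ≠ ⊤ := by
    intro ht
    rw [ht, top_le_iff] at hle
    exact h.right.LT_ne_top le_rfl hle
  have hbot := (h.irred _ hA hB).resolve_right hne
  rw [eq_bot_iff, ← hbot]
  exact le_iSup W k

/-- the filtrations `LT` (for `B`) and `GE` (for `A`) satisfy everything in `LevelData` -/
theorem IsTDPair.levelData (h : IsTDPair A B d d θ θs) :
    LevelData A B d θ θs (LT B d θs) (GE A d θ) where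
  L_zero := LT_zero' B d θs
  L_top := h.right.LT_top (by omega)
  G_zero := h.left.GE_top
  G_bot := GE_bot' A θ (by omega)
  L_mono := fun k => LT_mono' B d θs (by omega)
  G_anti := fun k => GE_anti' A d θ (by omega)
  A_L := h.right.B_LT
  B_L := h.right.A_LT
  A_G := fun k _ => h.left.A_GE k
  B_G := h.left.B_GE
  flat := h.flatness
  inj0 := by
    intro v hv h0
    by_cases hd : d = 0
    · subst hd; simpa [rr] using h0
    · have hflat := h.rev.flatness 1
      have h1 : v ∈ GE A d (fun n => θ (d - n)) 1 := by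
        refine ker_rr A θ _ d (fun i j hi hj => h.left.inj i j (by omega) (by omega)) ?_ v h0
        intro j hj
        rw [← eigS_of_mem A θ (show j ≤ d by omega)]
        have : eigS A d θ (j : ℤ) = eigS A d (fun n => θ (d - n)) ((d : ℤ) - j) := by
          rw [eigS_rev]; congr 1; ring
        rw [this]
        exact eigS_le_GE A d _ (by push_cast; omega)
      have : v ∈ LT B d θs 1 ⊓ GE A d (fun n => θ (d - n)) 1 := Submodule.mem_inf.mpr ⟨hv, h1⟩
      rw [hflat] at this
      simpa using this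
  inj1 := by
    intro hd u hu h0
    have hflat := h.rev.flatness 2
    have h1 : u ∈ GE A d (fun n => θ (d - n)) 2 := by
      refine ker_rr A (fun i => θ (i + 1)) _ (d - 2) ?_ ?_ u h0
      · intro i j hi hj he
        have := h.left.inj (i + 1) (j + 1) (by omega) (by omega) he
        omega
      · intro j hj
        show A.eigenspace (θ (j + 1)) ≤ _
        rw [← eigS_of_mem A θ (show j + 1 ≤ d by omega)]
        have : eigS A d θ ((j + 1 : ℕ) : ℤ) =
            eigS A d (fun n => θ (d - n)) ((d : ℤ) - ((j + 1 : ℕ) : ℤ)) := by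
          rw [eigS_rev]; congr 1; ring
        rw [this]
        exact eigS_le_GE A d _ (by push_cast; omega)
    have : u ∈ LT B d θs 2 ⊓ GE A d (fun n => θ (d - n)) 2 := Submodule.mem_inf.mpr ⟨hu, h1⟩
    rw [hflat] at this
    simpa using this

/-- `V*_0 ≠ 0` -/
theorem IsTDPair.LT_one_ne_bot (h : IsTDPair A B d d θ θs) : LT B d θs 1 ≠ ⊥ :=
  h.right.LT_one

/-- there are `d + 1` distinct eigenvalues -/
theorem IsTDPair.le_finrank [FiniteDimensional K V] (h : IsTDPair A B d d θ θs) :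
    d + 1 ≤ finrank K V := by
  have hx : ∀ i : Fin (d + 1), ∃ v : V, A.HasEigenvector (θ i) v := by
    intro i
    have hne := h.left.ne_bot i (by omega)
    obtain ⟨v, hv, hv0⟩ := Submodule.exists_mem_ne_zero_of_ne_bot hne
    exact ⟨v, hv, hv0⟩
  choose x hx using hx
  have hli := Module.End.eigenvectors_linearIndependent' A (fun i : Fin (d + 1) => θ i)
    (by
      intro i j hij
      exact Fin.ext (h.left.inj i j (by omega) (by omega) hij)) x hx
  have := hli.fintype_card_le_finrank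
  simpa using this

end TDP
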