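import Pool.Agent.Lib.MP_d0515f_al.IdDefs
import Pool.Agent.Lib.MP_d0515f_al.Num

/-! Identity of degree 2. -/

set_option linter.unusedVariables false
set_option maxRecDepth 20000

namespace TDP

variable {K : Type*} [Field K] [Num17 K]

theorem R2 (n s a p q β g : K) : T2 n s a p q (FF n s a p β g) - M2 n β (-g) = 0 := by
  have h4 := nz4 (K := K)
  have h60 := nz60 (K := K)
  have h180 := nz180 (K := K)
  simp only [FF, VV, T2, M2]
  field_simp
  ring

end TDP
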