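import Pool.Agent.Lib.MP_d0515f_al.IdDefs
import Pool.Agent.Lib.MP_d0515f_al.Num

/-! Identity of degree 8, case a (generated by computer). -/

set_option linter.unusedVariables false
set_option maxRecDepth 20000

namespace TDP

variable {K : Type*} [Field K]

/-- cofactor -/
def KA8a (n s p q β : K) : K :=
    ((180*n^13 - 10140*n^11 + 238524*n^9 - 2857140*n^7 + 16871712*n^5 - 41421120*n^3 + 27177984*n)*s*q*p
      + (-975*n^11 + 25025*n^9 - 276705*n^7 + 1499355*n^5 - 3480620*n^3 + 2233920*n)*s*q*β^2) / 486486000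

/-- cofactor -/
def KB8a (n s p q β : K) : K :=
    ((560*n^15 - 59080*n^13 + 2702336*n^11 - 64084592*n^9 + 793887952*n^7 - 4796427272*n^5 + 11913769152*n^3 - 7849789056*n)*p^2
      + (-3150*n^13 + 236600*n^11 - 6346340*n^9 + 78541320*n^7 - 458808350*n^5 + 1107732080*n^3 - 721352160*n)*p*β^2
      + (34125*n^11 - 1001000*n^9 + 11561550*n^7 - 62762700*n^5 + 144469325*n^3 - 92301300*n)*β^4
      + (5250*n^13 - 273000*n^11 + 6306300*n^9 - 75761400*n^7 + 449699250*n^5 - 1107615600*n^3 + 727639200*n)*q^2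
      + (-5250*n^13 + 273000*n^11 - 6306300*n^9 + 75761400*n^7 - 449699250*n^5 + 1107615600*n^3 - 727639200*n)*s^2*p) / 24324300000

/-- the condition of degree 8, when `g = 0` and the cubic invariant vanishes -/
def Q8 (n β Y : K) : K :=
  (20241900*n^4 - 796181400*n^2 + 7253347500)*β^4*Y^2
    + (-337365*n^6 + 7871850*n^4 + 149902515*n^2 - 3396141000)*β^2*Y^3
    + (-1764*n^8 + 194481*n^6 - 6908706*n^4 + 79507449*n^2 - 19448100)*Y^4

theorem Q8_eq (n β Y : K) (h : 195 * β ^ 2 = (4 * n ^ 2 - 1) * Y) :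
    38025 * Q8 n β Y = -1587600 * ((4 * n ^ 2 - 1) * (n ^ 2 - 25) * (n ^ 2 - 36)
      * (n ^ 2 - 49) * Y ^ 4) := by
  rw [Q8]
  linear_combination ((20241900*n^4 - 796181400*n^2 + 7253347500) * Y ^ 2
      * (195 * β ^ 2 + (4 * n ^ 2 - 1) * Y)
    + 195 * (-337365*n^6 + 7871850*n^4 + 149902515*n^2 - 3396141000) * Y ^ 3) * h

theorem R8a [Num17 K] (n s p q β : K) : T8a n s p q (FF n s 0 p β 0) - M8l n β =
    VV n * (n^2 - 9) * (n^2 - 16) / 521026506000 * Q8 n β (-12 * p)
      + KA8a n s p q β * P3 n s 0 p q β 0 + KB8a n s p q β * P4 n s 0 p q β 0 := by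
  have h2 := nz2 (K := K)
  have h4 := nz4 (K := K)
  have h60 := nz60 (K := K)
  have h180 := nz180 (K := K)
  have h11520 := nz11520 (K := K)
  have h196035840 := nz196035840 (K := K)
  have h486486000 := nz486486000 (K := K)
  have h24324300000 := nz24324300000 (K := K)
  have h521026506000 := nz521026506000 (K := K)
  simp only [T8a, T8a_1, T8a_2, T8a_3, T8a_4, T8a_5, M8l, FF, VV, Q8, KA8a, KB8a, P3, P4, Z1, Z2]
  field_simp
  ring

end TDP
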