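import Pool.Agent.Lib.MP_d0515f_al.TDefs

/-! Explicit consequences of the equality of the first power sums (definitions). -/

set_option linter.unusedVariables false

namespace TDP

variable {K : Type*} [Field K]

/-- the value of `F` forced by the second power sum -/
def FF (n s a p β g : K) : K :=
  (s ^ 2 - β ^ 2) / 4 + (n ^ 2 - 4) * (a ^ 2 - 3 * p - g ^ 2) / 60

/-- `(c1 - c2) (b1^2 - b2^2)` -/
def Z1 (s a q : K) : K := s * (a * s - 2 * q)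

/-- `(c1 - c2)^2 (b1^2 + b2^2)` -/
def Z2 (s a p q : K) : K := ((a ^ 2 - 4 * p) * s ^ 2 + (a * s - 2 * q) ^ 2) / 2

/-- cubic invariant -/
def XX3 (a p : K) : K := -8 * a ^ 3 + 36 * a * p

/-- quadratic invariant -/
def YY2 (a p : K) : K := 4 * a ^ 2 - 12 * p

/-- common factor -/
def VV (n : K) : K := n * (n ^ 2 - 1) * (n ^ 2 - 4) / 180

/-- the cubic condition -/
def P3 (n s a p q β g : K) : K :=
  945 * Z1 s a q + 315 * (2 * g - a) * β ^ 2 + (31 * n ^ 2 - 244) * (a ^ 3 - 3 * a * p)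
    + (240 - 15 * n ^ 2) * a * p + (84 - 21 * n ^ 2) * a * g ^ 2 + (10 * n ^ 2 - 160) * g ^ 3

/-- the quartic condition -/
def P4 (n s a p q β g : K) : K :=
  225 / 2 * (3 * Z2 s a p q - a * Z1 s a q)
    + 15 * β ^ 2 * (2 * (a ^ 2 - 2 * p) + 13 * p - 17 * g ^ 2)
    - (n ^ 2 + 56) * (a ^ 4 - 4 * a ^ 2 * p + 2 * p ^ 2)
    - (13 * n ^ 2 - 172) * p * (a ^ 2 - 2 * p) + 12 * (n ^ 2 - 19) * p ^ 2
    + 2 * (n ^ 2 - 4) * (a ^ 2 - 2 * p) * g ^ 2 + 13 * (n ^ 2 - 4) * p * g ^ 2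
    - (n ^ 2 - 64) * g ^ 4

/-- the condition of degree 5 -/
def Q5 (n a p β g : K) : K :=
    (-165)*β^2*(XX3 a p)
      + (-693)*β^2*g*(YY2 a p)
      + (4092)*β^2*g^3
      + (4*n^2 - 1)*(XX3 a p)*(YY2 a p)
      + (-11*n^2 + 44)*g^2*(XX3 a p)
      + (-11*n^2 + 176)*g^3*(YY2 a p)
      + (4*n^2 - 1024)*g^5

/-- the condition of degree 6 -/
def Q6 (n a p β g : K) : K :=
    (85995)*β^2*(YY2 a p)^2
      + (511875)*β^2*g*(XX3 a p)
      + (1461915)*β^2*g^2*(YY2 a p)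
      + (-11318580)*β^2*g^4
      + (-1764*n^2 + 441)*(YY2 a p)^3
      + (-1000*n^2 + 250)*(XX3 a p)^2
      + (5733*n^2 - 22932)*g^2*(YY2 a p)^2
      + (8125*n^2 - 130000)*g^3*(XX3 a p)
      + (5733*n^2 - 366912)*g^4*(YY2 a p)
      + (-2764*n^2 + 2830336)*g^6

/-- the condition of degree 7 -/
def Q7 (n a p β g : K) : K :=
    (-26325*n^2 + 272025)*β^4*(XX3 a p)
      + (-110565*n^2 + 1142505)*β^4*g*(YY2 a p)
      + (652860*n^2 - 6746220)*β^4*g^3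
      + (495*n^4 + 1980*n^2 - 127215)*β^2*(XX3 a p)*(YY2 a p)
      + (-693*n^4 + 42273*n^2 - 623700)*β^2*g*(YY2 a p)^2
      + (-4530*n^4 + 112530*n^2 - 1063080)*β^2*g^2*(XX3 a p)
      + (-9126*n^4 + 151866*n^2 - 594828)*β^2*g^3*(YY2 a p)
      + (67992*n^4 - 2247432*n^2 + 24934032)*β^2*g^5
      + (4*n^6 - 245*n^4 + 3661*n^2 - 900)*(XX3 a p)*(YY2 a p)^2
      + (33*n^6 - 9009*n^2 + 33924)*g^2*(XX3 a p)*(YY2 a p)
      + (-11*n^6 + 847*n^4 - 20636*n^2 + 158400)*g^3*(YY2 a p)^2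
      + (-121*n^6 + 2645*n^4 - 30760*n^2 + 249744)*g^4*(XX3 a p)
      + (-117*n^6 + 3549*n^4 - 31668*n^2 + 77376)*g^5*(YY2 a p)
      + (44*n^6 - 17548*n^4 + 522608*n^2 - 5812224)*g^7

/-- cofactor -/
def KA5 (n s a p q β g : K) : K :=
    ((3*n^4 - 25*n^2 + 52)*g^2
      + (2*n^4 - 50*n^2 + 288)*a^2
      + (-6*n^4 + 150*n^2 - 864)*p
      + (45*n^2 - 195)*β^2) / 126

/-- a summand of `KA6` -/
def KA6_1 (n s a p q β g : K) : K :=
    (-550*n^6 + 15950*n^4 - 143440*n^2 + 464640)*g^3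
      + (-1155*n^6 + 19635*n^4 - 121044*n^2 + 243936)*a*g^2
      + (2705*n^6 - 85585*n^4 + 1033484*n^2 - 4308576)*a^3
      + (-10440*n^6 + 355680*n^4 - 4469112*n^2 + 19022688)*a*p
      + (-34650*n^4 + 450450*n^2 - 1829520)*β^2*g
      + (-17325*n^4 + 225225*n^2 - 914760)*β^2*a

/-- a summand of `KA6` -/
def KA6_2 (n s a p q β g : K) : K :=
    (51975*n^4 - 675675*n^2 + 2744280)*(Z1 s a q)

/-- cofactor -/
def KA6 (n s a p q β g : K) : K :=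
    (KA6_1 n s a p q β g + KA6_2 n s a p q β g) / 873180

/-- cofactor -/
def KB6 (n s a p q β g : K) : K :=
    ((11*n^4 - 121*n^2 + 308)*g^2
      + (4*n^4 - 164*n^2 + 1600)*a^2
      + (-12*n^4 + 492*n^2 - 4800)*p
      + (165*n^2 - 1155)*β^2) / 396

/-- a summand of `KA7` -/
def KA7_1 (n s a p q β g : K) : K :=
    (2145*n^8 - 38610*n^6 + 273273*n^4 - 882024*n^2 + 1077648)*g^4
      + (2860*n^8 - 108680*n^6 + 1485484*n^4 - 8463312*n^2 + 16308864)*a^2*g^2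
      + (620*n^8 - 82960*n^6 + 2590868*n^4 - 31574064*n^2 + 130716288)*a^4
      + (-4680*n^8 + 201240*n^6 - 2856672*n^4 + 16273296*n^2 - 31067712)*p*g^2
      + (-7620*n^8 + 622560*n^6 - 17144988*n^4 + 198561024*n^2 - 802156608)*a^2*p
      + (17280*n^8 - 1121040*n^6 + 28117152*n^4 - 311516496*n^2 + 1230023232)*p^2

/-- a summand of `KA7` -/
def KA7_2 (n s a p q β g : K) : K :=
    (64350*n^6 - 900900*n^4 + 4594590*n^2 - 8082360)*β^2*g^2
      + (42900*n^6 - 1458600*n^4 + 16447860*n^2 - 61158240)*β^2*a^2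
      + (-70200*n^6 + 2737800*n^4 - 31898880*n^2 + 116503920)*β^2*p
      + (482625*n^4 - 4826250*n^2 + 15154425)*β^4
      + (87750*n^6 - 2457000*n^4 + 26167050*n^2 - 100456200)*(Z2 s a p q)
      + (-29250*n^6 + 819000*n^4 - 8722350*n^2 + 33485400)*(Z1 s a q)*a

/-- cofactor -/
def KA7 (n s a p q β g : K) : K :=
    (KA7_1 n s a p q β g + KA7_2 n s a p q β g) / 4633200

/-- cofactor -/
def KB7 (n s a p q β g : K) : K :=
    ((-65*n^6 + 2275*n^4 - 28028*n^2 + 132288)*g^3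
      + (40*n^6 - 3080*n^4 + 75040*n^2 - 576000)*a^3
      + (-180*n^6 + 13860*n^4 - 337680*n^2 + 2592000)*a*p
      + (-4095*n^4 + 77805*n^2 - 520884)*β^2*g) / 46332

end TDP
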