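import Pool.Agent.Lib.MP_d0515f_al.Chain

/-! The systematic feasible values: an explicit factorisation. -/

namespace TDP

open Module

variable {K V : Type*} [Field K] [AddCommGroup V] [Module K V]

/-- the basis vector `e_j` of the free space -/
noncomputable def ifE (K : Type*) [Field K] (j : ℕ) : ℕ →₀ K := Finsupp.single j 1

/-- the diagonal entries of `T_m` -/
def ifD (κ c ρ₁ ρ₂ d m : K) (j : ℕ) : K :=
  (κ + m * (c + ρ₁)) + (ρ₁ + (ρ₂ + m * c) - ((d + 1 - m) - 2) * c) * j + 2 * c * (j : K) ^ 2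

/-- the superdiagonal entries of `T_m` -/
def ifψ (c ρ₁ ρ₂ d m : K) (j : ℕ) : K :=
  (j : K) * ((j : K) - (d + 1 - m)) * ((c * j + ρ₁) * (c * j + (ρ₂ + m * c)))

/-- the numbers `α^{(m)}_j` -/
def ifα (c ρ₂ d m : K) (j : ℕ) : K :=
  ((j : K) + 1 - (d + 1 - m)) * (c * ((j : K) + 1) + (ρ₂ + m * c))

/-- the operators `T_m` on the free space -/
noncomputable def ifT (κ c ρ₁ ρ₂ d m : K) : Module.End K (ℕ →₀ K) :=
  Finsupp.linearCombination K (fun j : ℕ =>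
    ifE K (j + 1) + ifD κ c ρ₁ ρ₂ d m j • ifE K j + ifψ c ρ₁ ρ₂ d m j • ifE K (j - 1))

/-- the operators `N + α^{(m)}` on the free space -/
noncomputable def ifP (c ρ₂ d m : K) : Module.End K (ℕ →₀ K) :=
  Finsupp.linearCombination K (fun j : ℕ => ifE K (j + 1) + ifα c ρ₂ d m j • ifE K j)

theorem ifT_e (κ c ρ₁ ρ₂ d m : K) (j : ℕ) :
    ifT κ c ρ₁ ρ₂ d m (ifE K j) =
      ifE K (j + 1) + ifD κ c ρ₁ ρ₂ d m j • ifE K j + ifψ c ρ₁ ρ₂ d m j • ifE K (j - 1) := by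
  simp [ifT, ifE, Finsupp.linearCombination_single]

theorem ifP_e (c ρ₂ d m : K) (j : ℕ) :
    ifP c ρ₂ d m (ifE K j) = ifE K (j + 1) + ifα c ρ₂ d m j • ifE K j := by
  simp [ifP, ifE, Finsupp.linearCombination_single]

theorem ifT_ifP_e (κ c ρ₁ ρ₂ d m : K) (j : ℕ) :
    ifT κ c ρ₁ ρ₂ d m (ifP c ρ₂ d m (ifE K j)) =
      ifP c ρ₂ d m (ifT κ c ρ₁ ρ₂ d (m + 1) (ifE K j)) := by
  rcases j with _ | j
  · rw [ifP_e, ifT_e, map_add, map_smul, ifT_e, ifT_e, map_add, map_add, map_smul, map_smul,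
      ifP_e, ifP_e]
    simp only [Nat.zero_sub, Nat.zero_add]
    simp only [ifD, ifψ, ifα]
    push_cast
    module
  · rw [ifP_e, ifT_e, map_add, map_smul, ifT_e, ifT_e, map_add, map_add, map_smul, map_smul,
      ifP_e, ifP_e, Nat.add_sub_cancel, Nat.add_sub_cancel, ifP_e]
    simp only [ifD, ifψ, ifα]
    push_cast
    module

theorem ifT_ifP (κ c ρ₁ ρ₂ d m : K) (x : ℕ →₀ K) :
    ifT κ c ρ₁ ρ₂ d m (ifP c ρ₂ d m x) = ifP c ρ₂ d m (ifT κ c ρ₁ ρ₂ d (m + 1) x) := by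
  have h : (ifT κ c ρ₁ ρ₂ d m).comp (ifP c ρ₂ d m) =
      (ifP c ρ₂ d m).comp (ifT κ c ρ₁ ρ₂ d (m + 1)) := by
    ext1 j
    ext1
    simpa [ifE] using ifT_ifP_e κ c ρ₁ ρ₂ d m j
  exact LinearMap.congr_fun h x

/-- the eigenvalues -/
def ifμ (κ c ρ₁ ρ₂ : K) (d k : ℕ) : K :=
  κ + (k : K) * (c + ρ₁) + ((d : K) - k) * (((k : K) + 1) * c + ρ₂)

theorem if_rr_succ (κ c ρ₁ ρ₂ : K) (d m p : ℕ) :
    rr (ifT κ c ρ₁ ρ₂ (d : K) m) (fun k => ifμ κ c ρ₁ ρ₂ d (m + k)) (ifE K 0) (p + 1) =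
      ifP c ρ₂ (d : K) m
        (rr (ifT κ c ρ₁ ρ₂ (d : K) ((m : K) + 1)) (fun k => ifμ κ c ρ₁ ρ₂ d (m + 1 + k))
          (ifE K 0) p) := by
  induction p with
  | zero =>
    simp only [rr]
    rw [ifT_e, ifP_e]
    simp only [ifD, ifψ, ifα, ifμ]
    push_cast
    module
  | succ p ih =>
    have e1 : rr (ifT κ c ρ₁ ρ₂ (d : K) m) (fun k => ifμ κ c ρ₁ ρ₂ d (m + k)) (ifE K 0) (p + 1 + 1)
        = ifT κ c ρ₁ ρ₂ (d : K) m
            (rr (ifT κ c ρ₁ ρ₂ (d : K) m) (fun k => ifμ κ c ρ₁ ρ₂ d (m + k)) (ifE K 0) (p + 1))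
          - ifμ κ c ρ₁ ρ₂ d (m + (p + 1)) •
            (rr (ifT κ c ρ₁ ρ₂ (d : K) m) (fun k => ifμ κ c ρ₁ ρ₂ d (m + k)) (ifE K 0) (p + 1)) := rfl
    have e2 : rr (ifT κ c ρ₁ ρ₂ (d : K) ((m : K) + 1)) (fun k => ifμ κ c ρ₁ ρ₂ d (m + 1 + k))
          (ifE K 0) (p + 1)
        = ifT κ c ρ₁ ρ₂ (d : K) ((m : K) + 1)
            (rr (ifT κ c ρ₁ ρ₂ (d : K) ((m : K) + 1)) (fun k => ifμ κ c ρ₁ ρ₂ d (m + 1 + k))
              (ifE K 0) p)
          - ifμ κ c ρ₁ ρ₂ d (m + 1 + p) •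
            (rr (ifT κ c ρ₁ ρ₂ (d : K) ((m : K) + 1)) (fun k => ifμ κ c ρ₁ ρ₂ d (m + 1 + k))
              (ifE K 0) p) := rfl
    rw [e1, e2, ih, ifT_ifP, map_sub, map_smul]
    congr 2
    congr 1
    omega

theorem if_rr_free (κ c ρ₁ ρ₂ : K) (d : ℕ) : ∀ (q m : ℕ), m + q = d + 1 →
    rr (ifT κ c ρ₁ ρ₂ (d : K) m) (fun k => ifμ κ c ρ₁ ρ₂ d (m + k)) (ifE K 0) q = ifE K q := by
  intro q
  induction q with
  | zero => intro m _; rfl
  | succ q ih =>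
    intro m hm
    have h1 := ih (m + 1) (by omega)
    push_cast at h1
    rw [if_rr_succ, h1, ifP_e]
    have hc : (m : K) + ((q : K) + 1) = (d : K) + 1 := by exact_mod_cast congrArg (Nat.cast (R := K)) hm
    have : ifα c ρ₂ (d : K) m q = 0 := by
      unfold ifα
      have : (q : K) + 1 - ((d : K) + 1 - m) = 0 := by rw [← hc]; ring
      rw [this, zero_mul]
    rw [this, zero_smul, add_zero]

theorem if_part {T : Module.End K V} {d : ℕ} {r : ℕ → V} {D ψ : ℕ → K}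
    (h : Chain T (d + 1) r D ψ) (κ c ρ₁ ρ₂ : K)
    (hD : ∀ j : ℕ, D j = κ + (ρ₁ + ρ₂ - ((d : K) - 1) * c) * j + 2 * c * (j : K) ^ 2)
    (hψ : ∀ j : ℕ, ψ j = (j : K) * ((j : K) - (d + 1)) * ((c * j + ρ₁) * (c * j + ρ₂))) :
    rr T (fun k => κ + (k : K) * (c + ρ₁) + ((d : K) - k) * (((k : K) + 1) * c + ρ₂))
      (r 0) (d + 1) = 0 := by
  let φ : (ℕ →₀ K) →ₗ[K] V := Finsupp.linearCombination K r
  have hφ : ∀ j, φ (ifE K j) = r j := by
    intro j; simp [φ, ifE, Finsupp.linearCombination_single]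
  have hT : ∀ x, T (φ x) = φ (ifT κ c ρ₁ ρ₂ (d : K) 0 x) := by
    intro x
    have hc : T.comp φ = φ.comp (ifT κ c ρ₁ ρ₂ (d : K) 0) := by
      ext1 j
      ext1
      have key : T (φ (ifE K j)) = φ (ifT κ c ρ₁ ρ₂ (d : K) 0 (ifE K j)) := by
        rw [ifT_e, map_add, map_add, map_smul, map_smul, hφ, hφ, hφ]
        rcases j with _ | j
        · rw [h.zero, hD 0]
          simp [ifD, ifψ]
        · rw [h.succ, hD (j + 1), hψ (j + 1), Nat.add_sub_cancel]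
          simp only [ifD, ifψ]
          push_cast
          module
      simpa [ifE] using key
    exact LinearMap.congr_fun hc x
  have hrr : ∀ k, rr T (fun k => κ + (k : K) * (c + ρ₁) + ((d : K) - k) * (((k : K) + 1) * c + ρ₂))
      (r 0) k = φ (rr (ifT κ c ρ₁ ρ₂ (d : K) ((0 : ℕ) : K)) (fun k => ifμ κ c ρ₁ ρ₂ d (0 + k))
        (ifE K 0) k) := by
    intro k
    induction k with
    | zero => exact (hφ 0).symm
    | succ k ih =>
      simp only [rr]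
      rw [ih, hT, map_sub, map_smul, Nat.cast_zero]
      simp only [ifμ, Nat.zero_add]
  rw [hrr, if_rr_free κ c ρ₁ ρ₂ d (d + 1) 0 (by omega), hφ]
  exact h.r_end (d + 1) le_rfl

end TDP
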