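import Mathlib

/-! Checking identities between polynomials with integer coefficients by one evaluation
at a rapidly growing integer point. -/

namespace TDP

/-- polynomial expressions with integer coefficients -/
inductive Ex
  | c (z : ℤ)
  | v (i : ℕ)
  | add (a b : Ex)
  | mul (a b : Ex)

namespace Ex

/-- value in a commutative ring -/
def ev {R : Type*} [CommRing R] (ρ : ℕ → R) : Ex → R
  | c z => (z : R)
  | v i => ρ i
  | add a b => ev ρ a + ev ρ b
  | mul a b => ev ρ a * ev ρ b

/-- value with absolute values of the coefficients -/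
def av (ρ : ℕ → ℕ) : Ex → ℕ
  | c z => z.natAbs
  | v i => ρ i
  | add a b => av ρ a + av ρ b
  | mul a b => av ρ a * av ρ b

/-- substitution -/
def sub (σ : ℕ → Ex) : Ex → Ex
  | c z => c z
  | v i => σ i
  | add a b => add (sub σ a) (sub σ b)
  | mul a b => mul (sub σ a) (sub σ b)

/-- sums -/
def sm (f : ℕ → Ex) : ℕ → Ex
  | 0 => c 0
  | n + 1 => add (sm f n) (f n)

/-- weighted degree -/
def wd (w : ℕ → ℕ) : Ex → ℕ
  | c _ => 0
  | v i => w i
  | add a b => max (wd w a) (wd w b)
  | mul a b => wd w a + wd w b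

theorem ev_sub {R : Type*} [CommRing R] (ρ : ℕ → R) (σ : ℕ → Ex) (e : Ex) :
    ev ρ (sub σ e) = ev (fun i => ev ρ (σ i)) e := by
  induction e with
  | c z => rfl
  | v i => rfl
  | add a b ha hb => simp only [sub, ev, ha, hb]
  | mul a b ha hb => simp only [sub, ev, ha, hb]

theorem av_sub (ρ : ℕ → ℕ) (σ : ℕ → Ex) (e : Ex) :
    av ρ (sub σ e) = av (fun i => av ρ (σ i)) e := by
  induction e with
  | c z => rfl
  | v i => rfl
  | add a b ha hb => simp only [sub, av, ha, hb]
  | mul a b ha hb => simp only [sub, av, ha, hb]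

theorem ev_sm {R : Type*} [CommRing R] (ρ : ℕ → R) (f : ℕ → Ex) (n : ℕ) :
    ev ρ (sm f n) = ∑ j ∈ Finset.range n, ev ρ (f j) := by
  induction n with
  | zero => simp [sm, ev]
  | succ n ih => rw [Finset.sum_range_succ, ← ih]; rfl

theorem av_sm (ρ : ℕ → ℕ) (f : ℕ → Ex) (n : ℕ) :
    av ρ (sm f n) = ∑ j ∈ Finset.range n, av ρ (f j) := by
  induction n with
  | zero => simp [sm, av]
  | succ n ih => rw [Finset.sum_range_succ, ← ih]; rfl

theorem ev_hom {R R' : Type*} [CommRing R] [CommRing R'] (f : R →+* R') (ρ : ℕ → R) (e : Ex) :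
    f (ev ρ e) = ev (fun i => f (ρ i)) e := by
  induction e with
  | c z => simp [ev]
  | v i => rfl
  | add a b ha hb => simp only [ev, map_add, ha, hb]
  | mul a b ha hb => simp only [ev, map_mul, ha, hb]

theorem ev_congr {R : Type*} [CommRing R] {ρ ρ' : ℕ → R} (h : ∀ i, ρ i = ρ' i) (e : Ex) :
    ev ρ e = ev ρ' e := by
  have : ρ = ρ' := funext h
  rw [this]

end Ex

open Ex

/-- a discrete submultiplicative norm -/
structure Nrm (S : Type) [CommRing S] where
  /-- the norm -/
  N : S → ℕ
  zero_iff : ∀ a, N a = 0 ↔ a = 0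
  add : ∀ a b, N (a + b) ≤ N a + N b
  mul : ∀ a b, N (a * b) ≤ N a * N b
  int : ∀ z : ℤ, N (z : S) ≤ z.natAbs
  smul : ∀ (m : ℕ) (a : S), N ((m : S) * a) = m * N a

/-- the norm of the integers -/
def nrmInt : Nrm ℤ where
  N := Int.natAbs
  zero_iff := fun a => Int.natAbs_eq_zero
  add := fun a b => Int.natAbs_add_le a b
  mul := fun a b => (Int.natAbs_mul a b).le
  int := fun z => by simp
  smul := fun m a => by simp [Int.natAbs_mul]

section poly

open Polynomial

variable {S : Type} [CommRing S] (ν : Nrm S)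

theorem Nrm.z : ν.N 0 = 0 := (ν.zero_iff 0).2 rfl

/-- the sum of the norms of the coefficients -/
noncomputable def nP (P : S[X]) : ℕ := ∑ i ∈ P.support, ν.N (P.coeff i)

theorem nP_eq (P : S[X]) (n : ℕ) (h : ∀ i, n ≤ i → P.coeff i = 0) :
    nP ν P = ∑ i ∈ Finset.range n, ν.N (P.coeff i) := by
  apply Finset.sum_subset
  · intro i hi
    rw [Finset.mem_range]
    by_contra hc
    exact (mem_support_iff.1 hi) (h i (not_lt.1 hc))
  · intro i _ hi
    rw [notMem_support_iff.1 hi, ν.z]

theorem exists_bd (P : S[X]) : ∃ n : ℕ, ∀ i, n ≤ i → P.coeff i = 0 :=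
  ⟨P.natDegree + 1, fun i hi => coeff_eq_zero_of_natDegree_lt (by omega)⟩

theorem nP_zero_iff (P : S[X]) : nP ν P = 0 ↔ P = 0 := by
  constructor
  · intro h
    rw [nP, Finset.sum_eq_zero_iff] at h
    by_contra hP
    obtain ⟨i, hi⟩ := (support_nonempty (p := P)).2 hP
    exact (mem_support_iff.1 hi) ((ν.zero_iff _).1 (h i hi))
  · rintro rfl
    simp [nP]

theorem nP_divX (P : S[X]) : nP ν P = nP ν P.divX + ν.N (P.coeff 0) := by
  obtain ⟨n, hn⟩ := exists_bd P
  rw [nP_eq ν P (n + 1) (fun i hi => hn i (by omega)), Finset.sum_range_succ',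
    nP_eq ν P.divX n (fun i hi => by rw [coeff_divX]; exact hn _ (by omega))]
  simp only [coeff_divX]

theorem nP_add (P Q : S[X]) : nP ν (P + Q) ≤ nP ν P + nP ν Q := by
  obtain ⟨n, hn⟩ := exists_bd P
  obtain ⟨m, hm⟩ := exists_bd Q
  rw [nP_eq ν P (n + m) (fun i hi => hn i (by omega)),
    nP_eq ν Q (n + m) (fun i hi => hm i (by omega)),
    nP_eq ν (P + Q) (n + m) (fun i hi => by
      rw [coeff_add, hn i (by omega), hm i (by omega), add_zero]), ← Finset.sum_add_distrib]
  apply Finset.sum_le_sum
  intro i _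
  rw [coeff_add]
  exact ν.add _ _

theorem nP_mul_X (P : S[X]) : nP ν (P * X) = nP ν P := by
  rw [nP_divX ν (P * X)]
  have h1 : (P * X).coeff 0 = 0 := by simp
  have h2 : (P * X).divX = P := by
    ext i
    rw [coeff_divX, coeff_mul_X]
  rw [h1, h2, ν.z, add_zero]

theorem nP_C_mul (a : S) (Q : S[X]) : nP ν (C a * Q) ≤ ν.N a * nP ν Q := by
  obtain ⟨m, hm⟩ := exists_bd Q
  rw [nP_eq ν Q m hm, nP_eq ν (C a * Q) m (fun i hi => by
    rw [coeff_C_mul, hm i hi, mul_zero]), Finset.mul_sum]
  apply Finset.sum_le_sum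
  intro i _
  rw [coeff_C_mul]
  exact ν.mul _ _

theorem nP_mul (Q : S[X]) : ∀ (n : ℕ) (P : S[X]), (∀ i, n ≤ i → P.coeff i = 0) →
    nP ν (P * Q) ≤ nP ν P * nP ν Q := by
  intro n
  induction n with
  | zero =>
    intro P hP
    have : P = 0 := by
      ext i
      rw [hP i (Nat.zero_le i), coeff_zero]
    rw [this, zero_mul, (nP_zero_iff ν 0).2 rfl, zero_mul]
  | succ n ih =>
    intro P hP
    have e : P * Q = (P.divX * Q) * X + C (P.coeff 0) * Q := by
      conv_lhs => rw [← divX_mul_X_add P]
      ring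
    have ih' := ih P.divX (fun i hi => by rw [coeff_divX]; exact hP _ (by omega))
    calc nP ν (P * Q) = nP ν ((P.divX * Q) * X + C (P.coeff 0) * Q) := by rw [← e]
      _ ≤ nP ν ((P.divX * Q) * X) + nP ν (C (P.coeff 0) * Q) := nP_add ν _ _
      _ ≤ nP ν P.divX * nP ν Q + ν.N (P.coeff 0) * nP ν Q := by
          rw [nP_mul_X]
          exact Nat.add_le_add ih' (nP_C_mul ν _ _)
      _ = nP ν P * nP ν Q := by rw [nP_divX ν P]; ring

theorem nP_C (a : S) : nP ν (C a) = ν.N a := by
  rw [nP_eq ν (C a) 1 (fun i hi => by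
    rw [coeff_C, if_neg (by omega)])]
  simp

theorem nP_X : nP ν (X : S[X]) ≤ 1 := by
  have h : (X : S[X]) = C 1 * X := by simp
  rw [h, nP_mul_X, nP_C]
  simpa using ν.int 1

theorem nP_smul (m : ℕ) (P : S[X]) : nP ν ((m : S[X]) * P) = m * nP ν P := by
  obtain ⟨n, hn⟩ := exists_bd P
  have e : (m : S[X]) = C (m : S) := by simp
  rw [nP_eq ν P n hn, nP_eq ν ((m : S[X]) * P) n (fun i hi => by
    rw [e, coeff_C_mul, hn i hi, mul_zero]), Finset.mul_sum]
  apply Finset.sum_congr rfl
  intro i _
  rw [e, coeff_C_mul]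
  exact ν.smul _ _

/-- the norm of polynomials -/
noncomputable def nrmPoly : Nrm S[X] where
  N := nP ν
  zero_iff := nP_zero_iff ν
  add := nP_add ν
  mul := fun P Q => by
    obtain ⟨n, hn⟩ := exists_bd P
    exact nP_mul ν Q n P hn
  int := fun z => by
    have e : (z : S[X]) = C (z : S) := by simp
    rw [e, nP_C]
    exact ν.int z
  smul := nP_smul ν

/-- a polynomial of small norm is determined by its value at a large integer -/
theorem eq_zero_of_eval (m : ℕ) : ∀ (n : ℕ) (P : S[X]), (∀ i, n ≤ i → P.coeff i = 0) →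
    nP ν P ≤ m → P.eval (m : S) = 0 → P = 0 := by
  intro n
  induction n with
  | zero =>
    intro P hP _ _
    ext i
    rw [hP i (Nat.zero_le i), coeff_zero]
  | succ n ih =>
    intro P hP hN h0
    have e := divX_mul_X_add P
    have h1 : (P.divX).eval (m : S) * (m : S) + P.coeff 0 = 0 := by
      have := congrArg (fun Q : S[X] => Q.eval (m : S)) e
      simp only [eval_add, eval_mul, eval_X, eval_C] at this
      rw [this, h0]
    have h2 : ν.N (P.coeff 0) = m * ν.N ((P.divX).eval (m : S)) := by
      have e2 : P.coeff 0 = ((-1 : ℤ) : S) * ((m : S) * (P.divX).eval (m : S)) := by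
        push_cast
        linear_combination h1
      apply le_antisymm
      · rw [e2, ← ν.smul m]
        calc _ ≤ ν.N (((-1 : ℤ) : S)) * ν.N ((m : S) * (P.divX).eval (m : S)) := ν.mul _ _
          _ ≤ 1 * ν.N ((m : S) * (P.divX).eval (m : S)) :=
              Nat.mul_le_mul_right _ (by simpa using ν.int (-1))
          _ = _ := one_mul _
      · have e3 : (m : S) * (P.divX).eval (m : S) = ((-1 : ℤ) : S) * P.coeff 0 := by
          push_cast
          linear_combination h1
        rw [← ν.smul m, e3]
        calc _ ≤ ν.N (((-1 : ℤ) : S)) * ν.N (P.coeff 0) := ν.mul _ _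
          _ ≤ 1 * ν.N (P.coeff 0) := Nat.mul_le_mul_right _ (by simpa using ν.int (-1))
          _ = _ := one_mul _
    have h3 := nP_divX ν P
    have h4 : (P.divX).eval (m : S) = 0 := by
      by_contra hc
      have h5 : 1 ≤ ν.N ((P.divX).eval (m : S)) := by
        rw [Nat.one_le_iff_ne_zero]
        intro h6
        exact hc ((ν.zero_iff _).1 h6)
      have h7 : m ≤ ν.N (P.coeff 0) := by
        rw [h2]
        exact Nat.le_mul_of_pos_right m h5
      have h8 : nP ν P.divX = 0 := by omega
      rw [(nP_zero_iff ν _).1 h8, eval_zero] at hc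
      exact hc rfl
    have h9 : P.coeff 0 = 0 := by
      rw [h4, zero_mul, zero_add] at h1
      exact h1
    have h10 : P.divX = 0 := ih P.divX (fun i hi => by
      rw [coeff_divX]; exact hP _ (by omega)) (by omega) h4
    rw [← e, h9, h10]
    simp

end poly

theorem N_ev_le {S : Type} [CommRing S] (ν : Nrm S) (ρ : ℕ → S) (b : ℕ → ℕ)
    (h : ∀ i, ν.N (ρ i) ≤ b i) (e : Ex) : ν.N (ev ρ e) ≤ av b e := by
  induction e with
  | c z => exact ν.int z
  | v i => exact h i
  | add x y hx hy => exact (ν.add _ _).trans (Nat.add_le_add hx hy)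
  | mul x y hx hy => exact (ν.mul _ _).trans (Nat.mul_le_mul hx hy)

theorem kron_aux (e : Ex) (m : ℕ → ℕ) {R : Type*} [CommRing R] (r : ℕ → R) :
    ∀ (k : ℕ) (S : Type) [CommRing S] (ν : Nrm S) (σ : ℕ → S),
      (∀ i, k ≤ i → ν.N (σ i) ≤ 1) →
      (∃ f : S →+* R, ∀ i, k ≤ i → f (σ i) = r i) →
      (∀ j, j < k → av (fun i => if i < j then m i else 1) e ≤ m j) →
      ev (fun i => if i < k then (m i : S) else σ i) e = 0 → ev r e = 0 := by
  intro k
  induction k with
  | zero =>
    intro S _ ν σ _ hf _ h0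
    obtain ⟨f, hf⟩ := hf
    have h1 := congrArg f h0
    rw [map_zero, ev_hom] at h1
    rw [← h1]
    apply ev_congr
    intro i
    simp [hf i (Nat.zero_le i)]
  | succ k ih =>
    intro S _ ν σ hσ hf hm h0
    obtain ⟨f, hf⟩ := hf
    refine ih (Polynomial S) (nrmPoly ν)
      (fun i => if i = k then Polynomial.X else Polynomial.C (σ i)) ?_ ?_
      (fun j hj => hm j (by omega)) ?_
    · intro i hi
      by_cases hik : i = k
      · simp only [hik, if_true]
        exact nP_X ν
      · simp only [hik, if_false]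
        change nP ν (Polynomial.C (σ i)) ≤ 1
        rw [nP_C]
        exact hσ i (by omega)
    · refine ⟨Polynomial.eval₂RingHom f (r k), ?_⟩
      intro i hi
      by_cases hik : i = k
      · simp [hik]
      · simp [hik, hf i (by omega)]
    · set P : Polynomial S := ev (fun i => if i < k then (m i : Polynomial S) else
        (if i = k then Polynomial.X else Polynomial.C (σ i))) e with hP
      obtain ⟨n, hn⟩ := exists_bd P
      apply eq_zero_of_eval ν (m k) n P hn
      · refine le_trans ?_ (hm k (Nat.lt_succ_self k))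
        apply N_ev_le (nrmPoly ν)
        intro i
        by_cases h1 : i < k
        · simp only [h1, if_true]
          have := (nrmPoly ν).int (m i)
          simpa using this
        · simp only [h1, if_false]
          by_cases hik : i = k
          · simp only [hik, if_true]
            exact nP_X ν
          · simp only [hik, if_false]
            change nP ν (Polynomial.C (σ i)) ≤ 1
            rw [nP_C]
            exact hσ i (by omega)
      · have h2 := ev_hom (Polynomial.evalRingHom (m k : S)) (fun i => if i < k then (m i : Polynomial S) else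
          (if i = k then Polynomial.X else Polynomial.C (σ i))) e
        rw [Polynomial.coe_evalRingHom] at h2
        rw [hP, h2, ← h0]
        apply ev_congr
        intro i
        rcases lt_trichotomy i k with h1 | h1 | h1
        · simp [h1, Nat.lt_succ_of_lt h1]
        · simp [h1]
        · have h3 : ¬ i < k := by omega
          have h4 : ¬ i < k + 1 := by omega
          have h5 : i ≠ k := by omega
          simp [h3, h4, h5]

/-- the check: an expression in `k` variables vanishes identically as soon as it vanishes at a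
rapidly growing integer point -/
theorem kron (e : Ex) (k : ℕ) (m : ℕ → ℕ)
    (hm : ∀ j, j < k → av (fun i => if i < j then m i else 1) e ≤ m j)
    (h0 : ev (fun i => if i < k then (m i : ℤ) else 0) e = 0)
    {R : Type*} [CommRing R] (r : ℕ → R) (hr : ∀ i, k ≤ i → r i = 0) : ev r e = 0 := by
  apply kron_aux e m r k ℤ nrmInt (fun _ => 0)
  · intro i _
    simp [nrmInt]
  · exact ⟨Int.castRingHom R, fun i hi => by simp [hr i hi]⟩
  · exact hm
  · exact h0

end TDP
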