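import Pool.Agent.Lib.MP_d0515f_al.KR1

/-! Sums over `j < n` of polynomials in `n` and `j` are polynomials in `n`. -/

namespace TDP

open Ex Polynomial

variable {K : Type*} [Field K]

/-- discrete antiderivatives of polynomials of degree `< n`, when `1, ..., n` are nonzero -/
theorem anti (n : ℕ) : (∀ i : ℕ, 0 < i → i ≤ n → (i : K) ≠ 0) →
    ∀ P : K[X], (∀ i, n ≤ i → P.coeff i = 0) →
    ∃ Q : K[X], Q.natDegree ≤ n ∧ ∀ x : K, Q.eval (x + 1) - Q.eval x = P.eval x := by
  induction n with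
  | zero =>
    intro _ P hP
    have : P = 0 := by
      ext i
      rw [hP i (Nat.zero_le i), coeff_zero]
    exact ⟨0, by simp, fun x => by simp [this]⟩
  | succ n ih =>
    intro hK P hP
    have hn : ((n : K) + 1) ≠ 0 := by exact_mod_cast hK (n + 1) (Nat.succ_pos n) le_rfl
    obtain ⟨Q, hQ1, hQ2⟩ := ih (fun i h1 h2 => hK i h1 (by omega))
      (P - C (P.coeff n / (n + 1)) * ((X + 1) ^ (n + 1) - X ^ (n + 1))) (by
        intro i hi
        rw [coeff_sub, coeff_C_mul, coeff_sub, coeff_X_add_one_pow, coeff_X_pow]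
        rcases eq_or_lt_of_le hi with rfl | hi
        · rw [if_neg (by omega), Nat.choose_succ_self_right]
          push_cast
          field_simp
          ring
        · rw [hP i hi]
          rcases eq_or_lt_of_le (Nat.succ_le_of_lt hi) with h | h
          · subst h
            simp
          · rw [if_neg (by omega), Nat.choose_eq_zero_of_lt h]
            simp)
    refine ⟨Q + C (P.coeff n / (n + 1)) * X ^ (n + 1), ?_, ?_⟩
    · refine (natDegree_add_le _ _).trans (max_le (by omega) ?_)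
      exact natDegree_C_mul_X_pow_le _ _
    · intro x
      have h := hQ2 x
      simp only [eval_sub, eval_mul, eval_C, eval_pow, eval_add, eval_X, eval_one] at h ⊢
      linear_combination h

theorem pow_sum (p : ℕ) (hK : ∀ i : ℕ, 0 < i → i ≤ p + 1 → (i : K) ≠ 0) :
    ∃ Q : K[X], Q.natDegree ≤ p + 1 ∧
    ∀ N : ℕ, ∑ j ∈ Finset.range N, (j : K) ^ p = Q.eval (N : K) := by
  obtain ⟨Q, hQ1, hQ2⟩ := anti (p + 1) hK (X ^ p : K[X]) (by
    intro i hi
    rw [coeff_X_pow, if_neg (by omega)])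
  refine ⟨Q - C (Q.eval 0), ?_, ?_⟩
  · refine (natDegree_sub_le _ _).trans (max_le hQ1 ?_)
    simp
  · intro N
    induction N with
    | zero => simp
    | succ N ih =>
      rw [Finset.sum_range_succ, ih]
      have h := hQ2 (N : K)
      simp only [eval_sub, eval_C, eval_pow, eval_X] at h ⊢
      push_cast
      linear_combination -h

theorem poly_sum (G : MvPolynomial (Fin 2) K) (d : ℕ) (h : G.totalDegree ≤ d)
    (hK : ∀ i : ℕ, 0 < i → i ≤ d + 1 → (i : K) ≠ 0) :
    ∃ Q : K[X], Q.natDegree ≤ d + 1 ∧ ∀ N : ℕ,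
      ∑ j ∈ Finset.range N, MvPolynomial.eval ![(N : K), (j : K)] G = Q.eval (N : K) := by
  have key : ∀ p : ℕ, ∃ Q : K[X], p ≤ d → (Q.natDegree ≤ p + 1 ∧
      ∀ N : ℕ, ∑ j ∈ Finset.range N, (j : K) ^ p = Q.eval (N : K)) := by
    intro p
    by_cases hp : p ≤ d
    · obtain ⟨Q, hQ⟩ := pow_sum (K := K) p (fun i h1 h2 => hK i h1 (by omega))
      exact ⟨Q, fun _ => hQ⟩
    · exact ⟨0, fun h => absurd h hp⟩
  choose P hP using key
  have hdeg : ∀ μ ∈ G.support, μ 0 + μ 1 ≤ d := by
    intro μ hμ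
    have h1 : (μ.sum fun _ e => e) ≤ G.totalDegree := MvPolynomial.le_totalDegree hμ
    have h2 : (μ.sum fun _ e => e) = μ 0 + μ 1 := by
      rw [Finsupp.sum_fintype _ _ (fun _ => rfl), Fin.sum_univ_two]
    omega
  refine ⟨∑ μ ∈ G.support, C (G.coeff μ) * (X ^ (μ 0) * P (μ 1)), ?_, ?_⟩
  · apply natDegree_sum_le_of_forall_le
    intro μ hμ
    have h2 := hdeg μ hμ
    have h3 := (hP (μ 1) (by omega)).1
    refine (natDegree_C_mul_le _ _).trans ((natDegree_mul_le).trans ?_)
    have h4 : (X ^ (μ 0) : K[X]).natDegree ≤ μ 0 := natDegree_X_pow_le _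
    omega
  · intro N
    simp only [MvPolynomial.eval_eq', Fin.prod_univ_two, Matrix.cons_val_zero,
      Matrix.cons_val_one]
    rw [Finset.sum_comm, eval_finsetSum]
    apply Finset.sum_congr rfl
    intro μ hμ
    have h2 := hdeg μ hμ
    rw [eval_mul, eval_C, eval_mul, eval_pow, eval_X, ← (hP (μ 1) (by omega)).2, Finset.mul_sum,
      Finset.mul_sum]

theorem totalDegree_ev (ρ : ℕ → MvPolynomial (Fin 2) K) (w : ℕ → ℕ)
    (h : ∀ i, (ρ i).totalDegree ≤ w i) (e : Ex) : (ev ρ e).totalDegree ≤ wd w e := by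
  induction e with
  | c z =>
    have : ((z : ℤ) : MvPolynomial (Fin 2) K) = MvPolynomial.C (z : K) := by simp
    simp only [ev, wd]
    rw [this, MvPolynomial.totalDegree_C]
  | v i => exact h i
  | add a b ha hb =>
    exact (MvPolynomial.totalDegree_add _ _).trans (max_le_max ha hb)
  | mul a b ha hb =>
    exact (MvPolynomial.totalDegree_mul _ _).trans (Nat.add_le_add ha hb)

theorem natDegree_ev (ρ : ℕ → K[X]) (w : ℕ → ℕ)
    (h : ∀ i, (ρ i).natDegree ≤ w i) (e : Ex) : (ev ρ e).natDegree ≤ wd w e := by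
  induction e with
  | c z =>
    have : ((z : ℤ) : K[X]) = C (z : K) := by simp
    simp only [ev, wd]
    rw [this, natDegree_C]
  | v i => exact h i
  | add a b ha hb =>
    exact (natDegree_add_le _ _).trans (max_le_max ha hb)
  | mul a b ha hb =>
    exact (natDegree_mul_le).trans (Nat.add_le_add ha hb)

/-- two polynomial expressions, one of them a sum over `j < N`, agree for all `N` if they agree
for all small `N` -/
theorem sum_eq_of_small (W t : Ex) (D : ℕ) (ρ : ℕ → MvPolynomial (Fin 2) K) (w : ℕ → ℕ)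
    (hK : ∀ i : ℕ, 0 < i → i ≤ D + 1 → (i : K) ≠ 0)
    (hρ : ∀ i, (ρ i).totalDegree ≤ w i) (hW : wd w W ≤ D)
    (σ : ℕ → K[X]) (w' : ℕ → ℕ) (hσ : ∀ i, (σ i).natDegree ≤ w' i) (ht : wd w' t ≤ D + 1)
    (hs : ∀ N : ℕ, N ≤ D + 1 → ∑ j ∈ Finset.range N,
      ev (fun i => MvPolynomial.eval ![(N : K), (j : K)] (ρ i)) W =
        ev (fun i => (σ i).eval (N : K)) t) (N : ℕ) :
    ∑ j ∈ Finset.range N, ev (fun i => MvPolynomial.eval ![(N : K), (j : K)] (ρ i)) W =
        ev (fun i => (σ i).eval (N : K)) t := by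
  obtain ⟨Q, hQ1, hQ2⟩ := poly_sum (ev ρ W) D ((totalDegree_ev ρ w hρ W).trans hW) hK
  have e1 : ∀ N : ℕ, ∑ j ∈ Finset.range N,
      ev (fun i => MvPolynomial.eval ![(N : K), (j : K)] (ρ i)) W = Q.eval (N : K) := by
    intro N
    rw [← hQ2]
    apply Finset.sum_congr rfl
    intro j _
    exact (ev_hom (MvPolynomial.eval ![(N : K), (j : K)]) ρ W).symm
  have e2 : ∀ N : ℕ, ev (fun i => (σ i).eval (N : K)) t = (ev σ t).eval (N : K) := by
    intro N
    have := ev_hom (Polynomial.evalRingHom (N : K)) σ t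
    simp only [Polynomial.coe_evalRingHom] at this
    exact this.symm
  have h3 : (ev σ t).natDegree ≤ D + 1 := (natDegree_ev σ w' hσ t).trans ht
  have h4 : Q = ev σ t := by
    refine eq_of_natDegree_lt_card_of_eval_eq (R := K) Q (ev σ t)
      (ι := Fin (D + 2)) (f := fun i => ((i : ℕ) : K)) ?_ ?_ ?_
    · have key : ∀ i j : ℕ, i < j → j ≤ D + 1 → (i : K) ≠ (j : K) := by
        intro i j hij hj e
        apply hK (j - i) (by omega) (by omega)
        rw [Nat.cast_sub hij.le, e, sub_self]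
      intro i j hij
      have hij' : (((i : ℕ) : ℕ) : K) = (((j : ℕ) : ℕ) : K) := hij
      apply Fin.ext
      rcases lt_trichotomy (i : ℕ) (j : ℕ) with h | h | h
      · exact absurd hij' (key _ _ h (by omega))
      · exact h
      · exact absurd hij'.symm (key _ _ h (by omega))
    · intro i
      rw [← e1, ← e2]
      exact hs i (by omega)
    · rw [Fintype.card_fin]
      omega
  rw [e1, e2, h4]

end TDP
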