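import Pool.Agent.Lib.MP_d0515f_al.KR2

/-! The check of the trace identities by evaluation. -/

namespace TDP

open Ex

/-- kernel friendly evaluation in the integers -/
noncomputable def evZ (r : ℕ → ℤ) (e : Ex) : ℤ :=
  Ex.rec (motive := fun _ => ℤ) (fun z => z) (fun i => r i) (fun _ _ x y => Int.add x y)
    (fun _ _ x y => Int.mul x y) e

/-- kernel friendly evaluation of the majorant -/
noncomputable def avN (r : ℕ → ℕ) (e : Ex) : ℕ :=
  Ex.rec (motive := fun _ => ℕ) (fun z => z.natAbs) (fun i => r i) (fun _ _ x y => Nat.add x y)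
    (fun _ _ x y => Nat.mul x y) e

theorem evZ_eq (r : ℕ → ℤ) (e : Ex) : evZ r e = ev r e := by
  induction e with
  | c z => simp [evZ, ev]
  | v i => rfl
  | add a b ha hb => simp only [ev, ← ha, ← hb]; rfl
  | mul a b ha hb => simp only [ev, ← ha, ← hb]; rfl

theorem avN_eq (r : ℕ → ℕ) (e : Ex) : avN r e = av r e := by
  induction e with
  | c z => rfl
  | v i => rfl
  | add a b ha hb => simp only [av, ← ha, ← hb]; rfl
  | mul a b ha hb => simp only [av, ← ha, ← hb]; rfl

/-- symbolic local weights: variables `s, a, 18 p, q, F, n, j` -/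
def leE (i : ℕ) : Ex :=
  match i % 3 with
  | 0 => mul (c 2) (add (add (v 6) (c (((i / 3 : ℕ) : ℤ) - 4))) (c 1))
  | 1 => add (mul (mul (c 6) (add (mul (c 2) (add (v 6) (c (((i / 3 : ℕ) : ℤ) - 4))))
        (add (mul (c (-1)) (v 5)) (c 1)))) (v 0))
      (mul (add (mul (c 3) (mul (add (mul (c 2) (add (v 6) (c (((i / 3 : ℕ) : ℤ) - 4))))
        (add (mul (c (-1)) (v 5)) (c 1))) (add (mul (c 2) (add (v 6) (c (((i / 3 : ℕ) : ℤ) - 4))))
        (add (mul (c (-1)) (v 5)) (c 1))))) (add (mul (c (-1)) (mul (v 5) (v 5))) (c 1))) (v 1))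
  | _ => mul (add (add (v 6) (c (((i / 3 : ℕ) : ℤ) - 4))) (mul (c (-1)) (v 5)))
      (add (mul (mul (add (mul (c 2) (add (v 6) (c (((i / 3 : ℕ) : ℤ) - 4)))) (mul (c (-1)) (v 5)))
        (add (mul (c 2) (add (v 6) (c (((i / 3 : ℕ) : ℤ) - 4)))) (mul (c (-1)) (v 5)))) (v 2))
      (add (mul (mul (c 36) (add (mul (c 2) (add (v 6) (c (((i / 3 : ℕ) : ℤ) - 4))))
        (mul (c (-1)) (v 5)))) (v 3)) (mul (c 72) (v 4))))

/-- parameters of the local weights -/
def par7 {R : Type*} (s a P q F n j : R) (i : ℕ) : R :=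
  match i with
  | 0 => s
  | 1 => a
  | 2 => P
  | 3 => q
  | 4 => F
  | 5 => n
  | _ => j

/-- local weights -/
def le {R : Type*} [CommRing R] (s a P q F n j : R) (i : ℕ) : R :=
  ev (par7 s a P q F n j) (leE i)

theorem le_hom {R R' : Type*} [CommRing R] [CommRing R'] (f : R →+* R') (s a P q F n j : R)
    (i : ℕ) : f (le s a P q F n j i) = le (f s) (f a) (f P) (f q) (f F) (f n) (f j) i := by
  rw [le, ev_hom]
  apply ev_congr
  intro i
  match i with
  | 0 => rfl
  | 1 => rfl
  | 2 => rfl
  | 3 => rfl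
  | 4 => rfl
  | 5 => rfl
  | (n + 6) => rfl

/-- weights of the local variables -/
def w3 (i : ℕ) : ℕ := i % 3 + 1

/-- weights of the symbolic variables -/
def w7 (i : ℕ) : ℕ := if i < 5 then 0 else 1

theorem wd_leE (i : ℕ) : wd w7 (leE i) ≤ w3 i := by
  have h : i % 3 = 0 ∨ i % 3 = 1 ∨ i % 3 = 2 := by omega
  rcases h with h | h | h
  · simp only [leE, h, w3, wd, w7]; decide
  · simp only [leE, h, w3, wd, w7]; decide
  · simp only [leE, h, w3, wd, w7]; decide

/-- local weights at numeric `N, j`, with `A` in place of `a` and `P` in place of `18 p` -/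
def loc (A P : Ex) (N j i : ℕ) : Ex :=
  match i % 3 with
  | 0 => c (2 * (Int.ofNat j + Int.ofNat (i / 3) - 3))
  | 1 => add (mul (c (6 * (2 * (Int.ofNat j + Int.ofNat (i / 3) - 4) - Int.ofNat N + 1))) (v 0))
      (mul (c (3 * ((2 * (Int.ofNat j + Int.ofNat (i / 3) - 4) - Int.ofNat N + 1) *
        (2 * (Int.ofNat j + Int.ofNat (i / 3) - 4) - Int.ofNat N + 1))
          - Int.ofNat N * Int.ofNat N + 1)) A)
  | _ => mul (c (Int.ofNat j + Int.ofNat (i / 3) - 4 - Int.ofNat N))
      (add (mul (c ((2 * (Int.ofNat j + Int.ofNat (i / 3) - 4) - Int.ofNat N) *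
        (2 * (Int.ofNat j + Int.ofNat (i / 3) - 4) - Int.ofNat N))) P)
      (add (mul (c (36 * (2 * (Int.ofNat j + Int.ofNat (i / 3) - 4) - Int.ofNat N))) (v 3))
        (mul (c 72) (v 4))))

theorem ev_loc {R : Type*} [CommRing R] (ρ : ℕ → R) (A P : Ex) (N j i : ℕ) :
    ev ρ (loc A P N j i) =
      le (ρ 0) (ev ρ A) (ev ρ P) (ρ 3) (ρ 4) (N : R) (j : R) i := by
  have h : i % 3 = 0 ∨ i % 3 = 1 ∨ i % 3 = 2 := by omega
  rcases h with h | h | h
  · simp only [loc, le, leE, h, ev, par7, Int.ofNat_eq_natCast]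
    push_cast
    ring
  · simp only [loc, le, leE, h, ev, par7, Int.ofNat_eq_natCast]
    push_cast
    ring
  · simp only [loc, le, leE, h, ev, par7, Int.ofNat_eq_natCast]
    push_cast
    ring

/-- sum of the walk expression over `j < k` -/
noncomputable def ZW (W A P : Ex) (f : ℕ → ℤ) (N k : ℕ) : ℤ :=
  Nat.rec (motive := fun _ => ℤ) 0
    (fun j x => Int.add x (evZ (fun i => evZ f (loc A P N j i)) W)) k

/-- sum of the majorant of the walk expression over `j < k` -/
noncomputable def NW (W A P : Ex) (f : ℕ → ℕ) (N k : ℕ) : ℕ :=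
  Nat.rec (motive := fun _ => ℕ) 0
    (fun j x => Nat.add x (avN (fun i => avN f (loc A P N j i)) W)) k

theorem ZW_eq (W A P : Ex) (f : ℕ → ℤ) (N k : ℕ) : ZW W A P f N k =
    ∑ j ∈ Finset.range k, ev (fun i => ev f (loc A P N j i)) W := by
  induction k with
  | zero => rfl
  | succ k ih =>
    rw [Finset.sum_range_succ, ← ih]
    have : (fun i => ev f (loc A P N k i)) = fun i => evZ f (loc A P N k i) := by
      funext i
      rw [evZ_eq]
    rw [this, ← evZ_eq]
    rfl

theorem NW_eq (W A P : Ex) (f : ℕ → ℕ) (N k : ℕ) : NW W A P f N k =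
    ∑ j ∈ Finset.range k, av (fun i => av f (loc A P N j i)) W := by
  induction k with
  | zero => rfl
  | succ k ih =>
    rw [Finset.sum_range_succ, ← ih]
    have : (fun i => av f (loc A P N k i)) = fun i => avN f (loc A P N k i) := by
      funext i
      rw [avN_eq]
    rw [this, ← avN_eq]
    rfl

/-- global variables at numeric `N` -/
def gl (N i : ℕ) : Ex := if i = 5 then c N else v i

/-- the difference of both sides -/
def dif (W t A P : Ex) (N : ℕ) : Ex :=
  add (sm (fun j => sub (loc A P N j) W) N) (mul (c (-1)) (sub (gl N) t))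

/-- evaluation point with five formal variables -/
noncomputable def fm (m : ℕ → ℕ) (i : ℕ) : ℤ :=
  cond (Nat.blt i 5) (Int.ofNat (m i)) 0

/-- truncated evaluation point -/
noncomputable def gm (m : ℕ → ℕ) (j i : ℕ) : ℕ :=
  cond (Nat.blt i j) (m i) 1

/-- the check of the identity for one `N` -/
noncomputable def ck (W t A P : Ex) (m : ℕ → ℕ) (N : ℕ) : Bool :=
  decide (ZW W A P (fm m) N N =
    evZ (fun i => cond (Nat.beq i 5) (Int.ofNat N) (fm m i)) t)

/-- the check of the size conditions for one `N` -/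
noncomputable def cs (W t A P : Ex) (m : ℕ → ℕ) (j N : ℕ) : Bool :=
  Nat.ble (NW W A P (gm m j) N N +
    avN (fun i => cond (Nat.beq i 5) N (gm m j i)) t) (m j)

theorem fm_eq (m : ℕ → ℕ) : fm m = fun i => if i < 5 then (m i : ℤ) else 0 := by
  funext i
  by_cases h : i < 5
  · have : Nat.blt i 5 = true := by simpa [Nat.blt] using h
    simp [fm, this, h]
  · have : Nat.blt i 5 = false := by
      rw [Bool.eq_false_iff]
      intro h'
      have := Nat.le_of_ble_eq_true h'
      omega
    simp [fm, this, h]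

theorem gm_eq (m : ℕ → ℕ) (j : ℕ) : gm m j = fun i => if i < j then m i else 1 := by
  funext i
  by_cases h : i < j
  · have : Nat.blt i j = true := by simpa [Nat.blt] using h
    simp [gm, this, h]
  · have : Nat.blt i j = false := by
      rw [Bool.eq_false_iff]
      intro h'
      have := Nat.le_of_ble_eq_true h'
      omega
    simp [gm, this, h]

theorem sound (W t A P : Ex) (m : ℕ → ℕ) (N : ℕ) (h0 : ck W t A P m N = true)
    (hs : ∀ j, j < 5 → cs W t A P m j N = true) {R : Type*} [CommRing R] (r : ℕ → R)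
    (hr : ∀ i, 5 ≤ i → r i = 0) :
    ∑ j ∈ Finset.range N, ev (fun i => ev r (loc A P N j i)) W =
      ev (fun i => if i = 5 then (N : R) else r i) t := by
  have key : ev r (dif W t A P N) = 0 := by
    apply kron (dif W t A P N) 5 m _ _ r hr
    · intro j hj
      have h1 := hs j hj
      rw [cs, Nat.ble_eq, NW_eq, avN_eq] at h1
      refine le_trans (le_of_eq ?_) h1
      rw [← gm_eq, dif]
      simp only [av, av_sm, av_sub]
      congr 1
      simp only [Int.reduceNeg, Int.natAbs_neg, Int.natAbs_one, one_mul]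
      congr 1
      funext i
      by_cases h5 : i = 5
      · subst h5
        simp [gl, av]
      · have : Nat.beq i 5 = false := by
          rw [Bool.eq_false_iff]
          intro h6
          exact h5 (Nat.eq_of_beq_eq_true h6)
        simp [gl, av, h5, this]
    · have h1 := of_decide_eq_true h0
      rw [ZW_eq, evZ_eq] at h1
      rw [← fm_eq, dif]
      simp only [ev, ev_sm, ev_sub]
      rw [h1]
      have : (fun i => ev (fm m) (gl N i)) =
          fun i => (cond (Nat.beq i 5) (Int.ofNat N) (fm m i)) := by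
        funext i
        by_cases h5 : i = 5
        · subst h5
          simp [gl, ev]
        · have : Nat.beq i 5 = false := by
            rw [Bool.eq_false_iff]
            intro h6
            exact h5 (Nat.eq_of_beq_eq_true h6)
          simp [gl, ev, h5, this]
      rw [this]
      simp
  rw [dif] at key
  simp only [ev, ev_sm, ev_sub] at key
  have e : (fun i => ev r (gl N i)) = fun i => if i = 5 then (N : R) else r i := by
    funext i
    by_cases h5 : i = 5
    · simp [gl, ev, h5]
    · simp [gl, ev, h5]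
  rw [e] at key
  push_cast at key
  linear_combination key

open Polynomial in
/-- the sum for all `N`, from the checks for small `N` -/
theorem sums {K : Type*} [Field K] (W t A P : Ex) (m : ℕ → ℕ) (D : ℕ)
    (hK : ∀ i : ℕ, 0 < i → i ≤ D + 1 → (i : K) ≠ 0)
    (hW : wd w3 W ≤ D) (ht : wd (fun i => if i = 5 then 1 else 0) t ≤ D + 1)
    (h0 : ∀ N, N ≤ D + 1 → ck W t A P m N = true)
    (hs : ∀ N, N ≤ D + 1 → ∀ j, j < 5 → cs W t A P m j N = true) (r : ℕ → K)
    (hr : ∀ i, 5 ≤ i → r i = 0) (N : ℕ) :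
    ∑ j ∈ Finset.range N, ev (le (r 0) (ev r A) (ev r P) (r 3) (r 4) (N : K) (j : K)) W =
      ev (fun i => if i = 5 then (N : K) else r i) t := by
  have e1 : ∀ (N j : ℕ) (i : ℕ), MvPolynomial.eval ![(N : K), (j : K)]
      (le (MvPolynomial.C (r 0)) (MvPolynomial.C (ev r A)) (MvPolynomial.C (ev r P))
        (MvPolynomial.C (r 3)) (MvPolynomial.C (r 4)) (MvPolynomial.X 0) (MvPolynomial.X 1) i) =
      le (r 0) (ev r A) (ev r P) (r 3) (r 4) (N : K) (j : K) i := by
    intro N j i
    rw [le_hom]
    simp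
  have e2 : ∀ (N : ℕ) (i : ℕ), (if i = 5 then (X : K[X]) else C (r i)).eval (N : K) =
      if i = 5 then (N : K) else r i := by
    intro N i
    by_cases h5 : i = 5
    · simp [h5]
    · simp [h5]
  have h := sum_eq_of_small W t D
    (le (MvPolynomial.C (r 0)) (MvPolynomial.C (ev r A)) (MvPolynomial.C (ev r P))
        (MvPolynomial.C (r 3)) (MvPolynomial.C (r 4)) (MvPolynomial.X 0) (MvPolynomial.X 1))
    w3 hK ?_ hW (fun i => if i = 5 then (X : K[X]) else C (r i)) (fun i => if i = 5 then 1 else 0)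
    ?_ ht ?_ N
  · simp only [e1, e2] at h
    exact h
  · intro i
    refine le_trans ?_ (wd_leE i)
    apply totalDegree_ev
    intro k
    match k with
    | 0 => exact (MvPolynomial.totalDegree_C _).le
    | 1 => exact (MvPolynomial.totalDegree_C _).le
    | 2 => exact (MvPolynomial.totalDegree_C _).le
    | 3 => exact (MvPolynomial.totalDegree_C _).le
    | 4 => exact (MvPolynomial.totalDegree_C _).le
    | 5 => exact (MvPolynomial.totalDegree_X _).le
    | (n + 6) => exact (MvPolynomial.totalDegree_X _).le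
  · intro i
    by_cases h5 : i = 5
    · simp [h5]
    · simp [h5]
  · intro N hN
    simp only [e1, e2]
    have := sound W t A P m N (h0 N hN) (hs N hN) r hr
    rw [← this]
    apply Finset.sum_congr rfl
    intro j _
    apply ev_congr
    intro i
    rw [ev_loc]

end TDP
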