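import Pool.Agent.Lib.MP_d0515f_al.KRW
import Pool.Agent.Lib.MP_d0515f_al.Num

/-! From the checks to the sums over closed walks. -/

namespace TDP

open Ex

variable {K : Type*} [Field K]

theorem co_scale (u D χ : K → K) (β γ : K) (hγ : γ ≠ 0) (k : ℕ) : ∀ (i : ℤ) (x : K),
    co (fun x => β * γ * u x) (fun x => β * D x) (fun x => β * γ⁻¹ * χ x) k i x =
      β ^ k * γ ^ i * co u D χ k i x := by
  induction k with
  | zero =>
    intro i x
    by_cases h : i = 0
    · simp [co, h]
    · simp [co, h]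
  | succ k ih =>
    intro i x
    simp only [co, ih]
    rw [zpow_sub_one₀ hγ, zpow_add_one₀ hγ]
    field_simp
    ring

/-- numbers whose prime factors are at most `17` are nonzero -/
theorem smooth_ne [Num17 K] (a b c d e f g : ℕ) :
    (2 : K) ^ a * 3 ^ b * 5 ^ c * 7 ^ d * 11 ^ e * 13 ^ f * 17 ^ g ≠ 0 := by
  refine mul_ne_zero (mul_ne_zero (mul_ne_zero (mul_ne_zero (mul_ne_zero (mul_ne_zero ?_ ?_) ?_)
    ?_) ?_) ?_) ?_
  · exact pow_ne_zero _ Num17.two
  · exact pow_ne_zero _ Num17.three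
  · exact pow_ne_zero _ Num17.five
  · exact pow_ne_zero _ Num17.seven
  · exact pow_ne_zero _ Num17.eleven
  · exact pow_ne_zero _ Num17.thirteen
  · exact pow_ne_zero _ Num17.seventeen

/-- the numbers `1, ..., 17` are nonzero -/
theorem num17_ne [Num17 K] (i : ℕ) (h0 : 0 < i) (h : i ≤ 17) : (i : K) ≠ 0 := by
  have key := smooth_ne (K := K)
  interval_cases i
  · have := key 0 0 0 0 0 0 0; norm_num at this ⊢
  · have := key 1 0 0 0 0 0 0; norm_num at this ⊢; exact this
  · have := key 0 1 0 0 0 0 0; norm_num at this ⊢; exact this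
  · have := key 2 0 0 0 0 0 0; norm_num at this ⊢; exact this
  · have := key 0 0 1 0 0 0 0; norm_num at this ⊢; exact this
  · have := key 1 1 0 0 0 0 0; norm_num at this ⊢; exact this
  · have := key 0 0 0 1 0 0 0; norm_num at this ⊢; exact this
  · have := key 3 0 0 0 0 0 0; norm_num at this ⊢; exact this
  · have := key 0 2 0 0 0 0 0; norm_num at this ⊢; exact this
  · have := key 1 0 1 0 0 0 0; norm_num at this ⊢; exact this
  · have := key 0 0 0 0 1 0 0; norm_num at this ⊢; exact this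
  · have := key 2 1 0 0 0 0 0; norm_num at this ⊢; exact this
  · have := key 0 0 0 0 0 1 0; norm_num at this ⊢; exact this
  · have := key 1 0 0 1 0 0 0; norm_num at this ⊢; exact this
  · have := key 0 1 1 0 0 0 0; norm_num at this ⊢; exact this
  · have := key 4 0 0 0 0 0 0; norm_num at this ⊢; exact this
  · have := key 0 0 0 0 0 0 1; norm_num at this ⊢; exact this

variable [Num17 K]

theorem en_le (n s a p q F : K) (j : K) (i : ℕ) :
    en (fun x => 12 * (6 : K)⁻¹ * Uf n x) (fun x => 12 * Df n s a x)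
      (fun x => 12 * ((6 : K)⁻¹)⁻¹ * Xf n p q F x) (j - (n - 1) / 2) i =
        le s a (18 * p) q F n j i := by
  have h2 := nz2 (K := K)
  have h6 := nz6 (K := K)
  have h12 := nz12 (K := K)
  have e1 : 12 * (6 : K)⁻¹ = 2 := by
    field_simp
    norm_num
  have e2 : 12 * ((6 : K)⁻¹)⁻¹ = 72 := by
    rw [inv_inv]
    norm_num
  rw [e1, e2]
  have h : i % 3 = 0 ∨ i % 3 = 1 ∨ i % 3 = 2 := by omega
  rcases h with h | h | h
  · simp only [en, le, leE, h, ev, par7, Uf]
    generalize i / 3 = t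
    push_cast
    field_simp
    ring
  · simp only [en, le, leE, h, ev, par7, Df]
    generalize i / 3 = t
    push_cast
    field_simp
    ring
  · simp only [en, le, leE, h, ev, par7, Xf]
    generalize i / 3 = t
    push_cast
    field_simp
    ring

theorem walk_sum (W : Ex) (k : ℕ)
    (hW : ∀ (u D χ : K → K) (x : K), ev (en u D χ x) W = co u D χ k 0 x)
    (N : ℕ) (s a p q F : K) :
    ∑ j ∈ Finset.range N, ev (le s a (18 * p) q F (N : K) (j : K)) W =
      12 ^ k * ∑ j ∈ Finset.range N, co (Uf (N : K)) (Df (N : K) s a) (Xf (N : K) p q F) k 0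
        ((j : K) - ((N : K) - 1) / 2) := by
  rw [Finset.mul_sum]
  apply Finset.sum_congr rfl
  intro j _
  have h6 : (6 : K)⁻¹ ≠ 0 := inv_ne_zero nz6
  have h := co_scale (Uf (N : K)) (Df (N : K) s a) (Xf (N : K) p q F) 12 (6 : K)⁻¹ h6 k 0
    ((j : K) - ((N : K) - 1) / 2)
  rw [zpow_zero, mul_one] at h
  rw [← h, ← hW]
  apply ev_congr
  intro i
  rw [en_le]

/-- the five parameters -/
def par5 (s a p q F : K) (i : ℕ) : K :=
  match i with
  | 0 => s
  | 1 => a
  | 2 => p
  | 3 => q
  | 4 => F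
  | _ => 0

/-- the five parameters and `n` -/
def par6 (n s a p q F : K) (i : ℕ) : K :=
  match i with
  | 0 => s
  | 1 => a
  | 2 => p
  | 3 => q
  | 4 => F
  | 5 => n
  | _ => 0

omit [Num17 K] in
theorem par6_eq (n s a p q F : K) :
    (fun i => if i = 5 then n else par5 s a p q F i) = par6 n s a p q F := by
  funext i
  match i with
  | 0 => rfl
  | 1 => rfl
  | 2 => rfl
  | 3 => rfl
  | 4 => rfl
  | 5 => rfl
  | (n + 6) => rfl

/-- the final form: sums over closed walks from the checks -/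
theorem final (W t A P : Ex) (m : ℕ → ℕ) (D k : ℕ) (C : ℤ) (hD : D ≤ 16)
    (hWk : ∀ (u D χ : K → K) (x : K), ev (en u D χ x) W = co u D χ k 0 x)
    (hW : wd w3 (mul (c C) W) ≤ D) (ht : wd (fun i => if i = 5 then 1 else 0) t ≤ D + 1)
    (h0 : ∀ N, N ≤ D + 1 → ck (mul (c C) W) t A P m N = true)
    (hs : ∀ N, N ≤ D + 1 → ∀ j, j < 5 → cs (mul (c C) W) t A P m j N = true)
    (s a a' p p' q F : K) (hA : ev (par5 s a p q F) A = a')
    (hP : ev (par5 s a p q F) P = 18 * p') (N : ℕ) :
    (C : K) * (12 ^ k * ∑ j ∈ Finset.range N,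
      co (Uf (N : K)) (Df (N : K) s a') (Xf (N : K) p' q F) k 0 ((j : K) - ((N : K) - 1) / 2)) =
      ev (par6 (N : K) s a p q F) t := by
  have h := sums (K := K) (mul (c C) W) t A P m D (fun i h1 h2 => num17_ne i h1 (by omega)) hW ht h0 hs (par5 s a p q F) (fun i hi => by
    match i, hi with
    | (n + 5), _ => rfl) N
  rw [par6_eq, hA, hP] at h
  rw [← h, ← walk_sum W k hWk, Finset.mul_sum]
  rfl

end TDP
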