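import Pool.Agent.Lib.MP_d0515f_al.TraceSum

/-! Explicit coefficients for small powers. -/

namespace TDP

variable {K : Type*} [Field K]

theorem co1_1 (u D χ : K → K) (x : K) : co u D χ 1 1 x = u x := by simp [co]
theorem co1_0 (u D χ : K → K) (x : K) : co u D χ 1 0 x = D x := by simp [co]
theorem co1_m1 (u D χ : K → K) (x : K) : co u D χ 1 (-1) x = χ x := by simp [co]

theorem co2_2 (u D χ : K → K) (x : K) : co u D χ 2 2 x = u x * u (x + 1) := by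
  simp [co]
theorem co2_1 (u D χ : K → K) (x : K) :
    co u D χ 2 1 x = u x * (D (x + 1) + D x) := by
  simp [co]; ring
theorem co2_0 (u D χ : K → K) (x : K) :
    co u D χ 2 0 x = u x * χ (x + 1) + D x ^ 2 + χ x * u (x - 1) := by
  simp [co]; ring
theorem co2_m1 (u D χ : K → K) (x : K) :
    co u D χ 2 (-1) x = χ x * (D x + D (x - 1)) := by
  simp [co]; ring
theorem co2_m2 (u D χ : K → K) (x : K) : co u D χ 2 (-2) x = χ x * χ (x - 1) := by
  simp [co]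

theorem Icc_1 : Finset.Icc (-((1 : ℕ) : ℤ)) ((1 : ℕ) : ℤ) = {-1, 0, 1} := by decide
theorem sumIcc_1 (f : ℤ → K) : ∑ i ∈ Finset.Icc (-((1 : ℕ) : ℤ)) ((1 : ℕ) : ℤ), f i = f (-1) + f 0 + f 1 := by
  rw [Icc_1]
  simp [Finset.sum_insert, ← add_assoc]

theorem Icc_2 : Finset.Icc (-((2 : ℕ) : ℤ)) ((2 : ℕ) : ℤ) = {-2, -1, 0, 1, 2} := by decide
theorem sumIcc_2 (f : ℤ → K) : ∑ i ∈ Finset.Icc (-((2 : ℕ) : ℤ)) ((2 : ℕ) : ℤ), f i = f (-2) + f (-1) + f 0 + f 1 + f 2 := by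
  rw [Icc_2]
  simp [Finset.sum_insert, ← add_assoc]

theorem Icc_3 : Finset.Icc (-((3 : ℕ) : ℤ)) ((3 : ℕ) : ℤ) = {-3, -2, -1, 0, 1, 2, 3} := by decide
theorem sumIcc_3 (f : ℤ → K) : ∑ i ∈ Finset.Icc (-((3 : ℕ) : ℤ)) ((3 : ℕ) : ℤ), f i = f (-3) + f (-2) + f (-1) + f 0 + f 1 + f 2 + f 3 := by
  rw [Icc_3]
  simp [Finset.sum_insert, ← add_assoc]

theorem Icc_4 : Finset.Icc (-((4 : ℕ) : ℤ)) ((4 : ℕ) : ℤ) = {-4, -3, -2, -1, 0, 1, 2, 3, 4} := by decide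
theorem sumIcc_4 (f : ℤ → K) : ∑ i ∈ Finset.Icc (-((4 : ℕ) : ℤ)) ((4 : ℕ) : ℤ), f i = f (-4) + f (-3) + f (-2) + f (-1) + f 0 + f 1 + f 2 + f 3 + f 4 := by
  rw [Icc_4]
  simp [Finset.sum_insert, ← add_assoc]

theorem co3_m3 (u D χ : K → K) (x : K) : co u D χ 3 (-3) x =
    co u D χ 1 (-1) x * co u D χ 2 (-2) (x - 1) := by
  have h := co_add u D χ 2 1 1 le_rfl (-3) x
  rw [sumIcc_1] at h
  norm_num at h ⊢
  simp only [co_eq_zero u D χ 2 (-3) _ (by norm_num), co_eq_zero u D χ 2 (-4) _ (by norm_num), mul_zero, zero_add, add_zero] at h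
  rw [h]
  try ring_nf

theorem co3_m2 (u D χ : K → K) (x : K) : co u D χ 3 (-2) x =
    co u D χ 1 (-1) x * co u D χ 2 (-1) (x - 1) + co u D χ 1 0 x * co u D χ 2 (-2) x := by
  have h := co_add u D χ 2 1 1 le_rfl (-2) x
  rw [sumIcc_1] at h
  norm_num at h ⊢
  simp only [co_eq_zero u D χ 2 (-3) _ (by norm_num), mul_zero, zero_add, add_zero] at h
  rw [h]
  try ring_nf

theorem co3_m1 (u D χ : K → K) (x : K) : co u D χ 3 (-1) x =
    co u D χ 1 (-1) x * co u D χ 2 0 (x - 1) + co u D χ 1 0 x * co u D χ 2 (-1) x + co u D χ 1 1 x * co u D χ 2 (-2) (x + 1) := by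
  have h := co_add u D χ 2 1 1 le_rfl (-1) x
  rw [sumIcc_1] at h
  norm_num at h ⊢
  rw [h]
  try ring_nf

theorem co3_0 (u D χ : K → K) (x : K) : co u D χ 3 0 x =
    co u D χ 1 (-1) x * co u D χ 2 1 (x - 1) + co u D χ 1 0 x * co u D χ 2 0 x + co u D χ 1 1 x * co u D χ 2 (-1) (x + 1) := by
  have h := co_add u D χ 2 1 1 le_rfl 0 x
  rw [sumIcc_1] at h
  norm_num at h ⊢
  rw [h]
  try ring_nf

theorem co3_1 (u D χ : K → K) (x : K) : co u D χ 3 1 x =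
    co u D χ 1 (-1) x * co u D χ 2 2 (x - 1) + co u D χ 1 0 x * co u D χ 2 1 x + co u D χ 1 1 x * co u D χ 2 0 (x + 1) := by
  have h := co_add u D χ 2 1 1 le_rfl 1 x
  rw [sumIcc_1] at h
  norm_num at h ⊢
  rw [h]
  try ring_nf

theorem co3_2 (u D χ : K → K) (x : K) : co u D χ 3 2 x =
    co u D χ 1 0 x * co u D χ 2 2 x + co u D χ 1 1 x * co u D χ 2 1 (x + 1) := by
  have h := co_add u D χ 2 1 1 le_rfl 2 x
  rw [sumIcc_1] at h
  norm_num at h ⊢
  simp only [co_eq_zero u D χ 2 (3) _ (by norm_num), mul_zero, zero_add, add_zero] at h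
  rw [h]
  try ring_nf

theorem co3_3 (u D χ : K → K) (x : K) : co u D χ 3 3 x =
    co u D χ 1 1 x * co u D χ 2 2 (x + 1) := by
  have h := co_add u D χ 2 1 1 le_rfl 3 x
  rw [sumIcc_1] at h
  norm_num at h ⊢
  simp only [co_eq_zero u D χ 2 (4) _ (by norm_num), co_eq_zero u D χ 2 (3) _ (by norm_num), mul_zero, zero_add, add_zero] at h
  rw [h]
  try ring_nf

theorem co4_m4 (u D χ : K → K) (x : K) : co u D χ 4 (-4) x =
    co u D χ 2 (-2) x * co u D χ 2 (-2) (x - 2) := by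
  have h := co_add u D χ 2 2 2 le_rfl (-4) x
  rw [sumIcc_2] at h
  norm_num at h ⊢
  simp only [co_eq_zero u D χ 2 (-3) _ (by norm_num), co_eq_zero u D χ 2 (-4) _ (by norm_num), co_eq_zero u D χ 2 (-5) _ (by norm_num), co_eq_zero u D χ 2 (-6) _ (by norm_num), mul_zero, zero_add, add_zero] at h
  rw [h]
  try ring_nf

theorem co4_m3 (u D χ : K → K) (x : K) : co u D χ 4 (-3) x =
    co u D χ 2 (-2) x * co u D χ 2 (-1) (x - 2) + co u D χ 2 (-1) x * co u D χ 2 (-2) (x - 1) := by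
  have h := co_add u D χ 2 2 2 le_rfl (-3) x
  rw [sumIcc_2] at h
  norm_num at h ⊢
  simp only [co_eq_zero u D χ 2 (-3) _ (by norm_num), co_eq_zero u D χ 2 (-4) _ (by norm_num), co_eq_zero u D χ 2 (-5) _ (by norm_num), mul_zero, zero_add, add_zero] at h
  rw [h]
  try ring_nf

theorem co4_m2 (u D χ : K → K) (x : K) : co u D χ 4 (-2) x =
    co u D χ 2 (-2) x * co u D χ 2 0 (x - 2) + co u D χ 2 (-1) x * co u D χ 2 (-1) (x - 1) + co u D χ 2 0 x * co u D χ 2 (-2) x := by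
  have h := co_add u D χ 2 2 2 le_rfl (-2) x
  rw [sumIcc_2] at h
  norm_num at h ⊢
  simp only [co_eq_zero u D χ 2 (-3) _ (by norm_num), co_eq_zero u D χ 2 (-4) _ (by norm_num), mul_zero, zero_add, add_zero] at h
  rw [h]
  try ring_nf

theorem co4_m1 (u D χ : K → K) (x : K) : co u D χ 4 (-1) x =
    co u D χ 2 (-2) x * co u D χ 2 1 (x - 2) + co u D χ 2 (-1) x * co u D χ 2 0 (x - 1) + co u D χ 2 0 x * co u D χ 2 (-1) x + co u D χ 2 1 x * co u D χ 2 (-2) (x + 1) := by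
  have h := co_add u D χ 2 2 2 le_rfl (-1) x
  rw [sumIcc_2] at h
  norm_num at h ⊢
  simp only [co_eq_zero u D χ 2 (-3) _ (by norm_num), mul_zero, zero_add, add_zero] at h
  rw [h]
  try ring_nf

theorem co4_0 (u D χ : K → K) (x : K) : co u D χ 4 0 x =
    co u D χ 2 (-2) x * co u D χ 2 2 (x - 2) + co u D χ 2 (-1) x * co u D χ 2 1 (x - 1) + co u D χ 2 0 x * co u D χ 2 0 x + co u D χ 2 1 x * co u D χ 2 (-1) (x + 1) + co u D χ 2 2 x * co u D χ 2 (-2) (x + 2) := by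
  have h := co_add u D χ 2 2 2 le_rfl 0 x
  rw [sumIcc_2] at h
  norm_num at h ⊢
  rw [h]
  try ring_nf

theorem co4_1 (u D χ : K → K) (x : K) : co u D χ 4 1 x =
    co u D χ 2 (-1) x * co u D χ 2 2 (x - 1) + co u D χ 2 0 x * co u D χ 2 1 x + co u D χ 2 1 x * co u D χ 2 0 (x + 1) + co u D χ 2 2 x * co u D χ 2 (-1) (x + 2) := by
  have h := co_add u D χ 2 2 2 le_rfl 1 x
  rw [sumIcc_2] at h
  norm_num at h ⊢
  simp only [co_eq_zero u D χ 2 (3) _ (by norm_num), mul_zero, zero_add, add_zero] at h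
  rw [h]
  try ring_nf

theorem co4_2 (u D χ : K → K) (x : K) : co u D χ 4 2 x =
    co u D χ 2 0 x * co u D χ 2 2 x + co u D χ 2 1 x * co u D χ 2 1 (x + 1) + co u D χ 2 2 x * co u D χ 2 0 (x + 2) := by
  have h := co_add u D χ 2 2 2 le_rfl 2 x
  rw [sumIcc_2] at h
  norm_num at h ⊢
  simp only [co_eq_zero u D χ 2 (4) _ (by norm_num), co_eq_zero u D χ 2 (3) _ (by norm_num), mul_zero, zero_add, add_zero] at h
  rw [h]
  try ring_nf

theorem co4_3 (u D χ : K → K) (x : K) : co u D χ 4 3 x =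
    co u D χ 2 1 x * co u D χ 2 2 (x + 1) + co u D χ 2 2 x * co u D χ 2 1 (x + 2) := by
  have h := co_add u D χ 2 2 2 le_rfl 3 x
  rw [sumIcc_2] at h
  norm_num at h ⊢
  simp only [co_eq_zero u D χ 2 (5) _ (by norm_num), co_eq_zero u D χ 2 (4) _ (by norm_num), co_eq_zero u D χ 2 (3) _ (by norm_num), mul_zero, zero_add, add_zero] at h
  rw [h]
  try ring_nf

theorem co4_4 (u D χ : K → K) (x : K) : co u D χ 4 4 x =
    co u D χ 2 2 x * co u D χ 2 2 (x + 2) := by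
  have h := co_add u D χ 2 2 2 le_rfl 4 x
  rw [sumIcc_2] at h
  norm_num at h ⊢
  simp only [co_eq_zero u D χ 2 (6) _ (by norm_num), co_eq_zero u D χ 2 (5) _ (by norm_num), co_eq_zero u D χ 2 (4) _ (by norm_num), co_eq_zero u D χ 2 (3) _ (by norm_num), mul_zero, zero_add, add_zero] at h
  rw [h]
  try ring_nf

end TDP
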