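import Pool.Agent.Lib.MP_d0515f_al.KR3
import Pool.Agent.Lib.MP_d0515f_al.TraceCo

/-! Closed walks as expressions (generated by computer). -/

set_option linter.unusedSimpArgs false

namespace TDP

open Ex

/-- local environment: three weights at the points `x - 4, ..., x + 4` -/
def en {K : Type*} [Field K] (u D χ : K → K) (x : K) (i : ℕ) : K :=
  match i % 3 with
  | 0 => u (x + ((i / 3 : ℕ) : K) - 4)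
  | 1 => D (x + ((i / 3 : ℕ) : K) - 4)
  | _ => χ (x + ((i / 3 : ℕ) : K) - 4)

section defs

/-- a walk expression -/
def C2_m2_0 : Ex := (.mul (.v 14) (.v 11))

/-- a walk expression -/
def C2_2_m2 : Ex := (.mul (.v 6) (.v 9))

/-- a walk expression -/
def C2_1_m1 : Ex := (.mul (.v 9) (.add (.v 13) (.v 10)))

/-- a walk expression -/
def C3_2_m2 : Ex := (.add (.mul (.v 7) C2_2_m2) (.mul (.v 6) C2_1_m1))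

/-- a walk expression -/
def C2_m1_0 : Ex := (.mul (.v 14) (.add (.v 13) (.v 10)))

/-- a walk expression -/
def C2_0_0 : Ex := (.add (.mul (.v 12) (.v 17)) (.add (.mul (.v 13) (.v 13)) (.mul (.v 14) (.v 9))))

/-- a walk expression -/
def C3_1_m1 : Ex := (.add (.mul (.v 11) C2_2_m2) (.add (.mul (.v 10) C2_1_m1) (.mul (.v 9) C2_0_0)))

/-- a walk expression -/
def C2_m1_1 : Ex := (.mul (.v 17) (.add (.v 16) (.v 13)))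

/-- a walk expression -/
def C3_0_0 : Ex := (.add (.mul (.v 14) C2_1_m1) (.add (.mul (.v 13) C2_0_0) (.mul (.v 12) C2_m1_1)))

/-- a walk expression -/
def C2_1_0 : Ex := (.mul (.v 12) (.add (.v 16) (.v 13)))

/-- a walk expression -/
def C2_m2_2 : Ex := (.mul (.v 20) (.v 17))

/-- a walk expression -/
def C3_m1_1 : Ex := (.add (.mul (.v 17) C2_0_0) (.add (.mul (.v 16) C2_m1_1) (.mul (.v 15) C2_m2_2)))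

/-- a walk expression -/
def C2_2_0 : Ex := (.mul (.v 12) (.v 15))

/-- a walk expression -/
def C3_m2_2 : Ex := (.add (.mul (.v 20) C2_m1_1) (.mul (.v 19) C2_m2_2))

/-- a walk expression -/
def W5 : Ex := (.add (.mul C2_m2_0 C3_2_m2) (.add (.mul C2_m1_0 C3_1_m1) (.add (.mul C2_0_0 C3_0_0) (.add (.mul C2_1_0 C3_m1_1) (.mul C2_2_0 C3_m2_2)))))

/-- a walk expression -/
def C2_m2_m1 : Ex := (.mul (.v 11) (.v 8))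

/-- a walk expression -/
def C3_m3_0 : Ex := (.mul (.v 14) C2_m2_m1)

/-- a walk expression -/
def C3_3_m3 : Ex := (.mul (.v 3) C2_2_m2)

/-- a walk expression -/
def C2_m1_m1 : Ex := (.mul (.v 11) (.add (.v 10) (.v 7)))

/-- a walk expression -/
def C3_m2_0 : Ex := (.add (.mul (.v 14) C2_m1_m1) (.mul (.v 13) C2_m2_0))

/-- a walk expression -/
def C2_0_m1 : Ex := (.add (.mul (.v 9) (.v 14)) (.add (.mul (.v 10) (.v 10)) (.mul (.v 11) (.v 6))))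

/-- a walk expression -/
def C2_m2_1 : Ex := (.mul (.v 17) (.v 14))

/-- a walk expression -/
def C3_m1_0 : Ex := (.add (.mul (.v 14) C2_0_m1) (.add (.mul (.v 13) C2_m1_0) (.mul (.v 12) C2_m2_1)))

/-- a walk expression -/
def C2_2_m1 : Ex := (.mul (.v 9) (.v 12))

/-- a walk expression -/
def C2_0_1 : Ex := (.add (.mul (.v 15) (.v 20)) (.add (.mul (.v 16) (.v 16)) (.mul (.v 17) (.v 12))))

/-- a walk expression -/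
def C3_1_0 : Ex := (.add (.mul (.v 14) C2_2_m1) (.add (.mul (.v 13) C2_1_0) (.mul (.v 12) C2_0_1)))

/-- a walk expression -/
def C2_1_1 : Ex := (.mul (.v 15) (.add (.v 19) (.v 16)))

/-- a walk expression -/
def C3_2_0 : Ex := (.add (.mul (.v 13) C2_2_0) (.mul (.v 12) C2_1_1))

/-- a walk expression -/
def C2_2_1 : Ex := (.mul (.v 15) (.v 18))

/-- a walk expression -/
def C3_3_0 : Ex := (.mul (.v 12) C2_2_1)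

/-- a walk expression -/
def C3_m3_3 : Ex := (.mul (.v 23) C2_m2_2)

/-- a walk expression -/
def W6 : Ex := (.add (.mul C3_m3_0 C3_3_m3) (.add (.mul C3_m2_0 C3_2_m2) (.add (.mul C3_m1_0 C3_1_m1) (.add (.mul C3_0_0 C3_0_0) (.add (.mul C3_1_0 C3_m1_1) (.add (.mul C3_2_0 C3_m2_2) (.mul C3_3_0 C3_m3_3)))))))

/-- a walk expression -/
def C2_1_m3 : Ex := (.mul (.v 3) (.add (.v 7) (.v 4)))

/-- a walk expression -/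
def C2_2_m3 : Ex := (.mul (.v 3) (.v 6))

/-- a walk expression -/
def C4_3_m3 : Ex := (.add (.mul C2_1_m3 C2_2_m2) (.mul C2_2_m3 C2_1_m1))

/-- a walk expression -/
def C2_0_m2 : Ex := (.add (.mul (.v 6) (.v 11)) (.add (.mul (.v 7) (.v 7)) (.mul (.v 8) (.v 3))))

/-- a walk expression -/
def C2_1_m2 : Ex := (.mul (.v 6) (.add (.v 10) (.v 7)))

/-- a walk expression -/
def C4_2_m2 : Ex := (.add (.mul C2_0_m2 C2_2_m2) (.add (.mul C2_1_m2 C2_1_m1) (.mul C2_2_m2 C2_0_0)))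

/-- a walk expression -/
def C4_1_m1 : Ex := (.add (.mul C2_m1_m1 C2_2_m2) (.add (.mul C2_0_m1 C2_1_m1) (.add (.mul C2_1_m1 C2_0_0) (.mul C2_2_m1 C2_m1_1))))

/-- a walk expression -/
def C4_0_0 : Ex := (.add (.mul C2_m2_0 C2_2_m2) (.add (.mul C2_m1_0 C2_1_m1) (.add (.mul C2_0_0 C2_0_0) (.add (.mul C2_1_0 C2_m1_1) (.mul C2_2_0 C2_m2_2)))))

/-- a walk expression -/
def C4_m1_1 : Ex := (.add (.mul C2_m2_1 C2_1_m1) (.add (.mul C2_m1_1 C2_0_0) (.add (.mul C2_0_1 C2_m1_1) (.mul C2_1_1 C2_m2_2))))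

/-- a walk expression -/
def C2_m1_2 : Ex := (.mul (.v 20) (.add (.v 19) (.v 16)))

/-- a walk expression -/
def C2_0_2 : Ex := (.add (.mul (.v 18) (.v 23)) (.add (.mul (.v 19) (.v 19)) (.mul (.v 20) (.v 15))))

/-- a walk expression -/
def C4_m2_2 : Ex := (.add (.mul C2_m2_2 C2_0_0) (.add (.mul C2_m1_2 C2_m1_1) (.mul C2_0_2 C2_m2_2)))

/-- a walk expression -/
def C2_m2_3 : Ex := (.mul (.v 23) (.v 20))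

/-- a walk expression -/
def C2_m1_3 : Ex := (.mul (.v 23) (.add (.v 22) (.v 19)))

/-- a walk expression -/
def C4_m3_3 : Ex := (.add (.mul C2_m2_3 C2_m1_1) (.mul C2_m1_3 C2_m2_2))

/-- a walk expression -/
def W7 : Ex := (.add (.mul C3_m3_0 C4_3_m3) (.add (.mul C3_m2_0 C4_2_m2) (.add (.mul C3_m1_0 C4_1_m1) (.add (.mul C3_0_0 C4_0_0) (.add (.mul C3_1_0 C4_m1_1) (.add (.mul C3_2_0 C4_m2_2) (.mul C3_3_0 C4_m3_3)))))))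

/-- a walk expression -/
def C2_m2_m2 : Ex := (.mul (.v 8) (.v 5))

/-- a walk expression -/
def C4_m4_0 : Ex := (.mul C2_m2_0 C2_m2_m2)

/-- a walk expression -/
def C2_2_m4 : Ex := (.mul (.v 0) (.v 3))

/-- a walk expression -/
def C4_4_m4 : Ex := (.mul C2_2_m4 C2_2_m2)

/-- a walk expression -/
def C2_m1_m2 : Ex := (.mul (.v 8) (.add (.v 7) (.v 4)))

/-- a walk expression -/
def C4_m3_0 : Ex := (.add (.mul C2_m2_0 C2_m1_m2) (.mul C2_m1_0 C2_m2_m1))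

/-- a walk expression -/
def C4_m2_0 : Ex := (.add (.mul C2_m2_0 C2_0_m2) (.add (.mul C2_m1_0 C2_m1_m1) (.mul C2_0_0 C2_m2_0)))

/-- a walk expression -/
def C4_m1_0 : Ex := (.add (.mul C2_m2_0 C2_1_m2) (.add (.mul C2_m1_0 C2_0_m1) (.add (.mul C2_0_0 C2_m1_0) (.mul C2_1_0 C2_m2_1))))

/-- a walk expression -/
def C4_1_0 : Ex := (.add (.mul C2_m1_0 C2_2_m1) (.add (.mul C2_0_0 C2_1_0) (.add (.mul C2_1_0 C2_0_1) (.mul C2_2_0 C2_m1_2))))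

/-- a walk expression -/
def C4_2_0 : Ex := (.add (.mul C2_0_0 C2_2_0) (.add (.mul C2_1_0 C2_1_1) (.mul C2_2_0 C2_0_2)))

/-- a walk expression -/
def C2_1_2 : Ex := (.mul (.v 18) (.add (.v 22) (.v 19)))

/-- a walk expression -/
def C4_3_0 : Ex := (.add (.mul C2_1_0 C2_2_1) (.mul C2_2_0 C2_1_2))

/-- a walk expression -/
def C2_2_2 : Ex := (.mul (.v 18) (.v 21))

/-- a walk expression -/
def C4_4_0 : Ex := (.mul C2_2_0 C2_2_2)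

/-- a walk expression -/
def C2_m2_4 : Ex := (.mul (.v 26) (.v 23))

/-- a walk expression -/
def C4_m4_4 : Ex := (.mul C2_m2_4 C2_m2_2)

/-- a walk expression -/
def W8 : Ex := (.add (.mul C4_m4_0 C4_4_m4) (.add (.mul C4_m3_0 C4_3_m3) (.add (.mul C4_m2_0 C4_2_m2) (.add (.mul C4_m1_0 C4_1_m1) (.add (.mul C4_0_0 C4_0_0) (.add (.mul C4_1_0 C4_m1_1) (.add (.mul C4_2_0 C4_m2_2) (.add (.mul C4_3_0 C4_m3_3) (.mul C4_4_0 C4_m4_4)))))))))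

end defs

variable {K : Type*} [Field K]

theorem sh_m4_1 (x : K) : x - 4 + 1 = x - 3 := by ring

theorem sh_m4_2 (x : K) : x - 4 + 2 = x - 2 := by ring

theorem sh_m4_3 (x : K) : x - 4 + 3 = x - 1 := by ring

theorem sh_m3_m1 (x : K) : x - 3 - 1 = x - 4 := by ring

theorem sh_m3_1 (x : K) : x - 3 + 1 = x - 2 := by ring

theorem sh_m3_2 (x : K) : x - 3 + 2 = x - 1 := by ring

theorem sh_m3_3 (x : K) : x - 3 + 3 = x := by ring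

theorem sh_m2_m2 (x : K) : x - 2 - 2 = x - 4 := by ring

theorem sh_m2_m1 (x : K) : x - 2 - 1 = x - 3 := by ring

theorem sh_m2_1 (x : K) : x - 2 + 1 = x - 1 := by ring

theorem sh_m2_2 (x : K) : x - 2 + 2 = x := by ring

theorem sh_m2_3 (x : K) : x - 2 + 3 = x + 1 := by ring

theorem sh_m1_m3 (x : K) : x - 1 - 3 = x - 4 := by ring

theorem sh_m1_m2 (x : K) : x - 1 - 2 = x - 3 := by ring

theorem sh_m1_m1 (x : K) : x - 1 - 1 = x - 2 := by ring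

theorem sh_m1_1 (x : K) : x - 1 + 1 = x := by ring

theorem sh_m1_2 (x : K) : x - 1 + 2 = x + 1 := by ring

theorem sh_m1_3 (x : K) : x - 1 + 3 = x + 2 := by ring

theorem sh_1_m3 (x : K) : x + 1 - 3 = x - 2 := by ring

theorem sh_1_m2 (x : K) : x + 1 - 2 = x - 1 := by ring

theorem sh_1_m1 (x : K) : x + 1 - 1 = x := by ring

theorem sh_1_1 (x : K) : x + 1 + 1 = x + 2 := by ring

theorem sh_1_2 (x : K) : x + 1 + 2 = x + 3 := by ring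

theorem sh_1_3 (x : K) : x + 1 + 3 = x + 4 := by ring

theorem sh_2_m3 (x : K) : x + 2 - 3 = x - 1 := by ring

theorem sh_2_m2 (x : K) : x + 2 - 2 = x := by ring

theorem sh_2_m1 (x : K) : x + 2 - 1 = x + 1 := by ring

theorem sh_2_1 (x : K) : x + 2 + 1 = x + 3 := by ring

theorem sh_2_2 (x : K) : x + 2 + 2 = x + 4 := by ring

theorem sh_3_m3 (x : K) : x + 3 - 3 = x := by ring

theorem sh_3_m2 (x : K) : x + 3 - 2 = x + 1 := by ring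

theorem sh_3_m1 (x : K) : x + 3 - 1 = x + 2 := by ring

theorem sh_3_1 (x : K) : x + 3 + 1 = x + 4 := by ring

theorem sh_4_m3 (x : K) : x + 4 - 3 = x + 1 := by ring

theorem sh_4_m2 (x : K) : x + 4 - 2 = x + 2 := by ring

theorem sh_4_m1 (x : K) : x + 4 - 1 = x + 3 := by ring

theorem en_0 (u D χ : K → K) (x : K) : en u D χ x 0 = u (x - 4) := by
  change u (x + ((0 : ℕ) : K) - 4) = u (x - 4)
  congr 1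
  push_cast
  ring

theorem en_1 (u D χ : K → K) (x : K) : en u D χ x 1 = D (x - 4) := by
  change D (x + ((0 : ℕ) : K) - 4) = D (x - 4)
  congr 1
  push_cast
  ring

theorem en_2 (u D χ : K → K) (x : K) : en u D χ x 2 = χ (x - 4) := by
  change χ (x + ((0 : ℕ) : K) - 4) = χ (x - 4)
  congr 1
  push_cast
  ring

theorem en_3 (u D χ : K → K) (x : K) : en u D χ x 3 = u (x - 3) := by
  change u (x + ((1 : ℕ) : K) - 4) = u (x - 3)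
  congr 1
  push_cast
  ring

theorem en_4 (u D χ : K → K) (x : K) : en u D χ x 4 = D (x - 3) := by
  change D (x + ((1 : ℕ) : K) - 4) = D (x - 3)
  congr 1
  push_cast
  ring

theorem en_5 (u D χ : K → K) (x : K) : en u D χ x 5 = χ (x - 3) := by
  change χ (x + ((1 : ℕ) : K) - 4) = χ (x - 3)
  congr 1
  push_cast
  ring

theorem en_6 (u D χ : K → K) (x : K) : en u D χ x 6 = u (x - 2) := by
  change u (x + ((2 : ℕ) : K) - 4) = u (x - 2)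
  congr 1
  push_cast
  ring

theorem en_7 (u D χ : K → K) (x : K) : en u D χ x 7 = D (x - 2) := by
  change D (x + ((2 : ℕ) : K) - 4) = D (x - 2)
  congr 1
  push_cast
  ring

theorem en_8 (u D χ : K → K) (x : K) : en u D χ x 8 = χ (x - 2) := by
  change χ (x + ((2 : ℕ) : K) - 4) = χ (x - 2)
  congr 1
  push_cast
  ring

theorem en_9 (u D χ : K → K) (x : K) : en u D χ x 9 = u (x - 1) := by
  change u (x + ((3 : ℕ) : K) - 4) = u (x - 1)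
  congr 1
  push_cast
  ring

theorem en_10 (u D χ : K → K) (x : K) : en u D χ x 10 = D (x - 1) := by
  change D (x + ((3 : ℕ) : K) - 4) = D (x - 1)
  congr 1
  push_cast
  ring

theorem en_11 (u D χ : K → K) (x : K) : en u D χ x 11 = χ (x - 1) := by
  change χ (x + ((3 : ℕ) : K) - 4) = χ (x - 1)
  congr 1
  push_cast
  ring

theorem en_12 (u D χ : K → K) (x : K) : en u D χ x 12 = u x := by
  change u (x + ((4 : ℕ) : K) - 4) = u x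
  congr 1
  push_cast
  ring

theorem en_13 (u D χ : K → K) (x : K) : en u D χ x 13 = D x := by
  change D (x + ((4 : ℕ) : K) - 4) = D x
  congr 1
  push_cast
  ring

theorem en_14 (u D χ : K → K) (x : K) : en u D χ x 14 = χ x := by
  change χ (x + ((4 : ℕ) : K) - 4) = χ x
  congr 1
  push_cast
  ring

theorem en_15 (u D χ : K → K) (x : K) : en u D χ x 15 = u (x + 1) := by
  change u (x + ((5 : ℕ) : K) - 4) = u (x + 1)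
  congr 1
  push_cast
  ring

theorem en_16 (u D χ : K → K) (x : K) : en u D χ x 16 = D (x + 1) := by
  change D (x + ((5 : ℕ) : K) - 4) = D (x + 1)
  congr 1
  push_cast
  ring

theorem en_17 (u D χ : K → K) (x : K) : en u D χ x 17 = χ (x + 1) := by
  change χ (x + ((5 : ℕ) : K) - 4) = χ (x + 1)
  congr 1
  push_cast
  ring

theorem en_18 (u D χ : K → K) (x : K) : en u D χ x 18 = u (x + 2) := by
  change u (x + ((6 : ℕ) : K) - 4) = u (x + 2)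
  congr 1
  push_cast
  ring

theorem en_19 (u D χ : K → K) (x : K) : en u D χ x 19 = D (x + 2) := by
  change D (x + ((6 : ℕ) : K) - 4) = D (x + 2)
  congr 1
  push_cast
  ring

theorem en_20 (u D χ : K → K) (x : K) : en u D χ x 20 = χ (x + 2) := by
  change χ (x + ((6 : ℕ) : K) - 4) = χ (x + 2)
  congr 1
  push_cast
  ring

theorem en_21 (u D χ : K → K) (x : K) : en u D χ x 21 = u (x + 3) := by
  change u (x + ((7 : ℕ) : K) - 4) = u (x + 3)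
  congr 1
  push_cast
  ring

theorem en_22 (u D χ : K → K) (x : K) : en u D χ x 22 = D (x + 3) := by
  change D (x + ((7 : ℕ) : K) - 4) = D (x + 3)
  congr 1
  push_cast
  ring

theorem en_23 (u D χ : K → K) (x : K) : en u D χ x 23 = χ (x + 3) := by
  change χ (x + ((7 : ℕ) : K) - 4) = χ (x + 3)
  congr 1
  push_cast
  ring

theorem en_24 (u D χ : K → K) (x : K) : en u D χ x 24 = u (x + 4) := by
  change u (x + ((8 : ℕ) : K) - 4) = u (x + 4)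
  congr 1
  push_cast
  ring

theorem en_25 (u D χ : K → K) (x : K) : en u D χ x 25 = D (x + 4) := by
  change D (x + ((8 : ℕ) : K) - 4) = D (x + 4)
  congr 1
  push_cast
  ring

theorem en_26 (u D χ : K → K) (x : K) : en u D χ x 26 = χ (x + 4) := by
  change χ (x + ((8 : ℕ) : K) - 4) = χ (x + 4)
  congr 1
  push_cast
  ring

theorem hC2_m2_0 (u D χ : K → K) (x : K) : ev (en u D χ x) C2_m2_0 = co u D χ 2 (-2) x := by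
  rw [co2_m2]
  simp only [C2_m2_0, ev, en_0, en_1, en_2, en_3, en_4, en_5, en_6, en_7, en_8, en_9, en_10, en_11, en_12, en_13, en_14, en_15, en_16, en_17, en_18, en_19, en_20, en_21, en_22, en_23, en_24, en_25, en_26, sh_m4_1, sh_m4_2, sh_m4_3, sh_m3_m1, sh_m3_1, sh_m3_2, sh_m3_3, sh_m2_m2, sh_m2_m1, sh_m2_1, sh_m2_2, sh_m2_3, sh_m1_m3, sh_m1_m2, sh_m1_m1, sh_m1_1, sh_m1_2, sh_m1_3, sh_1_m3, sh_1_m2, sh_1_m1, sh_1_1, sh_1_2, sh_1_3, sh_2_m3, sh_2_m2, sh_2_m1, sh_2_1, sh_2_2, sh_3_m3, sh_3_m2, sh_3_m1, sh_3_1, sh_4_m3, sh_4_m2, sh_4_m1]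
  try ring

theorem hC2_2_m2 (u D χ : K → K) (x : K) : ev (en u D χ x) C2_2_m2 = co u D χ 2 2 (x - 2) := by
  rw [co2_2]
  simp only [C2_2_m2, ev, en_0, en_1, en_2, en_3, en_4, en_5, en_6, en_7, en_8, en_9, en_10, en_11, en_12, en_13, en_14, en_15, en_16, en_17, en_18, en_19, en_20, en_21, en_22, en_23, en_24, en_25, en_26, sh_m4_1, sh_m4_2, sh_m4_3, sh_m3_m1, sh_m3_1, sh_m3_2, sh_m3_3, sh_m2_m2, sh_m2_m1, sh_m2_1, sh_m2_2, sh_m2_3, sh_m1_m3, sh_m1_m2, sh_m1_m1, sh_m1_1, sh_m1_2, sh_m1_3, sh_1_m3, sh_1_m2, sh_1_m1, sh_1_1, sh_1_2, sh_1_3, sh_2_m3, sh_2_m2, sh_2_m1, sh_2_1, sh_2_2, sh_3_m3, sh_3_m2, sh_3_m1, sh_3_1, sh_4_m3, sh_4_m2, sh_4_m1]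
  try ring

theorem hC2_1_m1 (u D χ : K → K) (x : K) : ev (en u D χ x) C2_1_m1 = co u D χ 2 1 (x - 1) := by
  rw [co2_1]
  simp only [C2_1_m1, ev, en_0, en_1, en_2, en_3, en_4, en_5, en_6, en_7, en_8, en_9, en_10, en_11, en_12, en_13, en_14, en_15, en_16, en_17, en_18, en_19, en_20, en_21, en_22, en_23, en_24, en_25, en_26, sh_m4_1, sh_m4_2, sh_m4_3, sh_m3_m1, sh_m3_1, sh_m3_2, sh_m3_3, sh_m2_m2, sh_m2_m1, sh_m2_1, sh_m2_2, sh_m2_3, sh_m1_m3, sh_m1_m2, sh_m1_m1, sh_m1_1, sh_m1_2, sh_m1_3, sh_1_m3, sh_1_m2, sh_1_m1, sh_1_1, sh_1_2, sh_1_3, sh_2_m3, sh_2_m2, sh_2_m1, sh_2_1, sh_2_2, sh_3_m3, sh_3_m2, sh_3_m1, sh_3_1, sh_4_m3, sh_4_m2, sh_4_m1]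
  try ring

theorem hC2_m1_0 (u D χ : K → K) (x : K) : ev (en u D χ x) C2_m1_0 = co u D χ 2 (-1) x := by
  rw [co2_m1]
  simp only [C2_m1_0, ev, en_0, en_1, en_2, en_3, en_4, en_5, en_6, en_7, en_8, en_9, en_10, en_11, en_12, en_13, en_14, en_15, en_16, en_17, en_18, en_19, en_20, en_21, en_22, en_23, en_24, en_25, en_26, sh_m4_1, sh_m4_2, sh_m4_3, sh_m3_m1, sh_m3_1, sh_m3_2, sh_m3_3, sh_m2_m2, sh_m2_m1, sh_m2_1, sh_m2_2, sh_m2_3, sh_m1_m3, sh_m1_m2, sh_m1_m1, sh_m1_1, sh_m1_2, sh_m1_3, sh_1_m3, sh_1_m2, sh_1_m1, sh_1_1, sh_1_2, sh_1_3, sh_2_m3, sh_2_m2, sh_2_m1, sh_2_1, sh_2_2, sh_3_m3, sh_3_m2, sh_3_m1, sh_3_1, sh_4_m3, sh_4_m2, sh_4_m1]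
  try ring

theorem hC2_0_0 (u D χ : K → K) (x : K) : ev (en u D χ x) C2_0_0 = co u D χ 2 0 x := by
  rw [co2_0]
  simp only [C2_0_0, ev, en_0, en_1, en_2, en_3, en_4, en_5, en_6, en_7, en_8, en_9, en_10, en_11, en_12, en_13, en_14, en_15, en_16, en_17, en_18, en_19, en_20, en_21, en_22, en_23, en_24, en_25, en_26, sh_m4_1, sh_m4_2, sh_m4_3, sh_m3_m1, sh_m3_1, sh_m3_2, sh_m3_3, sh_m2_m2, sh_m2_m1, sh_m2_1, sh_m2_2, sh_m2_3, sh_m1_m3, sh_m1_m2, sh_m1_m1, sh_m1_1, sh_m1_2, sh_m1_3, sh_1_m3, sh_1_m2, sh_1_m1, sh_1_1, sh_1_2, sh_1_3, sh_2_m3, sh_2_m2, sh_2_m1, sh_2_1, sh_2_2, sh_3_m3, sh_3_m2, sh_3_m1, sh_3_1, sh_4_m3, sh_4_m2, sh_4_m1]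
  try ring

theorem hC2_m1_1 (u D χ : K → K) (x : K) : ev (en u D χ x) C2_m1_1 = co u D χ 2 (-1) (x + 1) := by
  rw [co2_m1]
  simp only [C2_m1_1, ev, en_0, en_1, en_2, en_3, en_4, en_5, en_6, en_7, en_8, en_9, en_10, en_11, en_12, en_13, en_14, en_15, en_16, en_17, en_18, en_19, en_20, en_21, en_22, en_23, en_24, en_25, en_26, sh_m4_1, sh_m4_2, sh_m4_3, sh_m3_m1, sh_m3_1, sh_m3_2, sh_m3_3, sh_m2_m2, sh_m2_m1, sh_m2_1, sh_m2_2, sh_m2_3, sh_m1_m3, sh_m1_m2, sh_m1_m1, sh_m1_1, sh_m1_2, sh_m1_3, sh_1_m3, sh_1_m2, sh_1_m1, sh_1_1, sh_1_2, sh_1_3, sh_2_m3, sh_2_m2, sh_2_m1, sh_2_1, sh_2_2, sh_3_m3, sh_3_m2, sh_3_m1, sh_3_1, sh_4_m3, sh_4_m2, sh_4_m1]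
  try ring

theorem hC2_1_0 (u D χ : K → K) (x : K) : ev (en u D χ x) C2_1_0 = co u D χ 2 1 x := by
  rw [co2_1]
  simp only [C2_1_0, ev, en_0, en_1, en_2, en_3, en_4, en_5, en_6, en_7, en_8, en_9, en_10, en_11, en_12, en_13, en_14, en_15, en_16, en_17, en_18, en_19, en_20, en_21, en_22, en_23, en_24, en_25, en_26, sh_m4_1, sh_m4_2, sh_m4_3, sh_m3_m1, sh_m3_1, sh_m3_2, sh_m3_3, sh_m2_m2, sh_m2_m1, sh_m2_1, sh_m2_2, sh_m2_3, sh_m1_m3, sh_m1_m2, sh_m1_m1, sh_m1_1, sh_m1_2, sh_m1_3, sh_1_m3, sh_1_m2, sh_1_m1, sh_1_1, sh_1_2, sh_1_3, sh_2_m3, sh_2_m2, sh_2_m1, sh_2_1, sh_2_2, sh_3_m3, sh_3_m2, sh_3_m1, sh_3_1, sh_4_m3, sh_4_m2, sh_4_m1]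
  try ring

theorem hC2_m2_2 (u D χ : K → K) (x : K) : ev (en u D χ x) C2_m2_2 = co u D χ 2 (-2) (x + 2) := by
  rw [co2_m2]
  simp only [C2_m2_2, ev, en_0, en_1, en_2, en_3, en_4, en_5, en_6, en_7, en_8, en_9, en_10, en_11, en_12, en_13, en_14, en_15, en_16, en_17, en_18, en_19, en_20, en_21, en_22, en_23, en_24, en_25, en_26, sh_m4_1, sh_m4_2, sh_m4_3, sh_m3_m1, sh_m3_1, sh_m3_2, sh_m3_3, sh_m2_m2, sh_m2_m1, sh_m2_1, sh_m2_2, sh_m2_3, sh_m1_m3, sh_m1_m2, sh_m1_m1, sh_m1_1, sh_m1_2, sh_m1_3, sh_1_m3, sh_1_m2, sh_1_m1, sh_1_1, sh_1_2, sh_1_3, sh_2_m3, sh_2_m2, sh_2_m1, sh_2_1, sh_2_2, sh_3_m3, sh_3_m2, sh_3_m1, sh_3_1, sh_4_m3, sh_4_m2, sh_4_m1]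
  try ring

theorem hC2_2_0 (u D χ : K → K) (x : K) : ev (en u D χ x) C2_2_0 = co u D χ 2 2 x := by
  rw [co2_2]
  simp only [C2_2_0, ev, en_0, en_1, en_2, en_3, en_4, en_5, en_6, en_7, en_8, en_9, en_10, en_11, en_12, en_13, en_14, en_15, en_16, en_17, en_18, en_19, en_20, en_21, en_22, en_23, en_24, en_25, en_26, sh_m4_1, sh_m4_2, sh_m4_3, sh_m3_m1, sh_m3_1, sh_m3_2, sh_m3_3, sh_m2_m2, sh_m2_m1, sh_m2_1, sh_m2_2, sh_m2_3, sh_m1_m3, sh_m1_m2, sh_m1_m1, sh_m1_1, sh_m1_2, sh_m1_3, sh_1_m3, sh_1_m2, sh_1_m1, sh_1_1, sh_1_2, sh_1_3, sh_2_m3, sh_2_m2, sh_2_m1, sh_2_1, sh_2_2, sh_3_m3, sh_3_m2, sh_3_m1, sh_3_1, sh_4_m3, sh_4_m2, sh_4_m1]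
  try ring

theorem hC2_m2_m1 (u D χ : K → K) (x : K) : ev (en u D χ x) C2_m2_m1 = co u D χ 2 (-2) (x - 1) := by
  rw [co2_m2]
  simp only [C2_m2_m1, ev, en_0, en_1, en_2, en_3, en_4, en_5, en_6, en_7, en_8, en_9, en_10, en_11, en_12, en_13, en_14, en_15, en_16, en_17, en_18, en_19, en_20, en_21, en_22, en_23, en_24, en_25, en_26, sh_m4_1, sh_m4_2, sh_m4_3, sh_m3_m1, sh_m3_1, sh_m3_2, sh_m3_3, sh_m2_m2, sh_m2_m1, sh_m2_1, sh_m2_2, sh_m2_3, sh_m1_m3, sh_m1_m2, sh_m1_m1, sh_m1_1, sh_m1_2, sh_m1_3, sh_1_m3, sh_1_m2, sh_1_m1, sh_1_1, sh_1_2, sh_1_3, sh_2_m3, sh_2_m2, sh_2_m1, sh_2_1, sh_2_2, sh_3_m3, sh_3_m2, sh_3_m1, sh_3_1, sh_4_m3, sh_4_m2, sh_4_m1]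
  try ring

theorem hC2_m1_m1 (u D χ : K → K) (x : K) : ev (en u D χ x) C2_m1_m1 = co u D χ 2 (-1) (x - 1) := by
  rw [co2_m1]
  simp only [C2_m1_m1, ev, en_0, en_1, en_2, en_3, en_4, en_5, en_6, en_7, en_8, en_9, en_10, en_11, en_12, en_13, en_14, en_15, en_16, en_17, en_18, en_19, en_20, en_21, en_22, en_23, en_24, en_25, en_26, sh_m4_1, sh_m4_2, sh_m4_3, sh_m3_m1, sh_m3_1, sh_m3_2, sh_m3_3, sh_m2_m2, sh_m2_m1, sh_m2_1, sh_m2_2, sh_m2_3, sh_m1_m3, sh_m1_m2, sh_m1_m1, sh_m1_1, sh_m1_2, sh_m1_3, sh_1_m3, sh_1_m2, sh_1_m1, sh_1_1, sh_1_2, sh_1_3, sh_2_m3, sh_2_m2, sh_2_m1, sh_2_1, sh_2_2, sh_3_m3, sh_3_m2, sh_3_m1, sh_3_1, sh_4_m3, sh_4_m2, sh_4_m1]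
  try ring

theorem hC2_0_m1 (u D χ : K → K) (x : K) : ev (en u D χ x) C2_0_m1 = co u D χ 2 0 (x - 1) := by
  rw [co2_0]
  simp only [C2_0_m1, ev, en_0, en_1, en_2, en_3, en_4, en_5, en_6, en_7, en_8, en_9, en_10, en_11, en_12, en_13, en_14, en_15, en_16, en_17, en_18, en_19, en_20, en_21, en_22, en_23, en_24, en_25, en_26, sh_m4_1, sh_m4_2, sh_m4_3, sh_m3_m1, sh_m3_1, sh_m3_2, sh_m3_3, sh_m2_m2, sh_m2_m1, sh_m2_1, sh_m2_2, sh_m2_3, sh_m1_m3, sh_m1_m2, sh_m1_m1, sh_m1_1, sh_m1_2, sh_m1_3, sh_1_m3, sh_1_m2, sh_1_m1, sh_1_1, sh_1_2, sh_1_3, sh_2_m3, sh_2_m2, sh_2_m1, sh_2_1, sh_2_2, sh_3_m3, sh_3_m2, sh_3_m1, sh_3_1, sh_4_m3, sh_4_m2, sh_4_m1]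
  try ring

theorem hC2_m2_1 (u D χ : K → K) (x : K) : ev (en u D χ x) C2_m2_1 = co u D χ 2 (-2) (x + 1) := by
  rw [co2_m2]
  simp only [C2_m2_1, ev, en_0, en_1, en_2, en_3, en_4, en_5, en_6, en_7, en_8, en_9, en_10, en_11, en_12, en_13, en_14, en_15, en_16, en_17, en_18, en_19, en_20, en_21, en_22, en_23, en_24, en_25, en_26, sh_m4_1, sh_m4_2, sh_m4_3, sh_m3_m1, sh_m3_1, sh_m3_2, sh_m3_3, sh_m2_m2, sh_m2_m1, sh_m2_1, sh_m2_2, sh_m2_3, sh_m1_m3, sh_m1_m2, sh_m1_m1, sh_m1_1, sh_m1_2, sh_m1_3, sh_1_m3, sh_1_m2, sh_1_m1, sh_1_1, sh_1_2, sh_1_3, sh_2_m3, sh_2_m2, sh_2_m1, sh_2_1, sh_2_2, sh_3_m3, sh_3_m2, sh_3_m1, sh_3_1, sh_4_m3, sh_4_m2, sh_4_m1]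
  try ring

theorem hC2_2_m1 (u D χ : K → K) (x : K) : ev (en u D χ x) C2_2_m1 = co u D χ 2 2 (x - 1) := by
  rw [co2_2]
  simp only [C2_2_m1, ev, en_0, en_1, en_2, en_3, en_4, en_5, en_6, en_7, en_8, en_9, en_10, en_11, en_12, en_13, en_14, en_15, en_16, en_17, en_18, en_19, en_20, en_21, en_22, en_23, en_24, en_25, en_26, sh_m4_1, sh_m4_2, sh_m4_3, sh_m3_m1, sh_m3_1, sh_m3_2, sh_m3_3, sh_m2_m2, sh_m2_m1, sh_m2_1, sh_m2_2, sh_m2_3, sh_m1_m3, sh_m1_m2, sh_m1_m1, sh_m1_1, sh_m1_2, sh_m1_3, sh_1_m3, sh_1_m2, sh_1_m1, sh_1_1, sh_1_2, sh_1_3, sh_2_m3, sh_2_m2, sh_2_m1, sh_2_1, sh_2_2, sh_3_m3, sh_3_m2, sh_3_m1, sh_3_1, sh_4_m3, sh_4_m2, sh_4_m1]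
  try ring

theorem hC2_0_1 (u D χ : K → K) (x : K) : ev (en u D χ x) C2_0_1 = co u D χ 2 0 (x + 1) := by
  rw [co2_0]
  simp only [C2_0_1, ev, en_0, en_1, en_2, en_3, en_4, en_5, en_6, en_7, en_8, en_9, en_10, en_11, en_12, en_13, en_14, en_15, en_16, en_17, en_18, en_19, en_20, en_21, en_22, en_23, en_24, en_25, en_26, sh_m4_1, sh_m4_2, sh_m4_3, sh_m3_m1, sh_m3_1, sh_m3_2, sh_m3_3, sh_m2_m2, sh_m2_m1, sh_m2_1, sh_m2_2, sh_m2_3, sh_m1_m3, sh_m1_m2, sh_m1_m1, sh_m1_1, sh_m1_2, sh_m1_3, sh_1_m3, sh_1_m2, sh_1_m1, sh_1_1, sh_1_2, sh_1_3, sh_2_m3, sh_2_m2, sh_2_m1, sh_2_1, sh_2_2, sh_3_m3, sh_3_m2, sh_3_m1, sh_3_1, sh_4_m3, sh_4_m2, sh_4_m1]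
  try ring

theorem hC2_1_1 (u D χ : K → K) (x : K) : ev (en u D χ x) C2_1_1 = co u D χ 2 1 (x + 1) := by
  rw [co2_1]
  simp only [C2_1_1, ev, en_0, en_1, en_2, en_3, en_4, en_5, en_6, en_7, en_8, en_9, en_10, en_11, en_12, en_13, en_14, en_15, en_16, en_17, en_18, en_19, en_20, en_21, en_22, en_23, en_24, en_25, en_26, sh_m4_1, sh_m4_2, sh_m4_3, sh_m3_m1, sh_m3_1, sh_m3_2, sh_m3_3, sh_m2_m2, sh_m2_m1, sh_m2_1, sh_m2_2, sh_m2_3, sh_m1_m3, sh_m1_m2, sh_m1_m1, sh_m1_1, sh_m1_2, sh_m1_3, sh_1_m3, sh_1_m2, sh_1_m1, sh_1_1, sh_1_2, sh_1_3, sh_2_m3, sh_2_m2, sh_2_m1, sh_2_1, sh_2_2, sh_3_m3, sh_3_m2, sh_3_m1, sh_3_1, sh_4_m3, sh_4_m2, sh_4_m1]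
  try ring

theorem hC2_2_1 (u D χ : K → K) (x : K) : ev (en u D χ x) C2_2_1 = co u D χ 2 2 (x + 1) := by
  rw [co2_2]
  simp only [C2_2_1, ev, en_0, en_1, en_2, en_3, en_4, en_5, en_6, en_7, en_8, en_9, en_10, en_11, en_12, en_13, en_14, en_15, en_16, en_17, en_18, en_19, en_20, en_21, en_22, en_23, en_24, en_25, en_26, sh_m4_1, sh_m4_2, sh_m4_3, sh_m3_m1, sh_m3_1, sh_m3_2, sh_m3_3, sh_m2_m2, sh_m2_m1, sh_m2_1, sh_m2_2, sh_m2_3, sh_m1_m3, sh_m1_m2, sh_m1_m1, sh_m1_1, sh_m1_2, sh_m1_3, sh_1_m3, sh_1_m2, sh_1_m1, sh_1_1, sh_1_2, sh_1_3, sh_2_m3, sh_2_m2, sh_2_m1, sh_2_1, sh_2_2, sh_3_m3, sh_3_m2, sh_3_m1, sh_3_1, sh_4_m3, sh_4_m2, sh_4_m1]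
  try ring

theorem hC2_1_m3 (u D χ : K → K) (x : K) : ev (en u D χ x) C2_1_m3 = co u D χ 2 1 (x - 3) := by
  rw [co2_1]
  simp only [C2_1_m3, ev, en_0, en_1, en_2, en_3, en_4, en_5, en_6, en_7, en_8, en_9, en_10, en_11, en_12, en_13, en_14, en_15, en_16, en_17, en_18, en_19, en_20, en_21, en_22, en_23, en_24, en_25, en_26, sh_m4_1, sh_m4_2, sh_m4_3, sh_m3_m1, sh_m3_1, sh_m3_2, sh_m3_3, sh_m2_m2, sh_m2_m1, sh_m2_1, sh_m2_2, sh_m2_3, sh_m1_m3, sh_m1_m2, sh_m1_m1, sh_m1_1, sh_m1_2, sh_m1_3, sh_1_m3, sh_1_m2, sh_1_m1, sh_1_1, sh_1_2, sh_1_3, sh_2_m3, sh_2_m2, sh_2_m1, sh_2_1, sh_2_2, sh_3_m3, sh_3_m2, sh_3_m1, sh_3_1, sh_4_m3, sh_4_m2, sh_4_m1]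
  try ring

theorem hC2_2_m3 (u D χ : K → K) (x : K) : ev (en u D χ x) C2_2_m3 = co u D χ 2 2 (x - 3) := by
  rw [co2_2]
  simp only [C2_2_m3, ev, en_0, en_1, en_2, en_3, en_4, en_5, en_6, en_7, en_8, en_9, en_10, en_11, en_12, en_13, en_14, en_15, en_16, en_17, en_18, en_19, en_20, en_21, en_22, en_23, en_24, en_25, en_26, sh_m4_1, sh_m4_2, sh_m4_3, sh_m3_m1, sh_m3_1, sh_m3_2, sh_m3_3, sh_m2_m2, sh_m2_m1, sh_m2_1, sh_m2_2, sh_m2_3, sh_m1_m3, sh_m1_m2, sh_m1_m1, sh_m1_1, sh_m1_2, sh_m1_3, sh_1_m3, sh_1_m2, sh_1_m1, sh_1_1, sh_1_2, sh_1_3, sh_2_m3, sh_2_m2, sh_2_m1, sh_2_1, sh_2_2, sh_3_m3, sh_3_m2, sh_3_m1, sh_3_1, sh_4_m3, sh_4_m2, sh_4_m1]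
  try ring

theorem hC2_0_m2 (u D χ : K → K) (x : K) : ev (en u D χ x) C2_0_m2 = co u D χ 2 0 (x - 2) := by
  rw [co2_0]
  simp only [C2_0_m2, ev, en_0, en_1, en_2, en_3, en_4, en_5, en_6, en_7, en_8, en_9, en_10, en_11, en_12, en_13, en_14, en_15, en_16, en_17, en_18, en_19, en_20, en_21, en_22, en_23, en_24, en_25, en_26, sh_m4_1, sh_m4_2, sh_m4_3, sh_m3_m1, sh_m3_1, sh_m3_2, sh_m3_3, sh_m2_m2, sh_m2_m1, sh_m2_1, sh_m2_2, sh_m2_3, sh_m1_m3, sh_m1_m2, sh_m1_m1, sh_m1_1, sh_m1_2, sh_m1_3, sh_1_m3, sh_1_m2, sh_1_m1, sh_1_1, sh_1_2, sh_1_3, sh_2_m3, sh_2_m2, sh_2_m1, sh_2_1, sh_2_2, sh_3_m3, sh_3_m2, sh_3_m1, sh_3_1, sh_4_m3, sh_4_m2, sh_4_m1]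
  try ring

theorem hC2_1_m2 (u D χ : K → K) (x : K) : ev (en u D χ x) C2_1_m2 = co u D χ 2 1 (x - 2) := by
  rw [co2_1]
  simp only [C2_1_m2, ev, en_0, en_1, en_2, en_3, en_4, en_5, en_6, en_7, en_8, en_9, en_10, en_11, en_12, en_13, en_14, en_15, en_16, en_17, en_18, en_19, en_20, en_21, en_22, en_23, en_24, en_25, en_26, sh_m4_1, sh_m4_2, sh_m4_3, sh_m3_m1, sh_m3_1, sh_m3_2, sh_m3_3, sh_m2_m2, sh_m2_m1, sh_m2_1, sh_m2_2, sh_m2_3, sh_m1_m3, sh_m1_m2, sh_m1_m1, sh_m1_1, sh_m1_2, sh_m1_3, sh_1_m3, sh_1_m2, sh_1_m1, sh_1_1, sh_1_2, sh_1_3, sh_2_m3, sh_2_m2, sh_2_m1, sh_2_1, sh_2_2, sh_3_m3, sh_3_m2, sh_3_m1, sh_3_1, sh_4_m3, sh_4_m2, sh_4_m1]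
  try ring

theorem hC2_m1_2 (u D χ : K → K) (x : K) : ev (en u D χ x) C2_m1_2 = co u D χ 2 (-1) (x + 2) := by
  rw [co2_m1]
  simp only [C2_m1_2, ev, en_0, en_1, en_2, en_3, en_4, en_5, en_6, en_7, en_8, en_9, en_10, en_11, en_12, en_13, en_14, en_15, en_16, en_17, en_18, en_19, en_20, en_21, en_22, en_23, en_24, en_25, en_26, sh_m4_1, sh_m4_2, sh_m4_3, sh_m3_m1, sh_m3_1, sh_m3_2, sh_m3_3, sh_m2_m2, sh_m2_m1, sh_m2_1, sh_m2_2, sh_m2_3, sh_m1_m3, sh_m1_m2, sh_m1_m1, sh_m1_1, sh_m1_2, sh_m1_3, sh_1_m3, sh_1_m2, sh_1_m1, sh_1_1, sh_1_2, sh_1_3, sh_2_m3, sh_2_m2, sh_2_m1, sh_2_1, sh_2_2, sh_3_m3, sh_3_m2, sh_3_m1, sh_3_1, sh_4_m3, sh_4_m2, sh_4_m1]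
  try ring

theorem hC2_0_2 (u D χ : K → K) (x : K) : ev (en u D χ x) C2_0_2 = co u D χ 2 0 (x + 2) := by
  rw [co2_0]
  simp only [C2_0_2, ev, en_0, en_1, en_2, en_3, en_4, en_5, en_6, en_7, en_8, en_9, en_10, en_11, en_12, en_13, en_14, en_15, en_16, en_17, en_18, en_19, en_20, en_21, en_22, en_23, en_24, en_25, en_26, sh_m4_1, sh_m4_2, sh_m4_3, sh_m3_m1, sh_m3_1, sh_m3_2, sh_m3_3, sh_m2_m2, sh_m2_m1, sh_m2_1, sh_m2_2, sh_m2_3, sh_m1_m3, sh_m1_m2, sh_m1_m1, sh_m1_1, sh_m1_2, sh_m1_3, sh_1_m3, sh_1_m2, sh_1_m1, sh_1_1, sh_1_2, sh_1_3, sh_2_m3, sh_2_m2, sh_2_m1, sh_2_1, sh_2_2, sh_3_m3, sh_3_m2, sh_3_m1, sh_3_1, sh_4_m3, sh_4_m2, sh_4_m1]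
  try ring

theorem hC2_m2_3 (u D χ : K → K) (x : K) : ev (en u D χ x) C2_m2_3 = co u D χ 2 (-2) (x + 3) := by
  rw [co2_m2]
  simp only [C2_m2_3, ev, en_0, en_1, en_2, en_3, en_4, en_5, en_6, en_7, en_8, en_9, en_10, en_11, en_12, en_13, en_14, en_15, en_16, en_17, en_18, en_19, en_20, en_21, en_22, en_23, en_24, en_25, en_26, sh_m4_1, sh_m4_2, sh_m4_3, sh_m3_m1, sh_m3_1, sh_m3_2, sh_m3_3, sh_m2_m2, sh_m2_m1, sh_m2_1, sh_m2_2, sh_m2_3, sh_m1_m3, sh_m1_m2, sh_m1_m1, sh_m1_1, sh_m1_2, sh_m1_3, sh_1_m3, sh_1_m2, sh_1_m1, sh_1_1, sh_1_2, sh_1_3, sh_2_m3, sh_2_m2, sh_2_m1, sh_2_1, sh_2_2, sh_3_m3, sh_3_m2, sh_3_m1, sh_3_1, sh_4_m3, sh_4_m2, sh_4_m1]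
  try ring

theorem hC2_m1_3 (u D χ : K → K) (x : K) : ev (en u D χ x) C2_m1_3 = co u D χ 2 (-1) (x + 3) := by
  rw [co2_m1]
  simp only [C2_m1_3, ev, en_0, en_1, en_2, en_3, en_4, en_5, en_6, en_7, en_8, en_9, en_10, en_11, en_12, en_13, en_14, en_15, en_16, en_17, en_18, en_19, en_20, en_21, en_22, en_23, en_24, en_25, en_26, sh_m4_1, sh_m4_2, sh_m4_3, sh_m3_m1, sh_m3_1, sh_m3_2, sh_m3_3, sh_m2_m2, sh_m2_m1, sh_m2_1, sh_m2_2, sh_m2_3, sh_m1_m3, sh_m1_m2, sh_m1_m1, sh_m1_1, sh_m1_2, sh_m1_3, sh_1_m3, sh_1_m2, sh_1_m1, sh_1_1, sh_1_2, sh_1_3, sh_2_m3, sh_2_m2, sh_2_m1, sh_2_1, sh_2_2, sh_3_m3, sh_3_m2, sh_3_m1, sh_3_1, sh_4_m3, sh_4_m2, sh_4_m1]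
  try ring

theorem hC2_m2_m2 (u D χ : K → K) (x : K) : ev (en u D χ x) C2_m2_m2 = co u D χ 2 (-2) (x - 2) := by
  rw [co2_m2]
  simp only [C2_m2_m2, ev, en_0, en_1, en_2, en_3, en_4, en_5, en_6, en_7, en_8, en_9, en_10, en_11, en_12, en_13, en_14, en_15, en_16, en_17, en_18, en_19, en_20, en_21, en_22, en_23, en_24, en_25, en_26, sh_m4_1, sh_m4_2, sh_m4_3, sh_m3_m1, sh_m3_1, sh_m3_2, sh_m3_3, sh_m2_m2, sh_m2_m1, sh_m2_1, sh_m2_2, sh_m2_3, sh_m1_m3, sh_m1_m2, sh_m1_m1, sh_m1_1, sh_m1_2, sh_m1_3, sh_1_m3, sh_1_m2, sh_1_m1, sh_1_1, sh_1_2, sh_1_3, sh_2_m3, sh_2_m2, sh_2_m1, sh_2_1, sh_2_2, sh_3_m3, sh_3_m2, sh_3_m1, sh_3_1, sh_4_m3, sh_4_m2, sh_4_m1]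
  try ring

theorem hC2_2_m4 (u D χ : K → K) (x : K) : ev (en u D χ x) C2_2_m4 = co u D χ 2 2 (x - 4) := by
  rw [co2_2]
  simp only [C2_2_m4, ev, en_0, en_1, en_2, en_3, en_4, en_5, en_6, en_7, en_8, en_9, en_10, en_11, en_12, en_13, en_14, en_15, en_16, en_17, en_18, en_19, en_20, en_21, en_22, en_23, en_24, en_25, en_26, sh_m4_1, sh_m4_2, sh_m4_3, sh_m3_m1, sh_m3_1, sh_m3_2, sh_m3_3, sh_m2_m2, sh_m2_m1, sh_m2_1, sh_m2_2, sh_m2_3, sh_m1_m3, sh_m1_m2, sh_m1_m1, sh_m1_1, sh_m1_2, sh_m1_3, sh_1_m3, sh_1_m2, sh_1_m1, sh_1_1, sh_1_2, sh_1_3, sh_2_m3, sh_2_m2, sh_2_m1, sh_2_1, sh_2_2, sh_3_m3, sh_3_m2, sh_3_m1, sh_3_1, sh_4_m3, sh_4_m2, sh_4_m1]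
  try ring

theorem hC2_m1_m2 (u D χ : K → K) (x : K) : ev (en u D χ x) C2_m1_m2 = co u D χ 2 (-1) (x - 2) := by
  rw [co2_m1]
  simp only [C2_m1_m2, ev, en_0, en_1, en_2, en_3, en_4, en_5, en_6, en_7, en_8, en_9, en_10, en_11, en_12, en_13, en_14, en_15, en_16, en_17, en_18, en_19, en_20, en_21, en_22, en_23, en_24, en_25, en_26, sh_m4_1, sh_m4_2, sh_m4_3, sh_m3_m1, sh_m3_1, sh_m3_2, sh_m3_3, sh_m2_m2, sh_m2_m1, sh_m2_1, sh_m2_2, sh_m2_3, sh_m1_m3, sh_m1_m2, sh_m1_m1, sh_m1_1, sh_m1_2, sh_m1_3, sh_1_m3, sh_1_m2, sh_1_m1, sh_1_1, sh_1_2, sh_1_3, sh_2_m3, sh_2_m2, sh_2_m1, sh_2_1, sh_2_2, sh_3_m3, sh_3_m2, sh_3_m1, sh_3_1, sh_4_m3, sh_4_m2, sh_4_m1]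
  try ring

theorem hC2_1_2 (u D χ : K → K) (x : K) : ev (en u D χ x) C2_1_2 = co u D χ 2 1 (x + 2) := by
  rw [co2_1]
  simp only [C2_1_2, ev, en_0, en_1, en_2, en_3, en_4, en_5, en_6, en_7, en_8, en_9, en_10, en_11, en_12, en_13, en_14, en_15, en_16, en_17, en_18, en_19, en_20, en_21, en_22, en_23, en_24, en_25, en_26, sh_m4_1, sh_m4_2, sh_m4_3, sh_m3_m1, sh_m3_1, sh_m3_2, sh_m3_3, sh_m2_m2, sh_m2_m1, sh_m2_1, sh_m2_2, sh_m2_3, sh_m1_m3, sh_m1_m2, sh_m1_m1, sh_m1_1, sh_m1_2, sh_m1_3, sh_1_m3, sh_1_m2, sh_1_m1, sh_1_1, sh_1_2, sh_1_3, sh_2_m3, sh_2_m2, sh_2_m1, sh_2_1, sh_2_2, sh_3_m3, sh_3_m2, sh_3_m1, sh_3_1, sh_4_m3, sh_4_m2, sh_4_m1]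
  try ring

theorem hC2_2_2 (u D χ : K → K) (x : K) : ev (en u D χ x) C2_2_2 = co u D χ 2 2 (x + 2) := by
  rw [co2_2]
  simp only [C2_2_2, ev, en_0, en_1, en_2, en_3, en_4, en_5, en_6, en_7, en_8, en_9, en_10, en_11, en_12, en_13, en_14, en_15, en_16, en_17, en_18, en_19, en_20, en_21, en_22, en_23, en_24, en_25, en_26, sh_m4_1, sh_m4_2, sh_m4_3, sh_m3_m1, sh_m3_1, sh_m3_2, sh_m3_3, sh_m2_m2, sh_m2_m1, sh_m2_1, sh_m2_2, sh_m2_3, sh_m1_m3, sh_m1_m2, sh_m1_m1, sh_m1_1, sh_m1_2, sh_m1_3, sh_1_m3, sh_1_m2, sh_1_m1, sh_1_1, sh_1_2, sh_1_3, sh_2_m3, sh_2_m2, sh_2_m1, sh_2_1, sh_2_2, sh_3_m3, sh_3_m2, sh_3_m1, sh_3_1, sh_4_m3, sh_4_m2, sh_4_m1]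
  try ring

theorem hC2_m2_4 (u D χ : K → K) (x : K) : ev (en u D χ x) C2_m2_4 = co u D χ 2 (-2) (x + 4) := by
  rw [co2_m2]
  simp only [C2_m2_4, ev, en_0, en_1, en_2, en_3, en_4, en_5, en_6, en_7, en_8, en_9, en_10, en_11, en_12, en_13, en_14, en_15, en_16, en_17, en_18, en_19, en_20, en_21, en_22, en_23, en_24, en_25, en_26, sh_m4_1, sh_m4_2, sh_m4_3, sh_m3_m1, sh_m3_1, sh_m3_2, sh_m3_3, sh_m2_m2, sh_m2_m1, sh_m2_1, sh_m2_2, sh_m2_3, sh_m1_m3, sh_m1_m2, sh_m1_m1, sh_m1_1, sh_m1_2, sh_m1_3, sh_1_m3, sh_1_m2, sh_1_m1, sh_1_1, sh_1_2, sh_1_3, sh_2_m3, sh_2_m2, sh_2_m1, sh_2_1, sh_2_2, sh_3_m3, sh_3_m2, sh_3_m1, sh_3_1, sh_4_m3, sh_4_m2, sh_4_m1]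
  try ring

theorem hC3_2_m2 (u D χ : K → K) (x : K) : ev (en u D χ x) C3_2_m2 = co u D χ 3 2 (x - 2) := by
  rw [co3_2]
  simp only [C3_2_m2, ev, hC2_1_m1, hC2_2_m2, en_0, en_1, en_2, en_3, en_4, en_5, en_6, en_7, en_8, en_9, en_10, en_11, en_12, en_13, en_14, en_15, en_16, en_17, en_18, en_19, en_20, en_21, en_22, en_23, en_24, en_25, en_26, sh_m4_1, sh_m4_2, sh_m4_3, sh_m3_m1, sh_m3_1, sh_m3_2, sh_m3_3, sh_m2_m2, sh_m2_m1, sh_m2_1, sh_m2_2, sh_m2_3, sh_m1_m3, sh_m1_m2, sh_m1_m1, sh_m1_1, sh_m1_2, sh_m1_3, sh_1_m3, sh_1_m2, sh_1_m1, sh_1_1, sh_1_2, sh_1_3, sh_2_m3, sh_2_m2, sh_2_m1, sh_2_1, sh_2_2, sh_3_m3, sh_3_m2, sh_3_m1, sh_3_1, sh_4_m3, sh_4_m2, sh_4_m1, co1_1, co1_0, co1_m1]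
  try ring

theorem hC3_1_m1 (u D χ : K → K) (x : K) : ev (en u D χ x) C3_1_m1 = co u D χ 3 1 (x - 1) := by
  rw [co3_1]
  simp only [C3_1_m1, ev, hC2_0_0, hC2_1_m1, hC2_2_m2, en_0, en_1, en_2, en_3, en_4, en_5, en_6, en_7, en_8, en_9, en_10, en_11, en_12, en_13, en_14, en_15, en_16, en_17, en_18, en_19, en_20, en_21, en_22, en_23, en_24, en_25, en_26, sh_m4_1, sh_m4_2, sh_m4_3, sh_m3_m1, sh_m3_1, sh_m3_2, sh_m3_3, sh_m2_m2, sh_m2_m1, sh_m2_1, sh_m2_2, sh_m2_3, sh_m1_m3, sh_m1_m2, sh_m1_m1, sh_m1_1, sh_m1_2, sh_m1_3, sh_1_m3, sh_1_m2, sh_1_m1, sh_1_1, sh_1_2, sh_1_3, sh_2_m3, sh_2_m2, sh_2_m1, sh_2_1, sh_2_2, sh_3_m3, sh_3_m2, sh_3_m1, sh_3_1, sh_4_m3, sh_4_m2, sh_4_m1, co1_1, co1_0, co1_m1]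
  try ring

theorem hC3_0_0 (u D χ : K → K) (x : K) : ev (en u D χ x) C3_0_0 = co u D χ 3 0 x := by
  rw [co3_0]
  simp only [C3_0_0, ev, hC2_0_0, hC2_1_m1, hC2_m1_1, en_0, en_1, en_2, en_3, en_4, en_5, en_6, en_7, en_8, en_9, en_10, en_11, en_12, en_13, en_14, en_15, en_16, en_17, en_18, en_19, en_20, en_21, en_22, en_23, en_24, en_25, en_26, sh_m4_1, sh_m4_2, sh_m4_3, sh_m3_m1, sh_m3_1, sh_m3_2, sh_m3_3, sh_m2_m2, sh_m2_m1, sh_m2_1, sh_m2_2, sh_m2_3, sh_m1_m3, sh_m1_m2, sh_m1_m1, sh_m1_1, sh_m1_2, sh_m1_3, sh_1_m3, sh_1_m2, sh_1_m1, sh_1_1, sh_1_2, sh_1_3, sh_2_m3, sh_2_m2, sh_2_m1, sh_2_1, sh_2_2, sh_3_m3, sh_3_m2, sh_3_m1, sh_3_1, sh_4_m3, sh_4_m2, sh_4_m1, co1_1, co1_0, co1_m1]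
  try ring

theorem hC3_m1_1 (u D χ : K → K) (x : K) : ev (en u D χ x) C3_m1_1 = co u D χ 3 (-1) (x + 1) := by
  rw [co3_m1]
  simp only [C3_m1_1, ev, hC2_0_0, hC2_m1_1, hC2_m2_2, en_0, en_1, en_2, en_3, en_4, en_5, en_6, en_7, en_8, en_9, en_10, en_11, en_12, en_13, en_14, en_15, en_16, en_17, en_18, en_19, en_20, en_21, en_22, en_23, en_24, en_25, en_26, sh_m4_1, sh_m4_2, sh_m4_3, sh_m3_m1, sh_m3_1, sh_m3_2, sh_m3_3, sh_m2_m2, sh_m2_m1, sh_m2_1, sh_m2_2, sh_m2_3, sh_m1_m3, sh_m1_m2, sh_m1_m1, sh_m1_1, sh_m1_2, sh_m1_3, sh_1_m3, sh_1_m2, sh_1_m1, sh_1_1, sh_1_2, sh_1_3, sh_2_m3, sh_2_m2, sh_2_m1, sh_2_1, sh_2_2, sh_3_m3, sh_3_m2, sh_3_m1, sh_3_1, sh_4_m3, sh_4_m2, sh_4_m1, co1_1, co1_0, co1_m1]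
  try ring

theorem hC3_m2_2 (u D χ : K → K) (x : K) : ev (en u D χ x) C3_m2_2 = co u D χ 3 (-2) (x + 2) := by
  rw [co3_m2]
  simp only [C3_m2_2, ev, hC2_m1_1, hC2_m2_2, en_0, en_1, en_2, en_3, en_4, en_5, en_6, en_7, en_8, en_9, en_10, en_11, en_12, en_13, en_14, en_15, en_16, en_17, en_18, en_19, en_20, en_21, en_22, en_23, en_24, en_25, en_26, sh_m4_1, sh_m4_2, sh_m4_3, sh_m3_m1, sh_m3_1, sh_m3_2, sh_m3_3, sh_m2_m2, sh_m2_m1, sh_m2_1, sh_m2_2, sh_m2_3, sh_m1_m3, sh_m1_m2, sh_m1_m1, sh_m1_1, sh_m1_2, sh_m1_3, sh_1_m3, sh_1_m2, sh_1_m1, sh_1_1, sh_1_2, sh_1_3, sh_2_m3, sh_2_m2, sh_2_m1, sh_2_1, sh_2_2, sh_3_m3, sh_3_m2, sh_3_m1, sh_3_1, sh_4_m3, sh_4_m2, sh_4_m1, co1_1, co1_0, co1_m1]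
  try ring

theorem hC3_m3_0 (u D χ : K → K) (x : K) : ev (en u D χ x) C3_m3_0 = co u D χ 3 (-3) x := by
  rw [co3_m3]
  simp only [C3_m3_0, ev, hC2_m2_m1, en_0, en_1, en_2, en_3, en_4, en_5, en_6, en_7, en_8, en_9, en_10, en_11, en_12, en_13, en_14, en_15, en_16, en_17, en_18, en_19, en_20, en_21, en_22, en_23, en_24, en_25, en_26, sh_m4_1, sh_m4_2, sh_m4_3, sh_m3_m1, sh_m3_1, sh_m3_2, sh_m3_3, sh_m2_m2, sh_m2_m1, sh_m2_1, sh_m2_2, sh_m2_3, sh_m1_m3, sh_m1_m2, sh_m1_m1, sh_m1_1, sh_m1_2, sh_m1_3, sh_1_m3, sh_1_m2, sh_1_m1, sh_1_1, sh_1_2, sh_1_3, sh_2_m3, sh_2_m2, sh_2_m1, sh_2_1, sh_2_2, sh_3_m3, sh_3_m2, sh_3_m1, sh_3_1, sh_4_m3, sh_4_m2, sh_4_m1, co1_1, co1_0, co1_m1]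
  try ring

theorem hC3_3_m3 (u D χ : K → K) (x : K) : ev (en u D χ x) C3_3_m3 = co u D χ 3 3 (x - 3) := by
  rw [co3_3]
  simp only [C3_3_m3, ev, hC2_2_m2, en_0, en_1, en_2, en_3, en_4, en_5, en_6, en_7, en_8, en_9, en_10, en_11, en_12, en_13, en_14, en_15, en_16, en_17, en_18, en_19, en_20, en_21, en_22, en_23, en_24, en_25, en_26, sh_m4_1, sh_m4_2, sh_m4_3, sh_m3_m1, sh_m3_1, sh_m3_2, sh_m3_3, sh_m2_m2, sh_m2_m1, sh_m2_1, sh_m2_2, sh_m2_3, sh_m1_m3, sh_m1_m2, sh_m1_m1, sh_m1_1, sh_m1_2, sh_m1_3, sh_1_m3, sh_1_m2, sh_1_m1, sh_1_1, sh_1_2, sh_1_3, sh_2_m3, sh_2_m2, sh_2_m1, sh_2_1, sh_2_2, sh_3_m3, sh_3_m2, sh_3_m1, sh_3_1, sh_4_m3, sh_4_m2, sh_4_m1, co1_1, co1_0, co1_m1]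
  try ring

theorem hC3_m2_0 (u D χ : K → K) (x : K) : ev (en u D χ x) C3_m2_0 = co u D χ 3 (-2) x := by
  rw [co3_m2]
  simp only [C3_m2_0, ev, hC2_m1_m1, hC2_m2_0, en_0, en_1, en_2, en_3, en_4, en_5, en_6, en_7, en_8, en_9, en_10, en_11, en_12, en_13, en_14, en_15, en_16, en_17, en_18, en_19, en_20, en_21, en_22, en_23, en_24, en_25, en_26, sh_m4_1, sh_m4_2, sh_m4_3, sh_m3_m1, sh_m3_1, sh_m3_2, sh_m3_3, sh_m2_m2, sh_m2_m1, sh_m2_1, sh_m2_2, sh_m2_3, sh_m1_m3, sh_m1_m2, sh_m1_m1, sh_m1_1, sh_m1_2, sh_m1_3, sh_1_m3, sh_1_m2, sh_1_m1, sh_1_1, sh_1_2, sh_1_3, sh_2_m3, sh_2_m2, sh_2_m1, sh_2_1, sh_2_2, sh_3_m3, sh_3_m2, sh_3_m1, sh_3_1, sh_4_m3, sh_4_m2, sh_4_m1, co1_1, co1_0, co1_m1]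
  try ring

theorem hC3_m1_0 (u D χ : K → K) (x : K) : ev (en u D χ x) C3_m1_0 = co u D χ 3 (-1) x := by
  rw [co3_m1]
  simp only [C3_m1_0, ev, hC2_0_m1, hC2_m1_0, hC2_m2_1, en_0, en_1, en_2, en_3, en_4, en_5, en_6, en_7, en_8, en_9, en_10, en_11, en_12, en_13, en_14, en_15, en_16, en_17, en_18, en_19, en_20, en_21, en_22, en_23, en_24, en_25, en_26, sh_m4_1, sh_m4_2, sh_m4_3, sh_m3_m1, sh_m3_1, sh_m3_2, sh_m3_3, sh_m2_m2, sh_m2_m1, sh_m2_1, sh_m2_2, sh_m2_3, sh_m1_m3, sh_m1_m2, sh_m1_m1, sh_m1_1, sh_m1_2, sh_m1_3, sh_1_m3, sh_1_m2, sh_1_m1, sh_1_1, sh_1_2, sh_1_3, sh_2_m3, sh_2_m2, sh_2_m1, sh_2_1, sh_2_2, sh_3_m3, sh_3_m2, sh_3_m1, sh_3_1, sh_4_m3, sh_4_m2, sh_4_m1, co1_1, co1_0, co1_m1]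
  try ring

theorem hC3_1_0 (u D χ : K → K) (x : K) : ev (en u D χ x) C3_1_0 = co u D χ 3 1 x := by
  rw [co3_1]
  simp only [C3_1_0, ev, hC2_0_1, hC2_1_0, hC2_2_m1, en_0, en_1, en_2, en_3, en_4, en_5, en_6, en_7, en_8, en_9, en_10, en_11, en_12, en_13, en_14, en_15, en_16, en_17, en_18, en_19, en_20, en_21, en_22, en_23, en_24, en_25, en_26, sh_m4_1, sh_m4_2, sh_m4_3, sh_m3_m1, sh_m3_1, sh_m3_2, sh_m3_3, sh_m2_m2, sh_m2_m1, sh_m2_1, sh_m2_2, sh_m2_3, sh_m1_m3, sh_m1_m2, sh_m1_m1, sh_m1_1, sh_m1_2, sh_m1_3, sh_1_m3, sh_1_m2, sh_1_m1, sh_1_1, sh_1_2, sh_1_3, sh_2_m3, sh_2_m2, sh_2_m1, sh_2_1, sh_2_2, sh_3_m3, sh_3_m2, sh_3_m1, sh_3_1, sh_4_m3, sh_4_m2, sh_4_m1, co1_1, co1_0, co1_m1]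
  try ring

theorem hC3_2_0 (u D χ : K → K) (x : K) : ev (en u D χ x) C3_2_0 = co u D χ 3 2 x := by
  rw [co3_2]
  simp only [C3_2_0, ev, hC2_1_1, hC2_2_0, en_0, en_1, en_2, en_3, en_4, en_5, en_6, en_7, en_8, en_9, en_10, en_11, en_12, en_13, en_14, en_15, en_16, en_17, en_18, en_19, en_20, en_21, en_22, en_23, en_24, en_25, en_26, sh_m4_1, sh_m4_2, sh_m4_3, sh_m3_m1, sh_m3_1, sh_m3_2, sh_m3_3, sh_m2_m2, sh_m2_m1, sh_m2_1, sh_m2_2, sh_m2_3, sh_m1_m3, sh_m1_m2, sh_m1_m1, sh_m1_1, sh_m1_2, sh_m1_3, sh_1_m3, sh_1_m2, sh_1_m1, sh_1_1, sh_1_2, sh_1_3, sh_2_m3, sh_2_m2, sh_2_m1, sh_2_1, sh_2_2, sh_3_m3, sh_3_m2, sh_3_m1, sh_3_1, sh_4_m3, sh_4_m2, sh_4_m1, co1_1, co1_0, co1_m1]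
  try ring

theorem hC3_3_0 (u D χ : K → K) (x : K) : ev (en u D χ x) C3_3_0 = co u D χ 3 3 x := by
  rw [co3_3]
  simp only [C3_3_0, ev, hC2_2_1, en_0, en_1, en_2, en_3, en_4, en_5, en_6, en_7, en_8, en_9, en_10, en_11, en_12, en_13, en_14, en_15, en_16, en_17, en_18, en_19, en_20, en_21, en_22, en_23, en_24, en_25, en_26, sh_m4_1, sh_m4_2, sh_m4_3, sh_m3_m1, sh_m3_1, sh_m3_2, sh_m3_3, sh_m2_m2, sh_m2_m1, sh_m2_1, sh_m2_2, sh_m2_3, sh_m1_m3, sh_m1_m2, sh_m1_m1, sh_m1_1, sh_m1_2, sh_m1_3, sh_1_m3, sh_1_m2, sh_1_m1, sh_1_1, sh_1_2, sh_1_3, sh_2_m3, sh_2_m2, sh_2_m1, sh_2_1, sh_2_2, sh_3_m3, sh_3_m2, sh_3_m1, sh_3_1, sh_4_m3, sh_4_m2, sh_4_m1, co1_1, co1_0, co1_m1]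
  try ring

theorem hC3_m3_3 (u D χ : K → K) (x : K) : ev (en u D χ x) C3_m3_3 = co u D χ 3 (-3) (x + 3) := by
  rw [co3_m3]
  simp only [C3_m3_3, ev, hC2_m2_2, en_0, en_1, en_2, en_3, en_4, en_5, en_6, en_7, en_8, en_9, en_10, en_11, en_12, en_13, en_14, en_15, en_16, en_17, en_18, en_19, en_20, en_21, en_22, en_23, en_24, en_25, en_26, sh_m4_1, sh_m4_2, sh_m4_3, sh_m3_m1, sh_m3_1, sh_m3_2, sh_m3_3, sh_m2_m2, sh_m2_m1, sh_m2_1, sh_m2_2, sh_m2_3, sh_m1_m3, sh_m1_m2, sh_m1_m1, sh_m1_1, sh_m1_2, sh_m1_3, sh_1_m3, sh_1_m2, sh_1_m1, sh_1_1, sh_1_2, sh_1_3, sh_2_m3, sh_2_m2, sh_2_m1, sh_2_1, sh_2_2, sh_3_m3, sh_3_m2, sh_3_m1, sh_3_1, sh_4_m3, sh_4_m2, sh_4_m1, co1_1, co1_0, co1_m1]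
  try ring

theorem hC4_3_m3 (u D χ : K → K) (x : K) : ev (en u D χ x) C4_3_m3 = co u D χ 4 3 (x - 3) := by
  rw [co4_3]
  simp only [C4_3_m3, ev, hC2_1_m1, hC2_1_m3, hC2_2_m2, hC2_2_m3, sh_m4_1, sh_m4_2, sh_m4_3, sh_m3_m1, sh_m3_1, sh_m3_2, sh_m3_3, sh_m2_m2, sh_m2_m1, sh_m2_1, sh_m2_2, sh_m2_3, sh_m1_m3, sh_m1_m2, sh_m1_m1, sh_m1_1, sh_m1_2, sh_m1_3, sh_1_m3, sh_1_m2, sh_1_m1, sh_1_1, sh_1_2, sh_1_3, sh_2_m3, sh_2_m2, sh_2_m1, sh_2_1, sh_2_2, sh_3_m3, sh_3_m2, sh_3_m1, sh_3_1, sh_4_m3, sh_4_m2, sh_4_m1]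
  try ring

theorem hC4_2_m2 (u D χ : K → K) (x : K) : ev (en u D χ x) C4_2_m2 = co u D χ 4 2 (x - 2) := by
  rw [co4_2]
  simp only [C4_2_m2, ev, hC2_0_0, hC2_0_m2, hC2_1_m1, hC2_1_m2, hC2_2_m2, sh_m4_1, sh_m4_2, sh_m4_3, sh_m3_m1, sh_m3_1, sh_m3_2, sh_m3_3, sh_m2_m2, sh_m2_m1, sh_m2_1, sh_m2_2, sh_m2_3, sh_m1_m3, sh_m1_m2, sh_m1_m1, sh_m1_1, sh_m1_2, sh_m1_3, sh_1_m3, sh_1_m2, sh_1_m1, sh_1_1, sh_1_2, sh_1_3, sh_2_m3, sh_2_m2, sh_2_m1, sh_2_1, sh_2_2, sh_3_m3, sh_3_m2, sh_3_m1, sh_3_1, sh_4_m3, sh_4_m2, sh_4_m1]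
  try ring

theorem hC4_1_m1 (u D χ : K → K) (x : K) : ev (en u D χ x) C4_1_m1 = co u D χ 4 1 (x - 1) := by
  rw [co4_1]
  simp only [C4_1_m1, ev, hC2_0_0, hC2_0_m1, hC2_1_m1, hC2_2_m1, hC2_2_m2, hC2_m1_1, hC2_m1_m1, sh_m4_1, sh_m4_2, sh_m4_3, sh_m3_m1, sh_m3_1, sh_m3_2, sh_m3_3, sh_m2_m2, sh_m2_m1, sh_m2_1, sh_m2_2, sh_m2_3, sh_m1_m3, sh_m1_m2, sh_m1_m1, sh_m1_1, sh_m1_2, sh_m1_3, sh_1_m3, sh_1_m2, sh_1_m1, sh_1_1, sh_1_2, sh_1_3, sh_2_m3, sh_2_m2, sh_2_m1, sh_2_1, sh_2_2, sh_3_m3, sh_3_m2, sh_3_m1, sh_3_1, sh_4_m3, sh_4_m2, sh_4_m1]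
  try ring

theorem hC4_0_0 (u D χ : K → K) (x : K) : ev (en u D χ x) C4_0_0 = co u D χ 4 0 x := by
  rw [co4_0]
  simp only [C4_0_0, ev, hC2_0_0, hC2_1_0, hC2_1_m1, hC2_2_0, hC2_2_m2, hC2_m1_0, hC2_m1_1, hC2_m2_0, hC2_m2_2, sh_m4_1, sh_m4_2, sh_m4_3, sh_m3_m1, sh_m3_1, sh_m3_2, sh_m3_3, sh_m2_m2, sh_m2_m1, sh_m2_1, sh_m2_2, sh_m2_3, sh_m1_m3, sh_m1_m2, sh_m1_m1, sh_m1_1, sh_m1_2, sh_m1_3, sh_1_m3, sh_1_m2, sh_1_m1, sh_1_1, sh_1_2, sh_1_3, sh_2_m3, sh_2_m2, sh_2_m1, sh_2_1, sh_2_2, sh_3_m3, sh_3_m2, sh_3_m1, sh_3_1, sh_4_m3, sh_4_m2, sh_4_m1]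
  try ring

theorem hC4_m1_1 (u D χ : K → K) (x : K) : ev (en u D χ x) C4_m1_1 = co u D χ 4 (-1) (x + 1) := by
  rw [co4_m1]
  simp only [C4_m1_1, ev, hC2_0_0, hC2_0_1, hC2_1_1, hC2_1_m1, hC2_m1_1, hC2_m2_1, hC2_m2_2, sh_m4_1, sh_m4_2, sh_m4_3, sh_m3_m1, sh_m3_1, sh_m3_2, sh_m3_3, sh_m2_m2, sh_m2_m1, sh_m2_1, sh_m2_2, sh_m2_3, sh_m1_m3, sh_m1_m2, sh_m1_m1, sh_m1_1, sh_m1_2, sh_m1_3, sh_1_m3, sh_1_m2, sh_1_m1, sh_1_1, sh_1_2, sh_1_3, sh_2_m3, sh_2_m2, sh_2_m1, sh_2_1, sh_2_2, sh_3_m3, sh_3_m2, sh_3_m1, sh_3_1, sh_4_m3, sh_4_m2, sh_4_m1]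
  try ring

theorem hC4_m2_2 (u D χ : K → K) (x : K) : ev (en u D χ x) C4_m2_2 = co u D χ 4 (-2) (x + 2) := by
  rw [co4_m2]
  simp only [C4_m2_2, ev, hC2_0_0, hC2_0_2, hC2_m1_1, hC2_m1_2, hC2_m2_2, sh_m4_1, sh_m4_2, sh_m4_3, sh_m3_m1, sh_m3_1, sh_m3_2, sh_m3_3, sh_m2_m2, sh_m2_m1, sh_m2_1, sh_m2_2, sh_m2_3, sh_m1_m3, sh_m1_m2, sh_m1_m1, sh_m1_1, sh_m1_2, sh_m1_3, sh_1_m3, sh_1_m2, sh_1_m1, sh_1_1, sh_1_2, sh_1_3, sh_2_m3, sh_2_m2, sh_2_m1, sh_2_1, sh_2_2, sh_3_m3, sh_3_m2, sh_3_m1, sh_3_1, sh_4_m3, sh_4_m2, sh_4_m1]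
  try ring

theorem hC4_m3_3 (u D χ : K → K) (x : K) : ev (en u D χ x) C4_m3_3 = co u D χ 4 (-3) (x + 3) := by
  rw [co4_m3]
  simp only [C4_m3_3, ev, hC2_m1_1, hC2_m1_3, hC2_m2_2, hC2_m2_3, sh_m4_1, sh_m4_2, sh_m4_3, sh_m3_m1, sh_m3_1, sh_m3_2, sh_m3_3, sh_m2_m2, sh_m2_m1, sh_m2_1, sh_m2_2, sh_m2_3, sh_m1_m3, sh_m1_m2, sh_m1_m1, sh_m1_1, sh_m1_2, sh_m1_3, sh_1_m3, sh_1_m2, sh_1_m1, sh_1_1, sh_1_2, sh_1_3, sh_2_m3, sh_2_m2, sh_2_m1, sh_2_1, sh_2_2, sh_3_m3, sh_3_m2, sh_3_m1, sh_3_1, sh_4_m3, sh_4_m2, sh_4_m1]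
  try ring

theorem hC4_m4_0 (u D χ : K → K) (x : K) : ev (en u D χ x) C4_m4_0 = co u D χ 4 (-4) x := by
  rw [co4_m4]
  simp only [C4_m4_0, ev, hC2_m2_0, hC2_m2_m2, sh_m4_1, sh_m4_2, sh_m4_3, sh_m3_m1, sh_m3_1, sh_m3_2, sh_m3_3, sh_m2_m2, sh_m2_m1, sh_m2_1, sh_m2_2, sh_m2_3, sh_m1_m3, sh_m1_m2, sh_m1_m1, sh_m1_1, sh_m1_2, sh_m1_3, sh_1_m3, sh_1_m2, sh_1_m1, sh_1_1, sh_1_2, sh_1_3, sh_2_m3, sh_2_m2, sh_2_m1, sh_2_1, sh_2_2, sh_3_m3, sh_3_m2, sh_3_m1, sh_3_1, sh_4_m3, sh_4_m2, sh_4_m1]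
  try ring

theorem hC4_4_m4 (u D χ : K → K) (x : K) : ev (en u D χ x) C4_4_m4 = co u D χ 4 4 (x - 4) := by
  rw [co4_4]
  simp only [C4_4_m4, ev, hC2_2_m2, hC2_2_m4, sh_m4_1, sh_m4_2, sh_m4_3, sh_m3_m1, sh_m3_1, sh_m3_2, sh_m3_3, sh_m2_m2, sh_m2_m1, sh_m2_1, sh_m2_2, sh_m2_3, sh_m1_m3, sh_m1_m2, sh_m1_m1, sh_m1_1, sh_m1_2, sh_m1_3, sh_1_m3, sh_1_m2, sh_1_m1, sh_1_1, sh_1_2, sh_1_3, sh_2_m3, sh_2_m2, sh_2_m1, sh_2_1, sh_2_2, sh_3_m3, sh_3_m2, sh_3_m1, sh_3_1, sh_4_m3, sh_4_m2, sh_4_m1]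
  try ring

theorem hC4_m3_0 (u D χ : K → K) (x : K) : ev (en u D χ x) C4_m3_0 = co u D χ 4 (-3) x := by
  rw [co4_m3]
  simp only [C4_m3_0, ev, hC2_m1_0, hC2_m1_m2, hC2_m2_0, hC2_m2_m1, sh_m4_1, sh_m4_2, sh_m4_3, sh_m3_m1, sh_m3_1, sh_m3_2, sh_m3_3, sh_m2_m2, sh_m2_m1, sh_m2_1, sh_m2_2, sh_m2_3, sh_m1_m3, sh_m1_m2, sh_m1_m1, sh_m1_1, sh_m1_2, sh_m1_3, sh_1_m3, sh_1_m2, sh_1_m1, sh_1_1, sh_1_2, sh_1_3, sh_2_m3, sh_2_m2, sh_2_m1, sh_2_1, sh_2_2, sh_3_m3, sh_3_m2, sh_3_m1, sh_3_1, sh_4_m3, sh_4_m2, sh_4_m1]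
  try ring

theorem hC4_m2_0 (u D χ : K → K) (x : K) : ev (en u D χ x) C4_m2_0 = co u D χ 4 (-2) x := by
  rw [co4_m2]
  simp only [C4_m2_0, ev, hC2_0_0, hC2_0_m2, hC2_m1_0, hC2_m1_m1, hC2_m2_0, sh_m4_1, sh_m4_2, sh_m4_3, sh_m3_m1, sh_m3_1, sh_m3_2, sh_m3_3, sh_m2_m2, sh_m2_m1, sh_m2_1, sh_m2_2, sh_m2_3, sh_m1_m3, sh_m1_m2, sh_m1_m1, sh_m1_1, sh_m1_2, sh_m1_3, sh_1_m3, sh_1_m2, sh_1_m1, sh_1_1, sh_1_2, sh_1_3, sh_2_m3, sh_2_m2, sh_2_m1, sh_2_1, sh_2_2, sh_3_m3, sh_3_m2, sh_3_m1, sh_3_1, sh_4_m3, sh_4_m2, sh_4_m1]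
  try ring

theorem hC4_m1_0 (u D χ : K → K) (x : K) : ev (en u D χ x) C4_m1_0 = co u D χ 4 (-1) x := by
  rw [co4_m1]
  simp only [C4_m1_0, ev, hC2_0_0, hC2_0_m1, hC2_1_0, hC2_1_m2, hC2_m1_0, hC2_m2_0, hC2_m2_1, sh_m4_1, sh_m4_2, sh_m4_3, sh_m3_m1, sh_m3_1, sh_m3_2, sh_m3_3, sh_m2_m2, sh_m2_m1, sh_m2_1, sh_m2_2, sh_m2_3, sh_m1_m3, sh_m1_m2, sh_m1_m1, sh_m1_1, sh_m1_2, sh_m1_3, sh_1_m3, sh_1_m2, sh_1_m1, sh_1_1, sh_1_2, sh_1_3, sh_2_m3, sh_2_m2, sh_2_m1, sh_2_1, sh_2_2, sh_3_m3, sh_3_m2, sh_3_m1, sh_3_1, sh_4_m3, sh_4_m2, sh_4_m1]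
  try ring

theorem hC4_1_0 (u D χ : K → K) (x : K) : ev (en u D χ x) C4_1_0 = co u D χ 4 1 x := by
  rw [co4_1]
  simp only [C4_1_0, ev, hC2_0_0, hC2_0_1, hC2_1_0, hC2_2_0, hC2_2_m1, hC2_m1_0, hC2_m1_2, sh_m4_1, sh_m4_2, sh_m4_3, sh_m3_m1, sh_m3_1, sh_m3_2, sh_m3_3, sh_m2_m2, sh_m2_m1, sh_m2_1, sh_m2_2, sh_m2_3, sh_m1_m3, sh_m1_m2, sh_m1_m1, sh_m1_1, sh_m1_2, sh_m1_3, sh_1_m3, sh_1_m2, sh_1_m1, sh_1_1, sh_1_2, sh_1_3, sh_2_m3, sh_2_m2, sh_2_m1, sh_2_1, sh_2_2, sh_3_m3, sh_3_m2, sh_3_m1, sh_3_1, sh_4_m3, sh_4_m2, sh_4_m1]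
  try ring

theorem hC4_2_0 (u D χ : K → K) (x : K) : ev (en u D χ x) C4_2_0 = co u D χ 4 2 x := by
  rw [co4_2]
  simp only [C4_2_0, ev, hC2_0_0, hC2_0_2, hC2_1_0, hC2_1_1, hC2_2_0, sh_m4_1, sh_m4_2, sh_m4_3, sh_m3_m1, sh_m3_1, sh_m3_2, sh_m3_3, sh_m2_m2, sh_m2_m1, sh_m2_1, sh_m2_2, sh_m2_3, sh_m1_m3, sh_m1_m2, sh_m1_m1, sh_m1_1, sh_m1_2, sh_m1_3, sh_1_m3, sh_1_m2, sh_1_m1, sh_1_1, sh_1_2, sh_1_3, sh_2_m3, sh_2_m2, sh_2_m1, sh_2_1, sh_2_2, sh_3_m3, sh_3_m2, sh_3_m1, sh_3_1, sh_4_m3, sh_4_m2, sh_4_m1]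
  try ring

theorem hC4_3_0 (u D χ : K → K) (x : K) : ev (en u D χ x) C4_3_0 = co u D χ 4 3 x := by
  rw [co4_3]
  simp only [C4_3_0, ev, hC2_1_0, hC2_1_2, hC2_2_0, hC2_2_1, sh_m4_1, sh_m4_2, sh_m4_3, sh_m3_m1, sh_m3_1, sh_m3_2, sh_m3_3, sh_m2_m2, sh_m2_m1, sh_m2_1, sh_m2_2, sh_m2_3, sh_m1_m3, sh_m1_m2, sh_m1_m1, sh_m1_1, sh_m1_2, sh_m1_3, sh_1_m3, sh_1_m2, sh_1_m1, sh_1_1, sh_1_2, sh_1_3, sh_2_m3, sh_2_m2, sh_2_m1, sh_2_1, sh_2_2, sh_3_m3, sh_3_m2, sh_3_m1, sh_3_1, sh_4_m3, sh_4_m2, sh_4_m1]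
  try ring

theorem hC4_4_0 (u D χ : K → K) (x : K) : ev (en u D χ x) C4_4_0 = co u D χ 4 4 x := by
  rw [co4_4]
  simp only [C4_4_0, ev, hC2_2_0, hC2_2_2, sh_m4_1, sh_m4_2, sh_m4_3, sh_m3_m1, sh_m3_1, sh_m3_2, sh_m3_3, sh_m2_m2, sh_m2_m1, sh_m2_1, sh_m2_2, sh_m2_3, sh_m1_m3, sh_m1_m2, sh_m1_m1, sh_m1_1, sh_m1_2, sh_m1_3, sh_1_m3, sh_1_m2, sh_1_m1, sh_1_1, sh_1_2, sh_1_3, sh_2_m3, sh_2_m2, sh_2_m1, sh_2_1, sh_2_2, sh_3_m3, sh_3_m2, sh_3_m1, sh_3_1, sh_4_m3, sh_4_m2, sh_4_m1]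
  try ring

theorem hC4_m4_4 (u D χ : K → K) (x : K) : ev (en u D χ x) C4_m4_4 = co u D χ 4 (-4) (x + 4) := by
  rw [co4_m4]
  simp only [C4_m4_4, ev, hC2_m2_2, hC2_m2_4, sh_m4_1, sh_m4_2, sh_m4_3, sh_m3_m1, sh_m3_1, sh_m3_2, sh_m3_3, sh_m2_m2, sh_m2_m1, sh_m2_1, sh_m2_2, sh_m2_3, sh_m1_m3, sh_m1_m2, sh_m1_m1, sh_m1_1, sh_m1_2, sh_m1_3, sh_1_m3, sh_1_m2, sh_1_m1, sh_1_1, sh_1_2, sh_1_3, sh_2_m3, sh_2_m2, sh_2_m1, sh_2_1, sh_2_2, sh_3_m3, sh_3_m2, sh_3_m1, sh_3_1, sh_4_m3, sh_4_m2, sh_4_m1]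
  try ring

theorem hW5 (u D χ : K → K) (x : K) : ev (en u D χ x) W5 = co u D χ 5 0 x := by
  have h := co_add u D χ 3 2 2 le_rfl 0 x
  rw [sumIcc_2] at h
  norm_num at h
  simp only [← sub_eq_add_neg] at h
  rw [h]
  simp only [W5, ev, hC2_0_0, hC2_1_0, hC2_2_0, hC2_m1_0, hC2_m2_0, hC3_0_0, hC3_1_m1, hC3_2_m2, hC3_m1_1, hC3_m2_2]
  try ring

theorem hW6 (u D χ : K → K) (x : K) : ev (en u D χ x) W6 = co u D χ 6 0 x := by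
  have h := co_add u D χ 3 3 3 le_rfl 0 x
  rw [sumIcc_3] at h
  norm_num at h
  simp only [← sub_eq_add_neg] at h
  rw [h]
  simp only [W6, ev, hC3_0_0, hC3_1_0, hC3_1_m1, hC3_2_0, hC3_2_m2, hC3_3_0, hC3_3_m3, hC3_m1_0, hC3_m1_1, hC3_m2_0, hC3_m2_2, hC3_m3_0, hC3_m3_3]
  try ring

theorem hW7 (u D χ : K → K) (x : K) : ev (en u D χ x) W7 = co u D χ 7 0 x := by
  have h := co_add u D χ 4 3 3 le_rfl 0 x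
  rw [sumIcc_3] at h
  norm_num at h
  simp only [← sub_eq_add_neg] at h
  rw [h]
  simp only [W7, ev, hC3_0_0, hC3_1_0, hC3_2_0, hC3_3_0, hC3_m1_0, hC3_m2_0, hC3_m3_0, hC4_0_0, hC4_1_m1, hC4_2_m2, hC4_3_m3, hC4_m1_1, hC4_m2_2, hC4_m3_3]
  try ring

theorem hW8 (u D χ : K → K) (x : K) : ev (en u D χ x) W8 = co u D χ 8 0 x := by
  have h := co_add u D χ 4 4 4 le_rfl 0 x
  rw [sumIcc_4] at h
  norm_num at h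
  simp only [← sub_eq_add_neg] at h
  rw [h]
  simp only [W8, ev, hC4_0_0, hC4_1_0, hC4_1_m1, hC4_2_0, hC4_2_m2, hC4_3_0, hC4_3_m3, hC4_4_0, hC4_4_m4, hC4_m1_0, hC4_m1_1, hC4_m2_0, hC4_m2_2, hC4_m3_0, hC4_m3_3, hC4_m4_0, hC4_m4_4]
  try ring

end TDP
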