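import Mathlib

/-! A checker for polynomial identities by one evaluation at a Kronecker point. -/

namespace TDP

namespace Kron

open MvPolynomial

/-- reified polynomial expressions with natural number constants -/
inductive E where
  | v (i : ℕ)
  | c (k : ℕ)
  | add (a b : E)
  | sub (a b : E)
  | mul (a b : E)
  | pow (a : E) (k : ℕ)

/-- value in a commutative ring -/
def E.ev {R : Type*} [CommRing R] (ρ : ℕ → R) : E → R
  | .v i => ρ i
  | .c k => (k : R)
  | .add a b => a.ev ρ + b.ev ρ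
  | .sub a b => a.ev ρ - b.ev ρ
  | .mul a b => a.ev ρ * b.ev ρ
  | .pow a k => a.ev ρ ^ k

/-- value in the natural numbers, with truncated subtraction -/
def E.nat (ρ : ℕ → ℕ) : E → ℕ
  | .v i => ρ i
  | .c k => k
  | .add a b => a.nat ρ + b.nat ρ
  | .sub a b => a.nat ρ - b.nat ρ
  | .mul a b => a.nat ρ * b.nat ρ
  | .pow a k => a.nat ρ ^ k

/-- all subtractions are exact -/
def E.ok (ρ : ℕ → ℕ) : E → Bool
  | .v _ => true
  | .c _ => true
  | .add a b => a.ok ρ && b.ok ρ
  | .sub a b => a.ok ρ && b.ok ρ && Nat.ble (b.nat ρ) (a.nat ρ)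
  | .mul a b => a.ok ρ && b.ok ρ
  | .pow a _ => a.ok ρ

/-- bound for the sum of the absolute values of the coefficients -/
def E.nrm : E → ℕ
  | .v _ => 1
  | .c k => k
  | .add a b => a.nrm + b.nrm
  | .sub a b => a.nrm + b.nrm
  | .mul a b => a.nrm * b.nrm
  | .pow a k => a.nrm ^ k

/-- bound for the degree in the variable `i` -/
def E.deg (i : ℕ) : E → ℕ
  | .v j => if i = j then 1 else 0
  | .c _ => 0
  | .add a b => max (a.deg i) (b.deg i)
  | .sub a b => max (a.deg i) (b.deg i)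
  | .mul a b => a.deg i + b.deg i
  | .pow a k => k * a.deg i

/-- weights of the variables -/
def vw (i : ℕ) : ℕ := if i < 2 then 0 else if i = 2 ∨ i = 6 then 1 else 2

/-- the weight of an expression -/
def E.wt : E → ℕ
  | .v j => vw j
  | .c _ => 0
  | .add a _ => a.wt
  | .sub a _ => a.wt
  | .mul a b => a.wt + b.wt
  | .pow a k => k * a.wt

/-- homogeneity check -/
def E.hom : E → Bool
  | .v _ => true
  | .c _ => true
  | .add a b => a.hom && b.hom && Nat.beq a.wt b.wt
  | .sub a b => a.hom && b.hom && Nat.beq a.wt b.wt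
  | .mul a b => a.hom && b.hom
  | .pow a _ => a.hom

theorem ev_nat (ρ : ℕ → ℕ) (e : E) (h : e.ok ρ = true) :
    e.ev (fun i => (ρ i : ℤ)) = (e.nat ρ : ℤ) := by
  induction e with
  | v i => rfl
  | c k => rfl
  | add a b iha ihb =>
    simp only [E.ok, Bool.and_eq_true] at h
    simp only [E.ev, E.nat, iha h.1, ihb h.2]
    push_cast
    rfl
  | sub a b iha ihb =>
    simp only [E.ok, Bool.and_eq_true] at h
    simp only [E.ev, E.nat, iha h.1.1, ihb h.1.2]
    have := Nat.le_of_ble_eq_true h.2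
    rw [Nat.cast_sub this]
  | mul a b iha ihb =>
    simp only [E.ok, Bool.and_eq_true] at h
    simp only [E.ev, E.nat, iha h.1, ihb h.2]
    push_cast
    rfl
  | pow a k ih =>
    simp only [E.ok] at h
    simp only [E.ev, E.nat, ih h]
    push_cast
    rfl

/-- extension of a valuation by zero -/
def ext {R : Type*} [Zero R] (f : Fin 7 → R) (i : ℕ) : R := if h : i < 7 then f ⟨i, h⟩ else 0

theorem ev_hom {R S : Type*} [CommRing R] [CommRing S] (φ : R →+* S) (ρ : ℕ → R) (e : E) :
    φ (e.ev ρ) = e.ev (fun i => φ (ρ i)) := by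
  induction e with
  | v i => rfl
  | c k => simp [E.ev]
  | add a b iha ihb => simp [E.ev, iha, ihb]
  | sub a b iha ihb => simp [E.ev, iha, ihb]
  | mul a b iha ihb => simp [E.ev, iha, ihb]
  | pow a k ih => simp [E.ev, ih]

/-- the polynomial of an expression -/
noncomputable def E.P (e : E) : MvPolynomial (Fin 7) ℤ := e.ev (ext X)

theorem ev_P {R : Type*} [CommRing R] (f : Fin 7 → R) (e : E) :
    MvPolynomial.aeval f e.P = e.ev (ext f) := by
  unfold E.P
  have h := ev_hom (MvPolynomial.aeval f : MvPolynomial (Fin 7) ℤ →ₐ[ℤ] R).toRingHom (ext X) e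
  have h2 : (fun i => (MvPolynomial.aeval f : MvPolynomial (Fin 7) ℤ →ₐ[ℤ] R).toRingHom
      (ext X i)) = ext f := by
    funext i
    unfold ext
    split_ifs with hi
    · simp
    · simp
  rw [h2] at h
  exact h

/-- coefficientwise domination -/
def Dom (P M : MvPolynomial (Fin 7) ℤ) : Prop := ∀ m, |coeff m P| ≤ coeff m M

theorem Dom.mul {P M Q N : MvPolynomial (Fin 7) ℤ} (h1 : Dom P M) (h2 : Dom Q N) :
    Dom (P * Q) (M * N) := by
  classical
  intro m
  rw [coeff_mul, coeff_mul]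
  refine (Finset.abs_sum_le_sum_abs _ _).trans (Finset.sum_le_sum fun x _ => ?_)
  rw [abs_mul]
  exact mul_le_mul (h1 _) (h2 _) (abs_nonneg _) ((abs_nonneg _).trans (h1 _))

theorem Dom.one : Dom 1 1 := by
  classical
  intro m
  rw [coeff_one]
  split_ifs <;> simp

theorem Dom.pow {P M : MvPolynomial (Fin 7) ℤ} (h : Dom P M) (k : ℕ) : Dom (P ^ k) (M ^ k) := by
  induction k with
  | zero => rw [pow_zero, pow_zero]; exact Dom.one
  | succ k ih => rw [pow_succ, pow_succ]; exact ih.mul h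

/-- the majorant -/
def E.abs : E → E
  | .v i => .v i
  | .c k => .c k
  | .add a b => .add a.abs b.abs
  | .sub a b => .add a.abs b.abs
  | .mul a b => .mul a.abs b.abs
  | .pow a k => .pow a.abs k

theorem dom_abs (e : E) : Dom e.P e.abs.P := by
  classical
  induction e with
  | v i =>
    intro m
    unfold E.P E.abs E.ev ext
    split_ifs with h
    · rw [coeff_X']
      split_ifs <;> simp
    · simp
  | c k =>
    intro m
    unfold E.P E.abs E.ev
    rw [show ((k : ℕ) : MvPolynomial (Fin 7) ℤ) = C (k : ℤ) by simp, coeff_C]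
    split_ifs <;> simp
  | add a b iha ihb =>
    intro m
    have h1 := iha m
    have h2 := ihb m
    have e1 : (E.add a b).P = a.P + b.P := rfl
    have e2 : (E.add a b).abs.P = a.abs.P + b.abs.P := rfl
    rw [e1, e2, coeff_add, coeff_add]
    exact (abs_add_le _ _).trans (add_le_add h1 h2)
  | sub a b iha ihb =>
    intro m
    have h1 := iha m
    have h2 := ihb m
    have e1 : (E.sub a b).P = a.P - b.P := rfl
    have e2 : (E.sub a b).abs.P = a.abs.P + b.abs.P := rfl
    rw [e1, e2, coeff_sub, coeff_add]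
    exact (abs_sub _ _).trans (add_le_add h1 h2)
  | mul a b iha ihb => exact iha.mul ihb
  | pow a k ih => exact ih.pow k

theorem abs_one (e : E) : e.abs.ev (ext (fun _ : Fin 7 => (1 : ℤ))) ≤ e.nrm ∧
    0 ≤ e.abs.ev (ext (fun _ : Fin 7 => (1 : ℤ))) := by
  induction e with
  | v i =>
    unfold E.abs E.ev E.nrm ext
    split_ifs <;> simp
  | c k => unfold E.abs E.ev E.nrm; simp
  | add a b iha ihb =>
    unfold E.abs E.ev E.nrm
    push_cast
    constructor
    · linarith [iha.1, ihb.1]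
    · linarith [iha.2, ihb.2]
  | sub a b iha ihb =>
    unfold E.abs E.ev E.nrm
    push_cast
    constructor
    · linarith [iha.1, ihb.1]
    · linarith [iha.2, ihb.2]
  | mul a b iha ihb =>
    unfold E.abs E.ev E.nrm
    push_cast
    exact ⟨mul_le_mul iha.1 ihb.1 ihb.2 (by positivity), mul_nonneg iha.2 ihb.2⟩
  | pow a k ih =>
    unfold E.abs E.ev E.nrm
    push_cast
    exact ⟨pow_le_pow_left₀ ih.2 ih.1 k, pow_nonneg ih.2 k⟩

/-- the sum of the absolute values of the coefficients -/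
theorem l1_le (e : E) : ∑ m ∈ e.P.support, |coeff m e.P| ≤ e.nrm := by
  classical
  have h1 : ∑ m ∈ e.P.support, |coeff m e.P| ≤ ∑ m ∈ e.abs.P.support, coeff m e.abs.P := by
    calc ∑ m ∈ e.P.support, |coeff m e.P| ≤ ∑ m ∈ e.P.support, coeff m e.abs.P :=
          Finset.sum_le_sum fun m _ => dom_abs e m
      _ ≤ ∑ m ∈ e.abs.P.support, coeff m e.abs.P := by
          apply Finset.sum_le_sum_of_subset_of_nonneg
          · intro m hm
            rw [mem_support_iff] at hm ⊢
            have h := dom_abs e m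
            have h2 := abs_pos.2 hm
            intro h0
            rw [h0] at h
            exact absurd (lt_of_lt_of_le h2 h) (lt_irrefl _)
          · intro m _ _
            exact (abs_nonneg _).trans (dom_abs e m)
  have h2 : ∑ m ∈ e.abs.P.support, coeff m e.abs.P =
      e.abs.ev (ext (fun _ : Fin 7 => (1 : ℤ))) := by
    rw [← ev_P, aeval_def, eval₂_eq']
    refine Finset.sum_congr rfl fun m _ => ?_
    simp
  rw [h2] at h1
  exact h1.trans (abs_one e).1

theorem deg_le (e : E) (i : Fin 7) : degreeOf i e.P ≤ e.deg i := by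
  classical
  induction e with
  | v j =>
    unfold E.P E.ev ext E.deg
    split_ifs with h1 h2 h2
    · rw [degreeOf_X]
      split_ifs <;> simp
    · rw [degreeOf_X, if_neg]
      intro h3
      apply h2
      rw [h3]
    · exact absurd (h2 ▸ i.2) h1
    · simp
  | c k =>
    unfold E.P E.ev E.deg
    rw [show ((k : ℕ) : MvPolynomial (Fin 7) ℤ) = C (k : ℤ) by simp, degreeOf_C]
  | add a b iha ihb =>
    have e1 : (E.add a b).P = a.P + b.P := rfl
    rw [e1]
    exact (degreeOf_add_le i _ _).trans (max_le_max iha ihb)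
  | sub a b iha ihb =>
    have e1 : (E.sub a b).P = a.P - b.P := rfl
    rw [e1]
    exact (degreeOf_sub_le i _ _).trans (max_le_max iha ihb)
  | mul a b iha ihb =>
    have e1 : (E.mul a b).P = a.P * b.P := rfl
    rw [e1]
    exact (degreeOf_mul_le i _ _).trans (add_le_add iha ihb)
  | pow a k ih =>
    have e1 : (E.pow a k).P = a.P ^ k := rfl
    rw [e1]
    exact (degreeOf_pow_le i _ _).trans (Nat.mul_le_mul_left k ih)

theorem hom_sound (e : E) (h : e.hom = true) :
    IsWeightedHomogeneous (fun i : Fin 7 => vw i) e.P e.wt := by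
  induction e with
  | v j =>
    unfold E.P E.ev ext E.wt
    split_ifs with h1
    · exact isWeightedHomogeneous_X ℤ (fun i : Fin 7 => vw i) (⟨j, h1⟩ : Fin 7)
    · exact isWeightedHomogeneous_zero _ _ _
  | c k =>
    unfold E.P E.ev E.wt
    rw [show ((k : ℕ) : MvPolynomial (Fin 7) ℤ) = C (k : ℤ) by simp]
    exact isWeightedHomogeneous_C _ _
  | add a b iha ihb =>
    simp only [E.hom, Bool.and_eq_true] at h
    have e1 : (E.add a b).P = a.P + b.P := rfl
    have e2 := Nat.eq_of_beq_eq_true h.2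
    rw [e1]
    have h2 := ihb h.1.2
    rw [← e2] at h2
    exact (iha h.1.1).add h2
  | sub a b iha ihb =>
    simp only [E.hom, Bool.and_eq_true] at h
    have e1 : (E.sub a b).P = a.P - b.P := rfl
    have e2 := Nat.eq_of_beq_eq_true h.2
    rw [e1]
    have h2 := ihb h.1.2
    rw [← e2] at h2
    intro m hm
    rw [coeff_sub] at hm
    by_cases h0 : coeff m a.P = 0
    · rw [h0, zero_sub, neg_ne_zero] at hm
      exact h2 hm
    · exact iha h.1.1 h0
  | mul a b iha ihb =>
    simp only [E.hom, Bool.and_eq_true] at h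
    exact (iha h.1).mul (ihb h.2)
  | pow a k ih =>
    simp only [E.hom] at h
    have := (ih h).pow k
    unfold E.wt
    rwa [smul_eq_mul] at this

/-- mixed radix number -/
def wn (B : ℕ → ℕ) : ℕ → (ℕ → ℕ) → ℕ
  | 0, _ => 0
  | k + 1, f => f 0 + B 0 * wn (fun i => B (i + 1)) k (fun i => f (i + 1))

theorem wn_inj (k : ℕ) : ∀ (B f g : ℕ → ℕ), (∀ i < k, f i < B i) → (∀ i < k, g i < B i) →
    wn B k f = wn B k g → ∀ i < k, f i = g i := by
  induction k with
  | zero => intro B f g _ _ _ i hi; omega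
  | succ k ih =>
    intro B f g hf hg h i hi
    simp only [wn] at h
    have h0 : f 0 < B 0 := hf 0 (by omega)
    have h0' : g 0 < B 0 := hg 0 (by omega)
    have e0 : f 0 = g 0 := by
      have := congrArg (· % B 0) h
      simpa [Nat.add_mul_mod_self_left, Nat.mod_eq_of_lt h0, Nat.mod_eq_of_lt h0'] using this
    rw [e0] at h
    have h1 := Nat.eq_of_mul_eq_mul_left (by omega : 0 < B 0) (Nat.add_left_cancel h)
    cases i with
    | zero => exact e0
    | succ i =>
      exact ih (fun i => B (i + 1)) (fun i => f (i + 1)) (fun i => g (i + 1))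
        (fun i hi => hf (i + 1) (by omega)) (fun i hi => hg (i + 1) (by omega)) h1 i (by omega)

/-- the Kronecker point -/
def kp (R : ℕ) (B : ℕ → ℕ) : ℕ → ℕ
  | 0 => R
  | i + 1 => kp R B i ^ B i

theorem kp_succ (R : ℕ) (B : ℕ → ℕ) (i : ℕ) :
    kp R B (i + 1) = kp (R ^ B 0) (fun j => B (j + 1)) i := by
  induction i with
  | zero => rfl
  | succ i ih =>
    show kp R B (i + 1) ^ B (i + 1) = kp (R ^ B 0) (fun j => B (j + 1)) i ^ B (i + 1)
    rw [ih]

theorem kp_prod (k : ℕ) : ∀ (R : ℕ) (B f : ℕ → ℕ),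
    ∏ i ∈ Finset.range k, kp R B i ^ f i = R ^ wn B k f := by
  induction k with
  | zero => intro R B f; simp [wn]
  | succ k ih =>
    intro R B f
    rw [Finset.prod_range_succ']
    have h : ∏ i ∈ Finset.range k, kp R B (i + 1) ^ f (i + 1) =
        (R ^ B 0) ^ wn (fun j => B (j + 1)) k (fun j => f (j + 1)) := by
      rw [← ih (R ^ B 0) (fun j => B (j + 1)) (fun j => f (j + 1))]
      refine Finset.prod_congr rfl fun i _ => ?_
      rw [kp_succ]
    rw [h]
    show _ * R ^ f 0 = R ^ (f 0 + B 0 * wn (fun i => B (i + 1)) k (fun i => f (i + 1)))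
    rw [pow_add, pow_mul, mul_comm]

/-- the evaluation point: Kronecker point in the variables `0, …, 5`, and `1` for variable `6` -/
def point (R : ℕ) (B : ℕ → ℕ) (i : ℕ) : ℕ := if i < 6 then kp R B i else if i = 6 then 1 else 0

theorem kron_zero (P : MvPolynomial (Fin 7) ℤ) (R : ℕ) (B : ℕ → ℕ) (w : ℕ)
    (hhom : IsWeightedHomogeneous (fun i : Fin 7 => vw i) P w)
    (hdeg : ∀ i : Fin 7, (i : ℕ) < 6 → degreeOf i P < B i)
    (hl1 : ∑ m ∈ P.support, |coeff m P| < R)
    (hz : MvPolynomial.aeval (fun i : Fin 7 => ((point R B i : ℕ) : ℤ)) P = 0) : P = 0 := by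
  classical
  by_contra hP
  have hne : P.support.Nonempty := by
    rw [Finset.nonempty_iff_ne_empty, Ne, support_eq_empty]
    exact hP
  have hR : 0 < R := by
    have h0 : (0 : ℤ) ≤ ∑ m ∈ P.support, |coeff m P| := Finset.sum_nonneg fun m _ => abs_nonneg _
    have := lt_of_le_of_lt h0 hl1
    exact_mod_cast this
  set ex : (Fin 7 →₀ ℕ) → ℕ → ℕ := fun m i => if h : i < 7 then m ⟨i, h⟩ else 0 with hex
  set W : (Fin 7 →₀ ℕ) → ℕ := fun m => wn B 6 (ex m) with hW
  -- injectivity
  have hinj : ∀ m ∈ P.support, ∀ m' ∈ P.support, W m = W m' → m = m' := by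
    intro m hm m' hm' h
    have hb : ∀ m ∈ P.support, ∀ i < 6, ex m i < B i := by
      intro m hm i hi
      have h7 : i < 7 := by omega
      simp only [hex, dif_pos h7]
      exact lt_of_le_of_lt (monomial_le_degreeOf ⟨i, h7⟩ hm) (hdeg ⟨i, h7⟩ hi)
    have h6 := wn_inj 6 B (ex m) (ex m') (hb m hm) (hb m' hm') h
    have h6' : ∀ i : Fin 7, (i : ℕ) < 6 → m i = m' i := by
      intro i hi
      have := h6 i hi
      simpa [hex, i.2] using this
    have hw1 := hhom (mem_support_iff.1 hm)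
    have hw2 := hhom (mem_support_iff.1 hm')
    rw [Finsupp.weight_apply, Finsupp.sum_fintype _ _ (fun _ => by simp)] at hw1 hw2
    rw [Fin.sum_univ_castSucc] at hw1 hw2
    have hs : ∑ i : Fin 6, m i.castSucc • vw (i.castSucc : Fin 7) =
        ∑ i : Fin 6, m' i.castSucc • vw (i.castSucc : Fin 7) := by
      refine Finset.sum_congr rfl fun i _ => ?_
      rw [h6' i.castSucc (by simp)]
    have hlast : m (Fin.last 6) = m' (Fin.last 6) := by
      have hv : vw ((Fin.last 6 : Fin 7) : ℕ) = 1 := by decide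
      rw [hv, smul_eq_mul, mul_one] at hw1 hw2
      rw [hs] at hw1
      omega
    ext i
    by_cases hi : (i : ℕ) < 6
    · exact h6' i hi
    · have : i = Fin.last 6 := by
        apply Fin.ext
        have := i.2
        simp only [Fin.val_last]
        omega
      rw [this]; exact hlast
  -- evaluation of a monomial
  have hmon : ∀ m : Fin 7 →₀ ℕ, ∏ i : Fin 7, ((point R B i : ℕ) : ℤ) ^ m i = (R : ℤ) ^ W m := by
    intro m
    rw [Fin.prod_univ_castSucc]
    have h1 : ((point R B ((Fin.last 6 : Fin 7) : ℕ) : ℕ) : ℤ) = 1 := by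
      simp [point]
    rw [h1, one_pow, mul_one]
    have h2 := kp_prod 6 R B (ex m)
    rw [Finset.prod_range] at h2
    have h3 : ∏ i : Fin 6, ((point R B ((i.castSucc : Fin 7) : ℕ) : ℕ) : ℤ) ^ m i.castSucc =
        ((∏ i : Fin 6, kp R B i ^ ex m i : ℕ) : ℤ) := by
      push_cast
      refine Finset.prod_congr rfl fun i _ => ?_
      have h4 : (i : ℕ) < 7 := by omega
      have h5 : ex m i = m i.castSucc := by
        simp only [hex, dif_pos h4]
        rfl
      rw [h5]
      simp [point]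
    rw [h3, h2]
    push_cast
    rfl
  obtain ⟨m0, hm0, hmax⟩ := P.support.exists_max_image W hne
  have hlt : ∀ m ∈ P.support.erase m0, W m + 1 ≤ W m0 := by
    intro m hm
    rw [Finset.mem_erase] at hm
    have h1 := hmax m hm.2
    have h2 : W m ≠ W m0 := fun h => hm.1 (hinj m hm.2 m0 hm0 h)
    omega
  have hsum : coeff m0 P * (R : ℤ) ^ W m0 +
      ∑ m ∈ P.support.erase m0, coeff m P * (R : ℤ) ^ W m = 0 := by
    rw [Finset.add_sum_erase _ (fun m => coeff m P * (R : ℤ) ^ W m) hm0]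
    rw [aeval_def, eval₂_eq'] at hz
    rw [← hz]
    refine Finset.sum_congr rfl fun m _ => ?_
    rw [hmon]
    simp
  have hc0 : (1 : ℤ) ≤ |coeff m0 P| := Int.one_le_abs (mem_support_iff.1 hm0)
  have hRpos : (0 : ℤ) < (R : ℤ) := by exact_mod_cast hR
  have hA : (R : ℤ) * |∑ m ∈ P.support.erase m0, coeff m P * (R : ℤ) ^ W m| ≤
      (∑ m ∈ P.support.erase m0, |coeff m P|) * (R : ℤ) ^ W m0 := by
    rw [← abs_of_pos hRpos, ← abs_mul, Finset.mul_sum, abs_of_pos hRpos, Finset.sum_mul]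
    refine (Finset.abs_sum_le_sum_abs _ _).trans (Finset.sum_le_sum fun m hm => ?_)
    rw [abs_mul, abs_mul, abs_of_pos hRpos, abs_pow, abs_of_pos hRpos]
    have h1 := hlt m hm
    have h2 : (R : ℤ) * (R : ℤ) ^ W m ≤ (R : ℤ) ^ W m0 := by
      rw [← pow_succ']
      exact pow_le_pow_right₀ (by exact_mod_cast hR) h1
    calc (R : ℤ) * (|coeff m P| * (R : ℤ) ^ W m) = |coeff m P| * ((R : ℤ) * (R : ℤ) ^ W m) := by ring
      _ ≤ |coeff m P| * (R : ℤ) ^ W m0 := mul_le_mul_of_nonneg_left h2 (abs_nonneg _)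
  have hB : |∑ m ∈ P.support.erase m0, coeff m P * (R : ℤ) ^ W m| = |coeff m0 P| * (R : ℤ) ^ W m0 := by
    have : ∑ m ∈ P.support.erase m0, coeff m P * (R : ℤ) ^ W m = -(coeff m0 P * (R : ℤ) ^ W m0) := by
      linarith
    rw [this, abs_neg, abs_mul, abs_pow, abs_of_pos hRpos]
  rw [hB] at hA
  have hC : ∑ m ∈ P.support.erase m0, |coeff m P| < (R : ℤ) := by
    refine lt_of_le_of_lt ?_ hl1
    exact Finset.sum_le_sum_of_subset_of_nonneg (Finset.erase_subset _ _)
      (fun _ _ _ => abs_nonneg _)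
  have hpp : (0 : ℤ) < (R : ℤ) ^ W m0 := pow_pos hRpos _
  have h1 : (R : ℤ) * (R : ℤ) ^ W m0 ≤ (R : ℤ) * (|coeff m0 P| * (R : ℤ) ^ W m0) := by
    apply mul_le_mul_of_nonneg_left _ hRpos.le
    nlinarith
  have h2 : (∑ m ∈ P.support.erase m0, |coeff m P|) * (R : ℤ) ^ W m0 <
      (R : ℤ) * (R : ℤ) ^ W m0 := mul_lt_mul_of_pos_right hC hpp
  linarith

/-- radices from a list -/
def rad (l : List ℕ) (i : ℕ) : ℕ := l.getD i 1

/-- the complete check of `l = r` -/
def chk (Bs : List ℕ) (L : ℕ) (l r : E) : Bool :=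
  (l.hom && r.hom && Nat.beq l.wt r.wt) && Nat.blt (l.nrm + r.nrm) (2 ^ L) &&
  (Nat.blt (l.deg 0) (rad Bs 0) && Nat.blt (l.deg 1) (rad Bs 1) && Nat.blt (l.deg 2) (rad Bs 2) &&
    Nat.blt (l.deg 3) (rad Bs 3) && Nat.blt (l.deg 4) (rad Bs 4) && Nat.blt (l.deg 5) (rad Bs 5)) &&
  (Nat.blt (r.deg 0) (rad Bs 0) && Nat.blt (r.deg 1) (rad Bs 1) && Nat.blt (r.deg 2) (rad Bs 2) &&
    Nat.blt (r.deg 3) (rad Bs 3) && Nat.blt (r.deg 4) (rad Bs 4) && Nat.blt (r.deg 5) (rad Bs 5)) &&
  (l.ok (point (2 ^ L) (rad Bs)) && r.ok (point (2 ^ L) (rad Bs))) &&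
  Nat.beq (l.nat (point (2 ^ L) (rad Bs))) (r.nat (point (2 ^ L) (rad Bs)))

theorem blt_lt {a b : ℕ} (h : Nat.blt a b = true) : a < b := by
  simpa [Nat.blt_eq] using h

/-- soundness of the check -/
theorem chk_sound {Bs : List ℕ} {L : ℕ} {l r : E} (h : chk Bs L l r = true)
    {R : Type*} [CommRing R] (f : Fin 7 → R) : l.ev (ext f) = r.ev (ext f) := by
  simp only [chk, Bool.and_eq_true] at h
  obtain ⟨⟨⟨⟨⟨⟨⟨hl, hr⟩, hw⟩, hn⟩, hdl⟩, hdr⟩, ⟨hol, hor⟩⟩, hv⟩ := h
  have hP : (E.sub l r).P = 0 := by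
    refine kron_zero _ (2 ^ L) (rad Bs) l.wt ?_ ?_ ?_ ?_
    · exact hom_sound (E.sub l r) (by simp only [E.hom, Bool.and_eq_true]; exact ⟨⟨hl, hr⟩, hw⟩)
    · intro i hi
      refine lt_of_le_of_lt (deg_le (E.sub l r) i) ?_
      obtain ⟨⟨⟨⟨⟨h0, h1⟩, h2⟩, h3⟩, h4⟩, h5⟩ := hdl
      obtain ⟨⟨⟨⟨⟨g0, g1⟩, g2⟩, g3⟩, g4⟩, g5⟩ := hdr
      obtain ⟨i, hi7⟩ := i
      simp only at hi
      show max (l.deg i) (r.deg i) < rad Bs i
      interval_cases i
      · exact max_lt (blt_lt h0) (blt_lt g0)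
      · exact max_lt (blt_lt h1) (blt_lt g1)
      · exact max_lt (blt_lt h2) (blt_lt g2)
      · exact max_lt (blt_lt h3) (blt_lt g3)
      · exact max_lt (blt_lt h4) (blt_lt g4)
      · exact max_lt (blt_lt h5) (blt_lt g5)
    · refine lt_of_le_of_lt (l1_le (E.sub l r)) ?_
      have := blt_lt hn
      exact_mod_cast this
    · rw [ev_P]
      have h1 : ext (fun i : Fin 7 => ((point (2 ^ L) (rad Bs) i : ℕ) : ℤ)) =
          fun i => ((point (2 ^ L) (rad Bs) i : ℕ) : ℤ) := by
        funext i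
        unfold ext
        split_ifs with h
        · rfl
        · have h6 : ¬ i < 6 := by omega
          have h6' : ¬ i = 6 := by omega
          simp [point, h6, h6']
      rw [h1]
      show l.ev _ - r.ev _ = 0
      rw [ev_nat _ l hol, ev_nat _ r hor, Nat.eq_of_beq_eq_true hv, sub_self]
  have h2 := ev_P f (E.sub l r)
  rw [hP, map_zero] at h2
  have h3 : (0 : R) = l.ev (ext f) - r.ev (ext f) := h2
  exact (sub_eq_zero.1 h3.symm)

end Kron

end TDP
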