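import Pool.Agent.Lib.MP_d0515f_al.Num

/-! Power sums of the centred sequence `j - (n-1)/2`, `j < n`. -/

set_option linter.unusedVariables false

namespace TDP

variable {K : Type*} [Field K] [Num17 K]

theorem sum_shift (Q f : K → K) (hQ : ∀ x, Q (x + 1) - Q x = f x) (N : ℕ) (s : K) :
    ∑ j ∈ Finset.range N, f ((j : K) + s) = Q ((N : K) + s) - Q s := by
  induction N with
  | zero => simp
  | succ N ih =>
    rw [Finset.sum_range_succ, ih, ← hQ]
    push_cast
    rw [show (N : K) + 1 + s = (N : K) + s + 1 by ring]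
    ring

theorem ps0 (n : ℕ) : ∑ j ∈ Finset.range n, ((j : K) - ((n : K) - 1) / 2) ^ 0 = (1*(n : K)) / 1 := by
  have h2 := nz2 (K := K)
  have h := sum_shift (fun x : K => (1*x) / 1) (fun x : K => x ^ 0) (by intro x; field_simp; ring) n (-(((n : K) - 1) / 2))
  simp only [← sub_eq_add_neg] at h
  rw [h]
  field_simp
  ring

theorem ps1 (n : ℕ) : ∑ j ∈ Finset.range n, ((j : K) - ((n : K) - 1) / 2) ^ 1 = 0 := by
  have h2 := nz2 (K := K)
  have h := sum_shift (fun x : K => (1*x^2 - 1*x) / 2) (fun x : K => x ^ 1) (by intro x; field_simp; ring) n (-(((n : K) - 1) / 2))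
  simp only [← sub_eq_add_neg] at h
  rw [h]
  field_simp
  ring

theorem ps2 (n : ℕ) : ∑ j ∈ Finset.range n, ((j : K) - ((n : K) - 1) / 2) ^ 2 = (1*(n : K)^3 - 1*(n : K)) / 12 := by
  have h2 := nz2 (K := K)
  have h6 := nz6 (K := K)
  have h12 := nz12 (K := K)
  have h := sum_shift (fun x : K => (2*x^3 - 3*x^2 + 1*x) / 6) (fun x : K => x ^ 2) (by intro x; field_simp; ring) n (-(((n : K) - 1) / 2))
  simp only [← sub_eq_add_neg] at h
  rw [h]
  field_simp
  ring

theorem ps3 (n : ℕ) : ∑ j ∈ Finset.range n, ((j : K) - ((n : K) - 1) / 2) ^ 3 = 0 := by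
  have h2 := nz2 (K := K)
  have h4 := nz4 (K := K)
  have h := sum_shift (fun x : K => (1*x^4 - 2*x^3 + 1*x^2) / 4) (fun x : K => x ^ 3) (by intro x; field_simp; ring) n (-(((n : K) - 1) / 2))
  simp only [← sub_eq_add_neg] at h
  rw [h]
  field_simp
  ring

theorem ps4 (n : ℕ) : ∑ j ∈ Finset.range n, ((j : K) - ((n : K) - 1) / 2) ^ 4 = (3*(n : K)^5 - 10*(n : K)^3 + 7*(n : K)) / 240 := by
  have h2 := nz2 (K := K)
  have h30 := nz30 (K := K)
  have h240 := nz240 (K := K)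
  have h := sum_shift (fun x : K => (6*x^5 - 15*x^4 + 10*x^3 - 1*x) / 30) (fun x : K => x ^ 4) (by intro x; field_simp; ring) n (-(((n : K) - 1) / 2))
  simp only [← sub_eq_add_neg] at h
  rw [h]
  field_simp
  ring

theorem ps5 (n : ℕ) : ∑ j ∈ Finset.range n, ((j : K) - ((n : K) - 1) / 2) ^ 5 = 0 := by
  have h2 := nz2 (K := K)
  have h12 := nz12 (K := K)
  have h := sum_shift (fun x : K => (2*x^6 - 6*x^5 + 5*x^4 - 1*x^2) / 12) (fun x : K => x ^ 5) (by intro x; field_simp; ring) n (-(((n : K) - 1) / 2))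
  simp only [← sub_eq_add_neg] at h
  rw [h]
  field_simp
  ring

theorem ps6 (n : ℕ) : ∑ j ∈ Finset.range n, ((j : K) - ((n : K) - 1) / 2) ^ 6 = (3*(n : K)^7 - 21*(n : K)^5 + 49*(n : K)^3 - 31*(n : K)) / 1344 := by
  have h2 := nz2 (K := K)
  have h42 := nz42 (K := K)
  have h1344 := nz1344 (K := K)
  have h := sum_shift (fun x : K => (6*x^7 - 21*x^6 + 21*x^5 - 7*x^3 + 1*x) / 42) (fun x : K => x ^ 6) (by intro x; field_simp; ring) n (-(((n : K) - 1) / 2))
  simp only [← sub_eq_add_neg] at h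
  rw [h]
  field_simp
  ring

theorem ps7 (n : ℕ) : ∑ j ∈ Finset.range n, ((j : K) - ((n : K) - 1) / 2) ^ 7 = 0 := by
  have h2 := nz2 (K := K)
  have h24 := nz24 (K := K)
  have h := sum_shift (fun x : K => (3*x^8 - 12*x^7 + 14*x^6 - 7*x^4 + 2*x^2) / 24) (fun x : K => x ^ 7) (by intro x; field_simp; ring) n (-(((n : K) - 1) / 2))
  simp only [← sub_eq_add_neg] at h
  rw [h]
  field_simp
  ring

theorem ps8 (n : ℕ) : ∑ j ∈ Finset.range n, ((j : K) - ((n : K) - 1) / 2) ^ 8 = (5*(n : K)^9 - 60*(n : K)^7 + 294*(n : K)^5 - 620*(n : K)^3 + 381*(n : K)) / 11520 := by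
  have h2 := nz2 (K := K)
  have h90 := nz90 (K := K)
  have h11520 := nz11520 (K := K)
  have h := sum_shift (fun x : K => (10*x^9 - 45*x^8 + 60*x^7 - 42*x^5 + 20*x^3 - 3*x) / 90) (fun x : K => x ^ 8) (by intro x; field_simp; ring) n (-(((n : K) - 1) / 2))
  simp only [← sub_eq_add_neg] at h
  rw [h]
  field_simp
  ring

theorem ps9 (n : ℕ) : ∑ j ∈ Finset.range n, ((j : K) - ((n : K) - 1) / 2) ^ 9 = 0 := by
  have h2 := nz2 (K := K)
  have h20 := nz20 (K := K)
  have h := sum_shift (fun x : K => (2*x^10 - 10*x^9 + 15*x^8 - 14*x^6 + 10*x^4 - 3*x^2) / 20) (fun x : K => x ^ 9) (by intro x; field_simp; ring) n (-(((n : K) - 1) / 2))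
  simp only [← sub_eq_add_neg] at h
  rw [h]
  field_simp
  ring

theorem ps10 (n : ℕ) : ∑ j ∈ Finset.range n, ((j : K) - ((n : K) - 1) / 2) ^ 10 = (3*(n : K)^11 - 55*(n : K)^9 + 462*(n : K)^7 - 2046*(n : K)^5 + 4191*(n : K)^3 - 2555*(n : K)) / 33792 := by
  have h2 := nz2 (K := K)
  have h66 := nz66 (K := K)
  have h33792 := nz33792 (K := K)
  have h := sum_shift (fun x : K => (6*x^11 - 33*x^10 + 55*x^9 - 66*x^7 + 66*x^5 - 33*x^3 + 5*x) / 66) (fun x : K => x ^ 10) (by intro x; field_simp; ring) n (-(((n : K) - 1) / 2))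
  simp only [← sub_eq_add_neg] at h
  rw [h]
  field_simp
  ring

theorem ps11 (n : ℕ) : ∑ j ∈ Finset.range n, ((j : K) - ((n : K) - 1) / 2) ^ 11 = 0 := by
  have h2 := nz2 (K := K)
  have h24 := nz24 (K := K)
  have h := sum_shift (fun x : K => (2*x^12 - 12*x^11 + 22*x^10 - 33*x^8 + 44*x^6 - 33*x^4 + 10*x^2) / 24) (fun x : K => x ^ 11) (by intro x; field_simp; ring) n (-(((n : K) - 1) / 2))
  simp only [← sub_eq_add_neg] at h
  rw [h]
  field_simp
  ring

theorem ps12 (n : ℕ) : ∑ j ∈ Finset.range n, ((j : K) - ((n : K) - 1) / 2) ^ 12 = (105*(n : K)^13 - 2730*(n : K)^11 + 35035*(n : K)^9 - 265980*(n : K)^7 + 1144143*(n : K)^5 - 2325050*(n : K)^3 + 1414477*(n : K)) / 5591040 := by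
  have h2 := nz2 (K := K)
  have h2730 := nz2730 (K := K)
  have h5591040 := nz5591040 (K := K)
  have h := sum_shift (fun x : K => (210*x^13 - 1365*x^12 + 2730*x^11 - 5005*x^9 + 8580*x^7 - 9009*x^5 + 4550*x^3 - 691*x) / 2730) (fun x : K => x ^ 12) (by intro x; field_simp; ring) n (-(((n : K) - 1) / 2))
  simp only [← sub_eq_add_neg] at h
  rw [h]
  field_simp
  ring

theorem ps13 (n : ℕ) : ∑ j ∈ Finset.range n, ((j : K) - ((n : K) - 1) / 2) ^ 13 = 0 := by
  have h2 := nz2 (K := K)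
  have h420 := nz420 (K := K)
  have h := sum_shift (fun x : K => (30*x^14 - 210*x^13 + 455*x^12 - 1001*x^10 + 2145*x^8 - 3003*x^6 + 2275*x^4 - 691*x^2) / 420) (fun x : K => x ^ 13) (by intro x; field_simp; ring) n (-(((n : K) - 1) / 2))
  simp only [← sub_eq_add_neg] at h
  rw [h]
  field_simp
  ring

theorem ps14 (n : ℕ) : ∑ j ∈ Finset.range n, ((j : K) - ((n : K) - 1) / 2) ^ 14 = (3*(n : K)^15 - 105*(n : K)^13 + 1911*(n : K)^11 - 22165*(n : K)^9 + 163449*(n : K)^7 - 697515*(n : K)^5 + 1414477*(n : K)^3 - 860055*(n : K)) / 737280 := by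
  have h2 := nz2 (K := K)
  have h90 := nz90 (K := K)
  have h737280 := nz737280 (K := K)
  have h := sum_shift (fun x : K => (6*x^15 - 45*x^14 + 105*x^13 - 273*x^11 + 715*x^9 - 1287*x^7 + 1365*x^5 - 691*x^3 + 105*x) / 90) (fun x : K => x ^ 14) (by intro x; field_simp; ring) n (-(((n : K) - 1) / 2))
  simp only [← sub_eq_add_neg] at h
  rw [h]
  field_simp
  ring

theorem ps15 (n : ℕ) : ∑ j ∈ Finset.range n, ((j : K) - ((n : K) - 1) / 2) ^ 15 = 0 := by
  have h2 := nz2 (K := K)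
  have h48 := nz48 (K := K)
  have h := sum_shift (fun x : K => (3*x^16 - 24*x^15 + 60*x^14 - 182*x^12 + 572*x^10 - 1287*x^8 + 1820*x^6 - 1382*x^4 + 420*x^2) / 48) (fun x : K => x ^ 15) (by intro x; field_simp; ring) n (-(((n : K) - 1) / 2))
  simp only [← sub_eq_add_neg] at h
  rw [h]
  field_simp
  ring

theorem ps16 (n : ℕ) : ∑ j ∈ Finset.range n, ((j : K) - ((n : K) - 1) / 2) ^ 16 = (15*(n : K)^17 - 680*(n : K)^15 + 16660*(n : K)^13 - 274040*(n : K)^11 + 3087370*(n : K)^9 - 22586200*(n : K)^7 + 96184436*(n : K)^5 - 194945800*(n : K)^3 + 118518239*(n : K)) / 16711680 := by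
  have h2 := nz2 (K := K)
  have h510 := nz510 (K := K)
  have h16711680 := nz16711680 (K := K)
  have h := sum_shift (fun x : K => (30*x^17 - 255*x^16 + 680*x^15 - 2380*x^13 + 8840*x^11 - 24310*x^9 + 44200*x^7 - 46988*x^5 + 23800*x^3 - 3617*x) / 510) (fun x : K => x ^ 16) (by intro x; field_simp; ring) n (-(((n : K) - 1) / 2))
  simp only [← sub_eq_add_neg] at h
  rw [h]
  field_simp
  ring

end TDP
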