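import Pool.Agent.Lib.MP_d0515f_al.TDefs
import Pool.Agent.Lib.MP_d0515f_al.PSum

/-! Power sums of a centred quadratic sequence, in closed form. -/

namespace TDP

variable {K : Type*} [Field K]

/-- the centred quadratic sequence -/
def cμ (n : ℕ) (β γ : K) (j : ℕ) : K :=
  β * ((j : K) - ((n : K) - 1) / 2) + γ * (((j : K) - ((n : K) - 1) / 2) ^ 2
    - ((n : K) ^ 2 - 1) / 12)

theorem muE1 (β γ c u : K) : (β * u + γ * (u ^ 2 - c)) ^ 1 =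
    ((-1) * γ ^ 1 * c ^ 1) * u ^ 0 + (1 * β ^ 1) * u ^ 1 + (1 * γ ^ 1) * u ^ 2 := by ring

theorem mu1 [Num17 K] (n : ℕ) (β γ : K) : ∑ j ∈ Finset.range n, cμ n β γ j = 0 := by
  have h2 := nz2 (K := K)
  have h12 := nz12 (K := K)
  have h0 : ∀ j : ℕ, cμ n β γ j = cμ n β γ j ^ 1 := fun j => (pow_one _).symm
  rw [Finset.sum_congr rfl (fun j _ => h0 j)]
  simp only [cμ, muE1]
  simp only [Finset.sum_add_distrib, ← Finset.mul_sum]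
  rw [ps0, ps1, ps2]
  field_simp
  ring

theorem muE2 (β γ c u : K) : (β * u + γ * (u ^ 2 - c)) ^ 2 =
    (1 * γ ^ 2 * c ^ 2) * u ^ 0 + ((-2) * β ^ 1 * γ ^ 1 * c ^ 1) * u ^ 1 + (1 * β ^ 2 + (-2) * γ ^ 2 * c ^ 1) * u ^ 2 + (2 * β ^ 1 * γ ^ 1) * u ^ 3 + (1 * γ ^ 2) * u ^ 4 := by ring

theorem mu2 [Num17 K] (n : ℕ) (β γ : K) : ∑ j ∈ Finset.range n, cμ n β γ j ^ 2 = M2 (n : K) β γ := by
  have h2 := nz2 (K := K)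
  have h12 := nz12 (K := K)
  have h240 := nz240 (K := K)
  have h180 := nz180 (K := K)
  simp only [cμ, muE2]
  simp only [Finset.sum_add_distrib, ← Finset.mul_sum]
  rw [ps0, ps1, ps2, ps3, ps4]
  unfold M2
  field_simp
  ring

theorem muE3 (β γ c u : K) : (β * u + γ * (u ^ 2 - c)) ^ 3 =
    ((-1) * γ ^ 3 * c ^ 3) * u ^ 0 + (3 * β ^ 1 * γ ^ 2 * c ^ 2) * u ^ 1 + ((-3) * β ^ 2 * γ ^ 1 * c ^ 1 + 3 * γ ^ 3 * c ^ 2) * u ^ 2 + (1 * β ^ 3 + (-6) * β ^ 1 * γ ^ 2 * c ^ 1) * u ^ 3 + (3 * β ^ 2 * γ ^ 1 + (-3) * γ ^ 3 * c ^ 1) * u ^ 4 + (3 * β ^ 1 * γ ^ 2) * u ^ 5 + (1 * γ ^ 3) * u ^ 6 := by ring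

theorem mu3 [Num17 K] (n : ℕ) (β γ : K) : ∑ j ∈ Finset.range n, cμ n β γ j ^ 3 = M3 (n : K) β γ := by
  have h2 := nz2 (K := K)
  have h12 := nz12 (K := K)
  have h240 := nz240 (K := K)
  have h1344 := nz1344 (K := K)
  have h3780 := nz3780 (K := K)
  simp only [cμ, muE3]
  simp only [Finset.sum_add_distrib, ← Finset.mul_sum]
  rw [ps0, ps1, ps2, ps3, ps4, ps5, ps6]
  unfold M3
  field_simp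
  ring

theorem muE4 (β γ c u : K) : (β * u + γ * (u ^ 2 - c)) ^ 4 =
    (1 * γ ^ 4 * c ^ 4) * u ^ 0 + ((-4) * β ^ 1 * γ ^ 3 * c ^ 3) * u ^ 1 + (6 * β ^ 2 * γ ^ 2 * c ^ 2 + (-4) * γ ^ 4 * c ^ 3) * u ^ 2 + ((-4) * β ^ 3 * γ ^ 1 * c ^ 1 + 12 * β ^ 1 * γ ^ 3 * c ^ 2) * u ^ 3 + (1 * β ^ 4 + (-12) * β ^ 2 * γ ^ 2 * c ^ 1 + 6 * γ ^ 4 * c ^ 2) * u ^ 4 + (4 * β ^ 3 * γ ^ 1 + (-12) * β ^ 1 * γ ^ 3 * c ^ 1) * u ^ 5 + (6 * β ^ 2 * γ ^ 2 + (-4) * γ ^ 4 * c ^ 1) * u ^ 6 + (4 * β ^ 1 * γ ^ 3) * u ^ 7 + (1 * γ ^ 4) * u ^ 8 := by ring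

theorem mu4 [Num17 K] (n : ℕ) (β γ : K) : ∑ j ∈ Finset.range n, cμ n β γ j ^ 4 = M4 (n : K) β γ := by
  have h2 := nz2 (K := K)
  have h12 := nz12 (K := K)
  have h240 := nz240 (K := K)
  have h1344 := nz1344 (K := K)
  have h11520 := nz11520 (K := K)
  have h15120 := nz15120 (K := K)
  simp only [cμ, muE4]
  simp only [Finset.sum_add_distrib, ← Finset.mul_sum]
  rw [ps0, ps1, ps2, ps3, ps4, ps5, ps6, ps7, ps8]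
  unfold M4
  field_simp
  ring

theorem muE5 (β γ c u : K) : (β * u + γ * (u ^ 2 - c)) ^ 5 =
    ((-1) * γ ^ 5 * c ^ 5) * u ^ 0 + (5 * β ^ 1 * γ ^ 4 * c ^ 4) * u ^ 1 + ((-10) * β ^ 2 * γ ^ 3 * c ^ 3 + 5 * γ ^ 5 * c ^ 4) * u ^ 2 + (10 * β ^ 3 * γ ^ 2 * c ^ 2 + (-20) * β ^ 1 * γ ^ 4 * c ^ 3) * u ^ 3 + ((-5) * β ^ 4 * γ ^ 1 * c ^ 1 + 30 * β ^ 2 * γ ^ 3 * c ^ 2 + (-10) * γ ^ 5 * c ^ 3) * u ^ 4 + (1 * β ^ 5 + (-20) * β ^ 3 * γ ^ 2 * c ^ 1 + 30 * β ^ 1 * γ ^ 4 * c ^ 2) * u ^ 5 + (5 * β ^ 4 * γ ^ 1 + (-30) * β ^ 2 * γ ^ 3 * c ^ 1 + 10 * γ ^ 5 * c ^ 2) * u ^ 6 + (10 * β ^ 3 * γ ^ 2 + (-20) * β ^ 1 * γ ^ 4 * c ^ 1) * u ^ 7 + (10 * β ^ 2 * γ ^ 3 + (-5) * γ ^ 5 * c ^ 1) * u ^ 8 + (5 * β ^ 1 * γ ^ 4) * u ^ 9 + (1 * γ ^ 5) * u ^ 10 := by ring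

theorem mu5 [Num17 K] (n : ℕ) (β γ : K) : ∑ j ∈ Finset.range n, cμ n β γ j ^ 5 = M5 (n : K) β γ := by
  have h2 := nz2 (K := K)
  have h12 := nz12 (K := K)
  have h240 := nz240 (K := K)
  have h1344 := nz1344 (K := K)
  have h11520 := nz11520 (K := K)
  have h33792 := nz33792 (K := K)
  have h149688 := nz149688 (K := K)
  simp only [cμ, muE5]
  simp only [Finset.sum_add_distrib, ← Finset.mul_sum]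
  rw [ps0, ps1, ps2, ps3, ps4, ps5, ps6, ps7, ps8, ps9, ps10]
  unfold M5
  field_simp
  ring

theorem muE6 (β γ c u : K) : (β * u + γ * (u ^ 2 - c)) ^ 6 =
    (1 * γ ^ 6 * c ^ 6) * u ^ 0 + ((-6) * β ^ 1 * γ ^ 5 * c ^ 5) * u ^ 1 + (15 * β ^ 2 * γ ^ 4 * c ^ 4 + (-6) * γ ^ 6 * c ^ 5) * u ^ 2 + ((-20) * β ^ 3 * γ ^ 3 * c ^ 3 + 30 * β ^ 1 * γ ^ 5 * c ^ 4) * u ^ 3 + (15 * β ^ 4 * γ ^ 2 * c ^ 2 + (-60) * β ^ 2 * γ ^ 4 * c ^ 3 + 15 * γ ^ 6 * c ^ 4) * u ^ 4 + ((-6) * β ^ 5 * γ ^ 1 * c ^ 1 + 60 * β ^ 3 * γ ^ 3 * c ^ 2 + (-60) * β ^ 1 * γ ^ 5 * c ^ 3) * u ^ 5 + (1 * β ^ 6 + (-30) * β ^ 4 * γ ^ 2 * c ^ 1 + 90 * β ^ 2 * γ ^ 4 * c ^ 2 + (-20) * γ ^ 6 * c ^ 3) * u ^ 6 + (6 * β ^ 5 * γ ^ 1 + (-60) * β ^ 3 * γ ^ 3 * c ^ 1 + 60 * β ^ 1 * γ ^ 5 * c ^ 2) * u ^ 7 + (15 * β ^ 4 * γ ^ 2 + (-60)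 * β ^ 2 * γ ^ 4 * c ^ 1 + 15 * γ ^ 6 * c ^ 2) * u ^ 8 + (20 * β ^ 3 * γ ^ 3 + (-30) * β ^ 1 * γ ^ 5 * c ^ 1) * u ^ 9 + (15 * β ^ 2 * γ ^ 4 + (-6) * γ ^ 6 * c ^ 1) * u ^ 10 + (6 * β ^ 1 * γ ^ 5) * u ^ 11 + (1 * γ ^ 6) * u ^ 12 := by ring

theorem mu6 [Num17 K] (n : ℕ) (β γ : K) : ∑ j ∈ Finset.range n, cμ n β γ j ^ 6 = M6 (n : K) β γ := by
  have h2 := nz2 (K := K)
  have h12 := nz12 (K := K)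
  have h240 := nz240 (K := K)
  have h1344 := nz1344 (K := K)
  have h11520 := nz11520 (K := K)
  have h33792 := nz33792 (K := K)
  have h5591040 := nz5591040 (K := K)
  have h233513280 := nz233513280 (K := K)
  simp only [cμ, muE6]
  simp only [Finset.sum_add_distrib, ← Finset.mul_sum]
  rw [ps0, ps1, ps2, ps3, ps4, ps5, ps6, ps7, ps8, ps9, ps10, ps11, ps12]
  unfold M6
  field_simp
  ring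

theorem muE7 (β γ c u : K) : (β * u + γ * (u ^ 2 - c)) ^ 7 =
    ((-1) * γ ^ 7 * c ^ 7) * u ^ 0 + (7 * β ^ 1 * γ ^ 6 * c ^ 6) * u ^ 1 + ((-21) * β ^ 2 * γ ^ 5 * c ^ 5 + 7 * γ ^ 7 * c ^ 6) * u ^ 2 + (35 * β ^ 3 * γ ^ 4 * c ^ 4 + (-42) * β ^ 1 * γ ^ 6 * c ^ 5) * u ^ 3 + ((-35) * β ^ 4 * γ ^ 3 * c ^ 3 + 105 * β ^ 2 * γ ^ 5 * c ^ 4 + (-21) * γ ^ 7 * c ^ 5) * u ^ 4 + (21 * β ^ 5 * γ ^ 2 * c ^ 2 + (-140) * β ^ 3 * γ ^ 4 * c ^ 3 + 105 * β ^ 1 * γ ^ 6 * c ^ 4) * u ^ 5 + ((-7) * β ^ 6 * γ ^ 1 * c ^ 1 + 105 * β ^ 4 * γ ^ 3 * c ^ 2 + (-210) * β ^ 2 * γ ^ 5 * c ^ 3 + 35 * γ ^ 7 * c ^ 4) * u ^ 6 + (1 * β ^ 7 + (-42) * β ^ 5 * γ ^ 2 * c ^ 1 + 210 * β ^ 3 * γ ^ 4 * c ^ 2 + (-140) * β ^ 1 * γ ^ 6 * c ^ 3) * u ^ 7 + (7 * β ^ 6 * γ ^ 1 + (-105) * β ^ 4 * γ ^ 3 * c ^ 1 + 210 * β ^ 2 * γ ^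 5 * c ^ 2 + (-35) * γ ^ 7 * c ^ 3) * u ^ 8 + (21 * β ^ 5 * γ ^ 2 + (-140) * β ^ 3 * γ ^ 4 * c ^ 1 + 105 * β ^ 1 * γ ^ 6 * c ^ 2) * u ^ 9 + (35 * β ^ 4 * γ ^ 3 + (-105) * β ^ 2 * γ ^ 5 * c ^ 1 + 21 * γ ^ 7 * c ^ 2) * u ^ 10 + (35 * β ^ 3 * γ ^ 4 + (-42) * β ^ 1 * γ ^ 6 * c ^ 1) * u ^ 11 + (21 * β ^ 2 * γ ^ 5 + (-7) * γ ^ 7 * c ^ 1) * u ^ 12 + (7 * β ^ 1 * γ ^ 6) * u ^ 13 + (1 * γ ^ 7) * u ^ 14 := by ring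

theorem mu7 [Num17 K] (n : ℕ) (β γ : K) : ∑ j ∈ Finset.range n, cμ n β γ j ^ 7 = M7 (n : K) β γ := by
  have h2 := nz2 (K := K)
  have h12 := nz12 (K := K)
  have h240 := nz240 (K := K)
  have h1344 := nz1344 (K := K)
  have h11520 := nz11520 (K := K)
  have h33792 := nz33792 (K := K)
  have h5591040 := nz5591040 (K := K)
  have h737280 := nz737280 (K := K)
  have h33359040 := nz33359040 (K := K)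
  have h233513280 := nz233513280 (K := K)
  simp only [cμ, muE7]
  simp only [Finset.sum_add_distrib, ← Finset.mul_sum]
  rw [ps0, ps1, ps2, ps3, ps4, ps5, ps6, ps7, ps8, ps9, ps10, ps11, ps12, ps13, ps14]
  unfold M7
  field_simp
  ring

theorem mu8l [Num17 K] (n : ℕ) (β : K) : ∑ j ∈ Finset.range n, cμ n β 0 j ^ 8 = M8l (n : K) β := by
  have h2 := nz2 (K := K)
  have h12 := nz12 (K := K)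
  have h11520 := nz11520 (K := K)
  have h0 : ∀ j : ℕ, cμ n β 0 j ^ 8 = β ^ 8 * ((j : K) - ((n : K) - 1) / 2) ^ 8 := by
    intro j; simp only [cμ]; ring
  rw [Finset.sum_congr rfl (fun j _ => h0 j)]
  rw [← Finset.mul_sum, ps8]
  unfold M8l
  field_simp

end TDP
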