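import Pool.Agent.Lib.MP_d0515f_al.SmallF

/-! Small diameters, part G: feasibility for `3 ≤ d ≤ 6` when `dim V = d + 1`. -/

namespace TDP

open Module Polynomial

variable {K V : Type*} [Field K] [Num17 K] [AddCommGroup V] [Module K V]

theorem ex4 (b : K) : ∃ x : K, b = 4 * x :=
  ⟨b / 4, by have h2 := nz4 (K := K); field_simp⟩

/-- half of the second difference of the eigenvalue sequence -/
def cc (θ : ℕ → K) : K := (θ 0 - 2 * θ 1 + θ 2) / 2

/-- the mean first difference of the eigenvalue sequence -/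
def bb (d : ℕ) (θ : ℕ → K) : K := (θ d - θ 0) / d

/-- the normalised variance of the spectrum of `A + t B` -/
noncomputable def rho (A B : Module.End K V) (d : ℕ) (t : K) : K :=
  12 * (((d : K) + 1) * LinearMap.trace K V ((A + t • B) ^ 2)
      - (LinearMap.trace K V (A + t • B)) ^ 2) / ((d : K) * ((d : K) + 1) ^ 2 * ((d : K) + 2))

/-- the relations between the data of the pair (`c1`, `c2`, `u = b1^2`, `v = b2^2`), the variance
`ρ` and the parameters `w = β^2`, `g = γ` of the spectrum, for `d = 3, 4, 5` -/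
def MidRel (d : ℕ) (c1 c2 u v ρ w g : K) : Prop :=
  rel2 (((d : K) + 1) ^ 2) ρ w g ∧
  rel3 (((d : K) + 1) ^ 2) (c1 + c2) (c1 - c2) (u - v) w g ∧
  rel4 (((d : K) + 1) ^ 2) (c1 + c2) (c1 - c2) (u + v) w g ∧
  (4 ≤ d → rel5 (((d : K) + 1) ^ 2) (c1 + c2) (c1 - c2) w g) ∧
  (5 ≤ d → rel6 (((d : K) + 1) ^ 2) (c1 + c2) (c1 - c2) w g)

variable [FiniteDimensional K V] {A B : Module.End K V} {d δ : ℕ} {θ θs : ℕ → K}

theorem pair_chain (hK : Good K d)
    (h : IsTDPair A B d δ θ θs) (hβ : BetaTwo d θ) (hβs : BetaTwo δ θs)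
    (hd : 2 ≤ d) (hfin : finrank K V = d + 1) (t : K) :
    ∃ (κ F : K) (r : ℕ → V), Chain (A + t • B - κ • (1 : Module.End K V)) (d + 1) r
      (cD (d + 1) (bb d θ + t * bb d θs) (cc θ + t * cc θs))
      (cψ (d + 1) (cc θ * (t * cc θs)) (bb d θ * (t * cc θs) + t * bb d θs * cc θ) F) := by
  obtain rfl := h.diam_eq
  obtain ⟨a, b, c, hθ, hc⟩ := hβ.quadratic
  obtain ⟨as, bs, cs, hθs, hcs⟩ := hβs.quadratic
  have h' : IsTDPair A B d d (fun i => qf a b c (i : K)) (fun i => qf as bs cs (i : K)) :=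
    h.congr (fun i hi => (hθ i hi).symm) (fun i hi => (hθs i hi).symm)
  obtain ⟨F, r, hs⟩ := split hK h' hfin
  have hd0 : (d : K) ≠ 0 := hK.ne d (by omega) (by omega)
  have e1 : cc θ = c := by unfold cc; rw [← hc hd]; exact mul_div_cancel_left₀ c nz2
  have e2 : cc θs = cs := by unfold cc; rw [← hcs hd]; exact mul_div_cancel_left₀ cs nz2
  have e3 : bb d θ = b + c * d := by
    unfold bb
    rw [hθ d le_rfl, hθ 0 (Nat.zero_le _)]
    simp only [qf, Nat.cast_zero]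
    field_simp
    ring
  have e4 : bb d θs = bs + cs * d := by
    unfold bb
    rw [hθs d le_rfl, hθs 0 (Nat.zero_le _)]
    simp only [qf, Nat.cast_zero]
    field_simp
    ring
  rw [e1, e2, e3, e4]
  exact ⟨_, _, r, hs.chain t⟩

theorem cast_succ_sq (n : ℕ) (m : K) (h : (n : K) = m) : ((n : K) + 1) ^ 2 = (m + 1) ^ 2 := by
  rw [h]

theorem rho_chain (hK : Good K d)
    {κ F b1 b2 c1 c2 t : K} {r : ℕ → V} (hd : 2 ≤ d) (hfin : finrank K V = d + 1)
    (h : Chain (A + t • B - κ • (1 : Module.End K V)) (d + 1) r (cD (d + 1) (b1 + b2) (c1 + c2))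
      (cψ (d + 1) (c1 * c2) (b1 * c2 + b2 * c1) F)) :
    rho A B d t = (b1 + b2) ^ 2 - 4 * F
      + ((((d : K) + 1) ^ 2) - 4) / 15 * ((c1 + c2) ^ 2 - 3 * (c1 * c2)) := by
  have h1 := rho_eq (by omega : 2 ≤ d + 1) (fun l hl hl' => hK.ne l hl (by omega)) h hfin
  push_cast at h1
  rw [← h1]
  unfold rho
  congr 1
  ring

/-- feasibility for `d = 3, 4, 5` -/
theorem feas_mid (hK : Good K d)
    (h : IsTDPair A B d δ θ θs) (hβ : BetaTwo d θ) (hβs : BetaTwo δ θs)
    (hd : 3 ≤ d) (hd' : d ≤ 5) (hfin : finrank K V = d + 1) (t : K) :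
    Feasible A B d t ↔ ∃ β γ : K, MidRel d (cc θ) (t * cc θs) (bb d θ ^ 2) ((t * bb d θs) ^ 2)
      (rho A B d t) (β ^ 2) γ := by
  obtain ⟨κ, F, r, hc⟩ := pair_chain hK h hβ hβs (by omega) hfin t
  have hρ := rho_chain hK (by omega) hfin hc
  unfold Feasible
  rw [feas_chain (by omega) (fun l hl hl' => hK.ne l hl (by omega)) hc]
  refine exists_congr fun β => exists_congr fun γ => ?_
  have h3 : d = 3 ∨ d = 4 ∨ d = 5 := by omega
  rcases h3 with rfl | rfl | rfl
  · have e : (((3 : ℕ) : K) + 1) ^ 2 = 16 := by norm_num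
    rw [e] at hρ
    rw [sm4 _ _ _ _ F β γ (rho A B 3 t) hρ]
    unfold MidRel
    rw [e]
    constructor
    · rintro ⟨h1, h2, h3⟩
      exact ⟨h1, h2, h3, fun h => absurd h (by norm_num), fun h => absurd h (by norm_num)⟩
    · rintro ⟨h1, h2, h3, _, _⟩
      exact ⟨h1, h2, h3⟩
  · have e : (((4 : ℕ) : K) + 1) ^ 2 = 25 := by norm_num
    rw [e] at hρ
    rw [sm5 _ _ _ _ F β γ (rho A B 4 t) hρ]
    unfold MidRel
    rw [e]
    constructor
    · rintro ⟨h1, h2, h3, h4⟩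
      exact ⟨h1, h2, h3, fun _ => h4, fun h => absurd h (by norm_num)⟩
    · rintro ⟨h1, h2, h3, h4, _⟩
      exact ⟨h1, h2, h3, h4 le_rfl⟩
  · have e : (((5 : ℕ) : K) + 1) ^ 2 = 36 := by norm_num
    rw [e] at hρ
    rw [sm6 _ _ _ _ F β γ (rho A B 5 t) hρ]
    unfold MidRel
    rw [e]
    constructor
    · rintro ⟨h1, h2, h3, h4, h5⟩
      exact ⟨h1, h2, h3, fun _ => h4, fun _ => h5⟩
    · rintro ⟨h1, h2, h3, h4, h5⟩
      exact ⟨h1, h2, h3, h4 (by norm_num), h5 le_rfl⟩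

theorem bb_cc_ne (hd0 : (d : K) ≠ 0) (h : HalfTD A B d θ) (hβ : BetaTwo d θ) (hd : 2 ≤ d) :
    ¬ (cc θ = 0 ∧ bb d θ = 0) := by
  rintro ⟨h1, h2⟩
  obtain ⟨a, b, c, hθ, hc⟩ := hβ.quadratic
  have e1 : cc θ = c := by unfold cc; rw [← hc hd]; exact mul_div_cancel_left₀ c nz2
  have e3 : bb d θ = b + c * d := by
    unfold bb
    rw [hθ d le_rfl, hθ 0 (Nat.zero_le _)]
    simp only [qf, Nat.cast_zero]
    field_simp
    ring
  have hc0 : c = 0 := by rw [← e1]; exact h1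
  have hb0 : b = 0 := by rw [e3, hc0] at h2; simpa using h2
  have h4 : θ 0 = θ 1 := by
    rw [hθ 0 (Nat.zero_le _), hθ 1 (by omega), hb0, hc0]
    simp [qf]
  exact absurd (h.inj 0 1 (by omega) (by omega) h4) (by norm_num)

/-- feasibility for `d = 6` -/
theorem feas_six (hK : Good K 6)
    (h : IsTDPair A B 6 δ θ θs) (hβ : BetaTwo 6 θ) (hβs : BetaTwo δ θs)
    (hfin : finrank K V = 7) {t : K} (ht : t ≠ 0) :
    Feasible A B 6 t ↔
      (cc θ = t * cc θs ∧ IsSquare (rho A B 6 t - 3 * cc θ ^ 2)) ∨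
      (IsSquare (3 : K) ∧
        Spor7 (bb 6 θ) (t * bb 6 θs) (cc θ) (t * cc θs) (rho A B 6 t)) := by
  obtain ⟨κ, F, r, hc⟩ := pair_chain hK h hβ hβs (by omega) (by rw [hfin]) t
  have hρ := rho_chain hK (by omega) (by rw [hfin]) hc
  have e : (((6 : ℕ) : K) + 1) ^ 2 = 49 := by norm_num
  rw [e] at hρ
  unfold Feasible
  rw [feas_chain (by omega) (fun l hl hl' => hK.ne l hl (by omega)) hc]
  have h60 : (((6 : ℕ)) : K) ≠ 0 := hK.ne 6 (by norm_num) (by norm_num)
  have hn1 := bb_cc_ne h60 h.left hβ (by norm_num)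
  have hn2 : ¬ (t * cc θs = 0 ∧ t * bb 6 θs = 0) := by
    obtain rfl := h.diam_eq
    rintro ⟨h1, h2⟩
    exact bb_cc_ne h60 h.right hβs (by norm_num)
      ⟨(mul_eq_zero.1 h1).resolve_left ht, (mul_eq_zero.1 h2).resolve_left ht⟩
  set c1 := cc θ with hc1
  set c2 := t * cc θs with hc2
  set b1 := bb 6 θ with hb1
  set b2 := t * bb 6 θs with hb2
  set ρ := rho A B 6 t with hρ'
  constructor
  · rintro ⟨β, γ, hk⟩
    rw [sm7 b1 b2 c1 c2 F β γ ρ hρ] at hk
    obtain ⟨r2, r3, r4, r5, r6, r7⟩ := hk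
    by_cases hcc : c1 = c2
    · left
      refine ⟨hcc, ?_⟩
      unfold rel2 at r2
      by_cases hg : γ = 0
      · subst hg
        have key := alg7_g0 (iP (c1 + c2) (c1 - c2)) (iQ (c1 + c2) (c1 - c2)) (β ^ 2)
          (by unfold rel5 at r5; exact fz 0 1 1 0 0 0 0 (by linear_combination (-1) * r5))
          (by unfold rel6 at r6; exact fz 0 1 1 0 0 1 0 (by linear_combination (1) * r6))
          (by unfold rel7 at r7; exact fz 0 0 1 0 0 0 0 (by linear_combination (1) * r7))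
        have hP := key.1
        rw [hcc] at hP
        unfold iP at hP
        have h3 : c2 ^ 3 = 0 := by exact fz 3 0 0 0 0 0 0 (by linear_combination (1) * hP)
        have h0 := pow_zero_of h3
        refine ⟨β, ?_⟩
        rw [hcc, h0]
        exact fz 0 1 1 0 0 0 0 (by linear_combination (-1) * r2)
      · have key := alg7_PQ (iP (c1 + c2) (c1 - c2)) (iQ (c1 + c2) (c1 - c2)) γ (β ^ 2) hg
          (by unfold rel5 at r5; exact fz 0 1 0 0 0 0 0 (by linear_combination (-1) * r5))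
          (by unfold rel6 at r6; exact fz 0 1 1 0 0 1 0 (by linear_combination (1) * r6))
          (by unfold rel7 at r7; linear_combination r7)
        rw [hcc] at key ⊢
        unfold iP iQ at key
        rcases key with ⟨_, hQ⟩ | ⟨_, hQ, hw⟩ | ⟨_, hQ, hw⟩
        · refine ⟨β, ?_⟩
          exact fz 2 1 1 0 0 0 0 (by linear_combination (-4) * r2 - (45) * hQ)
        · refine ⟨2 * γ, ?_⟩
          exact fz 2 1 1 0 0 0 0 (by linear_combination (-4) * r2 - (45) * hQ + (60) * hw)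
        · obtain ⟨k, rfl⟩ := ex4 γ
          refine ⟨7 * k, ?_⟩
          exact fz 4 1 1 0 0 0 0 (by linear_combination (-16) * r2 - (45) * hQ + (60) * hw)
    · right
      have key := cls7 b1 b2 c1 c2 (β ^ 2) γ ρ hcc r2 r3 r4 r5 r6 r7
      rcases key with hk | hk | ⟨hk, hw, _⟩
      · exact absurd hk hn1
      · exact absurd hk hn2
      · refine ⟨?_, hk⟩
        have hsq : ∃ c : K, c ≠ 0 ∧ ρ = 12 * c ^ 2 := by
          rcases hk with ⟨h0, _, _, h1⟩ | ⟨h0, _, _, h1⟩ | ⟨h0, _, _, h1⟩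
          · refine ⟨c1, ?_, h1⟩
            intro h2
            apply hcc
            rw [h2] at h0 ⊢
            linear_combination -h0
          · refine ⟨c2, ?_, h1⟩
            intro h2
            apply hcc
            rw [h0, h2]; ring
          · refine ⟨c1, ?_, h1⟩
            intro h2
            apply hcc
            rw [h0, h2]; ring
        obtain ⟨c, hc0, h1⟩ := hsq
        refine ⟨β / (2 * c), ?_⟩
        rw [h1] at hw
        have h2' := nz2 (K := K)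
        have h3' : (3 : K) * (4 * c ^ 2) = β ^ 2 := by linear_combination -hw
        field_simp
        linear_combination h3'
  · rintro (⟨hcc, β, hβ2⟩ | ⟨⟨m, hm⟩, hk⟩)
    · refine ⟨β, -c1, ?_⟩
      rw [sm7 b1 b2 c1 c2 F β (-c1) ρ hρ]
      have hρ2 : ρ = β ^ 2 + 3 * c1 ^ 2 := by linear_combination hβ2
      rw [← hcc]
      unfold rel2 rel3 rel4 rel5 rel6 rel7 iP iQ
      rw [hρ2]
      refine ⟨?_, ?_, ?_, ?_, ?_, ?_⟩ <;> ring
    · have hsq : ∃ c : K, ρ = 12 * c ^ 2 := by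
        rcases hk with ⟨h0, _, _, h1⟩ | ⟨h0, _, _, h1⟩ | ⟨h0, _, _, h1⟩
        · exact ⟨c1, h1⟩
        · exact ⟨c2, h1⟩
        · exact ⟨c1, h1⟩
      obtain ⟨c, h1⟩ := hsq
      refine ⟨2 * m * c, 0, ?_⟩
      rw [sm7 b1 b2 c1 c2 F (2 * m * c) 0 ρ hρ]
      have h2 : (2 * m * c) ^ 2 = ρ := by
        rw [h1]; linear_combination (-4 * c ^ 2) * hm
      rw [h2]
      exact cls7_conv b1 b2 c1 c2 ρ hk

end TDP
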