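import Pool.Agent.Lib.MP_d0515f_al.TraceCo
import Pool.Agent.Lib.MP_d0515f_al.PSum

/-! The trace of the power 1. -/

namespace TDP

variable {K : Type*} [Field K]

theorem sumk1 [Num17 K] (n : ℕ) (s a p q F : K) : ∑ j ∈ Finset.range n,
    co (Uf (n : K)) (Df (n : K) s a) (Xf (n : K) p q F) 1 0 ((j : K) - ((n : K) - 1) / 2) = 0 := by
  have h12 := nz12 (K := K)
  have h1 : ∀ x : K, co (Uf (n : K)) (Df (n : K) s a) (Xf (n : K) p q F) 1 0 x =
      s * x ^ 1 + a * x ^ 2 - a * (((n : K) ^ 2 - 1) / 12) * x ^ 0 := by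
    intro x
    rw [co1_0, Df]
    ring
  simp only [h1, Finset.sum_add_distrib, Finset.sum_sub_distrib, ← Finset.mul_sum, ps0, ps1, ps2]
  field_simp
  ring

end TDP
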