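import Pool.Agent.Lib.MP_d0515f_al.KRF

/-! The trace of the power 2 (generated by computer): the sum over closed walks equals the
closed form, checked in the kernel by one evaluation for each small `n`. -/

set_option linter.unusedVariables false
set_option maxRecDepth 20000

namespace TDP

open Ex

/-- the square of `n` -/
def nn2 : Ex := mul (v 5) (v 5)

/-- powers of a variable -/
def pw2 (i : ℕ) : ℕ → Ex
  | 0 => c 1
  | 1 => v i
  | k + 2 => mul (v i) (pw2 i (k + 1))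

theorem ev_pw2 {R : Type*} [CommRing R] (ρ : ℕ → R) (i k : ℕ) :
    ev ρ (pw2 i k) = ρ i ^ k := by
  induction k with
  | zero => simp [pw2, ev]
  | succ k ih =>
    cases k with
    | zero => simp [pw2, ev]
    | succ k => rw [pw2, ev, ih, ev, pow_succ' _ (k + 1)]

/-- reified summand -/
def eT2_0 : Ex :=
  (add (mul (mul (v 5) (add (c (-15)) (mul nn2 (c 15)))) (pw2 0 2)) (add (mul (mul (v 5) (add (c 4) (mul nn2 (add (c (-5)) (mul nn2 (c 1)))))) (pw2 1 2)) (add (mul (mul (v 5) (add (c (-12)) (mul nn2 (add (c 15) (mul nn2 (c (-3))))))) (pw2 2 1)) (mul (mul (v 5) (add (c 60) (mul nn2 (c (-60))))) (pw2 4 1)))))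

/-- reified closed form -/
def eT2 : Ex := mul (c 4) eT2_0

/-- evaluation point -/
def m2 (i : ℕ) : ℕ :=
  match i with
  | 0 => 2 ^ 18
  | 1 => 2 ^ 50
  | 2 => 2 ^ 115
  | 3 => 2 ^ 132
  | 4 => 2 ^ 147
  | _ => 0

theorem ck2 : ∀ N, N ≤ 4 + 1 → ck (mul (c 5) C2_0_0) eT2 (v 1) (mul (c 18) (v 2)) m2 N = true := by
  intro N hN
  interval_cases N <;> decide +kernel

theorem cs2_0 : ∀ N, N ≤ 4 + 1 → cs (mul (c 5) C2_0_0) eT2 (v 1) (mul (c 18) (v 2)) m2 0 N = true := by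
  intro N hN
  interval_cases N <;> decide +kernel

theorem cs2_1 : ∀ N, N ≤ 4 + 1 → cs (mul (c 5) C2_0_0) eT2 (v 1) (mul (c 18) (v 2)) m2 1 N = true := by
  intro N hN
  interval_cases N <;> decide +kernel

theorem cs2_2 : ∀ N, N ≤ 4 + 1 → cs (mul (c 5) C2_0_0) eT2 (v 1) (mul (c 18) (v 2)) m2 2 N = true := by
  intro N hN
  interval_cases N <;> decide +kernel

theorem cs2_3 : ∀ N, N ≤ 4 + 1 → cs (mul (c 5) C2_0_0) eT2 (v 1) (mul (c 18) (v 2)) m2 3 N = true := by
  intro N hN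
  interval_cases N <;> decide +kernel

theorem cs2_4 : ∀ N, N ≤ 4 + 1 → cs (mul (c 5) C2_0_0) eT2 (v 1) (mul (c 18) (v 2)) m2 4 N = true := by
  intro N hN
  interval_cases N <;> decide +kernel

theorem cs2 : ∀ N, N ≤ 4 + 1 → ∀ j, j < 5 → cs (mul (c 5) C2_0_0) eT2 (v 1) (mul (c 18) (v 2)) m2 j N = true := by
  intro N hN j hj
  interval_cases j
  · exact cs2_0 N hN
  · exact cs2_1 N hN
  · exact cs2_2 N hN
  · exact cs2_3 N hN
  · exact cs2_4 N hN

theorem wdW2 : wd w3 (mul (c 5) C2_0_0) ≤ 4 := by decide +kernel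

theorem wdt2 : wd (fun i => if i = 5 then 1 else 0) eT2 ≤ 4 + 1 := by decide +kernel

variable {K : Type*} [Field K]

theorem heT2 [Num17 K] (n s a p q F : K) : ev (par6 n s a p q F) eT2 = (5 * 12 ^ 2) * T2 n s a p q F := by
  have hd := nz180 (K := K)
  simp only [eT2, eT2_0, nn2, ev, ev_pw2, par6, T2]
  push_cast
  field_simp
  ring

theorem sumk2 [Num17 K] (n : ℕ) (s a p q F : K) : ∑ j ∈ Finset.range n,
    co (Uf (n : K)) (Df (n : K) s a) (Xf (n : K) p q F) 2 0 ((j : K) - ((n : K) - 1) / 2) = T2 (n : K) s a p q F := by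
  have h := final (K := K) C2_0_0 eT2 (v 1) (mul (c 18) (v 2)) m2 4 2 5 (by norm_num) hC2_0_0 wdW2 wdt2 ck2 cs2
    s a a p p q F
    (by simp [ev, par5]) (by simp only [ev, par5]; push_cast; ring) n
  rw [heT2, mul_assoc] at h
  have hc : ((5 : ℤ) : K) ≠ 0 := by
    have := smooth_ne (K := K) 0 0 1 0 0 0 0
    norm_num at this ⊢
    exact this
  have h12 : ((12 : K) ^ 2) ≠ 0 := pow_ne_zero _ nz12
  have e : ((5 : ℤ) : K) = 5 := by norm_num
  rw [e] at h hc
  exact mul_left_cancel₀ h12 (mul_left_cancel₀ hc h)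

end TDP
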