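import Pool.Agent.Lib.MP_d0515f_al.KRF

/-! The trace of the power 3 (generated by computer): the sum over closed walks equals the
closed form, checked in the kernel by one evaluation for each small `n`. -/

set_option linter.unusedVariables false
set_option maxRecDepth 20000

namespace TDP

open Ex

/-- the square of `n` -/
def nn3 : Ex := mul (v 5) (v 5)

/-- powers of a variable -/
def pw3 (i : ℕ) : ℕ → Ex
  | 0 => c 1
  | 1 => v i
  | k + 2 => mul (v i) (pw3 i (k + 1))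

theorem ev_pw3 {R : Type*} [CommRing R] (ρ : ℕ → R) (i k : ℕ) :
    ev ρ (pw3 i k) = ρ i ^ k := by
  induction k with
  | zero => simp [pw3, ev]
  | succ k ih =>
    cases k with
    | zero => simp [pw3, ev]
    | succ k => rw [pw3, ev, ih, ev, pow_succ' _ (k + 1)]

/-- reified summand -/
def eT3_0 : Ex :=
  (add (mul (mul (v 5) (add (c 504) (mul nn3 (add (c (-630)) (mul nn3 (c 126)))))) (mul (pw3 0 2) (pw3 1 1))) (add (mul (mul (v 5) (add (c (-1512)) (mul nn3 (add (c 1890) (mul nn3 (c (-378))))))) (mul (pw3 0 1) (pw3 3 1))) (add (mul (mul (v 5) (add (c (-128)) (mul nn3 (add (c 168) (mul nn3 (add (c (-42)) (mul nn3 (c 2)))))))) (pw3 1 3)) (add (mul (mul (v 5) (add (c 576) (mul nn3 (add (c (-756)) (mul nn3 (add (c 189) (mul nn3 (c (-9))))))))) (mul (pw3 1 1) (pw3 2 1))) (mul (mul (v 5) (add (c 1008) (mul nn3 (add (c (-1260)) (mul nn3 (c 252)))))) (mul (pw3 1 1) (pw3 4 1)))))))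

/-- reified closed form -/
def eT3 : Ex := mul (c 8) eT3_0

/-- evaluation point -/
def m3 (i : ℕ) : ℕ :=
  match i with
  | 0 => 2 ^ 30
  | 1 => 2 ^ 113
  | 2 => 2 ^ 365
  | 3 => 2 ^ 506
  | 4 => 2 ^ 645
  | _ => 0

theorem ck3 : ∀ N, N ≤ 6 + 1 → ck (mul (c 35) C3_0_0) eT3 (v 1) (mul (c 18) (v 2)) m3 N = true := by
  intro N hN
  interval_cases N <;> decide +kernel

theorem cs3_0 : ∀ N, N ≤ 6 + 1 → cs (mul (c 35) C3_0_0) eT3 (v 1) (mul (c 18) (v 2)) m3 0 N = true := by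
  intro N hN
  interval_cases N <;> decide +kernel

theorem cs3_1 : ∀ N, N ≤ 6 + 1 → cs (mul (c 35) C3_0_0) eT3 (v 1) (mul (c 18) (v 2)) m3 1 N = true := by
  intro N hN
  interval_cases N <;> decide +kernel

theorem cs3_2 : ∀ N, N ≤ 6 + 1 → cs (mul (c 35) C3_0_0) eT3 (v 1) (mul (c 18) (v 2)) m3 2 N = true := by
  intro N hN
  interval_cases N <;> decide +kernel

theorem cs3_3 : ∀ N, N ≤ 6 + 1 → cs (mul (c 35) C3_0_0) eT3 (v 1) (mul (c 18) (v 2)) m3 3 N = true := by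
  intro N hN
  interval_cases N <;> decide +kernel

theorem cs3_4 : ∀ N, N ≤ 6 + 1 → cs (mul (c 35) C3_0_0) eT3 (v 1) (mul (c 18) (v 2)) m3 4 N = true := by
  intro N hN
  interval_cases N <;> decide +kernel

theorem cs3 : ∀ N, N ≤ 6 + 1 → ∀ j, j < 5 → cs (mul (c 35) C3_0_0) eT3 (v 1) (mul (c 18) (v 2)) m3 j N = true := by
  intro N hN j hj
  interval_cases j
  · exact cs3_0 N hN
  · exact cs3_1 N hN
  · exact cs3_2 N hN
  · exact cs3_3 N hN
  · exact cs3_4 N hN

theorem wdW3 : wd w3 (mul (c 35) C3_0_0) ≤ 6 := by decide +kernel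

theorem wdt3 : wd (fun i => if i = 5 then 1 else 0) eT3 ≤ 6 + 1 := by decide +kernel

variable {K : Type*} [Field K]

theorem heT3 [Num17 K] (n s a p q F : K) : ev (par6 n s a p q F) eT3 = (35 * 12 ^ 3) * T3 n s a p q F := by
  have hd := nz7560 (K := K)
  simp only [eT3, eT3_0, nn3, ev, ev_pw3, par6, T3]
  push_cast
  field_simp
  ring

theorem sumk3 [Num17 K] (n : ℕ) (s a p q F : K) : ∑ j ∈ Finset.range n,
    co (Uf (n : K)) (Df (n : K) s a) (Xf (n : K) p q F) 3 0 ((j : K) - ((n : K) - 1) / 2) = T3 (n : K) s a p q F := by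
  have h := final (K := K) C3_0_0 eT3 (v 1) (mul (c 18) (v 2)) m3 6 3 35 (by norm_num) hC3_0_0 wdW3 wdt3 ck3 cs3
    s a a p p q F
    (by simp [ev, par5]) (by simp only [ev, par5]; push_cast; ring) n
  rw [heT3, mul_assoc] at h
  have hc : ((35 : ℤ) : K) ≠ 0 := by
    have := smooth_ne (K := K) 0 0 1 1 0 0 0
    norm_num at this ⊢
    exact this
  have h12 : ((12 : K) ^ 3) ≠ 0 := pow_ne_zero _ nz12
  have e : ((35 : ℤ) : K) = 35 := by norm_num
  rw [e] at h hc
  exact mul_left_cancel₀ h12 (mul_left_cancel₀ hc h)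

end TDP
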