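import Pool.Agent.Lib.MP_d0515f_al.KRF

/-! The trace of the power 4 (generated by computer): the sum over closed walks equals the
closed form, checked in the kernel by one evaluation for each small `n`. -/

set_option linter.unusedVariables false
set_option maxRecDepth 20000

namespace TDP

open Ex

/-- the square of `n` -/
def nn4 : Ex := mul (v 5) (v 5)

/-- powers of a variable -/
def pw4 (i : ℕ) : ℕ → Ex
  | 0 => c 1
  | 1 => v i
  | k + 2 => mul (v i) (pw4 i (k + 1))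

theorem ev_pw4 {R : Type*} [CommRing R] (ρ : ℕ → R) (i k : ℕ) :
    ev ρ (pw4 i k) = ρ i ^ k := by
  induction k with
  | zero => simp [pw4, ev]
  | succ k ih =>
    cases k with
    | zero => simp [pw4, ev]
    | succ k => rw [pw4, ev, ih, ev, pow_succ' _ (k + 1)]

/-- reified summand -/
def eT4_1 : Ex :=
  (add (mul (mul (v 5) (add (c 441) (mul nn4 (add (c (-630)) (mul nn4 (c 189)))))) (pw4 0 4)) (add (mul (mul (v 5) (add (c (-1704)) (mul nn4 (add (c 2394) (mul nn4 (add (c (-756)) (mul nn4 (c 66)))))))) (mul (pw4 0 2) (pw4 1 2))) (add (mul (mul (v 5) (add (c 3816) (mul nn4 (add (c (-5418)) (mul nn4 (add (c 1764) (mul nn4 (c (-162))))))))) (mul (pw4 0 2) (pw4 2 1))) (add (mul (mul (v 5) (add (c (-3528)) (mul nn4 (add (c 5040) (mul nn4 (c (-1512))))))) (mul (pw4 0 2) (pw4 4 1))) (mul (mul (v 5) (add (c 2592) (mul nn4 (add (c (-3528)) (mul nn4 (add (c 1008) (mul nn4 (c (-72))))))))) (mul (pw4 0 1) (mul (pw4 1 1) (pw4 3 1))))))))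

/-- reified summand -/
def eT4_2 : Ex :=
  (add (mul (mul (v 5) (add (c 400) (mul nn4 (add (c (-568)) (mul nn4 (add (c 189) (mul nn4 (add (c (-22)) (mul nn4 (c 1)))))))))) (pw4 1 4)) (add (mul (mul (v 5) (add (c (-2400)) (mul nn4 (add (c 3408) (mul nn4 (add (c (-1134)) (mul nn4 (add (c 132) (mul nn4 (c (-6))))))))))) (mul (pw4 1 2) (pw4 2 1))) (add (mul (mul (v 5) (add (c 1632) (mul nn4 (add (c (-2520)) (mul nn4 (add (c 1008) (mul nn4 (c (-120))))))))) (mul (pw4 1 2) (pw4 4 1))) (add (mul (mul (v 5) (add (c 3600) (mul nn4 (add (c (-5112)) (mul nn4 (add (c 1701) (mul nn4 (add (c (-198)) (mul nn4 (c 9)))))))))) (pw4 2 2)) (mul (mul (v 5) (add (c 288) (mul nn4 (add (c 504) (mul nn4 (add (c (-1008)) (mul nn4 (c 216)))))))) (mul (pw4 2 1) (pw4 4 1)))))))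

/-- reified summand -/
def eT4_3 : Ex :=
  (add (mul (mul (v 5) (add (c (-3888)) (mul nn4 (add (c 5292) (mul nn4 (add (c (-1512)) (mul nn4 (c 108)))))))) (pw4 3 2)) (mul (mul (v 5) (add (c 7056) (mul nn4 (add (c (-10080)) (mul nn4 (c 3024)))))) (pw4 4 2)))

/-- reified closed form -/
def eT4 : Ex := mul (c 48) (add eT4_1 (add eT4_2 eT4_3))

/-- evaluation point -/
def m4 (i : ℕ) : ℕ :=
  match i with
  | 0 => 2 ^ 41
  | 1 => 2 ^ 194
  | 2 => 2 ^ 812
  | 3 => 2 ^ 1663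
  | 4 => 2 ^ 3362
  | _ => 0

theorem ck4 : ∀ N, N ≤ 8 + 1 → ck (mul (c 35) C4_0_0) eT4 (v 1) (mul (c 18) (v 2)) m4 N = true := by
  intro N hN
  interval_cases N <;> decide +kernel

theorem cs4_0 : ∀ N, N ≤ 8 + 1 → cs (mul (c 35) C4_0_0) eT4 (v 1) (mul (c 18) (v 2)) m4 0 N = true := by
  intro N hN
  interval_cases N <;> decide +kernel

theorem cs4_1 : ∀ N, N ≤ 8 + 1 → cs (mul (c 35) C4_0_0) eT4 (v 1) (mul (c 18) (v 2)) m4 1 N = true := by
  intro N hN
  interval_cases N <;> decide +kernel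

theorem cs4_2 : ∀ N, N ≤ 8 + 1 → cs (mul (c 35) C4_0_0) eT4 (v 1) (mul (c 18) (v 2)) m4 2 N = true := by
  intro N hN
  interval_cases N <;> decide +kernel

theorem cs4_3 : ∀ N, N ≤ 8 + 1 → cs (mul (c 35) C4_0_0) eT4 (v 1) (mul (c 18) (v 2)) m4 3 N = true := by
  intro N hN
  interval_cases N <;> decide +kernel

theorem cs4_4 : ∀ N, N ≤ 8 + 1 → cs (mul (c 35) C4_0_0) eT4 (v 1) (mul (c 18) (v 2)) m4 4 N = true := by
  intro N hN
  interval_cases N <;> decide +kernel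

theorem cs4 : ∀ N, N ≤ 8 + 1 → ∀ j, j < 5 → cs (mul (c 35) C4_0_0) eT4 (v 1) (mul (c 18) (v 2)) m4 j N = true := by
  intro N hN j hj
  interval_cases j
  · exact cs4_0 N hN
  · exact cs4_1 N hN
  · exact cs4_2 N hN
  · exact cs4_3 N hN
  · exact cs4_4 N hN

theorem wdW4 : wd w3 (mul (c 35) C4_0_0) ≤ 8 := by decide +kernel

theorem wdt4 : wd (fun i => if i = 5 then 1 else 0) eT4 ≤ 8 + 1 := by decide +kernel

variable {K : Type*} [Field K]

theorem heT4_1 (n s a p q F : K) : ev (par6 n s a p q F) eT4_1 = T4_1 n s a p q F := by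
  simp only [eT4_1, nn4, ev, ev_pw4, par6, T4_1]
  push_cast
  ring

theorem heT4_2 (n s a p q F : K) : ev (par6 n s a p q F) eT4_2 = T4_2 n s a p q F := by
  simp only [eT4_2, nn4, ev, ev_pw4, par6, T4_2]
  push_cast
  ring

theorem heT4_3 (n s a p q F : K) : ev (par6 n s a p q F) eT4_3 = T4_3 n s a p q F := by
  simp only [eT4_3, nn4, ev, ev_pw4, par6, T4_3]
  push_cast
  ring

theorem heT4 [Num17 K] (n s a p q F : K) : ev (par6 n s a p q F) eT4 = (35 * 12 ^ 4) * T4 n s a p q F := by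
  have hd := nz15120 (K := K)
  simp only [eT4, ev, heT4_1, heT4_2, heT4_3, T4]
  push_cast
  field_simp
  ring

theorem sumk4 [Num17 K] (n : ℕ) (s a p q F : K) : ∑ j ∈ Finset.range n,
    co (Uf (n : K)) (Df (n : K) s a) (Xf (n : K) p q F) 4 0 ((j : K) - ((n : K) - 1) / 2) = T4 (n : K) s a p q F := by
  have h := final (K := K) C4_0_0 eT4 (v 1) (mul (c 18) (v 2)) m4 8 4 35 (by norm_num) hC4_0_0 wdW4 wdt4 ck4 cs4
    s a a p p q F
    (by simp [ev, par5]) (by simp only [ev, par5]; push_cast; ring) n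
  rw [heT4, mul_assoc] at h
  have hc : ((35 : ℤ) : K) ≠ 0 := by
    have := smooth_ne (K := K) 0 0 1 1 0 0 0
    norm_num at this ⊢
    exact this
  have h12 : ((12 : K) ^ 4) ≠ 0 := pow_ne_zero _ nz12
  have e : ((35 : ℤ) : K) = 35 := by norm_num
  rw [e] at h hc
  exact mul_left_cancel₀ h12 (mul_left_cancel₀ hc h)

end TDP
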