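import Pool.Agent.Lib.MP_d0515f_al.KRF

/-! The trace of the power 5 (generated by computer): the sum over closed walks equals the
closed form, checked in the kernel by one evaluation for each small `n`. -/

set_option linter.unusedVariables false
set_option maxRecDepth 20000

namespace TDP

open Ex

/-- the square of `n` -/
def nn5 : Ex := mul (v 5) (v 5)

/-- powers of a variable -/
def pw5 (i : ℕ) : ℕ → Ex
  | 0 => c 1
  | 1 => v i
  | k + 2 => mul (v i) (pw5 i (k + 1))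

theorem ev_pw5 {R : Type*} [CommRing R] (ρ : ℕ → R) (i k : ℕ) :
    ev ρ (pw5 i k) = ρ i ^ k := by
  induction k with
  | zero => simp [pw5, ev]
  | succ k ih =>
    cases k with
    | zero => simp [pw5, ev]
    | succ k => rw [pw5, ev, ih, ev, pow_succ' _ (k + 1)]

/-- reified summand -/
def eT5_1 : Ex :=
  (add (mul (mul (v 5) (add (c (-30888)) (mul nn5 (add (c 45738) (mul nn5 (add (c (-16632)) (mul nn5 (c 1782)))))))) (mul (pw5 0 4) (pw5 1 1))) (add (mul (mul (v 5) (add (c 92664) (mul nn5 (add (c (-137214)) (mul nn5 (add (c 49896) (mul nn5 (c (-5346))))))))) (mul (pw5 0 3) (pw5 3 1))) (add (mul (mul (v 5) (add (c 83424) (mul nn5 (add (c (-122232)) (mul nn5 (add (c 44352) (mul nn5 (add (c (-5808)) (mul nn5 (c 264)))))))))) (mul (pw5 0 2) (pw5 1 3))) (add (mul (mul (v 5) (add (c (-294624)) (mul nn5 (add (c 431244) (mul nn5 (add (c (-155925)) (mul nn5 (add (c 20196) (mul nn5 (c (-891))))))))))) (mul (pw5 0 2) (mul (pw5 1 1) (pw5 2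 1)))) (mul (mul (v 5) (add (c 61776) (mul nn5 (add (c (-91476)) (mul nn5 (add (c 33264) (mul nn5 (c (-3564))))))))) (mul (pw5 0 2) (mul (pw5 1 1) (pw5 4 1))))))))

/-- reified summand -/
def eT5_2 : Ex :=
  (add (mul (mul (v 5) (add (c (-161568)) (mul nn5 (add (c 237600) (mul nn5 (add (c (-87318)) (mul nn5 (add (c 11880) (mul nn5 (c (-594))))))))))) (mul (pw5 0 1) (mul (pw5 1 2) (pw5 3 1)))) (add (mul (mul (v 5) (add (c 484704) (mul nn5 (add (c (-712800)) (mul nn5 (add (c 261954) (mul nn5 (add (c (-35640)) (mul nn5 (c 1782)))))))))) (mul (pw5 0 1) (mul (pw5 2 1) (pw5 3 1)))) (add (mul (mul (v 5) (add (c (-370656)) (mul nn5 (add (c 548856) (mul nn5 (add (c (-199584)) (mul nn5 (c 21384)))))))) (mul (pw5 0 1) (mul (pw5 3 1) (pw5 4 1)))) (add (mul (mul (v 5) (add (c (-18944)) (mul nn5 (add (c 27808) (mul nn5 (add (c (-10208)) (mul nn5 (add (c 1430) (mul nn5 (add (c (-88)) (mul nn5 (c 2)))))))))))) (pw5 1 5)) (mul (mul (v 5) (add (c 142080)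 (mul nn5 (add (c (-208560)) (mul nn5 (add (c 76560) (mul nn5 (add (c (-10725)) (mul nn5 (add (c 660) (mul nn5 (c (-15))))))))))))) (mul (pw5 1 3) (pw5 2 1)))))))

/-- reified summand -/
def eT5_3 : Ex :=
  (add (mul (mul (v 5) (add (c (-10560)) (mul nn5 (add (c 13728) (mul nn5 (add (c (-2772)) (mul nn5 (add (c (-528)) (mul nn5 (c 132)))))))))) (mul (pw5 1 3) (pw5 4 1))) (add (mul (mul (v 5) (add (c (-255744)) (mul nn5 (add (c 375408) (mul nn5 (add (c (-137808)) (mul nn5 (add (c 19305) (mul nn5 (add (c (-1188)) (mul nn5 (c 27)))))))))))) (mul (pw5 1 1) (pw5 2 2))) (add (mul (mul (v 5) (add (c 209088) (mul nn5 (add (c (-299376)) (mul nn5 (add (c 99792) (mul nn5 (c (-9504))))))))) (mul (pw5 1 1) (mul (pw5 2 1) (pw5 4 1)))) (mul (mul (v 5) (add (c 247104) (mul nn5 (add (c (-365904)) (mul nn5 (add (c 133056) (mul nn5 (c (-14256))))))))) (mul (pw5 1 1) (pw5 4 2))))))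

/-- reified closed form -/
def eT5 : Ex := mul (c 64) (add eT5_1 (add eT5_2 eT5_3))

/-- evaluation point -/
def m5 (i : ℕ) : ℕ :=
  match i with
  | 0 => 2 ^ 53
  | 1 => 2 ^ 303
  | 2 => 2 ^ 1562
  | 3 => 2 ^ 3478
  | 4 => 2 ^ 7305
  | _ => 0

theorem ck5 : ∀ N, N ≤ 10 + 1 → ck (mul (c 77) W5) eT5 (v 1) (mul (c 18) (v 2)) m5 N = true := by
  intro N hN
  interval_cases N <;> decide +kernel

theorem cs5_0 : ∀ N, N ≤ 10 + 1 → cs (mul (c 77) W5) eT5 (v 1) (mul (c 18) (v 2)) m5 0 N = true := by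
  intro N hN
  interval_cases N <;> decide +kernel

theorem cs5_1 : ∀ N, N ≤ 10 + 1 → cs (mul (c 77) W5) eT5 (v 1) (mul (c 18) (v 2)) m5 1 N = true := by
  intro N hN
  interval_cases N <;> decide +kernel

theorem cs5_2 : ∀ N, N ≤ 10 + 1 → cs (mul (c 77) W5) eT5 (v 1) (mul (c 18) (v 2)) m5 2 N = true := by
  intro N hN
  interval_cases N <;> decide +kernel

theorem cs5_3 : ∀ N, N ≤ 10 + 1 → cs (mul (c 77) W5) eT5 (v 1) (mul (c 18) (v 2)) m5 3 N = true := by
  intro N hN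
  interval_cases N <;> decide +kernel

theorem cs5_4 : ∀ N, N ≤ 10 + 1 → cs (mul (c 77) W5) eT5 (v 1) (mul (c 18) (v 2)) m5 4 N = true := by
  intro N hN
  interval_cases N <;> decide +kernel

theorem cs5 : ∀ N, N ≤ 10 + 1 → ∀ j, j < 5 → cs (mul (c 77) W5) eT5 (v 1) (mul (c 18) (v 2)) m5 j N = true := by
  intro N hN j hj
  interval_cases j
  · exact cs5_0 N hN
  · exact cs5_1 N hN
  · exact cs5_2 N hN
  · exact cs5_3 N hN
  · exact cs5_4 N hN

theorem wdW5 : wd w3 (mul (c 77) W5) ≤ 10 := by decide +kernel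

theorem wdt5 : wd (fun i => if i = 5 then 1 else 0) eT5 ≤ 10 + 1 := by decide +kernel

variable {K : Type*} [Field K]

theorem heT5_1 (n s a p q F : K) : ev (par6 n s a p q F) eT5_1 = T5_1 n s a p q F := by
  simp only [eT5_1, nn5, ev, ev_pw5, par6, T5_1]
  push_cast
  ring

theorem heT5_2 (n s a p q F : K) : ev (par6 n s a p q F) eT5_2 = T5_2 n s a p q F := by
  simp only [eT5_2, nn5, ev, ev_pw5, par6, T5_2]
  push_cast
  ring

theorem heT5_3 (n s a p q F : K) : ev (par6 n s a p q F) eT5_3 = T5_3 n s a p q F := by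
  simp only [eT5_3, nn5, ev, ev_pw5, par6, T5_3]
  push_cast
  ring

theorem heT5 [Num17 K] (n s a p q F : K) : ev (par6 n s a p q F) eT5 = (77 * 12 ^ 5) * T5 n s a p q F := by
  have hd := nz299376 (K := K)
  simp only [eT5, ev, heT5_1, heT5_2, heT5_3, T5]
  push_cast
  field_simp
  ring

theorem sumk5 [Num17 K] (n : ℕ) (s a p q F : K) : ∑ j ∈ Finset.range n,
    co (Uf (n : K)) (Df (n : K) s a) (Xf (n : K) p q F) 5 0 ((j : K) - ((n : K) - 1) / 2) = T5 (n : K) s a p q F := by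
  have h := final (K := K) W5 eT5 (v 1) (mul (c 18) (v 2)) m5 10 5 77 (by norm_num) hW5 wdW5 wdt5 ck5 cs5
    s a a p p q F
    (by simp [ev, par5]) (by simp only [ev, par5]; push_cast; ring) n
  rw [heT5, mul_assoc] at h
  have hc : ((77 : ℤ) : K) ≠ 0 := by
    have := smooth_ne (K := K) 0 0 0 1 1 0 0
    norm_num at this ⊢
    exact this
  have h12 : ((12 : K) ^ 5) ≠ 0 := pow_ne_zero _ nz12
  have e : ((77 : ℤ) : K) = 77 := by norm_num
  rw [e] at h hc
  exact mul_left_cancel₀ h12 (mul_left_cancel₀ hc h)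

end TDP
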