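import Pool.Agent.Lib.MP_d0515f_al.KRF

/-! The trace of the power 6 (generated by computer): the sum over closed walks equals the
closed form, checked in the kernel by one evaluation for each small `n`. -/

set_option linter.unusedVariables false
set_option maxRecDepth 20000

namespace TDP

open Ex

/-- the square of `n` -/
def nn6 : Ex := mul (v 5) (v 5)

/-- powers of a variable -/
def pw6 (i : ℕ) : ℕ → Ex
  | 0 => c 1
  | 1 => v i
  | k + 2 => mul (v i) (pw6 i (k + 1))

theorem ev_pw6 {R : Type*} [CommRing R] (ρ : ℕ → R) (i k : ℕ) :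
    ev ρ (pw6 i k) = ρ i ^ k := by
  induction k with
  | zero => simp [pw6, ev]
  | succ k ih =>
    cases k with
    | zero => simp [pw6, ev]
    | succ k => rw [pw6, ev, ih, ev, pow_succ' _ (k + 1)]

/-- reified summand -/
def eT6_1 : Ex :=
  (add (mul (mul (v 5) (add (c (-5386095)) (mul nn6 (add (c 8513505) (mul nn6 (add (c (-3648645)) (mul nn6 (c 521235)))))))) (pw6 0 6)) (add (mul (mul (v 5) (add (c 103088700) (mul nn6 (add (c (-156196755)) (mul nn6 (add (c 62026965) (mul nn6 (add (c (-9440145)) (mul nn6 (c 521235)))))))))) (mul (pw6 0 4) (pw6 1 2))) (add (mul (mul (v 5) (add (c (-153034596)) (mul nn6 (add (c 234382005) (mul nn6 (add (c (-95594499)) (mul nn6 (add (c 15115815) (mul nn6 (c (-868725))))))))))) (mul (pw6 0 4) (pw6 2 1))) (add (mul (mul (v 5) (add (c 64633140) (mul nn6 (add (c (-102162060)) (mul nn6 (add (c 43783740) (mul nn6 (c (-6254820))))))))) (mul (pw6 0 4) (pw6 4 1))) (mul (mul (v 5) (add (c (-312463008)) (mul nn6 (add (c 468416520)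 (mul nn6 (add (c (-180972792)) (mul nn6 (add (c 26409240) (mul nn6 (c (-1389960))))))))))) (mul (pw6 0 3) (mul (pw6 1 1) (pw6 3 1))))))))

/-- reified summand -/
def eT6_2 : Ex :=
  (add (mul (mul (v 5) (add (c (-229366800)) (mul nn6 (add (c 344040840) (mul nn6 (add (c (-134047485)) (mul nn6 (add (c 20804355) (mul nn6 (add (c (-1473615)) (mul nn6 (c 42705)))))))))))) (mul (pw6 0 2) (pw6 1 4))) (add (mul (mul (v 5) (add (c 1158636960) (mul nn6 (add (c (-1738932624)) (mul nn6 (add (c 678647970) (mul nn6 (add (c (-105660126)) (mul nn6 (add (c 7528950) (mul nn6 (c (-221130))))))))))))) (mul (pw6 0 2) (mul (pw6 1 2) (pw6 2 1)))) (add (mul (mul (v 5) (add (c (-199783584)) (mul nn6 (add (c 312741000) (mul nn6 (add (c (-134270136)) (mul nn6 (add (c 22702680) (mul nn6 (c (-1389960))))))))))) (mul (pw6 0 2) (mul (pw6 1 2) (pw6 4 1)))) (add (mul (mul (v 5) (add (c (-1048232016)) (mul nn6 (add (c 1581496488) (mul nn6 (add (c (-626211729)) (mul nn6 (add (c 100181367)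 (mul nn6 (add (c (-7471035)) (mul nn6 (c 236925)))))))))))) (mul (pw6 0 2) (pw6 2 2))) (mul (mul (v 5) (add (c 523736928) (mul nn6 (add (c (-821466360)) (mul nn6 (add (c 356107752) (mul nn6 (add (c (-62548200)) (mul nn6 (c 4169880)))))))))) (mul (pw6 0 2) (mul (pw6 2 1) (pw6 4 1))))))))

/-- reified summand -/
def eT6_3 : Ex :=
  (add (mul (mul (v 5) (add (c 468694512) (mul nn6 (add (c (-702624780)) (mul nn6 (add (c 271459188) (mul nn6 (add (c (-39613860)) (mul nn6 (c 2084940)))))))))) (mul (pw6 0 2) (pw6 3 2))) (add (mul (mul (v 5) (add (c (-258532560)) (mul nn6 (add (c 408648240) (mul nn6 (add (c (-175134960)) (mul nn6 (c 25019280)))))))) (mul (pw6 0 2) (pw6 4 2))) (add (mul (mul (v 5) (add (c 435127680) (mul nn6 (add (c (-650624832)) (mul nn6 (add (c 251273880) (mul nn6 (add (c (-38332008)) (mul nn6 (add (c 2625480) (mul nn6 (c (-70200))))))))))))) (mul (pw6 0 1) (mul (pw6 1 3) (pw6 3 1)))) (add (mul (mul (v 5) (add (c (-1668760704)) (mul nn6 (add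 (c 2490808320) (mul nn6 (add (c (-957126456)) (mul nn6 (add (c 144555840) (mul nn6 (add (c (-9729720)) (mul nn6 (c 252720)))))))))))) (mul (pw6 0 1) (mul (pw6 1 1) (mul (pw6 2 1) (pw6 3 1))))) (mul (mul (v 5) (add (c 75613824) (mul nn6 (add (c (-116756640)) (mul nn6 (add (c 46702656) (mul nn6 (c (-5559840))))))))) (mul (pw6 0 1) (mul (pw6 1 1) (mul (pw6 3 1) (pw6 4 1)))))))))

/-- reified summand -/
def eT6_4 : Ex :=
  (add (mul (mul (v 5) (add (c 50995264) (mul nn6 (add (c (-76455600)) (mul nn6 (add (c 29808636) (mul nn6 (add (c (-4692545)) (mul nn6 (add (c 358215) (mul nn6 (add (c (-14235)) (mul nn6 (c 265)))))))))))))) (pw6 1 6)) (add (mul (mul (v 5) (add (c (-458957376)) (mul nn6 (add (c 688100400) (mul nn6 (add (c (-268277724)) (mul nn6 (add (c 42232905) (mul nn6 (add (c (-3223935)) (mul nn6 (add (c 128115) (mul nn6 (c (-2385))))))))))))))) (mul (pw6 1 4) (pw6 2 1))) (add (mul (mul (v 5) (add (c 47211840) (mul nn6 (add (c (-74913696)) (mul nn6 (add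 (c 33642180) (mul nn6 (add (c (-6553404)) (mul nn6 (add (c 643500) (mul nn6 (c (-30420))))))))))))) (mul (pw6 1 4) (pw6 4 1))) (add (mul (mul (v 5) (add (c 1254336192) (mul nn6 (add (c (-1882612368)) (mul nn6 (add (c 736261812) (mul nn6 (add (c (-116629227)) (mul nn6 (add (c 8999991) (mul nn6 (add (c (-363285)) (mul nn6 (c 6885)))))))))))))) (mul (pw6 1 2) (pw6 2 2))) (mul (mul (v 5) (add (c (-139771008)) (mul nn6 (add (c 226100160) (mul nn6 (add (c (-105914952)) (mul nn6 (add (c 21776040) (mul nn6 (add (c (-2316600)) (mul nn6 (c 126360)))))))))))) (mul (pw6 1 2) (mul (pw6 2 1) (pw6 4 1))))))))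

/-- reified summand -/
def eT6_5 : Ex :=
  (add (mul (mul (v 5) (add (c (-289313856)) (mul nn6 (add (c 437003424) (mul nn6 (add (c (-173606004)) (mul nn6 (add (c 27938196) (mul nn6 (add (c (-2084940)) (mul nn6 (c 63180)))))))))))) (mul (pw6 1 2) (pw6 3 2))) (add (mul (mul (v 5) (add (c 323953344) (mul nn6 (add (c (-508725360)) (mul nn6 (add (c 221837616) (mul nn6 (add (c (-39845520)) (mul nn6 (c 2779920)))))))))) (mul (pw6 1 2) (pw6 4 2))) (add (mul (mul (v 5) (add (c (-886728384)) (mul nn6 (add (c 1337545872) (mul nn6 (add (c (-530547732)) (mul nn6 (add (c 86420763) (mul nn6 (add (c (-6984549)) (mul nn6 (add (c 300105) (mul nn6 (c (-6075))))))))))))))) (pw6 2 3)) (add (mul (mul (v 5) (add (c 721161792) (mul nn6 (add (c (-1081944864)) (mul nn6 (add (c 421574868) (mul nn6 (add (c (-65467116)) (mul nn6 (add (c 4864860) (mul nn6 (c (-189540))))))))))))) (mul (pw6 2 2) (pw6 4 1))) (mul (mul (v 5) (add (c 867941568) (mul nn6 (add (c (-1311010272)) (mul nn6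 (add (c 520818012) (mul nn6 (add (c (-83814588)) (mul nn6 (add (c 6254820) (mul nn6 (c (-189540))))))))))))) (mul (pw6 2 1) (pw6 3 2)))))))

/-- reified summand -/
def eT6_6 : Ex :=
  (add (mul (mul (v 5) (add (c 353605824) (mul nn6 (add (c (-464246640)) (mul nn6 (add (c 105080976) (mul nn6 (add (c 8339760) (mul nn6 (c (-2779920))))))))))) (mul (pw6 2 1) (pw6 4 2))) (add (mul (mul (v 5) (add (c (-700539840)) (mul nn6 (add (c 1053589680) (mul nn6 (add (c (-408648240)) (mul nn6 (add (c 58378320) (mul nn6 (c (-2779920))))))))))) (mul (pw6 3 2) (pw6 4 1))) (mul (mul (v 5) (add (c 344710080) (mul nn6 (add (c (-544864320)) (mul nn6 (add (c 233513280) (mul nn6 (c (-33359040))))))))) (pw6 4 3))))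

/-- reified closed form -/
def eT6 : Ex := mul (c 64) (add eT6_1 (add eT6_2 (add eT6_3 (add eT6_4 (add eT6_5 eT6_6)))))

/-- evaluation point -/
def m6 (i : ℕ) : ℕ :=
  match i with
  | 0 => 2 ^ 71
  | 1 => 2 ^ 478
  | 2 => 2 ^ 2932
  | 3 => 2 ^ 8864
  | 4 => 2 ^ 26653
  | _ => 0

theorem ck6 : ∀ N, N ≤ 12 + 1 → ck (mul (c 5005) W6) eT6 (v 1) (mul (c 18) (v 2)) m6 N = true := by
  intro N hN
  interval_cases N <;> decide +kernel

theorem cs6_0 : ∀ N, N ≤ 12 + 1 → cs (mul (c 5005) W6) eT6 (v 1) (mul (c 18) (v 2)) m6 0 N = true := by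
  intro N hN
  interval_cases N <;> decide +kernel

theorem cs6_1 : ∀ N, N ≤ 12 + 1 → cs (mul (c 5005) W6) eT6 (v 1) (mul (c 18) (v 2)) m6 1 N = true := by
  intro N hN
  interval_cases N <;> decide +kernel

theorem cs6_2 : ∀ N, N ≤ 12 + 1 → cs (mul (c 5005) W6) eT6 (v 1) (mul (c 18) (v 2)) m6 2 N = true := by
  intro N hN
  interval_cases N <;> decide +kernel

theorem cs6_3 : ∀ N, N ≤ 12 + 1 → cs (mul (c 5005) W6) eT6 (v 1) (mul (c 18) (v 2)) m6 3 N = true := by
  intro N hN
  interval_cases N <;> decide +kernel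

theorem cs6_4 : ∀ N, N ≤ 12 + 1 → cs (mul (c 5005) W6) eT6 (v 1) (mul (c 18) (v 2)) m6 4 N = true := by
  intro N hN
  interval_cases N <;> decide +kernel

theorem cs6 : ∀ N, N ≤ 12 + 1 → ∀ j, j < 5 → cs (mul (c 5005) W6) eT6 (v 1) (mul (c 18) (v 2)) m6 j N = true := by
  intro N hN j hj
  interval_cases j
  · exact cs6_0 N hN
  · exact cs6_1 N hN
  · exact cs6_2 N hN
  · exact cs6_3 N hN
  · exact cs6_4 N hN

theorem wdW6 : wd w3 (mul (c 5005) W6) ≤ 12 := by decide +kernel

theorem wdt6 : wd (fun i => if i = 5 then 1 else 0) eT6 ≤ 12 + 1 := by decide +kernel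

variable {K : Type*} [Field K]

theorem heT6_1 (n s a p q F : K) : ev (par6 n s a p q F) eT6_1 = T6_1 n s a p q F := by
  simp only [eT6_1, nn6, ev, ev_pw6, par6, T6_1]
  push_cast
  ring

theorem heT6_2 (n s a p q F : K) : ev (par6 n s a p q F) eT6_2 = T6_2 n s a p q F := by
  simp only [eT6_2, nn6, ev, ev_pw6, par6, T6_2]
  push_cast
  ring

theorem heT6_3 (n s a p q F : K) : ev (par6 n s a p q F) eT6_3 = T6_3 n s a p q F := by
  simp only [eT6_3, nn6, ev, ev_pw6, par6, T6_3]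
  push_cast
  ring

theorem heT6_4 (n s a p q F : K) : ev (par6 n s a p q F) eT6_4 = T6_4 n s a p q F := by
  simp only [eT6_4, nn6, ev, ev_pw6, par6, T6_4]
  push_cast
  ring

theorem heT6_5 (n s a p q F : K) : ev (par6 n s a p q F) eT6_5 = T6_5 n s a p q F := by
  simp only [eT6_5, nn6, ev, ev_pw6, par6, T6_5]
  push_cast
  ring

theorem heT6_6 (n s a p q F : K) : ev (par6 n s a p q F) eT6_6 = T6_6 n s a p q F := by
  simp only [eT6_6, nn6, ev, ev_pw6, par6, T6_6]
  push_cast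
  ring

theorem heT6 [Num17 K] (n s a p q F : K) : ev (par6 n s a p q F) eT6 = (5005 * 12 ^ 6) * T6 n s a p q F := by
  have hd := nz233513280 (K := K)
  simp only [eT6, ev, heT6_1, heT6_2, heT6_3, heT6_4, heT6_5, heT6_6, T6]
  push_cast
  field_simp
  ring

theorem sumk6 [Num17 K] (n : ℕ) (s a p q F : K) : ∑ j ∈ Finset.range n,
    co (Uf (n : K)) (Df (n : K) s a) (Xf (n : K) p q F) 6 0 ((j : K) - ((n : K) - 1) / 2) = T6 (n : K) s a p q F := by
  have h := final (K := K) W6 eT6 (v 1) (mul (c 18) (v 2)) m6 12 6 5005 (by norm_num) hW6 wdW6 wdt6 ck6 cs6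
    s a a p p q F
    (by simp [ev, par5]) (by simp only [ev, par5]; push_cast; ring) n
  rw [heT6, mul_assoc] at h
  have hc : ((5005 : ℤ) : K) ≠ 0 := by
    have := smooth_ne (K := K) 0 0 1 1 1 1 0
    norm_num at this ⊢
    exact this
  have h12 : ((12 : K) ^ 6) ≠ 0 := pow_ne_zero _ nz12
  have e : ((5005 : ℤ) : K) = 5005 := by norm_num
  rw [e] at h hc
  exact mul_left_cancel₀ h12 (mul_left_cancel₀ hc h)

end TDP
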