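import Pool.Agent.Lib.MP_d0515f_al.KRF

/-! The trace of the power 7 (generated by computer): the sum over closed walks equals the
closed form, checked in the kernel by one evaluation for each small `n`. -/

set_option linter.unusedVariables false
set_option maxRecDepth 20000

namespace TDP

open Ex

/-- the square of `n` -/
def nn7 : Ex := mul (v 5) (v 5)

/-- powers of a variable -/
def pw7 (i : ℕ) : ℕ → Ex
  | 0 => c 1
  | 1 => v i
  | k + 2 => mul (v i) (pw7 i (k + 1))

theorem ev_pw7 {R : Type*} [CommRing R] (ρ : ℕ → R) (i k : ℕ) :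
    ev ρ (pw7 i k) = ρ i ^ k := by
  induction k with
  | zero => simp [pw7, ev]
  | succ k ih =>
    cases k with
    | zero => simp [pw7, ev]
    | succ k => rw [pw7, ev, ih, ev, pow_succ' _ (k + 1)]

/-- reified summand -/
def eT7_1 : Ex :=
  (add (mul (mul (v 5) (add (c 14548248) (mul nn7 (add (c (-22818510)) (mul nn7 (add (c 9891882) (mul nn7 (add (c (-1737450)) (mul nn7 (c 115830)))))))))) (mul (pw7 0 6) (pw7 1 1))) (add (mul (mul (v 5) (add (c (-43644744)) (mul nn7 (add (c 68455530) (mul nn7 (add (c (-29675646)) (mul nn7 (add (c 5212350) (mul nn7 (c (-347490))))))))))) (mul (pw7 0 5) (pw7 3 1))) (add (mul (mul (v 5) (add (c (-158333760)) (mul nn7 (add (c 242728200) (mul nn7 (add (c (-100192950)) (mul nn7 (add (c 17129970) (mul nn7 (add (c (-1377090)) (mul nn7 (c 45630)))))))))))) (mul (pw7 0 4) (pw7 1 3))) (add (mul (mul (v 5) (add (c 452065536) (mul nn7 (add (c (-694563012)) (mul nn7 (add (c 288219789) (mul nn7 (add (c (-49586823)) (mul nn7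 (add (c 3996135) (mul nn7 (c (-131625))))))))))))) (mul (pw7 0 4) (mul (pw7 1 1) (pw7 2 1)))) (mul (mul (v 5) (add (c (-87289488)) (mul nn7 (add (c 136911060) (mul nn7 (add (c (-59351292)) (mul nn7 (add (c 10424700) (mul nn7 (c (-694980))))))))))) (mul (pw7 0 4) (mul (pw7 1 1) (pw7 4 1))))))))

/-- reified summand -/
def eT7_2 : Ex :=
  (add (mul (mul (v 5) (add (c 520872768) (mul nn7 (add (c (-795427776)) (mul nn7 (add (c 325296972) (mul nn7 (add (c (-54996084)) (mul nn7 (add (c 4401540) (mul nn7 (c (-147420))))))))))))) (mul (pw7 0 3) (mul (pw7 1 2) (pw7 3 1)))) (add (mul (mul (v 5) (add (c (-983990592)) (mul nn7 (add (c 1512276480) (mul nn7 (add (c (-628678908)) (mul nn7 (add (c 109111860) (mul nn7 (add (c (-9034740)) (mul nn7 (c 315900)))))))))))) (mul (pw7 0 3) (mul (pw7 2 1) (pw7 3 1)))) (add (mul (mul (v 5) (add (c 349157952) (mul nn7 (add (c (-547644240)) (mul nn7 (add (c 237405168) (mul nn7 (add (c (-41698800)) (mul nn7 (c 2779920))))))))))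 (mul (pw7 0 3) (mul (pw7 3 1) (pw7 4 1)))) (add (mul (mul (v 5) (add (c 313359744) (mul nn7 (add (c (-476966880)) (mul nn7 (add (c 193678056) (mul nn7 (add (c (-32694090)) (mul nn7 (add (c 2741310) (mul nn7 (add (c (-120510)) (mul nn7 (c 2370)))))))))))))) (mul (pw7 0 2) (pw7 1 5))) (mul (mul (v 5) (add (c (-2049507072)) (mul nn7 (add (c 3120028704) (mul nn7 (add (c (-1267375824)) (mul nn7 (add (c 214025526) (mul nn7 (add (c (-17943354)) (mul nn7 (add (c 787410) (mul nn7 (c (-15390))))))))))))))) (mul (pw7 0 2) (mul (pw7 1 3) (pw7 2 1))))))))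

/-- reified summand -/
def eT7_3 : Ex :=
  (add (mul (mul (v 5) (add (c 224924544) (mul nn7 (add (c (-350970048)) (mul nn7 (add (c 150949656) (mul nn7 (add (c (-27047592)) (mul nn7 (add (c 2213640) (mul nn7 (c (-70200))))))))))))) (mul (pw7 0 2) (mul (pw7 1 3) (pw7 4 1)))) (add (mul (mul (v 5) (add (c 3197149056) (mul nn7 (add (c (-4869813312)) (mul nn7 (add (c 1981063656) (mul nn7 (add (c (-335397348)) (mul nn7 (add (c 28216188) (mul nn7 (add (c (-1242540)) (mul nn7 (c 24300)))))))))))))) (mul (pw7 0 2) (mul (pw7 1 1) (pw7 2 2)))) (add (mul (mul (v 5) (add (c (-877039488)) (mul nn7 (add (c 1366608672) (mul nn7 (add (c (-585451152)) (mul nn7 (add (c 103969008) (mul nn7 (add (c (-8339760)) (mul nn7 (c 252720)))))))))))) (mul (pw7 0 2) (mul (pw7 1 1) (mul (pw7 2 1) (pw7 4 1))))) (add (mul (mul (v 5) (add (c (-578627712)) (mul nn7 (add (c 874006848) (mul nn7 (add (c (-347212008)) (mul nn7 (add (c 55876392) (mul nn7 (add (c (-4169880)) (mul nn7 (c 126360))))))))))))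 (mul (pw7 0 2) (mul (pw7 1 1) (pw7 3 2)))) (mul (mul (v 5) (add (c (-601382016)) (mul nn7 (add (c 914445792) (mul nn7 (add (c (-370419192)) (mul nn7 (add (c 62360298) (mul nn7 (add (c (-5232942)) (mul nn7 (add (c 232830) (mul nn7 (c (-4770))))))))))))))) (mul (pw7 0 1) (mul (pw7 1 4) (pw7 3 1))))))))

/-- reified summand -/
def eT7_4 : Ex :=
  (add (mul (mul (v 5) (add (c 3346023168) (mul nn7 (add (c (-5091532992)) (mul nn7 (add (c 2066592528) (mul nn7 (add (c (-349296948)) (mul nn7 (add (c 29513484) (mul nn7 (add (c (-1326780)) (mul nn7 (c 27540)))))))))))))) (mul (pw7 0 1) (mul (pw7 1 2) (mul (pw7 2 1) (pw7 3 1))))) (add (mul (mul (v 5) (add (c (-540483840)) (mul nn7 (add (c 851026176) (mul nn7 (add (c (-375289200)) (mul nn7 (add (c 70980624) (mul nn7 (add (c (-6486480)) (mul nn7 (c 252720)))))))))))) (mul (pw7 0 1) (mul (pw7 1 2) (mul (pw7 3 1) (pw7 4 1))))) (add (mul (mul (v 5) (add (c (-3838824576)) (mul nn7 (add (c 5859161568) (mul nn7 (add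 (c (-2398236984)) (mul nn7 (add (c 412053642) (mul nn7 (add (c (-35791470)) (mul nn7 (add (c 1674270) (mul nn7 (c (-36450))))))))))))))) (mul (pw7 0 1) (mul (pw7 2 2) (pw7 3 1)))) (add (mul (mul (v 5) (add (c 1621451520) (mul nn7 (add (c (-2553078528)) (mul nn7 (add (c 1125867600) (mul nn7 (add (c (-212941872)) (mul nn7 (add (c 19459440) (mul nn7 (c (-758160))))))))))))) (mul (pw7 0 1) (mul (pw7 2 1) (mul (pw7 3 1) (pw7 4 1))))) (mul (mul (v 5) (add (c 578627712) (mul nn7 (add (c (-874006848)) (mul nn7 (add (c 347212008) (mul nn7 (add (c (-55876392)) (mul nn7 (add (c 4169880) (mul nn7 (c (-126360))))))))))))) (mul (pw7 0 1) (pw7 3 3)))))))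

/-- reified summand -/
def eT7_5 : Ex :=
  (add (mul (mul (v 5) (add (c (-698315904)) (mul nn7 (add (c 1095288480) (mul nn7 (add (c (-474810336)) (mul nn7 (add (c 83397600) (mul nn7 (c (-5559840))))))))))) (mul (pw7 0 1) (mul (pw7 3 1) (pw7 4 2)))) (add (mul (mul (v 5) (add (c (-68675584)) (mul nn7 (add (c 104453248) (mul nn7 (add (c (-42353376)) (mul nn7 (add (c 7158008) (mul nn7 (add (c (-610610)) (mul nn7 (add (c 29094) (mul nn7 (add (c (-790)) (mul nn7 (c 10)))))))))))))))) (pw7 1 7)) (add (mul (mul (v 5) (add (c 721093632) (mul nn7 (add (c (-1096759104)) (mul nn7 (add (c 444710448) (mul nn7 (add (c (-75159084)) (mul nn7 (add (c 6411405) (mul nn7 (add (c (-305487)) (mul nn7 (add (c 8295) (mul nn7 (c (-105))))))))))))))))) (mul (pw7 1 5) (pw7 2 1))) (add (mul (mul (v 5) (add (c (-50674944)) (mul nn7 (add (c 78975936) (mul nn7 (add (c (-33873840)) (mul nn7 (add (c 6055764) (mul nn7 (add (c (-499356)) (mul nn7 (add (c 16380) (mul nn7 (c 60))))))))))))))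 (mul (pw7 1 5) (pw7 4 1))) (mul (mul (v 5) (add (c (-2472321024)) (mul nn7 (add (c 3760316928) (mul nn7 (add (c (-1524721536)) (mul nn7 (add (c 257688288) (mul nn7 (add (c (-21981960)) (mul nn7 (add (c 1047384) (mul nn7 (add (c (-28440)) (mul nn7 (c 360)))))))))))))))) (mul (pw7 1 3) (pw7 2 2)))))))

/-- reified summand -/
def eT7_6 : Ex :=
  (add (mul (mul (v 5) (add (c 456906240) (mul nn7 (add (c (-716481792)) (mul nn7 (add (c 312627744) (mul nn7 (add (c (-58048848)) (mul nn7 (add (c 5209776) (mul nn7 (add (c (-215280)) (mul nn7 (c 2160)))))))))))))) (mul (pw7 1 3) (mul (pw7 2 1) (pw7 4 1)))) (add (mul (mul (v 5) (add (c 262268928) (mul nn7 (add (c (-395141760)) (mul nn7 (add (c 155922624) (mul nn7 (add (c (-24864840)) (mul nn7 (add (c 1884168) (mul nn7 (add (c (-70200)) (mul nn7 (c 1080)))))))))))))) (mul (pw7 1 3) (pw7 3 2))) (add (mul (mul (v 5) (add (c 90634752) (mul nn7 (add (c (-149086080)) (mul nn7 (add (c 73389888) (mul nn7 (add (c (-16885440))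 (mul nn7 (add (c 2059200) (mul nn7 (c (-112320))))))))))))) (mul (pw7 1 3) (pw7 4 2))) (add (mul (mul (v 5) (add (c 2781361152) (mul nn7 (add (c (-4230356544)) (mul nn7 (add (c 1715311728) (mul nn7 (add (c (-289899324)) (mul nn7 (add (c 24729705) (mul nn7 (add (c (-1178307)) (mul nn7 (add (c 31995) (mul nn7 (c (-405))))))))))))))))) (mul (pw7 1 1) (pw7 2 3))) (mul (mul (v 5) (add (c (-390106368)) (mul nn7 (add (c 648378432) (mul nn7 (add (c (-321173424)) (mul nn7 (add (c 69914988) (mul nn7 (add (c (-7366788)) (mul nn7 (add (c 358020) (mul nn7 (c (-4860))))))))))))))) (mul (pw7 1 1) (mul (pw7 2 2) (pw7 4 1))))))))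

/-- reified summand -/
def eT7_7 : Ex :=
  (add (mul (mul (v 5) (add (c (-1180210176)) (mul nn7 (add (c 1778137920) (mul nn7 (add (c (-701651808)) (mul nn7 (add (c 111891780) (mul nn7 (add (c (-8478756)) (mul nn7 (add (c 315900) (mul nn7 (c (-4860))))))))))))))) (mul (pw7 1 1) (mul (pw7 2 1) (pw7 3 2)))) (add (mul (mul (v 5) (add (c 904131072) (mul nn7 (add (c (-1345481280)) (mul nn7 (add (c 507984048) (mul nn7 (add (c (-69498000)) (mul nn7 (add (c 2779920) (mul nn7 (c 84240)))))))))))) (mul (pw7 1 1) (mul (pw7 2 1) (pw7 4 2)))) (add (mul (mul (v 5) (add (c (-385751808)) (mul nn7 (add (c 582671232) (mul nn7 (add (c (-231474672)) (mul nn7 (add (c 37250928) (mul nn7 (add (c (-2779920)) (mul nn7 (c 84240)))))))))))) (mul (pw7 1 1) (mul (pw7 3 2) (pw7 4 1)))) (mul (mul (v 5) (add (c 465543936) (mul nn7 (add (c (-730192320)) (mul nn7 (add (c 316540224) (mul nn7 (add (c (-55598400)) (mul nn7 (c 3706560)))))))))) (mul (pw7 1 1) (pw7 4 3))))))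

/-- reified closed form -/
def eT7 : Ex := mul (c 384) (add eT7_1 (add eT7_2 (add eT7_3 (add eT7_4 (add eT7_5 (add eT7_6 eT7_7))))))

/-- evaluation point -/
def m7 (i : ℕ) : ℕ :=
  match i with
  | 0 => 2 ^ 80
  | 1 => 2 ^ 616
  | 2 => 2 ^ 4384
  | 3 => 2 ^ 13846
  | 4 => 2 ^ 42224
  | _ => 0

theorem ck7 : ∀ N, N ≤ 14 + 1 → ck (mul (c 715) W7) eT7 (v 1) (mul (c 18) (v 2)) m7 N = true := by
  intro N hN
  interval_cases N <;> decide +kernel

theorem cs7_0 : ∀ N, N ≤ 14 + 1 → cs (mul (c 715) W7) eT7 (v 1) (mul (c 18) (v 2)) m7 0 N = true := by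
  intro N hN
  interval_cases N <;> decide +kernel

theorem cs7_1 : ∀ N, N ≤ 14 + 1 → cs (mul (c 715) W7) eT7 (v 1) (mul (c 18) (v 2)) m7 1 N = true := by
  intro N hN
  interval_cases N <;> decide +kernel

theorem cs7_2 : ∀ N, N ≤ 14 + 1 → cs (mul (c 715) W7) eT7 (v 1) (mul (c 18) (v 2)) m7 2 N = true := by
  intro N hN
  interval_cases N <;> decide +kernel

theorem cs7_3 : ∀ N, N ≤ 14 + 1 → cs (mul (c 715) W7) eT7 (v 1) (mul (c 18) (v 2)) m7 3 N = true := by
  intro N hN
  interval_cases N <;> decide +kernel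

theorem cs7_4 : ∀ N, N ≤ 14 + 1 → cs (mul (c 715) W7) eT7 (v 1) (mul (c 18) (v 2)) m7 4 N = true := by
  intro N hN
  interval_cases N <;> decide +kernel

theorem cs7 : ∀ N, N ≤ 14 + 1 → ∀ j, j < 5 → cs (mul (c 715) W7) eT7 (v 1) (mul (c 18) (v 2)) m7 j N = true := by
  intro N hN j hj
  interval_cases j
  · exact cs7_0 N hN
  · exact cs7_1 N hN
  · exact cs7_2 N hN
  · exact cs7_3 N hN
  · exact cs7_4 N hN

theorem wdW7 : wd w3 (mul (c 715) W7) ≤ 14 := by decide +kernel

theorem wdt7 : wd (fun i => if i = 5 then 1 else 0) eT7 ≤ 14 + 1 := by decide +kernel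

variable {K : Type*} [Field K]

theorem heT7_1 (n s a p q F : K) : ev (par6 n s a p q F) eT7_1 = T7_1 n s a p q F := by
  simp only [eT7_1, nn7, ev, ev_pw7, par6, T7_1]
  push_cast
  ring

theorem heT7_2 (n s a p q F : K) : ev (par6 n s a p q F) eT7_2 = T7_2 n s a p q F := by
  simp only [eT7_2, nn7, ev, ev_pw7, par6, T7_2]
  push_cast
  ring

theorem heT7_3 (n s a p q F : K) : ev (par6 n s a p q F) eT7_3 = T7_3 n s a p q F := by
  simp only [eT7_3, nn7, ev, ev_pw7, par6, T7_3]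
  push_cast
  ring

theorem heT7_4 (n s a p q F : K) : ev (par6 n s a p q F) eT7_4 = T7_4 n s a p q F := by
  simp only [eT7_4, nn7, ev, ev_pw7, par6, T7_4]
  push_cast
  ring

theorem heT7_5 (n s a p q F : K) : ev (par6 n s a p q F) eT7_5 = T7_5 n s a p q F := by
  simp only [eT7_5, nn7, ev, ev_pw7, par6, T7_5]
  push_cast
  ring

theorem heT7_6 (n s a p q F : K) : ev (par6 n s a p q F) eT7_6 = T7_6 n s a p q F := by
  simp only [eT7_6, nn7, ev, ev_pw7, par6, T7_6]
  push_cast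
  ring

theorem heT7_7 (n s a p q F : K) : ev (par6 n s a p q F) eT7_7 = T7_7 n s a p q F := by
  simp only [eT7_7, nn7, ev, ev_pw7, par6, T7_7]
  push_cast
  ring

theorem heT7 [Num17 K] (n s a p q F : K) : ev (par6 n s a p q F) eT7 = (715 * 12 ^ 7) * T7 n s a p q F := by
  have hd := nz66718080 (K := K)
  simp only [eT7, ev, heT7_1, heT7_2, heT7_3, heT7_4, heT7_5, heT7_6, heT7_7, T7]
  push_cast
  field_simp
  ring

theorem sumk7 [Num17 K] (n : ℕ) (s a p q F : K) : ∑ j ∈ Finset.range n,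
    co (Uf (n : K)) (Df (n : K) s a) (Xf (n : K) p q F) 7 0 ((j : K) - ((n : K) - 1) / 2) = T7 (n : K) s a p q F := by
  have h := final (K := K) W7 eT7 (v 1) (mul (c 18) (v 2)) m7 14 7 715 (by norm_num) hW7 wdW7 wdt7 ck7 cs7
    s a a p p q F
    (by simp [ev, par5]) (by simp only [ev, par5]; push_cast; ring) n
  rw [heT7, mul_assoc] at h
  have hc : ((715 : ℤ) : K) ≠ 0 := by
    have := smooth_ne (K := K) 0 0 1 0 1 1 0
    norm_num at this ⊢
    exact this
  have h12 : ((12 : K) ^ 7) ≠ 0 := pow_ne_zero _ nz12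
  have e : ((715 : ℤ) : K) = 715 := by norm_num
  rw [e] at h hc
  exact mul_left_cancel₀ h12 (mul_left_cancel₀ hc h)

end TDP
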