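import Pool.Agent.Lib.MP_d0515f_al.KRF

/-! The trace of the power 8a (generated by computer): the sum over closed walks equals the
closed form, checked in the kernel by one evaluation for each small `n`. -/

set_option linter.unusedVariables false
set_option maxRecDepth 20000

namespace TDP

open Ex

/-- the square of `n` -/
def nn8a : Ex := mul (v 5) (v 5)

/-- powers of a variable -/
def pw8a (i : ℕ) : ℕ → Ex
  | 0 => c 1
  | 1 => v i
  | k + 2 => mul (v i) (pw8a i (k + 1))

theorem ev_pw8a {R : Type*} [CommRing R] (ρ : ℕ → R) (i k : ℕ) :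
    ev ρ (pw8a i k) = ρ i ^ k := by
  induction k with
  | zero => simp [pw8a, ev]
  | succ k ih =>
    cases k with
    | zero => simp [pw8a, ev]
    | succ k => rw [pw8a, ev, ih, ev, pow_succ' _ (k + 1)]

/-- reified summand -/
def eT8a_1 : Ex :=
  (add (mul (mul (v 5) (add (c 6483477) (mul nn8a (add (c (-10550540)) (mul nn8a (add (c 5002998) (mul nn8a (add (c (-1021020)) (mul nn8a (c 85085)))))))))) (pw8a 0 8)) (add (mul (mul (v 5) (add (c 422442384) (mul nn8a (add (c (-667679012)) (mul nn8a (add (c 297593296) (mul nn8a (add (c (-57585528)) (mul nn8a (add (c 5445440) (mul nn8a (c (-216580))))))))))))) (mul (pw8a 0 6) (pw8a 2 1))) (add (mul (mul (v 5) (add (c (-103735632)) (mul nn8a (add (c 168808640) (mul nn8a (add (c (-80047968)) (mul nn8a (add (c 16336320) (mul nn8a (c (-1361360))))))))))) (mul (pw8a 0 6) (pw8a 4 1))) (add (mul (mul (v 5) (add (c 8659648224) (mul nn8a (add (c (-13466449360)) (mul nn8a (add (c 5781253478) (mul nn8a (add (c (-1071487560)) (mul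 nn8a (add (c 102170068) (mul nn8a (add (c (-5259800)) (mul nn8a (c 124950)))))))))))))) (mul (pw8a 0 4) (pw8a 2 2))) (mul (mul (v 5) (add (c (-3060832320)) (mul nn8a (add (c 4868495632) (mul nn8a (add (c (-2205403200)) (mul nn8a (add (c 439447008) (mul nn8a (add (c (-43563520)) (mul nn8a (c 1856400)))))))))))) (mul (pw8a 0 4) (mul (pw8a 2 1) (pw8a 4 1))))))))

/-- reified summand -/
def eT8a_2 : Ex :=
  (add (mul (mul (v 5) (add (c (-2203472544)) (mul nn8a (add (c 3436753320) (mul nn8a (add (c (-1483337856)) (mul nn8a (add (c 273633360) (mul nn8a (add (c (-24504480)) (mul nn8a (c 928200)))))))))))) (mul (pw8a 0 4) (pw8a 3 2))) (add (mul (mul (v 5) (add (c 622413792) (mul nn8a (add (c (-1012851840)) (mul nn8a (add (c 480287808) (mul nn8a (add (c (-98017920)) (mul nn8a (c 8168160)))))))))) (mul (pw8a 0 4) (pw8a 4 2))) (add (mul (mul (v 5) (add (c 53433860352) (mul nn8a (add (c (-82498930624)) (mul nn8a (add (c 34810049456) (mul nn8a (add (c (-6310360628)) (mul nn8a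 (add (c 596936912) (mul nn8a (add (c (-32586008)) (mul nn8a (add (c 1047200) (mul nn8a (c (-16660))))))))))))))))) (mul (pw8a 0 2) (pw8a 2 3))) (add (mul (mul (v 5) (add (c (-21866828544)) (mul nn8a (add (c 34411022464) (mul nn8a (add (c (-15209930736)) (mul nn8a (add (c 2946605376) (mul nn8a (add (c (-296776480)) (mul nn8a (add (c 16336320) (mul nn8a (c (-428400))))))))))))))) (mul (pw8a 0 2) (mul (pw8a 2 2) (pw8a 4 1)))) (mul (mul (v 5) (add (c (-33912424704)) (mul nn8a (add (c 52337410944) (mul nn8a (add (c (-22053215184)) (mul nn8a (add (c 3979294176) (mul nn8a (add (c (-369200832)) (mul nn8a (add (c 18564000) (mul nn8a (c (-428400))))))))))))))) (mul (pw8a 0 2) (mul (pw8a 2 1) (pw8a 3 2))))))))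

/-- reified summand -/
def eT8a_3 : Ex :=
  (add (mul (mul (v 5) (add (c 4209424128) (mul nn8a (add (c (-6899372480)) (mul nn8a (add (c 3358747392) (mul nn8a (add (c (-751470720)) (mul nn8a (add (c 87127040) (mul nn8a (c (-4455360))))))))))))) (mul (pw8a 0 2) (mul (pw8a 2 1) (pw8a 4 2)))) (add (mul (mul (v 5) (add (c 10822366464) (mul nn8a (add (c (-16890665792)) (mul nn8a (add (c 7299067776) (mul nn8a (add (c (-1346112768)) (mul nn8a (add (c 119799680) (mul nn8a (c (-4455360))))))))))))) (mul (pw8a 0 2) (mul (pw8a 3 2) (pw8a 4 1)))) (add (mul (mul (v 5) (add (c (-1659770112)) (mul nn8a (add (c 2700938240) (mul nn8a (add (c (-1280767488)) (mul nn8a (add (c 261381120) (mul nn8a (c (-21781760))))))))))) (mul (pw8a 0 2) (pw8a 4 3))) (add (mul (mul (v 5) (add (c 45367387392) (mul nn8a (add (c (-69947637504)) (mul nn8a (add (c 29414965088) (mul nn8a (add (c (-5309866224)) (mul nn8a (add (c 502115757) (mul nn8a (add (c (-27919372)) (mul nn8a (add (c 976038) (mul nn8a (add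 (c (-21420)) (mul nn8a (c 245)))))))))))))))))) (pw8a 2 4)) (mul (mul (v 5) (add (c (-15570115584)) (mul nn8a (add (c 24896821504) (mul nn8a (add (c (-11430176576)) (mul nn8a (add (c 2341422512) (mul nn8a (add (c (-252824000)) (mul nn8a (add (c 15395744) (mul nn8a (add (c (-533120)) (mul nn8a (c 9520)))))))))))))))) (mul (pw8a 2 3) (pw8a 4 1)))))))

/-- reified summand -/
def eT8a_4 : Ex :=
  (add (mul (mul (v 5) (add (c (-49541331456)) (mul nn8a (add (c 76274725248) (mul nn8a (add (c (-31952505312)) (mul nn8a (add (c 5725005000) (mul nn8a (add (c (-533730912)) (mul nn8a (add (c 28737072) (mul nn8a (add (c (-913920)) (mul nn8a (c 14280)))))))))))))))) (mul (pw8a 2 2) (pw8a 3 2))) (add (mul (mul (v 5) (add (c 12246658560) (mul nn8a (add (c (-18587761920)) (mul nn8a (add (c 7481490016) (mul nn8a (add (c (-1236892800)) (mul nn8a (add (c 101285184) (mul nn8a (add (c (-4950400)) (mul nn8a (c 171360)))))))))))))) (mul (pw8a 2 2) (pw8a 4 2))) (add (mul (mul (v 5) (add (c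 15743499264) (mul nn8a (add (c (-25117141504)) (mul nn8a (add (c 11469185728) (mul nn8a (add (c (-2328158976)) (mul nn8a (add (c 246133888) (mul nn8a (add (c (-13861120)) (mul nn8a (c 342720)))))))))))))) (mul (pw8a 2 1) (mul (pw8a 3 2) (pw8a 4 1)))) (add (mul (mul (v 5) (add (c 5099308032) (mul nn8a (add (c (-7566983424)) (mul nn8a (add (c 2805490688) (mul nn8a (add (c (-339795456)) (mul nn8a (add (c 0) (mul nn8a (c 1980160)))))))))))) (mul (pw8a 2 1) (pw8a 4 3))) (mul (mul (v 5) (add (c 3958357248) (mul nn8a (add (c (-6025428864)) (mul nn8a (add (c 2446363920) (mul nn8a (add (c (-412142016)) (mul nn8a (add (c 34306272) (mul nn8a (add (c (-1485120)) (mul nn8a (c 28560)))))))))))))) (pw8a 3 4))))))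

/-- reified summand -/
def eT8a_5 : Ex :=
  (add (mul (mul (v 5) (add (c (-8033905152)) (mul nn8a (add (c 12574610048) (mul nn8a (add (c (-5462865408)) (mul nn8a (add (c 1006317312) (mul nn8a (add (c (-87127040)) (mul nn8a (c 2970240)))))))))))) (mul (pw8a 3 2) (pw8a 4 2))) (mul (mul (v 5) (add (c 1659770112) (mul nn8a (add (c (-2700938240)) (mul nn8a (add (c 1280767488) (mul nn8a (add (c (-261381120)) (mul nn8a (c 21781760)))))))))) (pw8a 4 4)))

/-- reified closed form -/
def eT8a : Ex := mul (c 186624) (add eT8a_1 (add eT8a_2 (add eT8a_3 (add eT8a_4 eT8a_5))))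

/-- evaluation point -/
def m8a (i : ℕ) : ℕ :=
  match i with
  | 0 => 2 ^ 97
  | 1 => 2 ^ 848
  | 2 => 2 ^ 848
  | 3 => 2 ^ 3489
  | 4 => 2 ^ 14043
  | _ => 0

theorem ck8a : ∀ N, N ≤ 16 + 1 → ck (mul (c 85085) W8) eT8a (c 0) (mul (c 18) (v 2)) m8a N = true := by
  intro N hN
  interval_cases N <;> decide +kernel

theorem cs8a_0 : ∀ N, N ≤ 16 + 1 → cs (mul (c 85085) W8) eT8a (c 0) (mul (c 18) (v 2)) m8a 0 N = true := by
  intro N hN
  interval_cases N <;> decide +kernel

theorem cs8a_1 : ∀ N, N ≤ 16 + 1 → cs (mul (c 85085) W8) eT8a (c 0) (mul (c 18) (v 2)) m8a 1 N = true := by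
  intro N hN
  interval_cases N <;> decide +kernel

theorem cs8a_2 : ∀ N, N ≤ 16 + 1 → cs (mul (c 85085) W8) eT8a (c 0) (mul (c 18) (v 2)) m8a 2 N = true := by
  intro N hN
  interval_cases N <;> decide +kernel

theorem cs8a_3 : ∀ N, N ≤ 16 + 1 → cs (mul (c 85085) W8) eT8a (c 0) (mul (c 18) (v 2)) m8a 3 N = true := by
  intro N hN
  interval_cases N <;> decide +kernel

theorem cs8a_4 : ∀ N, N ≤ 16 + 1 → cs (mul (c 85085) W8) eT8a (c 0) (mul (c 18) (v 2)) m8a 4 N = true := by
  intro N hN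
  interval_cases N <;> decide +kernel

theorem cs8a : ∀ N, N ≤ 16 + 1 → ∀ j, j < 5 → cs (mul (c 85085) W8) eT8a (c 0) (mul (c 18) (v 2)) m8a j N = true := by
  intro N hN j hj
  interval_cases j
  · exact cs8a_0 N hN
  · exact cs8a_1 N hN
  · exact cs8a_2 N hN
  · exact cs8a_3 N hN
  · exact cs8a_4 N hN

theorem wdW8a : wd w3 (mul (c 85085) W8) ≤ 16 := by decide +kernel

theorem wdt8a : wd (fun i => if i = 5 then 1 else 0) eT8a ≤ 16 + 1 := by decide +kernel

variable {K : Type*} [Field K]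

theorem heT8a_1 (n s p q F : K) : ev (par6 n s 0 p q F) eT8a_1 = T8a_1 n s p q F := by
  simp only [eT8a_1, nn8a, ev, ev_pw8a, par6, T8a_1]
  push_cast
  ring

theorem heT8a_2 (n s p q F : K) : ev (par6 n s 0 p q F) eT8a_2 = T8a_2 n s p q F := by
  simp only [eT8a_2, nn8a, ev, ev_pw8a, par6, T8a_2]
  push_cast
  ring

theorem heT8a_3 (n s p q F : K) : ev (par6 n s 0 p q F) eT8a_3 = T8a_3 n s p q F := by
  simp only [eT8a_3, nn8a, ev, ev_pw8a, par6, T8a_3]
  push_cast
  ring

theorem heT8a_4 (n s p q F : K) : ev (par6 n s 0 p q F) eT8a_4 = T8a_4 n s p q F := by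
  simp only [eT8a_4, nn8a, ev, ev_pw8a, par6, T8a_4]
  push_cast
  ring

theorem heT8a_5 (n s p q F : K) : ev (par6 n s 0 p q F) eT8a_5 = T8a_5 n s p q F := by
  simp only [eT8a_5, nn8a, ev, ev_pw8a, par6, T8a_5]
  push_cast
  ring

theorem heT8a [Num17 K] (n s p q F : K) : ev (par6 n s 0 p q F) eT8a = (85085 * 12 ^ 8) * T8a n s p q F := by
  have hd := nz196035840 (K := K)
  simp only [eT8a, ev, heT8a_1, heT8a_2, heT8a_3, heT8a_4, heT8a_5, T8a]
  push_cast
  field_simp
  ring

theorem sumk8a [Num17 K] (n : ℕ) (s p q F : K) : ∑ j ∈ Finset.range n,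
    co (Uf (n : K)) (Df (n : K) s 0) (Xf (n : K) p q F) 8 0 ((j : K) - ((n : K) - 1) / 2) = T8a (n : K) s p q F := by
  have h := final (K := K) W8 eT8a (c 0) (mul (c 18) (v 2)) m8a 16 8 85085 (by norm_num) hW8 wdW8a wdt8a ck8a cs8a
    s 0 0 p p q F
    (by simp [ev]) (by simp only [ev, par5]; push_cast; ring) n
  rw [heT8a, mul_assoc] at h
  have hc : ((85085 : ℤ) : K) ≠ 0 := by
    have := smooth_ne (K := K) 0 0 1 1 1 1 1
    norm_num at this ⊢
    exact this
  have h12 : ((12 : K) ^ 8) ≠ 0 := pow_ne_zero _ nz12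
  have e : ((85085 : ℤ) : K) = 85085 := by norm_num
  rw [e] at h hc
  exact mul_left_cancel₀ h12 (mul_left_cancel₀ hc h)

end TDP
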