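import Pool.Agent.Lib.MP_d0515f_al.KRF

/-! The trace of the power 8b (generated by computer): the sum over closed walks equals the
closed form, checked in the kernel by one evaluation for each small `n`. -/

set_option linter.unusedVariables false
set_option maxRecDepth 20000

namespace TDP

open Ex

/-- the square of `n` -/
def nn8b : Ex := mul (v 5) (v 5)

/-- powers of a variable -/
def pw8b (i : ℕ) : ℕ → Ex
  | 0 => c 1
  | 1 => v i
  | k + 2 => mul (v i) (pw8b i (k + 1))

theorem ev_pw8b {R : Type*} [CommRing R] (ρ : ℕ → R) (i k : ℕ) :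
    ev ρ (pw8b i k) = ρ i ^ k := by
  induction k with
  | zero => simp [pw8b, ev]
  | succ k ih =>
    cases k with
    | zero => simp [pw8b, ev]
    | succ k => rw [pw8b, ev, ih, ev, pow_succ' _ (k + 1)]

/-- reified summand -/
def eT8b_1 : Ex :=
  (add (mul (mul (v 5) (add (c 42538092597) (mul nn8b (add (c (-69222092940)) (mul nn8b (add (c 32824669878) (mul nn8b (add (c (-6698912220)) (mul nn8b (c 558242685)))))))))) (pw8b 0 8)) (add (mul (mul (v 5) (add (c (-1914291982512)) (mul nn8b (add (c 2992131170028) (mul nn8b (add (c (-1298298809808)) (mul nn8b (add (c 241458569352) (mul nn8b (add (c (-21833491680)) (mul nn8b (c 834544620)))))))))))) (mul (pw8b 0 6) (pw8b 1 2))) (add (mul (mul (v 5) (add (c (-680609481552)) (mul nn8b (add (c 1107553487040) (mul nn8b (add (c (-525194718048)) (mul nn8b (add (c 107182595520) (mul nn8b (c (-8931882960))))))))))) (mul (pw8b 0 6) (pw8b 4 1))) (add (mul (mul (v 5) (add (c 9637988907456) (mul nn8b (add (c (-15032359021680)) (mul nn8b (add (c 6488119782144)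 (mul nn8b (add (c (-1196872316640)) (mul nn8b (add (c 107182595520) (mul nn8b (c (-4059946800))))))))))))) (mul (pw8b 0 5) (mul (pw8b 1 1) (pw8b 3 1)))) (mul (mul (v 5) (add (c 3768964844256) (mul nn8b (add (c (-5818172422608)) (mul nn8b (add (c 2452747439142) (mul nn8b (add (c (-442496823912)) (mul nn8b (add (c 40959850932) (mul nn8b (add (c (-2050022520)) (mul nn8b (c 47134710)))))))))))))) (mul (pw8b 0 4) (pw8b 1 4)))))))

/-- reified summand -/
def eT8b_2 : Ex :=
  (add (mul (mul (v 5) (add (c 6623884403136) (mul nn8b (add (c (-10424301359472)) (mul nn8b (add (c 4594560594624) (mul nn8b (add (c (-870560859168)) (mul nn8b (add (c 79394515200) (mul nn8b (c (-2977294320))))))))))))) (mul (pw8b 0 4) (mul (pw8b 1 2) (pw8b 4 1)))) (add (mul (mul (v 5) (add (c (-14456983361184)) (mul nn8b (add (c 22548538532520) (mul nn8b (add (c (-9732179673216)) (mul nn8b (add (c 1795308474960) (mul nn8b (add (c (-160773893280)) (mul nn8b (c 6089920200)))))))))))) (mul (pw8b 0 4) (pw8b 3 2))) (add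 (mul (mul (v 5) (add (c 4083656889312) (mul nn8b (add (c (-6645320922240)) (mul nn8b (add (c 3151168308288) (mul nn8b (add (c (-643095573120)) (mul nn8b (c 53591297760)))))))))) (mul (pw8b 0 4) (pw8b 4 2))) (add (mul (mul (v 5) (add (c (-20328961651200)) (mul nn8b (add (c 31292698574592) (mul nn8b (add (c (-13095728309664)) (mul nn8b (add (c 2334539009088) (mul nn8b (add (c (-212777300736)) (mul nn8b (add (c 10465640640) (mul nn8b (c (-235962720))))))))))))))) (mul (pw8b 0 3) (mul (pw8b 1 3) (pw8b 3 1)))) (mul (mul (v 5) (add (c (-32453590740480)) (mul nn8b (add (c 50690222174592) (mul nn8b (add (c (-21936704549760)) (mul nn8b (add (c 4044356604288) (mul nn8b (add (c (-357275318400)) (mul nn8b (c 12991829760)))))))))))) (mul (pw8b 0 3) (mul (pw8b 1 1) (mul (pw8b 3 1) (pw8b 4 1)))))))))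

/-- reified summand -/
def eT8b_3 : Ex :=
  (add (mul (mul (v 5) (add (c (-926776726272)) (mul nn8b (add (c 1428962902848) (mul nn8b (add (c (-600862992912)) (mul nn8b (add (c 108318290652) (mul nn8b (add (c (-10176010416)) (mul nn8b (add (c 551907720) (mul nn8b (add (c (-17650080)) (mul nn8b (c 278460)))))))))))))))) (mul (pw8b 0 2) (pw8b 1 6))) (add (mul (mul (v 5) (add (c (-2304304319232)) (mul nn8b (add (c 3646870770816) (mul nn8b (add (c (-1629506262384)) (mul nn8b (add (c 316330432704) (mul nn8b (add (c (-30919752864)) (mul nn8b (add (c 1563831360) (mul nn8b (c (-34700400))))))))))))))) (mul (pw8b 0 2) (mul (pw8b 1 4) (pw8b 4 1)))) (add (mul (mul (v 5) (add (c 42036012211968) (mul nn8b (add (c (-64509198429312)) (mul nn8b (add (c 26777189655216) (mul nn8b (add (c (-4703614632288)) (mul nn8b (add (c 419203040256) (mul nn8b (add (c (-20029070880)) (mul nn8b (c 437225040)))))))))))))) (mul (pw8b 0 2) (mul (pw8b 1 2) (pw8b 3 2)))) (add (mul (mul (v 5) (add (c (-5755380583680))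 (mul nn8b (add (c 9340764713280) (mul nn8b (add (c (-4406395593600)) (mul nn8b (add (c 905097473280) (mul nn8b (add (c (-87333966720)) (mul nn8b (c 3247957440)))))))))))) (mul (pw8b 0 2) (mul (pw8b 1 2) (pw8b 4 2)))) (mul (mul (v 5) (add (c 71005546370304) (mul nn8b (add (c (-110819658261312)) (mul nn8b (add (c 47889183678336) (mul nn8b (add (c (-8831845870848)) (mul nn8b (add (c 786005700480) (mul nn8b (c (-29231616960))))))))))))) (mul (pw8b 0 2) (mul (pw8b 3 2) (pw8b 4 1))))))))

/-- reified summand -/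
def eT8b_4 : Ex :=
  (add (mul (mul (v 5) (add (c (-10889751704832)) (mul nn8b (add (c 17720855792640) (mul nn8b (add (c (-8403115488768)) (mul nn8b (add (c 1714921528320) (mul nn8b (c (-142910127360))))))))))) (mul (pw8b 0 2) (pw8b 4 3))) (add (mul (mul (v 5) (add (c 2675231898624) (mul nn8b (add (c (-4118835163392)) (mul nn8b (add (c 1725435286848) (mul nn8b (add (c (-309150270000)) (mul nn8b (add (c 28821469248) (mul nn8b (add (c (-1551801888)) (mul nn8b (add (c 49351680) (mul nn8b (c (-771120))))))))))))))))) (mul (pw8b 0 1) (mul (pw8b 1 5) (pw8b 3 1)))) (add (mul (mul (v 5) (add (c 1599273621504) (mul nn8b (add (c (-2578733853696)) (mul nn8b (add (c 1192505618304) (mul nn8b (add (c (-232966191744)) (mul nn8b (add (c 20642573952) (mul nn8b (c (-721768320))))))))))))) (mul (pw8b 0 1) (mul (pw8b 1 3) (mul (pw8b 3 1) (pw8b 4 1))))) (add (mul (mul (v 5) (add (c (-34627709205504)) (mul nn8b (add (c 52710451702272) (mul nn8b (add (c (-21400791572160)) (mul nn8b (add (c 3605418355968)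 (mul nn8b (add (c (-300111267456)) (mul nn8b (add (c 12991829760) (mul nn8b (c (-249842880))))))))))))))) (mul (pw8b 0 1) (mul (pw8b 1 1) (pw8b 3 3)))) (mul (mul (v 5) (add (c (-24393459557376)) (mul nn8b (add (c 37756855648512) (mul nn8b (add (c (-16063098315264)) (mul nn8b (add (c 2972530649088) (mul nn8b (add (c (-285820254720)) (mul nn8b (c 12991829760)))))))))))) (mul (pw8b 0 1) (mul (pw8b 1 1) (mul (pw8b 3 1) (pw8b 4 2)))))))))

/-- reified summand -/
def eT8b_5 : Ex :=
  (add (mul (mul (v 5) (add (c 45367387392) (mul nn8b (add (c (-69947637504)) (mul nn8b (add (c 29414965088) (mul nn8b (add (c (-5309866224)) (mul nn8b (add (c 502115757) (mul nn8b (add (c (-27919372)) (mul nn8b (add (c 976038) (mul nn8b (add (c (-21420)) (mul nn8b (c 245)))))))))))))))))) (pw8b 1 8)) (add (mul (mul (v 5) (add (c 1923618972672) (mul nn8b (add (c (-2969961502464)) (mul nn8b (add (c 1253161780416) (mul nn8b (add (c (-227172982608)) (mul nn8b (add (c 21489728832) (mul nn8b (add (c (-1173096288))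 (mul nn8b (add (c 37699200) (mul nn8b (c (-599760))))))))))))))))) (mul (pw8b 1 6) (pw8b 4 1))) (add (mul (mul (v 5) (add (c (-4012847847936)) (mul nn8b (add (c 6178252745088) (mul nn8b (add (c (-2588152930272)) (mul nn8b (add (c 463725405000) (mul nn8b (add (c (-43232203872)) (mul nn8b (add (c 2327702832) (mul nn8b (add (c (-74027520)) (mul nn8b (c 1156680)))))))))))))))) (mul (pw8b 1 4) (pw8b 3 2))) (add (mul (mul (v 5) (add (c 18370290765312) (mul nn8b (add (c (-28470873150720)) (mul nn8b (add (c 12123498362976) (mul nn8b (add (c (-2222290287360)) (mul nn8b (add (c 209866168512) (mul nn8b (add (c (-10746328320)) (mul nn8b (c 254469600)))))))))))))) (mul (pw8b 1 4) (pw8b 4 2))) (mul (mul (v 5) (add (c (-34562150433792)) (mul nn8b (add (c 53450697291264) (mul nn8b (add (c (-22628230777152)) (mul nn8b (add (c 4100840130816) (mul nn8b (add (c (-379505782656)) (mul nn8b (add (c 18765976320) (mul nn8b (c (-416404800))))))))))))))) (mul (pw8b 1 2) (mul (pw8b 3 2) (pw8b 4 1))))))))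

/-- reified summand -/
def eT8b_6 : Ex :=
  (add (mul (mul (v 5) (add (c 39554058765312) (mul nn8b (add (c (-62070631983360)) (mul nn8b (add (c 27203736688128) (mul nn8b (add (c (-5144764584960)) (mul nn8b (add (c 476367091200) (mul nn8b (c (-18765976320))))))))))))) (mul (pw8b 1 2) (pw8b 4 3))) (add (mul (mul (v 5) (add (c 25970781904128) (mul nn8b (add (c (-39532838776704)) (mul nn8b (add (c 16050593679120) (mul nn8b (add (c (-2704063766976)) (mul nn8b (add (c 225083450592) (mul nn8b (add (c (-9743872320)) (mul nn8b (c 187382160)))))))))))))) (pw8b 3 4)) (add (mul (mul (v 5) (add (c (-52710451702272)) (mul nn8b (add (c 82502016524928) (mul nn8b (add (c (-35841859941888)) (mul nn8b (add (c 6602447884032) (mul nn8b (add (c (-571640509440)) (mul nn8b (c 19487744640)))))))))))) (mul (pw8b 3 2) (pw8b 4 2))) (mul (mul (v 5) (add (c 10889751704832) (mul nn8b (add (c (-17720855792640)) (mul nn8b (add (c 8403115488768) (mul nn8b (add (c (-1714921528320)) (mul nn8b (c 142910127360))))))))))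 (pw8b 4 4)))))

/-- reified closed form -/
def eT8b : Ex := mul (c 256) (add eT8b_1 (add eT8b_2 (add eT8b_3 (add eT8b_4 (add eT8b_5 eT8b_6)))))

/-- evaluation point -/
def m8b (i : ℕ) : ℕ :=
  match i with
  | 0 => 2 ^ 98
  | 1 => 2 ^ 859
  | 2 => 2 ^ 6967
  | 3 => 2 ^ 6967
  | 4 => 2 ^ 27958
  | _ => 0

theorem ck8b : ∀ N, N ≤ 16 + 1 → ck (mul (c 765765) W8) eT8b (v 1) (mul (c 4) (mul (v 1) (v 1))) m8b N = true := by
  intro N hN
  interval_cases N <;> decide +kernel

theorem cs8b_0 : ∀ N, N ≤ 16 + 1 → cs (mul (c 765765) W8) eT8b (v 1) (mul (c 4) (mul (v 1) (v 1))) m8b 0 N = true := by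
  intro N hN
  interval_cases N <;> decide +kernel

theorem cs8b_1 : ∀ N, N ≤ 16 + 1 → cs (mul (c 765765) W8) eT8b (v 1) (mul (c 4) (mul (v 1) (v 1))) m8b 1 N = true := by
  intro N hN
  interval_cases N <;> decide +kernel

theorem cs8b_2 : ∀ N, N ≤ 16 + 1 → cs (mul (c 765765) W8) eT8b (v 1) (mul (c 4) (mul (v 1) (v 1))) m8b 2 N = true := by
  intro N hN
  interval_cases N <;> decide +kernel

theorem cs8b_3 : ∀ N, N ≤ 16 + 1 → cs (mul (c 765765) W8) eT8b (v 1) (mul (c 4) (mul (v 1) (v 1))) m8b 3 N = true := by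
  intro N hN
  interval_cases N <;> decide +kernel

theorem cs8b_4 : ∀ N, N ≤ 16 + 1 → cs (mul (c 765765) W8) eT8b (v 1) (mul (c 4) (mul (v 1) (v 1))) m8b 4 N = true := by
  intro N hN
  interval_cases N <;> decide +kernel

theorem cs8b : ∀ N, N ≤ 16 + 1 → ∀ j, j < 5 → cs (mul (c 765765) W8) eT8b (v 1) (mul (c 4) (mul (v 1) (v 1))) m8b j N = true := by
  intro N hN j hj
  interval_cases j
  · exact cs8b_0 N hN
  · exact cs8b_1 N hN
  · exact cs8b_2 N hN
  · exact cs8b_3 N hN
  · exact cs8b_4 N hN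

theorem wdW8b : wd w3 (mul (c 765765) W8) ≤ 16 := by decide +kernel

theorem wdt8b : wd (fun i => if i = 5 then 1 else 0) eT8b ≤ 16 + 1 := by decide +kernel

variable {K : Type*} [Field K]

theorem heT8b_1 (n s a q F : K) : ev (par6 n s a 0 q F) eT8b_1 = T8b_1 n s a q F := by
  simp only [eT8b_1, nn8b, ev, ev_pw8b, par6, T8b_1]
  push_cast
  ring

theorem heT8b_2 (n s a q F : K) : ev (par6 n s a 0 q F) eT8b_2 = T8b_2 n s a q F := by
  simp only [eT8b_2, nn8b, ev, ev_pw8b, par6, T8b_2]
  push_cast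
  ring

theorem heT8b_3 (n s a q F : K) : ev (par6 n s a 0 q F) eT8b_3 = T8b_3 n s a q F := by
  simp only [eT8b_3, nn8b, ev, ev_pw8b, par6, T8b_3]
  push_cast
  ring

theorem heT8b_4 (n s a q F : K) : ev (par6 n s a 0 q F) eT8b_4 = T8b_4 n s a q F := by
  simp only [eT8b_4, nn8b, ev, ev_pw8b, par6, T8b_4]
  push_cast
  ring

theorem heT8b_5 (n s a q F : K) : ev (par6 n s a 0 q F) eT8b_5 = T8b_5 n s a q F := by
  simp only [eT8b_5, nn8b, ev, ev_pw8b, par6, T8b_5]
  push_cast
  ring

theorem heT8b_6 (n s a q F : K) : ev (par6 n s a 0 q F) eT8b_6 = T8b_6 n s a q F := by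
  simp only [eT8b_6, nn8b, ev, ev_pw8b, par6, T8b_6]
  push_cast
  ring

theorem heT8b [Num17 K] (n s a q F : K) : ev (par6 n s a 0 q F) eT8b = (765765 * 12 ^ 8) * T8b n s a q F := by
  have hd := nz1286191146240 (K := K)
  simp only [eT8b, ev, heT8b_1, heT8b_2, heT8b_3, heT8b_4, heT8b_5, heT8b_6, T8b]
  push_cast
  field_simp
  ring

theorem sumk8b [Num17 K] (n : ℕ) (s a q F : K) : ∑ j ∈ Finset.range n,
    co (Uf (n : K)) (Df (n : K) s a) (Xf (n : K) (2 * a ^ 2 / 9) q F) 8 0 ((j : K) - ((n : K) - 1) / 2) = T8b (n : K) s a q F := by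
  have h := final (K := K) W8 eT8b (v 1) (mul (c 4) (mul (v 1) (v 1))) m8b 16 8 765765 (by norm_num) hW8 wdW8b wdt8b ck8b cs8b
    s a a 0 (2 * a ^ 2 / 9) q F
    (by simp [ev, par5]) (by have h9 := nz9 (K := K); simp only [ev, par5]; push_cast; field_simp; ring) n
  rw [heT8b, mul_assoc] at h
  have hc : ((765765 : ℤ) : K) ≠ 0 := by
    have := smooth_ne (K := K) 0 2 1 1 1 1 1
    norm_num at this ⊢
    exact this
  have h12 : ((12 : K) ^ 8) ≠ 0 := pow_ne_zero _ nz12
  have e : ((765765 : ℤ) : K) = 765765 := by norm_num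
  rw [e] at h hc
  exact mul_left_cancel₀ h12 (mul_left_cancel₀ hc h)

end TDP
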