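import Pool.Agent.Lib.MP_d0515f_al.TraceSum
import Pool.Agent.Lib.MP_d0515f_al.TDefs
import Pool.Agent.Lib.MP_d0515f_al.TK1
import Pool.Agent.Lib.MP_d0515f_al.TK2
import Pool.Agent.Lib.MP_d0515f_al.TK3
import Pool.Agent.Lib.MP_d0515f_al.TK4
import Pool.Agent.Lib.MP_d0515f_al.TK5
import Pool.Agent.Lib.MP_d0515f_al.TK6
import Pool.Agent.Lib.MP_d0515f_al.TK7
import Pool.Agent.Lib.MP_d0515f_al.TK8a
import Pool.Agent.Lib.MP_d0515f_al.TK8b

/-! Traces of the powers of the centred tridiagonal operator, in closed form. The primed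
theorems hold as soon as the primes up to 17 and the integers below n are nonzero in K. -/

namespace TDP

open Module

variable {K V : Type*} [Field K] [AddCommGroup V] [Module K V]
variable [FiniteDimensional K V] {T : Module.End K V} {n : ℕ} {r : ℕ → V} {s a p q F : K}

theorem trace1' [Num17 K] (hN : ∀ l : ℕ, 0 < l → l < n → (l : K) ≠ 0)
    (h : Chain T n r (cD n s a) (cψ n p q F)) : LinearMap.trace K V T = 0 := by
  have := trace_eq' hN h 1
  rwa [sumk1, pow_one] at this

theorem trace2' [Num17 K] (hN : ∀ l : ℕ, 0 < l → l < n → (l : K) ≠ 0)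
    (h : Chain T n r (cD n s a) (cψ n p q F)) :
    LinearMap.trace K V (T ^ 2) = T2 (n : K) s a p q F := by
  rw [trace_eq' hN h 2, sumk2]

theorem trace3' [Num17 K] (hN : ∀ l : ℕ, 0 < l → l < n → (l : K) ≠ 0)
    (h : Chain T n r (cD n s a) (cψ n p q F)) :
    LinearMap.trace K V (T ^ 3) = T3 (n : K) s a p q F := by
  rw [trace_eq' hN h 3, sumk3]

theorem trace4' [Num17 K] (hN : ∀ l : ℕ, 0 < l → l < n → (l : K) ≠ 0)
    (h : Chain T n r (cD n s a) (cψ n p q F)) :
    LinearMap.trace K V (T ^ 4) = T4 (n : K) s a p q F := by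
  rw [trace_eq' hN h 4, sumk4]

theorem trace5' [Num17 K] (hN : ∀ l : ℕ, 0 < l → l < n → (l : K) ≠ 0)
    (h : Chain T n r (cD n s a) (cψ n p q F)) :
    LinearMap.trace K V (T ^ 5) = T5 (n : K) s a p q F := by
  rw [trace_eq' hN h 5, sumk5]

theorem trace6' [Num17 K] (hN : ∀ l : ℕ, 0 < l → l < n → (l : K) ≠ 0)
    (h : Chain T n r (cD n s a) (cψ n p q F)) :
    LinearMap.trace K V (T ^ 6) = T6 (n : K) s a p q F := by
  rw [trace_eq' hN h 6, sumk6]

theorem trace7' [Num17 K] (hN : ∀ l : ℕ, 0 < l → l < n → (l : K) ≠ 0)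
    (h : Chain T n r (cD n s a) (cψ n p q F)) :
    LinearMap.trace K V (T ^ 7) = T7 (n : K) s a p q F := by
  rw [trace_eq' hN h 7, sumk7]

theorem trace8a' [Num17 K] (hN : ∀ l : ℕ, 0 < l → l < n → (l : K) ≠ 0)
    (h : Chain T n r (cD n s a) (cψ n p q F)) (ha : a = 0) :
    LinearMap.trace K V (T ^ 8) = T8a (n : K) s p q F := by
  subst ha
  rw [trace_eq' hN h 8, sumk8a]

theorem trace8b' [Num17 K] (hN : ∀ l : ℕ, 0 < l → l < n → (l : K) ≠ 0)
    (h : Chain T n r (cD n s a) (cψ n p q F)) (hp : 9 * p = 2 * a ^ 2) :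
    LinearMap.trace K V (T ^ 8) = T8b (n : K) s a q F := by
  have hp' : p = 2 * a ^ 2 / 9 := by
    rw [eq_div_iff nz9]
    linear_combination hp
  subst hp'
  rw [trace_eq' hN h 8, sumk8b]

section CharZero

variable [CharZero K]

theorem trace1 (h : Chain T n r (cD n s a) (cψ n p q F)) : LinearMap.trace K V T = 0 :=
  trace1' (fun l hl _ => by exact_mod_cast hl.ne') h

theorem trace2 (h : Chain T n r (cD n s a) (cψ n p q F)) :
    LinearMap.trace K V (T ^ 2) = T2 (n : K) s a p q F :=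
  trace2' (fun l hl _ => by exact_mod_cast hl.ne') h

theorem trace3 (h : Chain T n r (cD n s a) (cψ n p q F)) :
    LinearMap.trace K V (T ^ 3) = T3 (n : K) s a p q F :=
  trace3' (fun l hl _ => by exact_mod_cast hl.ne') h

theorem trace4 (h : Chain T n r (cD n s a) (cψ n p q F)) :
    LinearMap.trace K V (T ^ 4) = T4 (n : K) s a p q F :=
  trace4' (fun l hl _ => by exact_mod_cast hl.ne') h

theorem trace5 (h : Chain T n r (cD n s a) (cψ n p q F)) :
    LinearMap.trace K V (T ^ 5) = T5 (n : K) s a p q F :=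
  trace5' (fun l hl _ => by exact_mod_cast hl.ne') h

theorem trace6 (h : Chain T n r (cD n s a) (cψ n p q F)) :
    LinearMap.trace K V (T ^ 6) = T6 (n : K) s a p q F :=
  trace6' (fun l hl _ => by exact_mod_cast hl.ne') h

theorem trace7 (h : Chain T n r (cD n s a) (cψ n p q F)) :
    LinearMap.trace K V (T ^ 7) = T7 (n : K) s a p q F :=
  trace7' (fun l hl _ => by exact_mod_cast hl.ne') h

theorem trace8a (h : Chain T n r (cD n s a) (cψ n p q F)) (ha : a = 0) :
    LinearMap.trace K V (T ^ 8) = T8a (n : K) s p q F :=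
  trace8a' (fun l hl _ => by exact_mod_cast hl.ne') h ha

theorem trace8b (h : Chain T n r (cD n s a) (cψ n p q F)) (hp : 9 * p = 2 * a ^ 2) :
    LinearMap.trace K V (T ^ 8) = T8b (n : K) s a q F :=
  trace8b' (fun l hl _ => by exact_mod_cast hl.ne') h hp

end CharZero

end TDP
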