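import Pool.Agent.Lib.MP_d0515f_al.MainA
import Pool.Agent.Lib.MP_d0515f_al.IfPart
import Pool.Agent.Lib.MP_d0515f_al.Trace
import Pool.Agent.Lib.MP_d0515f_al.MuSum
import Pool.Agent.Lib.MP_d0515f_al.Alg
import Pool.Agent.Lib.MP_d0515f_al.SmallG

/-! The feasible parameters for `d ≤ 2` and for `d ≥ 7`. -/

namespace TDP

open Module Polynomial

variable {K V : Type*} [Field K] [Num17 K] [AddCommGroup V] [Module K V]
  [FiniteDimensional K V]
variable {A B : Module.End K V} {d δ : ℕ} {θ θs : ℕ → K}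

theorem fourK {K : Type*} [Field K] {d : ℕ} (hK : Good K d) :
    4 * ((d + 1 : ℕ) : K) ^ 2 - 1 ≠ 0 := by
  have e : 4 * ((d + 1 : ℕ) : K) ^ 2 - 1 = (2 * (d : K) + 1) * (2 * (d : K) + 3) := by
    push_cast; ring
  rw [e]
  exact mul_ne_zero hK.t1 hK.t3

/-- the systematic feasible value -/
theorem feasible_of_systematic (hK : Good K d) (h : IsTDPair A B d δ θ θs) (hβ : BetaTwo d θ)
    (hβs : BetaTwo δ θs) (hd : 2 ≤ d) (hfin : finrank K V = d + 1) {t : K}
    (hc : cc θ = t * cc θs)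
    (hsq : IsSquare (rho A B d t - ((d : K) - 1) * ((d : K) + 3) / 15 * cc θ ^ 2)) :
    Feasible A B d t := by
  obtain ⟨κ, F, r, hch⟩ := pair_chain hK h hβ hβs hd hfin t
  have hρ := rho_chain hK hd hfin hch
  obtain ⟨β, hβ2⟩ := hsq
  rw [← hc] at hch hρ
  obtain ⟨s, hs⟩ : ∃ s : K, s = bb d θ + t * bb d θs := ⟨_, rfl⟩
  obtain ⟨c, hcc⟩ : ∃ c : K, c = cc θ := ⟨_, rfl⟩
  have e1 : bb d θ * cc θ + t * bb d θs * cc θ = s * c := by rw [hs, hcc]; ring
  rw [e1, ← hs, ← hcc] at hch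
  rw [← hs, ← hcc] at hρ
  rw [← hcc] at hβ2
  have hdisc : s ^ 2 - 4 * F = β * β := by
    rw [← hβ2, hρ]; ring
  have h2 := nz2 (K := K)
  have h4 := nz4 (K := K)
  have h12 := nz12 (K := K)
  have hF : F = (s ^ 2 - β * β) / 4 := by
    rw [eq_div_iff h4]
    linear_combination (-1) * hdisc
  subst hF
  have hch' := hch.unshift
  have h0 := if_part hch' (κ - s * d / 2 + 2 * c * ((d : K) ^ 2 / 4 - (((d : K) + 1) ^ 2 - 1) / 12))
    c ((s - c * ((d : K) + 1) + β) / 2) ((s - c * ((d : K) + 1) - β) / 2)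
    (by intro j; simp only [cD]; push_cast; field_simp; ring)
    (by intro j; simp only [cψ]; push_cast; field_simp; ring)
  have hm := hch'.minpoly_eq _ h0
  refine ⟨(κ - s * d / 2 + 2 * c * ((d : K) ^ 2 / 4 - (((d : K) + 1) ^ 2 - 1) / 12))
    + d * c + d * ((s - c * ((d : K) + 1) - β) / 2), β + d * c, -c, ?_⟩
  rw [hm]
  apply Finset.prod_congr rfl
  intro i _
  congr 2
  field_simp
  ring

/-- the necessary conditions for `d ≥ 7` -/
theorem systematic_of_feasible (hK : Good K d) (h : IsTDPair A B d δ θ θs) (hβ : BetaTwo d θ)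
    (hβs : BetaTwo δ θs) (hd : 7 ≤ d) (hfin : finrank K V = d + 1) {t : K} (ht : t ≠ 0)
    (hf : Feasible A B d t) :
    cc θ = t * cc θs ∧
      IsSquare (rho A B d t - ((d : K) - 1) * ((d : K) + 3) / 15 * cc θ ^ 2) := by
  obtain ⟨κ, F, r, hch⟩ := pair_chain hK h hβ hβs (by omega) hfin t
  have hρ := rho_chain hK (by omega) hfin hch
  have hn1 := bb_cc_ne (hK.ne d (by omega) (by omega)) h.left hβ (by omega)
  have hn2 : ¬ (t * cc θs = 0 ∧ t * bb d θs = 0) := by
    obtain rfl := h.diam_eq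
    rintro ⟨h1, h2⟩
    exact bb_cc_ne (hK.ne d (by omega) (by omega)) h.right hβs (by omega)
      ⟨(mul_eq_zero.1 h1).resolve_left ht, (mul_eq_zero.1 h2).resolve_left ht⟩
  have hn : ∀ l : ℕ, 0 < l → l < d + 1 → (l : K) ≠ 0 := fun l hl hl' => hK.ne l hl (by omega)
  unfold Feasible at hf
  rw [feas_chain (by omega) (fun l hl hl' => hK.ne l hl (by omega)) hch] at hf
  obtain ⟨β, γ, hk⟩ := hf
  have hm := (hch.minpoly_eq_iff (cμ (d + 1) β γ)).2 hk
  have h0 := rr_eq_zero_of_minpoly _ hm (r 0)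
  have tp := hch.trace_pow _ h0
  have t2 := (trace2' hn hch).symm.trans ((tp 2).trans (mu2 (d + 1) β γ))
  have t3 := (trace3' hn hch).symm.trans ((tp 3).trans (mu3 (d + 1) β γ))
  have t4 := (trace4' hn hch).symm.trans ((tp 4).trans (mu4 (d + 1) β γ))
  have t5 := (trace5' hn hch).symm.trans ((tp 5).trans (mu5 (d + 1) β γ))
  have t6 := (trace6' hn hch).symm.trans ((tp 6).trans (mu6 (d + 1) β γ))
  have t7 := (trace7' hn hch).symm.trans ((tp 7).trans (mu7 (d + 1) β γ))
  have t8a : cc θ + t * cc θs = 0 → γ = 0 → T8a ((d + 1 : ℕ) : K) (bb d θ + t * bb d θs)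
      (cc θ * (t * cc θs)) (bb d θ * (t * cc θs) + t * bb d θs * cc θ) F =
        M8l ((d + 1 : ℕ) : K) β := by
    intro ha hγ
    subst hγ
    exact (trace8a' hn hch ha).symm.trans ((tp 8).trans (mu8l (d + 1) β))
  have t8b : 9 * (cc θ * (t * cc θs)) = 2 * (cc θ + t * cc θs) ^ 2 → γ = 0 →
      T8b ((d + 1 : ℕ) : K) (bb d θ + t * bb d θs)
      (cc θ + t * cc θs) (bb d θ * (t * cc θs) + t * bb d θs * cc θ) F =
        M8l ((d + 1 : ℕ) : K) β := by
    intro ha hγ
    subst hγ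
    exact (trace8b' hn hch ha).symm.trans ((tp 8).trans (mu8l (d + 1) β))
  rcases alg (d + 1) (by omega) (fun l hl hl' => hK.ne l hl (by omega)) (fourK hK) (bb d θ) (t * bb d θs) (cc θ) (t * cc θs) F β γ
    t2 t3 t4 t5 t6 t7 t8a t8b with hcc | hcc | hcc
  · refine ⟨hcc, ?_⟩
    rw [← hcc] at t2 t3 t4 t5 t6 t7 hρ
    have e1 : cc θ + cc θ = 2 * cc θ := by ring
    have e2 : cc θ * cc θ = cc θ ^ 2 := by ring
    rw [e1, e2] at t2 t3 t4 t5 t6 t7
    have key := alg_sq (d + 1) (by omega) (fun l hl hl' => hK.ne l hl (by omega)) (fourK hK) _ _ _ _ β γ t2 t3 t4 t5 t6 t7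
    have e : rho A B d t - ((d : K) - 1) * ((d : K) + 3) / 15 * cc θ ^ 2 =
        (bb d θ + t * bb d θs) ^ 2 - 4 * F := by
      rw [hρ]; ring
    rw [e]
    exact key
  · exact absurd hcc hn1
  · exact absurd hcc hn2

/-- the complete answer for `d ≥ 7` -/
theorem feasible_iff_big (hK : Good K d) (h : IsTDPair A B d δ θ θs) (hβ : BetaTwo d θ) (hβs : BetaTwo δ θs)
    (hd : 7 ≤ d) (t : K) :
    Feasible A B d t ↔ t = 0 ∨ (finrank K V = d + 1 ∧ cc θ = t * cc θs ∧
      IsSquare (rho A B d t - ((d : K) - 1) * ((d : K) + 3) / 15 * cc θ ^ 2)) := by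
  constructor
  · intro hf
    by_cases ht : t = 0
    · exact Or.inl ht
    · right
      have hfin := finrank_of_feasible hK h hβ hβs ht hf
      exact ⟨hfin, systematic_of_feasible hK h hβ hβs hd hfin ht hf⟩
  · rintro (rfl | ⟨hfin, hc, hsq⟩)
    · exact feasible_zero h hβ
    · exact feasible_of_systematic hK h hβ hβs (by omega) hfin hc hsq

/-- the complete answer for `d ≤ 2` -/
theorem feasible_iff_small (hK : Good K d) (h : IsTDPair A B d δ θ θs) (hβ : BetaTwo d θ) (hβs : BetaTwo δ θs)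
    (hd : d ≤ 2) (t : K) :
    Feasible A B d t ↔ t = 0 ∨ (finrank K V = d + 1 ∧ (minpoly K (A + t • B)).Splits) := by
  constructor
  · intro hf
    by_cases ht : t = 0
    · exact Or.inl ht
    · right
      refine ⟨finrank_of_feasible hK h hβ hβs ht hf, ?_⟩
      obtain ⟨a, b, c, hm⟩ := hf
      rw [hm]
      exact Polynomial.Splits.prod fun i _ => Polynomial.Splits.X_sub_C _
  · rintro (rfl | ⟨hfin, hsp⟩)
    · exact feasible_zero h hβ
    · obtain rfl := h.diam_eq
      obtain ⟨a, b, c, hθ, -⟩ := hβ.quadratic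
      obtain ⟨as, bs, cs, hθs, -⟩ := hβs.quadratic
      have h' : IsTDPair A B d d (fun i => qf a b c (i : K)) (fun i => qf as bs cs (i : K)) :=
        h.congr (fun i hi => (hθ i hi).symm) (fun i hi => (hθs i hi).symm)
      obtain ⟨F, r, hs⟩ := split hK h' hfin
      have hdeg := (hs.chain t).unshift.natDegree_minpoly
      have hmon : (minpoly K (A + t • B)).Monic := minpoly.monic (Algebra.IsIntegral.isIntegral _)
      have hprod := hsp.eq_prod_roots_of_monic hmon
      have hcard : Multiset.card (minpoly K (A + t • B)).roots = d + 1 := by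
        rw [← hsp.natDegree_eq_card_roots, hdeg]
      unfold Feasible
      rw [hprod]
      have h3 : d = 0 ∨ d = 1 ∨ d = 2 := by omega
      rcases h3 with rfl | rfl | rfl
      · obtain ⟨x, hx⟩ := Multiset.card_eq_one.mp hcard
        refine ⟨x, 0, 0, ?_⟩
        rw [hx]
        simp
      · obtain ⟨x, y, hx⟩ := Multiset.card_eq_two.mp hcard
        refine ⟨x, y - x, 0, ?_⟩
        rw [hx]
        simp [Finset.prod_range_succ]
      · obtain ⟨x, y, z, hx⟩ := Multiset.card_eq_three.mp hcard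
        refine ⟨x, y - x - (z - 2 * y + x) / 2, (z - 2 * y + x) / 2, ?_⟩
        rw [hx]
        have h2 := nz2 (K := K)
        have e0 : x + (y - x - (z - 2 * y + x) / 2) * ((0 : ℕ) : K)
            + (z - 2 * y + x) / 2 * ((0 : ℕ) : K) ^ 2 = x := by
          push_cast; field_simp; ring
        have e1 : x + (y - x - (z - 2 * y + x) / 2) * ((1 : ℕ) : K)
            + (z - 2 * y + x) / 2 * ((1 : ℕ) : K) ^ 2 = y := by
          push_cast; field_simp; ring
        have e2 : x + (y - x - (z - 2 * y + x) / 2) * ((2 : ℕ) : K)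
            + (z - 2 * y + x) / 2 * ((2 : ℕ) : K) ^ 2 = z := by
          push_cast; field_simp; ring
        rw [Finset.prod_range_succ, Finset.prod_range_succ, Finset.prod_range_succ,
          Finset.prod_range_zero, e0, e1, e2]
        simp [mul_assoc]

end TDP
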