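import Pool.Agent.Lib.MP_d0515f_al.Rel

/-! If `A + t B` (`t ≠ 0`) is killed by a product of `d + 1` linear factors, then `V` is spanned
by the raising sequence of a vector of `V*_0`. -/

namespace TDP

open Module

section aux

variable {K V : Type*} [Field K] [AddCommGroup V] [Module K V]

/-- composite of the raising steps `A - θ s, …, A - θ (s + n - 1)` -/
def PP (A : Module.End K V) (θ : ℕ → K) (s : ℕ) : ℕ → Module.End K V
  | 0 => 1
  | n + 1 => (A - θ (n + s) • (1 : Module.End K V)) * PP A θ s n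

theorem PP_zero (A : Module.End K V) (θ : ℕ → K) (s : ℕ) : PP A θ s 0 = 1 := rfl

theorem PP_succ_apply (A : Module.End K V) (θ : ℕ → K) (s n : ℕ) (u : V) :
    PP A θ s (n + 1) u = A (PP A θ s n u) - θ (n + s) • PP A θ s n u := by
  simp [PP]

theorem PP_apply (A : Module.End K V) (θ : ℕ → K) (s n : ℕ) (u : V) :
    PP A θ s n u = rr A (fun i => θ (i + s)) u n := by
  induction n with
  | zero => simp [PP, rr]
  | succ n ih => rw [PP_succ_apply, ih, rr]

theorem PP_zero_apply (A : Module.End K V) (θ : ℕ → K) (n : ℕ) (u : V) :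
    PP A θ 0 n u = rr A θ u n := PP_apply A θ 0 n u

theorem PP_add (A : Module.End K V) (θ : ℕ → K) (s n m : ℕ) (u : V) :
    PP A θ (s + n) m (PP A θ s n u) = PP A θ s (m + n) u := by
  induction m with
  | zero => simp [PP]
  | succ m ih =>
    have e : m + 1 + n = (m + n) + 1 := by omega
    rw [PP_succ_apply, ih, e, PP_succ_apply]
    have e2 : m + (s + n) = m + n + s := by omega
    rw [e2]

theorem rr_PP (A : Module.End K V) (θ : ℕ → K) (v : V) (s n : ℕ) :
    rr A θ v (s + n) = PP A θ s n (rr A θ v s) := by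
  induction n with
  | zero => simp [PP]
  | succ n ih =>
    rw [PP_succ_apply, ← ih]
    have e : n + s = s + n := by omega
    rw [e]
    rfl

/-- the lowering part `B r_k - θs_k r_k` -/
def ll (A B : Module.End K V) (θ θs : ℕ → K) (v : V) (k : ℕ) : V :=
  B (rr A θ v k) - θs k • rr A θ v k

/-- the accumulated lowering parts -/
def XX (A B : Module.End K V) (θ θs : ℕ → K) (v : V) : ℕ → V
  | 0 => ll A B θ θs v 1
  | k + 1 => (A (XX A B θ θs v k) - θ k • XX A B θ θs v k) + ll A B θ θs v (k + 2)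

theorem XX_eq_sum (A B : Module.End K V) (θ θs : ℕ → K) (v : V) (k : ℕ) :
    XX A B θ θs v k = ∑ j ∈ Finset.range (k + 1), PP A θ j (k - j) (ll A B θ θs v (j + 1)) := by
  induction k with
  | zero => simp [XX, PP]
  | succ k ih =>
    rw [Finset.sum_range_succ, XX, ih]
    congr 1
    · rw [map_sum, Finset.smul_sum, ← Finset.sum_sub_distrib]
      refine Finset.sum_congr rfl fun j hj => ?_
      have hj' : j ≤ k := by
        have := Finset.mem_range.1 hj
        omega
      have e : k + 1 - j = (k - j) + 1 := by omega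
      rw [e, PP_succ_apply]
      have e2 : k - j + j = k := by omega
      rw [e2]
    · simp [PP]

variable {A B : Module.End K V} {d : ℕ} {θ θs : ℕ → K} {L G : ℕ → Submodule K V}

theorem LevelData.rL (h : LevelData A B d θ θs L G) {v : V} (hv : v ∈ L 1) (k : ℕ) :
    rr A θ v k ∈ L (k + 1) := by
  induction k with
  | zero => exact hv
  | succ k ih =>
    rw [rr]
    exact Submodule.sub_mem _ (h.A_L _ _ ih) (Submodule.smul_mem _ _ (h.L_mono _ ih))

theorem LevelData.rG (h : LevelData A B d θ θs L G) (v : V) (k : ℕ) (hk : k ≤ d + 1) :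
    rr A θ v k ∈ G k := by
  induction k with
  | zero => rw [h.G_zero]; exact Submodule.mem_top
  | succ k ih =>
    rw [rr]
    exact h.A_G k (by omega) _ (ih (by omega))

theorem LevelData.r_zero (h : LevelData A B d θ θs L G) (v : V) (k : ℕ) (hk : d + 1 ≤ k) :
    rr A θ v k = 0 := by
  induction k, hk using Nat.le_induction with
  | base =>
    have := h.rG v (d + 1) le_rfl
    rw [h.G_bot] at this
    simpa using this
  | succ k hk ih => rw [rr, ih]; simp

theorem LevelData.rG' (h : LevelData A B d θ θs L G) (v : V) (k : ℕ) :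
    rr A θ v k ∈ G k := by
  by_cases hk : k ≤ d + 1
  · exact h.rG v k hk
  · rw [h.r_zero v k (by omega)]; exact Submodule.zero_mem _

theorem LevelData.lL (h : LevelData A B d θ θs L G) {v : V} (hv : v ∈ L 1) (k : ℕ) :
    ll A B θ θs v k ∈ L k := h.B_L k _ (h.rL hv k)

theorem LevelData.lG (h : LevelData A B d θ θs L G) (v : V) (k : ℕ) :
    ll A B θ θs v (k + 1) ∈ G k :=
  Submodule.sub_mem _ (h.B_G _ _ (h.rG' v (k + 1)))
    (Submodule.smul_mem _ _ (h.G_anti _ (h.rG' v (k + 1))))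

theorem LevelData.l_zero (h : LevelData A B d θ θs L G) {v : V} (hv : v ∈ L 1) :
    ll A B θ θs v 0 = 0 := by
  have := h.lL hv 0
  rw [h.L_zero] at this
  simpa using this

theorem LevelData.XL (h : LevelData A B d θ θs L G) {v : V} (hv : v ∈ L 1) (k : ℕ) :
    XX A B θ θs v k ∈ L (k + 1) := by
  induction k with
  | zero => exact h.lL hv 1
  | succ k ih =>
    rw [XX]
    exact Submodule.add_mem _ (Submodule.sub_mem _ (h.A_L _ _ ih)
      (Submodule.smul_mem _ _ (h.L_mono _ ih))) (h.lL hv (k + 2))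

theorem LevelData.XG (h : LevelData A B d θ θs L G) (v : V) (k : ℕ) (hk : k ≤ d + 1) :
    XX A B θ θs v k ∈ G k := by
  induction k with
  | zero => rw [h.G_zero]; exact Submodule.mem_top
  | succ k ih =>
    rw [XX]
    exact Submodule.add_mem _ (h.A_G k (by omega) _ (ih (by omega))) (h.lG v (k + 1))

theorem A_r (A : Module.End K V) (θ : ℕ → K) (v : V) (k : ℕ) :
    A (rr A θ v k) = rr A θ v (k + 1) + θ k • rr A θ v k := by
  rw [rr]; abel

theorem B_r (A B : Module.End K V) (θ θs : ℕ → K) (v : V) (k : ℕ) :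
    B (rr A θ v k) = ll A B θ θs v k + θs k • rr A θ v k := by
  rw [ll]; abel

theorem A_X (A B : Module.End K V) (θ θs : ℕ → K) (v : V) (k : ℕ) :
    A (XX A B θ θs v k) = XX A B θ θs v (k + 1) + θ k • XX A B θ θs v k
      - ll A B θ θs v (k + 2) := by
  rw [XX]; abel

/-- the components of the annihilating product -/
theorem LevelData.prod_form (h : LevelData A B d θ θs L G) {v : V} (hv : v ∈ L 1) (t : K)
    (ν : ℕ → K) (k : ℕ) : ∃ α β : K, ∃ w ∈ L k, rr (A + t • B) ν v (k + 2) =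
      rr A θ v (k + 2) + α • rr A θ v (k + 1) + β • rr A θ v k + t • XX A B θ θs v k + w := by
  induction k with
  | zero =>
    have h0 : A v = rr A θ v 1 + θ 0 • v := A_r A θ v 0
    have h0' : B v = ll A B θ θs v 0 + θs 0 • v := B_r A B θ θs v 0
    rw [h.l_zero hv, zero_add] at h0'
    have h1 : A (rr A θ v 1) = rr A θ v 2 + θ 1 • rr A θ v 1 := A_r A θ v 1
    have h1' : B (rr A θ v 1) = ll A B θ θs v 1 + θs 1 • rr A θ v 1 := B_r A B θ θs v 1
    refine ⟨(θ 1 + t * θs 1) + (θ 0 + t * θs 0 - ν 0) - ν 1,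
      (θ 0 + t * θs 0 - ν 0) * (θ 0 + t * θs 0) - ν 1 * (θ 0 + t * θs 0 - ν 0), 0,
      Submodule.zero_mem _, ?_⟩
    have e : rr (A + t • B) ν v 1 = rr A θ v 1 + (θ 0 + t * θs 0 - ν 0) • v := by
      show (A + t • B) v - ν 0 • v = _
      rw [LinearMap.add_apply, LinearMap.smul_apply, h0, h0']
      module
    have e2 : rr (A + t • B) ν v (0 + 2) = (A + t • B) (rr (A + t • B) ν v 1)
      - ν 1 • rr (A + t • B) ν v 1 := rfl
    rw [e2, e]
    simp only [LinearMap.add_apply, LinearMap.smul_apply, map_add, map_smul, h0, h0', h1, h1']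
    show _ = rr A θ v 2 + _ • rr A θ v 1 + _ • v + t • ll A B θ θs v 1 + 0
    module
  | succ k ih =>
    obtain ⟨α, β, w, hw, ih⟩ := ih
    have e2 : rr (A + t • B) ν v (k + 1 + 2) = (A + t • B) (rr (A + t • B) ν v (k + 2))
      - ν (k + 2) • rr (A + t • B) ν v (k + 2) := rfl
    have hAw : A w ∈ L (k + 1) := h.A_L _ _ hw
    have hBw : B w ∈ L (k + 1) := by
      have h1 := h.B_L (k + 1) w (h.L_mono _ (h.L_mono _ hw))
      have h2 := Submodule.add_mem _ h1 (Submodule.smul_mem _ (θs (k + 1)) (h.L_mono _ hw))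
      simpa using h2
    have hXL := h.XL hv k
    have hBX : B (XX A B θ θs v k) ∈ L (k + 1) := by
      have h1 := h.L_mono _ (h.B_L k _ hXL)
      have h2 := Submodule.add_mem _ h1 (Submodule.smul_mem _ (θs k) hXL)
      simpa using h2
    refine ⟨(θ (k + 2) + t * θs (k + 2)) + α - ν (k + 2),
      α * (θ (k + 1) + t * θs (k + 1)) + β - ν (k + 2) * α,
      (α * t) • ll A B θ θs v (k + 1) + (β * (θ k + t * θs k) - ν (k + 2) * β) • rr A θ v k
        + (β * t) • ll A B θ θs v k + (t * θ k - ν (k + 2) * t) • XX A B θ θs v k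
        + (t * t) • B (XX A B θ θs v k) + A w + t • B w - ν (k + 2) • w, ?_, ?_⟩
    · refine Submodule.sub_mem _ (Submodule.add_mem _ (Submodule.add_mem _ (Submodule.add_mem _
        (Submodule.add_mem _ (Submodule.add_mem _ (Submodule.add_mem _ ?_ ?_) ?_) ?_) ?_) ?_) ?_) ?_
      · exact Submodule.smul_mem _ _ (h.lL hv (k + 1))
      · exact Submodule.smul_mem _ _ (h.rL hv k)
      · exact Submodule.smul_mem _ _ (h.L_mono _ (h.lL hv k))
      · exact Submodule.smul_mem _ _ hXL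
      · exact Submodule.smul_mem _ _ hBX
      · exact hAw
      · exact Submodule.smul_mem _ _ hBw
      · exact Submodule.smul_mem _ _ (h.L_mono _ hw)
    · rw [e2, ih]
      simp only [LinearMap.add_apply, LinearMap.smul_apply, map_add, map_smul]
      rw [A_r A θ v (k + 2), A_r A θ v (k + 1), A_r A θ v k, B_r A B θ θs v (k + 2),
        B_r A B θ θs v (k + 1), B_r A B θ θs v k, A_X A B θ θs v k]
      show _ = rr A θ v (k + 2 + 1) + _ • rr A θ v (k + 1 + 1) + _ • rr A θ v (k + 1)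
        + t • XX A B θ θs v (k + 1) + _
      module

/-- `X_d = κ r_{d-1}` -/
theorem LevelData.X_eq (h : LevelData A B d θ θs L G) {v : V} (hv : v ∈ L 1) {t : K}
    (ht : t ≠ 0) (ν : ℕ → K) (hd : 1 ≤ d) (hann : rr (A + t • B) ν v (d + 1) = 0) :
    ∃ κ : K, XX A B θ θs v (d - 1) = κ • rr A θ v (d - 1) := by
  obtain ⟨e, rfl⟩ : ∃ e, d = e + 1 := ⟨d - 1, by omega⟩
  obtain ⟨α, β, w, hw, hk⟩ := h.prod_form hv t ν e
  rw [show e + 1 - 1 = e by omega]
  rw [show e + 1 + 1 = e + 2 by omega] at hann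
  rw [hann, h.r_zero v (e + 2) (by omega), zero_add] at hk
  have hXG := h.XG v e (by omega)
  have hw0 : w = 0 := by
    have hwG : w ∈ G e := by
      have : w = -(α • rr A θ v (e + 1) + β • rr A θ v e + t • XX A B θ θs v e) := by
        rw [eq_neg_iff_add_eq_zero, add_comm]; exact hk.symm
      rw [this]
      refine Submodule.neg_mem _ (Submodule.add_mem _ (Submodule.add_mem _ ?_ ?_) ?_)
      · exact Submodule.smul_mem _ _ (h.G_anti _ (h.rG' v (e + 1)))
      · exact Submodule.smul_mem _ _ (h.rG' v e)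
      · exact Submodule.smul_mem _ _ hXG
    have : w ∈ L e ⊓ G e := ⟨hw, hwG⟩
    rw [h.flat] at this
    simpa using this
  rw [hw0, add_zero] at hk
  have hα : α • rr A θ v (e + 1) = 0 := by
    have h1 : α • rr A θ v (e + 1) ∈ G (e + 1) := Submodule.smul_mem _ _ (h.rG' v (e + 1))
    have h2 : α • rr A θ v (e + 1) ∈ L (e + 1) := by
      have : α • rr A θ v (e + 1) = -(β • rr A θ v e + t • XX A B θ θs v e) := by
        rw [eq_neg_iff_add_eq_zero, ← add_assoc]; exact hk.symm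
      rw [this]
      exact Submodule.neg_mem _ (Submodule.add_mem _ (Submodule.smul_mem _ _ (h.rL hv e))
        (Submodule.smul_mem _ _ (h.XL hv e)))
    have : α • rr A θ v (e + 1) ∈ L (e + 1) ⊓ G (e + 1) := ⟨h2, h1⟩
    rw [h.flat] at this
    simpa using this
  rw [hα, zero_add] at hk
  refine ⟨-(t⁻¹ * β), ?_⟩
  have h3 : t • XX A B θ θs v e = -(β • rr A θ v e) := by
    rw [eq_neg_iff_add_eq_zero, add_comm]; exact hk.symm
  calc XX A B θ θs v e = t⁻¹ • (t • XX A B θ θs v e) := by rw [smul_smul, inv_mul_cancel₀ ht, one_smul]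
    _ = _ := by rw [h3, smul_neg, smul_smul, neg_smul]

section rel

variable {A B : Module.End K V} {a b c as bs cs : K}

theorem relJ (hrel : ∀ u, RelAt A B a b c u) (v : V) (i : ℕ) : ∃ σ : K,
    PP A (fun i => qf a b c (i : K)) i 3
        (ll A B (fun i => qf a b c (i : K)) (fun i => qf as bs cs (i : K)) v (i + 1))
      - (3 : K) • PP A (fun i => qf a b c (i : K)) (i + 1) 2
        (ll A B (fun i => qf a b c (i : K)) (fun i => qf as bs cs (i : K)) v (i + 2))
      + (3 : K) • PP A (fun i => qf a b c (i : K)) (i + 2) 1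
        (ll A B (fun i => qf a b c (i : K)) (fun i => qf as bs cs (i : K)) v (i + 3))
      - ll A B (fun i => qf a b c (i : K)) (fun i => qf as bs cs (i : K)) v (i + 4)
      + σ • rr A (fun i => qf a b c (i : K)) v (i + 3) = 0 := by
  have h := s1 (A := A) (B := B) a b c as bs cs ((i + 1 : ℕ) : K)
    (rr A (fun i => qf a b c (i : K)) v (i + 1)) (hrel _)
  have c0 : ((i + 1 : ℕ) : K) - 1 = (i : K) := by push_cast; ring
  have c1 : ((i + 1 : ℕ) : K) + 1 = ((i + 2 : ℕ) : K) := by push_cast; ring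
  have c2 : ((i + 1 : ℕ) : K) + 2 = ((i + 3 : ℕ) : K) := by push_cast; ring
  have c3 : ((i + 1 : ℕ) : K) + 3 = ((i + 4 : ℕ) : K) := by push_cast; ring
  rw [c0, c1, c2, c3] at h
  rw [PP_succ_apply, PP_succ_apply, PP_succ_apply, PP_succ_apply, PP_succ_apply, PP_succ_apply,
    PP_zero, PP_zero, PP_zero]
  rw [show 2 + i = i + 2 by omega, show 1 + i = i + 1 by omega, show 0 + i = i by omega,
    show 1 + (i + 1) = i + 2 by omega, show 0 + (i + 1) = i + 1 by omega,
    show 0 + (i + 2) = i + 2 by omega]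
  exact ⟨_, h⟩

theorem rel0 {v : V} (hrel : ∀ u, RelAt A B a b c u)
    (h0 : ll A B (fun i => qf a b c (i : K)) (fun i => qf as bs cs (i : K)) v 0 = 0) : ∃ σ : K,
    -((3 : K) • PP A (fun i => qf a b c (i : K)) 0 2
        (ll A B (fun i => qf a b c (i : K)) (fun i => qf as bs cs (i : K)) v 1))
      + (3 : K) • PP A (fun i => qf a b c (i : K)) 1 1
        (ll A B (fun i => qf a b c (i : K)) (fun i => qf as bs cs (i : K)) v 2)
      - ll A B (fun i => qf a b c (i : K)) (fun i => qf as bs cs (i : K)) v 3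
      + σ • rr A (fun i => qf a b c (i : K)) v 2 = 0 := by
  have h := s1 (A := A) (B := B) a b c as bs cs ((0 : ℕ) : K)
    (rr A (fun i => qf a b c (i : K)) v 0) (hrel _)
  have c1 : ((0 : ℕ) : K) + 1 = ((1 : ℕ) : K) := by push_cast; ring
  have c2 : ((0 : ℕ) : K) + 2 = ((2 : ℕ) : K) := by push_cast; ring
  have c3 : ((0 : ℕ) : K) + 3 = ((3 : ℕ) : K) := by push_cast; ring
  have z : st B as bs cs ((0 : ℕ) : K) (rr A (fun i => qf a b c (i : K)) v 0) = 0 := h0
  have z2 : ∀ x : K, st A a b c x (0 : V) = 0 := by intro x; simp [st]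
  rw [c1, c2, c3, z, z2, z2, z2, zero_sub] at h
  rw [PP_succ_apply, PP_succ_apply, PP_succ_apply, PP_zero, PP_zero]
  exact ⟨_, h⟩

end rel

/-- the components of `X_d`, raised to level `d - 1` -/
def TT (A B : Module.End K V) (θ θs : ℕ → K) (v : V) (d : ℕ) : ℕ → V
  | 0 => 0
  | j + 1 => PP A θ j (d - 1 - j) (ll A B θ θs v (j + 1))

theorem XX_eq_TT (A B : Module.End K V) (θ θs : ℕ → K) (v : V) (d : ℕ) (hd : 1 ≤ d) :
    XX A B θ θs v (d - 1) = ∑ j ∈ Finset.range (d + 1), TT A B θ θs v d j := by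
  rw [Finset.sum_range_succ', XX_eq_sum]
  have e : d - 1 + 1 = d := by omega
  rw [e]
  simp [TT]

theorem quad [Num17 K] (t : ℕ → V) (d : ℕ) (h0 : t 0 = 0)
    (hrec : ∀ j, j + 3 ≤ d → t j - (3 : K) • t (j + 1) + (3 : K) • t (j + 2) - t (j + 3) = 0)
    (j : ℕ) (hj : j ≤ d) :
    t j = (j : K) • ((2 : K)⁻¹ • ((4 : K) • t 1 - t 2))
      + ((j : K) ^ 2) • ((2 : K)⁻¹ • (t 2 - (2 : K) • t 1)) := by
  have h2 : (2 : K) ≠ 0 := nz2 (K := K)
  induction j using Nat.strong_induction_on with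
  | _ j ih =>
    match j, hj, ih with
    | 0, _, _ => simp [h0]
    | 1, _, _ =>
      match_scalars <;> field_simp <;> ring
    | 2, _, _ =>
      match_scalars <;> field_simp <;> ring
    | j + 3, hj, ih =>
      have h1 := ih j (by omega) (by omega)
      have h2 := ih (j + 1) (by omega) (by omega)
      have h3 := ih (j + 2) (by omega) (by omega)
      have hr := hrec j hj
      have e : t (j + 3) = t j - (3 : K) • t (j + 1) + (3 : K) • t (j + 2) := by
        rw [sub_eq_zero] at hr; exact hr.symm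
      rw [e, h1, h2, h3]
      push_cast
      module

theorem sum_quad [Num17 K] (p q : V) (n : ℕ) :
    ∑ j ∈ Finset.range (n + 1), ((j : K) • p + ((j : K) ^ 2) • q) =
      ((n : K) * (n + 1) / 2) • p + ((n : K) * (n + 1) * (2 * n + 1) / 6) • q := by
  have h2 : (2 : K) ≠ 0 := nz2 (K := K)
  have h6 : (6 : K) ≠ 0 := nz6 (K := K)
  induction n with
  | zero => simp
  | succ n ih =>
    rw [Finset.sum_range_succ, ih]
    push_cast
    match_scalars <;> field_simp <;> ring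

theorem TT_rel {A B : Module.End K V} {θ θs : ℕ → K} {v : V}
    (hJ : ∀ i : ℕ, ∃ σ : K, PP A θ i 3 (ll A B θ θs v (i + 1))
      - (3 : K) • PP A θ (i + 1) 2 (ll A B θ θs v (i + 2))
      + (3 : K) • PP A θ (i + 2) 1 (ll A B θ θs v (i + 3))
      - ll A B θ θs v (i + 4) + σ • rr A θ v (i + 3) = 0)
    (hZ : ∃ σ : K, -((3 : K) • PP A θ 0 2 (ll A B θ θs v 1))
      + (3 : K) • PP A θ 1 1 (ll A B θ θs v 2) - ll A B θ θs v 3 + σ • rr A θ v 2 = 0)
    {d : ℕ} (j : ℕ) (hj : j + 3 ≤ d) : ∃ σ : K,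
      TT A B θ θs v d j - (3 : K) • TT A B θ θs v d (j + 1) + (3 : K) • TT A B θ θs v d (j + 2)
        - TT A B θ θs v d (j + 3) + σ • rr A θ v (d - 1) = 0 := by
  cases j with
  | zero =>
    obtain ⟨m, rfl⟩ : ∃ m, d = m + 3 := ⟨d - 3, by omega⟩
    obtain ⟨σ, h⟩ := hZ
    refine ⟨σ, ?_⟩
    have h' := congrArg (PP A θ 2 m) h
    simp only [map_add, map_sub, map_neg, map_smul, map_zero] at h'
    have e1 : PP A θ 2 m (PP A θ 0 2 (ll A B θ θs v 1)) = PP A θ 0 (m + 2) (ll A B θ θs v 1) :=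
      PP_add A θ 0 2 m _
    have e2 : PP A θ 2 m (PP A θ 1 1 (ll A B θ θs v 2)) = PP A θ 1 (m + 1) (ll A B θ θs v 2) :=
      PP_add A θ 1 1 m _
    have e3 : PP A θ 2 m (rr A θ v 2) = rr A θ v (m + 3 - 1) := by
      rw [← rr_PP, show 2 + m = m + 3 - 1 by omega]
    rw [e1, e2, e3] at h'
    have f1 : TT A B θ θs v (m + 3) (0 + 1) = PP A θ 0 (m + 2) (ll A B θ θs v 1) := by
      rw [TT, show m + 3 - 1 - 0 = m + 2 by omega]
    have f2 : TT A B θ θs v (m + 3) (0 + 2) = PP A θ 1 (m + 1) (ll A B θ θs v 2) := by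
      show PP A θ 1 (m + 3 - 1 - 1) (ll A B θ θs v 2) = _
      rw [show m + 3 - 1 - 1 = m + 1 by omega]
    have f3 : TT A B θ θs v (m + 3) (0 + 3) = PP A θ 2 m (ll A B θ θs v 3) := by
      show PP A θ 2 (m + 3 - 1 - 2) (ll A B θ θs v 3) = _
      rw [show m + 3 - 1 - 2 = m by omega]
    rw [f1, f2, f3, TT, zero_sub]
    exact h'
  | succ i =>
    obtain ⟨m, rfl⟩ : ∃ m, d = m + i + 4 := ⟨d - i - 4, by omega⟩
    obtain ⟨σ, h⟩ := hJ i
    refine ⟨σ, ?_⟩
    have h' := congrArg (PP A θ (i + 3) m) h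
    simp only [map_add, map_sub, map_smul, map_zero] at h'
    have e1 : PP A θ (i + 3) m (PP A θ i 3 (ll A B θ θs v (i + 1)))
        = PP A θ i (m + 3) (ll A B θ θs v (i + 1)) := PP_add A θ i 3 m _
    have e2 : PP A θ (i + 3) m (PP A θ (i + 1) 2 (ll A B θ θs v (i + 2)))
        = PP A θ (i + 1) (m + 2) (ll A B θ θs v (i + 2)) := PP_add A θ (i + 1) 2 m _
    have e3 : PP A θ (i + 3) m (PP A θ (i + 2) 1 (ll A B θ θs v (i + 3)))
        = PP A θ (i + 2) (m + 1) (ll A B θ θs v (i + 3)) := PP_add A θ (i + 2) 1 m _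
    have e4 : PP A θ (i + 3) m (rr A θ v (i + 3)) = rr A θ v (m + i + 4 - 1) := by
      rw [← rr_PP, show i + 3 + m = m + i + 4 - 1 by omega]
    rw [e1, e2, e3, e4] at h'
    have f1 : TT A B θ θs v (m + i + 4) (i + 1) = PP A θ i (m + 3) (ll A B θ θs v (i + 1)) := by
      rw [TT, show m + i + 4 - 1 - i = m + 3 by omega]
    have f2 : TT A B θ θs v (m + i + 4) (i + 1 + 1)
        = PP A θ (i + 1) (m + 2) (ll A B θ θs v (i + 2)) := by
      rw [TT, show m + i + 4 - 1 - (i + 1) = m + 2 by omega]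
    have f3 : TT A B θ θs v (m + i + 4) (i + 1 + 2)
        = PP A θ (i + 2) (m + 1) (ll A B θ θs v (i + 3)) := by
      show PP A θ (i + 2) (m + i + 4 - 1 - (i + 2)) (ll A B θ θs v (i + 3)) = _
      rw [show m + i + 4 - 1 - (i + 2) = m + 1 by omega]
    have f4 : TT A B θ θs v (m + i + 4) (i + 1 + 3)
        = PP A θ (i + 3) m (ll A B θ θs v (i + 4)) := by
      show PP A θ (i + 3) (m + i + 4 - 1 - (i + 3)) (ll A B θ θs v (i + 4)) = _
      rw [show m + i + 4 - 1 - (i + 3) = m by omega]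
    rw [f1, f2, f3, f4]
    exact h'

theorem TT_last {A B : Module.End K V} {θ θs : ℕ → K} {v : V}
    (hJ : ∀ i : ℕ, ∃ σ : K, PP A θ i 3 (ll A B θ θs v (i + 1))
      - (3 : K) • PP A θ (i + 1) 2 (ll A B θ θs v (i + 2))
      + (3 : K) • PP A θ (i + 2) 1 (ll A B θ θs v (i + 3))
      - ll A B θ θs v (i + 4) + σ • rr A θ v (i + 3) = 0)
    (hZ : ∃ σ : K, -((3 : K) • PP A θ 0 2 (ll A B θ θs v 1))
      + (3 : K) • PP A θ 1 1 (ll A B θ θs v 2) - ll A B θ θs v 3 + σ • rr A θ v 2 = 0)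
    (e : ℕ) (hr : rr A θ v (e + 3) = 0) : ∃ σ : K,
      PP A θ (e + 1) 1 (TT A B θ θs v (e + 2) e - (3 : K) • TT A B θ θs v (e + 2) (e + 1)
        + (3 : K) • TT A B θ θs v (e + 2) (e + 2)) + σ • rr A θ v (e + 2) = 0 := by
  have hl : ll A B θ θs v (e + 3) = 0 := by rw [ll, hr]; simp
  cases e with
  | zero =>
    obtain ⟨σ, h⟩ := hZ
    refine ⟨σ, ?_⟩
    have hl' : ll A B θ θs v 3 = 0 := hl
    rw [hl', sub_zero] at h
    have f1 : TT A B θ θs v (0 + 2) (0 + 1) = PP A θ 0 1 (ll A B θ θs v 1) := rfl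
    have f2 : TT A B θ θs v (0 + 2) (0 + 2) = ll A B θ θs v 2 := rfl
    have e1 : PP A θ 1 1 (PP A θ 0 1 (ll A B θ θs v 1)) = PP A θ 0 2 (ll A B θ θs v 1) :=
      PP_add A θ 0 1 1 _
    rw [f1, f2, TT, zero_sub]
    simp only [map_add, map_neg, map_smul]
    show -((3 : K) • PP A θ 1 1 (PP A θ 0 1 (ll A B θ θs v 1)))
      + (3 : K) • PP A θ 1 1 (ll A B θ θs v 2) + σ • rr A θ v 2 = 0
    rw [e1]
    exact h
  | succ i =>
    obtain ⟨σ, h⟩ := hJ i
    refine ⟨σ, ?_⟩
    have hl' : ll A B θ θs v (i + 4) = 0 := hl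
    rw [hl', sub_zero] at h
    have f1 : TT A B θ θs v (i + 1 + 2) (i + 1) = PP A θ i 2 (ll A B θ θs v (i + 1)) := by
      rw [TT, show i + 1 + 2 - 1 - i = 2 by omega]
    have f2 : TT A B θ θs v (i + 1 + 2) (i + 1 + 1)
        = PP A θ (i + 1) 1 (ll A B θ θs v (i + 2)) := by
      rw [TT, show i + 1 + 2 - 1 - (i + 1) = 1 by omega]
    have f3 : TT A B θ θs v (i + 1 + 2) (i + 1 + 2) = ll A B θ θs v (i + 3) := by
      show PP A θ (i + 2) (i + 1 + 2 - 1 - (i + 2)) (ll A B θ θs v (i + 3)) = _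
      rw [show i + 1 + 2 - 1 - (i + 2) = 0 by omega, PP_zero]
      rfl
    have e1 : PP A θ (i + 2) 1 (PP A θ i 2 (ll A B θ θs v (i + 1)))
        = PP A θ i 3 (ll A B θ θs v (i + 1)) := PP_add A θ i 2 1 _
    have e2 : PP A θ (i + 2) 1 (PP A θ (i + 1) 1 (ll A B θ θs v (i + 2)))
        = PP A θ (i + 1) 2 (ll A B θ θs v (i + 2)) := PP_add A θ (i + 1) 1 1 _
    rw [f1, f2, f3]
    simp only [map_add, map_sub, map_smul]
    show PP A θ (i + 2) 1 (PP A θ i 2 (ll A B θ θs v (i + 1)))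
      - (3 : K) • PP A θ (i + 2) 1 (PP A θ (i + 1) 1 (ll A B θ θs v (i + 2)))
      + (3 : K) • PP A θ (i + 2) 1 (ll A B θ θs v (i + 3)) + σ • rr A θ v (i + 3) = 0
    rw [e1, e2]
    exact h

theorem core1 [Num17 K] (t : ℕ → V) (e : ℕ)
    (hK : ∀ l : ℕ, 0 < l → l ≤ e + 4 → (l : K) ≠ 0) (x : V) (T : Module.End K V) (h0 : t 0 = 0)
    (hrec : ∀ j, j + 3 ≤ e + 2 → ∃ σ : K,
      t j - (3 : K) • t (j + 1) + (3 : K) • t (j + 2) - t (j + 3) + σ • x = 0)
    (hsum : ∃ κ : K, ∑ j ∈ Finset.range (e + 2 + 1), t j = κ • x)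
    (hlast : ∃ σ : K, T (t e - (3 : K) • t (e + 1) + (3 : K) • t (e + 2)) + σ • T x = 0) :
    (∃ κ : K, T (t 1) = κ • T x) ∧ ((∃ κ : K, t 1 = κ • x) → ∃ κ : K, t 2 = κ • x) := by
  set S : Submodule K V := Submodule.span K {x} with hS
  set S' : Submodule K V := Submodule.span K {T x} with hS'
  have hx : S.mkQ x = 0 := by
    rw [Submodule.mkQ_apply, Submodule.Quotient.mk_eq_zero]
    exact Submodule.mem_span_singleton_self x
  have hTx : S'.mkQ (T x) = 0 := by
    rw [Submodule.mkQ_apply, Submodule.Quotient.mk_eq_zero]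
    exact Submodule.mem_span_singleton_self _
  have hle : S ≤ LinearMap.ker (S'.mkQ.comp T) := by
    rw [hS, Submodule.span_le, Set.singleton_subset_iff]
    exact hTx
  set φ := S.liftQ (S'.mkQ.comp T) hle with hφ
  have hφa : ∀ u, φ (S.mkQ u) = S'.mkQ (T u) := fun u => rfl
  set p : V ⧸ S := (2 : K)⁻¹ • ((4 : K) • S.mkQ (t 1) - S.mkQ (t 2)) with hp
  set q : V ⧸ S := (2 : K)⁻¹ • (S.mkQ (t 2) - (2 : K) • S.mkQ (t 1)) with hq
  have hquad : ∀ j, j ≤ e + 2 → S.mkQ (t j) = (j : K) • p + ((j : K) ^ 2) • q := by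
    intro j hj
    refine quad (fun j => S.mkQ (t j)) (e + 2) ?_ ?_ j hj
    · simp only [h0, map_zero]
    · intro j hj
      obtain ⟨σ, h⟩ := hrec j hj
      have h' := congrArg S.mkQ h
      simpa only [map_add, map_sub, map_smul, hx, smul_zero, add_zero, map_zero] using h'
  clear_value p q
  have hs : ((((e + 2 : ℕ) : K)) * (((e + 2 : ℕ) : K) + 1) / 2) • p
      + (((e + 2 : ℕ) : K) * (((e + 2 : ℕ) : K) + 1) * (2 * ((e + 2 : ℕ) : K) + 1) / 6) • q = 0 := by
    rw [← sum_quad]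
    obtain ⟨κ, h⟩ := hsum
    have h' := congrArg S.mkQ h
    rw [map_sum, map_smul, hx, smul_zero] at h'
    rw [← h']
    refine Finset.sum_congr rfl fun j hj => ?_
    have := Finset.mem_range.1 hj
    exact (hquad j (by omega)).symm
  have n0 : (((e + 2 : ℕ) : K)) ≠ 0 := hK _ (by omega) (by omega)
  have n1 : (((e + 2 : ℕ) : K)) + 1 ≠ 0 := by
    have : ((e + 2 + 1 : ℕ) : K) ≠ 0 := hK _ (by omega) (by omega)
    push_cast at this ⊢
    exact this
  have n2 : (((e + 2 : ℕ) : K)) + 2 ≠ 0 := by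
    have : ((e + 2 + 2 : ℕ) : K) ≠ 0 := hK _ (by omega) (by omega)
    push_cast at this ⊢
    exact this
  have n3 : (((e + 2 : ℕ) : K)) - 1 ≠ 0 := by
    have : ((e + 1 : ℕ) : K) ≠ 0 := hK _ (by omega) (by omega)
    push_cast at this ⊢
    intro h
    apply this
    rw [← h]; ring
  have three : (3 : K) ≠ 0 := nz3 (K := K)
  have two : (2 : K) ≠ 0 := nz2 (K := K)
  have six : (6 : K) ≠ 0 := nz6 (K := K)
  generalize hn : (((e + 2 : ℕ) : K)) = n at *
  have hpq : p = (-((2 * n + 1) / 3)) • q := by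
    have h1 : (n * (n + 1) / 2) • (p + ((2 * n + 1) / 3) • q) = 0 := by
      rw [← hs]
      match_scalars <;> field_simp
      ring
    rcases smul_eq_zero.1 h1 with h2 | h2
    · exfalso
      rw [div_eq_zero_iff, mul_eq_zero] at h2
      rcases h2 with (h2 | h2) | h2
      · exact n0 h2
      · exact n1 h2
      · exact two h2
    · rw [neg_smul]
      exact eq_neg_of_add_eq_zero_left h2
  have ht1 : S.mkQ (t 1) = (-(2 * (n - 1) / 3)) • q := by
    have := hquad 1 (by omega)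
    rw [this, hpq]
    match_scalars
    field_simp
    ring
  have ht2 : S.mkQ (t 2) = (2 : K) • p + (4 : K) • q := by
    have := hquad 2 (by omega)
    rw [this]
    match_scalars <;> ring
  refine ⟨?_, ?_⟩
  · obtain ⟨σ, h⟩ := hlast
    have h' := congrArg S'.mkQ h
    rw [map_add, map_smul, hTx, smul_zero, add_zero, map_zero, ← hφa] at h'
    have e0 : ((e : ℕ) : K) = n - 2 := by rw [← hn]; push_cast; ring
    have e1 : ((e + 1 : ℕ) : K) = n - 1 := by rw [← hn]; push_cast; ring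
    rw [map_add, map_sub, map_smul, map_smul, hquad e (by omega), hquad (e + 1) (by omega),
      hquad (e + 2) le_rfl, e0, e1, hn, hpq] at h'
    have h3 : ((n + 1) * (n + 2) / 3) • φ q = 0 := by
      rw [← h', ← map_smul]
      congr 1
      match_scalars
      field_simp
      ring
    have h4 : φ q = 0 := by
      rcases smul_eq_zero.1 h3 with h2 | h2
      · exfalso
        rw [div_eq_zero_iff, mul_eq_zero] at h2
        rcases h2 with (h2 | h2) | h2
        · exact n1 h2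
        · exact n2 h2
        · exact three h2
      · exact h2
    have h5 : S'.mkQ (T (t 1)) = 0 := by
      rw [← hφa, ht1, map_smul, h4, smul_zero]
    rw [Submodule.mkQ_apply, Submodule.Quotient.mk_eq_zero, hS', Submodule.mem_span_singleton] at h5
    obtain ⟨κ, h6⟩ := h5
    exact ⟨κ, h6.symm⟩
  · rintro ⟨κ, h⟩
    have h1 : S.mkQ (t 1) = 0 := by rw [h, map_smul, hx, smul_zero]
    rw [h1] at ht1
    have hq0 : q = 0 := by
      rcases smul_eq_zero.1 ht1.symm with h2 | h2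
      · exfalso
        rw [neg_eq_zero, div_eq_zero_iff, mul_eq_zero] at h2
        rcases h2 with (h2 | h2) | h2
        · exact two h2
        · exact n3 h2
        · exact three h2
      · exact h2
    have h5 : S.mkQ (t 2) = 0 := by
      rw [ht2, hpq, hq0]; simp
    rw [Submodule.mkQ_apply, Submodule.Quotient.mk_eq_zero, hS, Submodule.mem_span_singleton] at h5
    obtain ⟨κ, h6⟩ := h5
    exact ⟨κ, h6.symm⟩

theorem core2 [Num17 K] {A B : Module.End K V} {θ θs : ℕ → K} {L G : ℕ → Submodule K V} {d : ℕ}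
    (hK : Good K d)
    (h : LevelData A B d θ θs L G) {v : V} (hv : v ∈ L 1)
    (hJ : ∀ i : ℕ, ∃ σ : K, PP A θ i 3 (ll A B θ θs v (i + 1))
      - (3 : K) • PP A θ (i + 1) 2 (ll A B θ θs v (i + 2))
      + (3 : K) • PP A θ (i + 2) 1 (ll A B θ θs v (i + 3))
      - ll A B θ θs v (i + 4) + σ • rr A θ v (i + 3) = 0)
    (hZ : ∃ σ : K, -((3 : K) • PP A θ 0 2 (ll A B θ θs v 1))
      + (3 : K) • PP A θ 1 1 (ll A B θ θs v 2) - ll A B θ θs v 3 + σ • rr A θ v 2 = 0)
    {t : K} (ht : t ≠ 0) (ν : ℕ → K) (hann : rr (A + t • B) ν v (d + 1) = 0) (j : ℕ)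
    (hj : j < d) : ∃ κ : K, ll A B θ θs v (j + 1) = κ • rr A θ v j := by
  obtain ⟨κ₀, hX⟩ := h.X_eq hv ht ν (by omega) hann
  rcases Nat.lt_or_ge d 2 with hd | hd
  · have hd1 : d = 1 := by omega
    subst hd1
    have hj0 : j = 0 := by omega
    subst hj0
    exact ⟨κ₀, hX⟩
  obtain ⟨e, rfl⟩ : ∃ e, d = e + 2 := ⟨d - 2, by omega⟩
  have hxT : PP A θ (e + 1) 1 (rr A θ v (e + 1)) = rr A θ v (e + 2) := (rr_PP A θ v (e + 1) 1).symm
  have hsum : ∃ κ : K, ∑ j ∈ Finset.range (e + 2 + 1), TT A B θ θs v (e + 2) j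
      = κ • rr A θ v (e + 1) := by
    refine ⟨κ₀, ?_⟩
    rw [← XX_eq_TT A B θ θs v (e + 2) (by omega)]
    exact hX
  have hlast := TT_last hJ hZ e (h.r_zero v (e + 3) (by omega))
  rw [← hxT] at hlast
  obtain ⟨⟨κ₁, h1⟩, h2⟩ := core1 (TT A B θ θs v (e + 2)) e
    (fun l hl hl' => hK.ne l hl (by omega)) (rr A θ v (e + 1))
    (PP A θ (e + 1) 1) rfl (fun j hj => TT_rel hJ hZ j hj) hsum hlast
  have hT1 : TT A B θ θs v (e + 2) 1 = PP A θ 0 (e + 1) (ll A B θ θs v 1) := rfl
  have hl1 : ll A B θ θs v 1 = κ₁ • v := by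
    rw [hT1, hxT] at h1
    have e1 : PP A θ (e + 1) 1 (PP A θ 0 (e + 1) (ll A B θ θs v 1))
        = PP A θ 0 (e + 2) (ll A B θ θs v 1) := by
      have := PP_add A θ 0 (e + 1) 1 (ll A B θ θs v 1)
      rw [show 0 + (e + 1) = e + 1 by omega, show 1 + (e + 1) = e + 2 by omega] at this
      exact this
    rw [e1, ← PP_zero_apply A θ (e + 2) v, ← map_smul, ← sub_eq_zero, ← map_sub,
      PP_zero_apply] at h1
    exact sub_eq_zero.1 (h.inj0 _ (Submodule.sub_mem _ (h.lL hv 1)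
      (Submodule.smul_mem _ _ hv)) h1)
  obtain ⟨κ₂, h3⟩ := h2 ⟨κ₁, by rw [hT1, hl1, map_smul, PP_zero_apply]⟩
  have hl2 : ll A B θ θs v 2 = κ₂ • rr A θ v 1 := by
    have e1 : TT A B θ θs v (e + 2) 2 = PP A θ 1 e (ll A B θ θs v 2) := by
      show PP A θ 1 (e + 2 - 1 - 1) (ll A B θ θs v 2) = _
      rw [show e + 2 - 1 - 1 = e by omega]
    have e2 : rr A θ v (e + 1) = PP A θ 1 e (rr A θ v 1) := by
      rw [← rr_PP, show 1 + e = e + 1 by omega]
    rw [e1, e2, ← map_smul, ← sub_eq_zero, ← map_sub, PP_apply] at h3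
    refine sub_eq_zero.1 (h.inj1 hd _ (Submodule.sub_mem _ (h.lL hv 2)
      (Submodule.smul_mem _ _ (h.rL hv 1))) ?_)
    rw [show e + 2 - 2 = e by omega]
    exact h3
  clear hj
  induction j using Nat.strong_induction_on with
  | _ j ih =>
    match j, ih with
    | 0, _ => exact ⟨κ₁, hl1⟩
    | 1, _ => exact ⟨κ₂, hl2⟩
    | 2, _ =>
      obtain ⟨σ, hz⟩ := hZ
      refine ⟨-(3 * κ₁) + 3 * κ₂ + σ, ?_⟩
      have e1 : PP A θ 0 2 v = rr A θ v 2 := PP_zero_apply A θ 2 v
      have e2 : PP A θ 1 1 (rr A θ v 1) = rr A θ v 2 := (rr_PP A θ v 1 1).symm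
      rw [hl1, hl2, map_smul, map_smul, e1, e2] at hz
      have hz' : ll A B θ θs v 3 = -((3 : K) • κ₁ • rr A θ v 2) + (3 : K) • κ₂ • rr A θ v 2
          + σ • rr A θ v 2 := by
        rw [← sub_eq_zero, ← neg_eq_zero, ← hz]; abel
      show ll A B θ θs v 3 = _
      rw [hz']
      module
    | i + 3, ih =>
      obtain ⟨σ, hz⟩ := hJ i
      obtain ⟨x0, hx0⟩ := ih i (by omega)
      obtain ⟨x1, hx1⟩ := ih (i + 1) (by omega)
      obtain ⟨x2, hx2⟩ := ih (i + 2) (by omega)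
      refine ⟨x0 - 3 * x1 + 3 * x2 + σ, ?_⟩
      have hx1' : ll A B θ θs v (i + 2) = x1 • rr A θ v (i + 1) := hx1
      have hx2' : ll A B θ θs v (i + 3) = x2 • rr A θ v (i + 2) := hx2
      have e0 : PP A θ i 3 (rr A θ v i) = rr A θ v (i + 3) := (rr_PP A θ v i 3).symm
      have e1 : PP A θ (i + 1) 2 (rr A θ v (i + 1)) = rr A θ v (i + 3) :=
        (rr_PP A θ v (i + 1) 2).symm
      have e2 : PP A θ (i + 2) 1 (rr A θ v (i + 2)) = rr A θ v (i + 3) :=
        (rr_PP A θ v (i + 2) 1).symm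
      rw [hx0, hx1', hx2', map_smul, map_smul, map_smul, e0, e1, e2] at hz
      have hz' : ll A B θ θs v (i + 4) = x0 • rr A θ v (i + 3) - (3 : K) • x1 • rr A θ v (i + 3)
          + (3 : K) • x2 • rr A θ v (i + 3) + σ • rr A θ v (i + 3) := by
        rw [← sub_eq_zero, ← neg_eq_zero, ← hz]; abel
      show ll A B θ θs v (i + 4) = _
      rw [hz']
      module

end aux

variable {K V : Type*} [Field K] [Num17 K] [AddCommGroup V] [Module K V]

theorem partI {A B : Module.End K V} {d : ℕ} {a b c as bs cs t : K}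
    (hK : Good K d) (ht : t ≠ 0)
    {L G : ℕ → Submodule K V}
    (hLD : LevelData A B d (fun i => qf a b c (i : K)) (fun i => qf as bs cs (i : K)) L G)
    (hrel : ∀ u, RelAt A B a b c u)
    (hirr : ∀ W : Submodule K V, (∀ w ∈ W, A w ∈ W) → (∀ w ∈ W, B w ∈ W) → W = ⊥ ∨ W = ⊤)
    (hL1 : L 1 ≠ ⊥) (ν : ℕ → K) (hann : ∀ v : V, rr (A + t • B) ν v (d + 1) = 0) :
    ∃ v ∈ L 1, v ≠ 0 ∧ Submodule.span K
      (Set.range fun i : Fin (d + 1) => rr A (fun i => qf a b c (i : K)) v i) = ⊤ := by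
  obtain ⟨v, hv, hv0⟩ := Submodule.exists_mem_ne_zero_of_ne_bot hL1
  refine ⟨v, hv, hv0, ?_⟩
  have hJ := relJ (as := as) (bs := bs) (cs := cs) hrel v
  have hZ := rel0 (as := as) (bs := bs) (cs := cs) (v := v) hrel (hLD.l_zero hv)
  have hc := fun j hj => core2 hK hLD hv hJ hZ ht ν (hann v) j hj
  have hl0 := hLD.l_zero hv
  have hrd := hLD.r_zero v
  generalize (fun i : ℕ => qf a b c (i : K)) = θ at *
  generalize (fun i : ℕ => qf as bs cs (i : K)) = θs at *
  set W : Submodule K V := Submodule.span K (Set.range fun i : Fin (d + 1) => rr A θ v i) with hW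
  have hmem : ∀ k : ℕ, rr A θ v k ∈ W := by
    intro k
    by_cases hk : k < d + 1
    · exact Submodule.subset_span ⟨⟨k, hk⟩, rfl⟩
    · rw [hrd k (by omega)]; exact Submodule.zero_mem _
  have hA : ∀ w ∈ W, A w ∈ W := by
    intro w hw
    have : W ≤ W.comap A := by
      rw [hW, Submodule.span_le]
      rintro _ ⟨i, rfl⟩
      show A (rr A θ v i) ∈ W
      rw [A_r]
      exact Submodule.add_mem _ (hmem _) (Submodule.smul_mem _ _ (hmem _))
    exact this hw
  have hB : ∀ w ∈ W, B w ∈ W := by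
    intro w hw
    have : W ≤ W.comap B := by
      rw [hW, Submodule.span_le]
      rintro _ ⟨i, rfl⟩
      show B (rr A θ v i) ∈ W
      rw [B_r A B θ θs]
      refine Submodule.add_mem _ ?_ (Submodule.smul_mem _ _ (hmem _))
      obtain ⟨i, hi⟩ := i
      cases i with
      | zero => show ll A B θ θs v 0 ∈ W; rw [hl0]; exact Submodule.zero_mem _
      | succ j =>
        obtain ⟨κ, hκ⟩ := hc j (by omega)
        show ll A B θ θs v (j + 1) ∈ W
        rw [hκ]
        exact Submodule.smul_mem _ _ (hmem _)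
    exact this hw
  rcases hirr W hA hB with h | h
  · exfalso
    have := hmem 0
    rw [h] at this
    exact hv0 ((Submodule.mem_bot K).1 this)
  · exact h

end TDP
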