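import Pool.Agent.Lib.MP_d0515f_al.Flats
import Pool.Agent.Lib.MP_d0515f_al.PartI
import Pool.Agent.Lib.MP_d0515f_al.Chain
import Pool.Agent.Lib.MP_d0515f_al.Num

/-! The value `t = 0`, and the reduction to `dim V = d + 1`. -/

namespace TDP

open Module Polynomial

variable {K V : Type*} [Field K] [AddCommGroup V] [Module K V]
  [FiniteDimensional K V]
variable {A B : Module.End K V} {d δ : ℕ} {θ θs : ℕ → K}

theorem HalfTD.minpoly_eq (h : HalfTD A B d θ) :
    minpoly K A = ∏ i ∈ Finset.range (d + 1), (X - C (θ i)) := by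
  have hz : aeval A (∏ i ∈ Finset.range (d + 1), (X - C (θ i))) = 0 := by
    ext v
    have hv : v ∈ (⨆ i : ℤ, eigS A d θ i) := by rw [h.iSup_eq]; trivial
    have hle : (⨆ i : ℤ, eigS A d θ i) ≤
        LinearMap.ker (aeval A (∏ i ∈ Finset.range (d + 1), (X - C (θ i)))) := by
      apply iSup_le
      intro i w hw
      rw [LinearMap.mem_ker]
      rcases mem_eigS A θ hw with rfl | ⟨j, hj, -, hw'⟩
      · simp
      · rw [← rr_eq_aeval, rr_smul_eig A θ hw']
        rw [Finset.prod_eq_zero (i := j) (Finset.mem_range.mpr (by omega)) (sub_self _), zero_smul]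
    exact LinearMap.mem_ker.mp (hle hv)
  have hmon : (minpoly K A).Monic := minpoly.monic (Algebra.IsIntegral.isIntegral A)
  have hmon' : (∏ i ∈ Finset.range (d + 1), (X - C (θ i))).Monic :=
    monic_prod_of_monic _ _ fun i _ => monic_X_sub_C _
  have hdvd : ∏ i ∈ Finset.range (d + 1), (X - C (θ i)) ∣ minpoly K A := by
    apply Finset.prod_dvd_of_coprime
    · intro i hi j hj hij
      apply Polynomial.isCoprime_X_sub_C_of_isUnit_sub
      have hi' := Finset.mem_range.mp (Finset.mem_coe.mp hi)
      have hj' := Finset.mem_range.mp (Finset.mem_coe.mp hj)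
      exact (sub_ne_zero.mpr fun he => hij (h.inj i j (by omega) (by omega) he)).isUnit
    · intro i hi
      rw [dvd_iff_isRoot]
      apply Module.End.isRoot_of_hasEigenvalue
      exact h.ne_bot i (by have := Finset.mem_range.mp hi; omega)
  exact Polynomial.eq_of_monic_of_associated hmon hmon'
    (associated_of_dvd_dvd (minpoly.dvd K A hz) hdvd)

/-- `t = 0` is always feasible -/
theorem feasible_zero [Num17 K] (h : IsTDPair A B d δ θ θs) (hβ : BetaTwo d θ) :
    Feasible A B d 0 := by
  obtain ⟨a, b, c, hθ, -⟩ := hβ.quadratic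
  refine ⟨a, b, c, ?_⟩
  rw [zero_smul, add_zero, h.left.minpoly_eq]
  apply Finset.prod_congr rfl
  intro i hi
  rw [hθ i (by have := Finset.mem_range.mp hi; omega)]
  rfl

/-- a nonzero feasible value exists only when all eigenspaces have dimension one -/
theorem finrank_of_feasible [Num17 K] (hK : Good K d)
    (h : IsTDPair A B d δ θ θs) (hβ : BetaTwo d θ)
    (hβs : BetaTwo δ θs) {t : K} (ht : t ≠ 0) (hf : Feasible A B d t) :
    finrank K V = d + 1 := by
  obtain rfl := h.diam_eq
  obtain ⟨a, b, c, hθ, -⟩ := hβ.quadratic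
  obtain ⟨as, bs, cs, hθs, -⟩ := hβs.quadratic
  have h' : IsTDPair A B d d (fun i => qf a b c (i : K)) (fun i => qf as bs cs (i : K)) :=
    h.congr (fun i hi => (hθ i hi).symm) (fun i hi => (hθs i hi).symm)
  obtain ⟨a0, b0, c0, hm⟩ := hf
  obtain ⟨v, -, -, hs⟩ := partI hK ht h'.levelData h'.left.rel h'.irred h'.LT_one_ne_bot
    (fun i : ℕ => a0 + b0 * (i : K) + c0 * (i : K) ^ 2)
    (fun v => rr_eq_zero_of_minpoly _ hm v)
  apply le_antisymm
  · have h1 := finrank_range_le_card (R := K)
      (fun i : Fin (d + 1) => rr A (fun i => qf a b c (i : K)) v i)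
    rw [Set.finrank, hs, finrank_top, Fintype.card_fin] at h1
    exact h1
  · exact h'.le_finrank

end TDP
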