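import Pool.Agent.Lib.MP_d0515f_al.SmallG
import Pool.Agent.Lib.MP_d0515f_al.Main

/-! The feasible parameters for `3 ≤ d ≤ 6`. -/

namespace TDP

open Module Polynomial

variable {K V : Type*} [Field K] [Num17 K] [AddCommGroup V] [Module K V]
  [FiniteDimensional K V] {A B : Module.End K V} {d δ : ℕ} {θ θs : ℕ → K}

/-- the complete answer for `d = 3, 4, 5` -/
theorem feasible_iff_mid (hK : Good K d) (h : IsTDPair A B d δ θ θs) (hβ : BetaTwo d θ) (hβs : BetaTwo δ θs)
    (hd : 3 ≤ d) (hd' : d ≤ 5) (t : K) :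
    Feasible A B d t ↔ t = 0 ∨ (finrank K V = d + 1 ∧
      ∃ β γ : K, MidRel d (cc θ) (t * cc θs) (bb d θ ^ 2) ((t * bb d θs) ^ 2)
        (rho A B d t) (β ^ 2) γ) := by
  constructor
  · intro hf
    by_cases ht : t = 0
    · exact Or.inl ht
    · right
      have hfin := finrank_of_feasible hK h hβ hβs ht hf
      exact ⟨hfin, (feas_mid hK h hβ hβs hd hd' hfin t).1 hf⟩
  · rintro (rfl | ⟨hfin, hx⟩)
    · exact feasible_zero h hβ
    · exact (feas_mid hK h hβ hβs hd hd' hfin t).2 hx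

/-- the complete answer for `d = 6` -/
theorem feasible_iff_six (hK : Good K 6) (h : IsTDPair A B 6 δ θ θs) (hβ : BetaTwo 6 θ) (hβs : BetaTwo δ θs)
    (t : K) :
    Feasible A B 6 t ↔ t = 0 ∨ (finrank K V = 7 ∧
      ((cc θ = t * cc θs ∧ IsSquare (rho A B 6 t - 3 * cc θ ^ 2)) ∨
      (IsSquare (3 : K) ∧
        Spor7 (bb 6 θ) (t * bb 6 θs) (cc θ) (t * cc θs) (rho A B 6 t)))) := by
  constructor
  · intro hf
    by_cases ht : t = 0
    · exact Or.inl ht
    · right
      have hfin : finrank K V = 7 := finrank_of_feasible hK h hβ hβs ht hf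
      exact ⟨hfin, (feas_six hK h hβ hβs hfin ht).1 hf⟩
  · rintro (rfl | ⟨hfin, hx⟩)
    · exact feasible_zero h hβ
    · by_cases ht : t = 0
      · subst ht; exact feasible_zero h hβ
      · exact (feas_six hK h hβ hβs hfin ht).2 hx

end TDP
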