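import Pool.Agent.Lib.MP_d0515f_al.Defs
import Pool.Agent.Lib.MP_d0515f_al.Num

/-! Quadratic eigenvalue sequences and the cubic relation of a tridiagonal pair with `β = 2`. -/

namespace TDP

open Module

variable {K V : Type*} [Field K] [AddCommGroup V] [Module K V]

/-- the quadratic function `a + b x + c x^2` -/
def qf (a b c x : K) : K := a + b * x + c * x ^ 2

/-- the cubic relation, evaluated at `u` -/
def RelAt (A B : Module.End K V) (a b c : K) (u : V) : Prop :=
  A (A (A (B u))) - (3 : K) • A (A (B (A u))) + (3 : K) • A (B (A (A u))) - B (A (A (A u)))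
    - (2 * c) • (A (A (B u)) - B (A (A u)))
    - (b ^ 2 - c ^ 2 - 4 * a * c) • (A (B u) - B (A u)) = 0

theorem BetaTwo.quadratic [Num17 K] {d : ℕ} {θ : ℕ → K} (h : BetaTwo d θ) :
    ∃ a b c : K, (∀ i : ℕ, i ≤ d → θ i = qf a b c (i : K)) ∧
      (2 ≤ d → 2 * c = θ 0 - 2 * θ 1 + θ 2) := by
  have h2 := nz2 (K := K)
  by_cases hd : 2 ≤ d
  · refine ⟨θ 0, θ 1 - θ 0 - (θ 0 - 2 * θ 1 + θ 2) / 2, (θ 0 - 2 * θ 1 + θ 2) / 2, ?_, ?_⟩
    · intro i
      induction i using Nat.strong_induction_on with
      | _ i ih =>
        intro hi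
        match i, ih, hi with
        | 0, _, _ => simp [qf]
        | 1, _, _ =>
          simp only [qf]
          push_cast
          ring
        | 2, _, _ =>
          simp only [qf]
          push_cast
          field_simp
          ring
        | n + 3, ih, hi =>
          have h3 := h (n + 2) (by omega) (by omega)
          have e1 : n + 2 - 2 = n := by omega
          have e2 : n + 2 - 1 = n + 1 := by omega
          have e3 : n + 2 + 1 = n + 3 := by omega
          rw [e1, e2, e3] at h3
          have i0 := ih n (by omega) (by omega)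
          have i1 := ih (n + 1) (by omega) (by omega)
          have i2 := ih (n + 2) (by omega) (by omega)
          have : θ (n + 3) = θ n - 3 * (θ (n + 1) - θ (n + 2)) := by
            linear_combination -h3
          rw [this, i0, i1, i2]
          simp only [qf]
          push_cast
          field_simp
          ring
    · intro _
      field_simp
  · refine ⟨θ 0, θ 1 - θ 0, 0, ?_, fun h2 => absurd h2 hd⟩
    intro i hi
    have : i = 0 ∨ i = 1 := by omega
    rcases this with rfl | rfl
    · simp [qf]
    · simp [qf]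

theorem eigS_congr (A : Module.End K V) {d : ℕ} {θ θ' : ℕ → K}
    (hθ : ∀ i : ℕ, i ≤ d → θ' i = θ i) : eigS A d θ' = eigS A d θ := by
  funext i
  unfold eigS
  by_cases hi : 0 ≤ i ∧ i ≤ (d : ℤ)
  · rw [if_pos hi, if_pos hi, hθ _ (by omega)]
  · rw [if_neg hi, if_neg hi]

theorem HalfTD.congr {A B : Module.End K V} {d : ℕ} {θ θ' : ℕ → K} (h : HalfTD A B d θ)
    (hθ : ∀ i : ℕ, i ≤ d → θ' i = θ i) : HalfTD A B d θ' := by
  have he := eigS_congr A hθ
  refine ⟨?_, ?_, ?_, ?_⟩
  · intro i j hi hj hij
    rw [hθ i hi, hθ j hj] at hij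
    exact h.inj i j hi hj hij
  · intro i hi
    rw [hθ i hi]
    exact h.ne_bot i hi
  · rw [he]
    exact h.iSup_eq
  · rw [he]
    exact h.tri

theorem IsTDPair.congr {A B : Module.End K V} {d δ : ℕ} {θ θ' θs θs' : ℕ → K}
    (h : IsTDPair A B d δ θ θs) (hθ : ∀ i : ℕ, i ≤ d → θ' i = θ i)
    (hθs : ∀ i : ℕ, i ≤ δ → θs' i = θs i) : IsTDPair A B d δ θ' θs' :=
  ⟨h.left.congr hθ, h.right.congr hθs, h.irred⟩

theorem eigS_apply {A : Module.End K V} {d : ℕ} {a b c : K} {i : ℤ} {v : V}
    (hv : v ∈ eigS A d (fun i => qf a b c (i : K)) i) : A v = qf a b c (i : K) • v := by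
  unfold eigS at hv
  split_ifs at hv with hi
  · rw [Module.End.mem_eigenspace_iff] at hv
    have : ((i.toNat : ℕ) : K) = (i : K) := by
      have h1 : ((i.toNat : ℕ) : ℤ) = i := Int.toNat_of_nonneg hi.1
      rw [← Int.cast_natCast, h1]
    rw [hv]
    show qf a b c ((i.toNat : ℕ) : K) • v = _
    rw [this]
  · rw [Submodule.mem_bot] at hv
    rw [hv]
    simp

/-- the cubic relation as a linear map -/
def relMap (A B : Module.End K V) (a b c : K) : V →ₗ[K] V :=
  A * (A * (A * B)) - (3 : K) • (A * (A * (B * A))) + (3 : K) • (A * (B * (A * A)))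
    - B * (A * (A * A))
    - (2 * c) • (A * (A * B) - B * (A * A))
    - (b ^ 2 - c ^ 2 - 4 * a * c) • (A * B - B * A)

theorem relMap_iff (A B : Module.End K V) (a b c : K) (u : V) :
    RelAt A B a b c u ↔ relMap A B a b c u = 0 := by
  unfold RelAt relMap
  simp only [LinearMap.sub_apply, LinearMap.add_apply, LinearMap.smul_apply, Module.End.mul_apply]

/-- the cubic relation holds -/
theorem HalfTD.rel {A B : Module.End K V} {d : ℕ} {a b c : K}
    (h : HalfTD A B d (fun i => qf a b c (i : K))) (u : V) : RelAt A B a b c u := by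
  rw [relMap_iff]
  have key : (⨆ i : ℤ, eigS A d (fun i => qf a b c (i : K)) i) ≤
      LinearMap.ker (relMap A B a b c) := by
    refine iSup_le fun i v hv => ?_
    rw [LinearMap.mem_ker, ← relMap_iff]
    have hA := eigS_apply hv
    have hB := h.tri i v hv
    obtain ⟨xy, hxy, z, hz, hs⟩ := Submodule.mem_sup.1 hB
    obtain ⟨x, hx, y, hy, hs'⟩ := Submodule.mem_sup.1 hxy
    have hx' := eigS_apply hx
    have hy' := eigS_apply hy
    have hz' := eigS_apply hz
    have hBv : B v = x + y + z := by rw [hs', hs]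
    unfold RelAt
    simp only [hA, hBv, map_smul, map_add, hx', hy', hz', smul_smul, smul_add]
    simp only [qf]
    push_cast
    module
  have : u ∈ LinearMap.ker (relMap A B a b c) := by
    apply key
    rw [h.iSup_eq]
    trivial
  exact this

/-- one step `w ↦ T w - q(x) w` -/
def st (T : Module.End K V) (a b c x : K) (w : V) : V := T w - qf a b c x • w

/-- the relation rewritten with raising steps `R_x = A - θ(x)` and lowering steps
`L_x = B - θs(x)`: `R³L - 3R²LR + 3RLR² - LR³ + 3 s R² = 0` -/
theorem s1 {A B : Module.End K V} (a b c as bs cs x : K) (u : V) (h : RelAt A B a b c u) :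
    st A a b c (x + 1) (st A a b c x (st A a b c (x - 1) (st B as bs cs x u)))
      - (3 : K) • st A a b c (x + 1) (st A a b c x (st B as bs cs (x + 1) (st A a b c x u)))
      + (3 : K) • st A a b c (x + 1)
          (st B as bs cs (x + 2) (st A a b c (x + 1) (st A a b c x u)))
      - st B as bs cs (x + 3)
          (st A a b c (x + 2) (st A a b c (x + 1) (st A a b c x u)))
      + (3 * ((qf as bs cs (x + 2) - qf as bs cs (x + 1)) * (qf a b c (x + 2) - qf a b c (x + 1))
          - (qf as bs cs (x + 1) - qf as bs cs x) * (qf a b c (x + 1) - qf a b c x))) •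
          st A a b c (x + 1) (st A a b c x u) = 0 := by
  unfold RelAt at h
  rw [← h]
  simp only [st, map_sub, map_smul, smul_sub, smul_smul]
  simp only [qf]
  module

end TDP
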