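import Pool.Agent.Lib.MP_d0515f_al.Chain

/-! Small diameters, part A: the minimal polynomial of a cyclic chain by the three-term recursion,
and the comparison of coefficients with a product of linear factors. -/

namespace TDP

open Module Polynomial

variable {K V : Type*} [Field K] [AddCommGroup V] [Module K V]

/-- the polynomials of the three-term recursion -/
noncomputable def cp (D ψ : ℕ → K) : ℕ → K[X]
  | 0 => 1
  | 1 => X - C (D 0)
  | n + 2 => (X - C (D (n + 1))) * cp D ψ (n + 1) - C (ψ (n + 1)) * cp D ψ n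

/-- the coefficients of the polynomials of the three-term recursion -/
def ca (D ψ : ℕ → K) : ℕ → ℕ → K
  | 0, 0 => 1
  | 0, _ + 1 => 0
  | 1, 0 => - D 0
  | 1, 1 => 1
  | 1, _ + 2 => 0
  | n + 2, 0 => - D (n + 1) * ca D ψ (n + 1) 0 - ψ (n + 1) * ca D ψ n 0
  | n + 2, k + 1 => ca D ψ (n + 1) k - D (n + 1) * ca D ψ (n + 1) (k + 1)
      - ψ (n + 1) * ca D ψ n (k + 1)

theorem cp_coeff (D ψ : ℕ → K) (n : ℕ) : ∀ k, (cp D ψ n).coeff k = ca D ψ n k := by
  induction n using Nat.strong_induction_on with
  | _ n ih =>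
    match n, ih with
    | 0, _ =>
      intro k
      cases k with
      | zero => simp [cp, ca]
      | succ k => simp [cp, ca, coeff_one]
    | 1, _ =>
      intro k
      match k with
      | 0 => simp [cp, ca]
      | 1 => simp [cp, ca]
      | k + 2 => simp [cp, ca, coeff_X, coeff_C]
    | n + 2, ih =>
      intro k
      have h1 := ih (n + 1) (by omega)
      have h0 := ih n (by omega)
      cases k with
      | zero =>
        simp only [cp, ca, sub_mul, coeff_sub, mul_coeff_zero, coeff_X_zero, zero_mul,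
          zero_sub, h1, h0, coeff_C_zero]
        ring
      | succ k =>
        simp only [cp, ca, sub_mul, coeff_sub, coeff_C_mul, coeff_X_mul, h1, h0]

theorem cp_monic (D ψ : ℕ → K) (n : ℕ) : (cp D ψ n).Monic ∧ (cp D ψ n).natDegree = n := by
  induction n using Nat.strong_induction_on with
  | _ n ih =>
    match n, ih with
    | 0, _ => exact ⟨monic_one, natDegree_one⟩
    | 1, _ => exact ⟨monic_X_sub_C _, natDegree_X_sub_C _⟩
    | n + 2, ih =>
      have h1 := ih (n + 1) (by omega)
      have h0 := ih n (by omega)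
      have hm : ((X - C (D (n + 1))) * cp D ψ (n + 1)).Monic := (monic_X_sub_C _).mul h1.1
      have hd : ((X - C (D (n + 1))) * cp D ψ (n + 1)).natDegree = n + 2 := by
        rw [(monic_X_sub_C _).natDegree_mul h1.1, natDegree_X_sub_C, h1.2]; ring
      have hlt : (C (ψ (n + 1)) * cp D ψ n).degree <
          ((X - C (D (n + 1))) * cp D ψ (n + 1)).degree := by
        rw [degree_eq_natDegree hm.ne_zero, hd]
        refine lt_of_le_of_lt ((degree_mul_le _ _).trans (add_le_add degree_C_le le_rfl)) ?_
        rw [zero_add, degree_eq_natDegree h0.1.ne_zero, h0.2]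
        exact_mod_cast (by omega : n < n + 2)
      have hm2 : (cp D ψ (n + 2)).Monic := hm.sub_of_left hlt
      refine ⟨hm2, ?_⟩
      have := degree_sub_eq_left_of_degree_lt hlt
      have h3 : (cp D ψ (n + 2)).natDegree = ((X - C (D (n + 1))) * cp D ψ (n + 1)).natDegree :=
        natDegree_eq_of_degree_eq this
      rw [h3, hd]

/-- the chain is obtained by applying the polynomials to `r 0` -/
theorem Chain.cp_apply {T : Module.End K V} {n : ℕ} {r : ℕ → V} {D ψ : ℕ → K}
    (h : Chain T n r D ψ) (k : ℕ) : aeval T (cp D ψ k) (r 0) = r k := by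
  induction k using Nat.strong_induction_on with
  | _ k ih =>
    match k, ih with
    | 0, _ => simp [cp]
    | 1, _ =>
      show aeval T (X - C (D 0)) (r 0) = r 1
      rw [map_sub, aeval_X, aeval_C, LinearMap.sub_apply, h.zero, Module.algebraMap_end_apply]
      rw [add_sub_cancel_right]
    | k + 2, ih =>
      have h1 := ih (k + 1) (by omega)
      have h0 := ih k (by omega)
      show aeval T ((X - C (D (k + 1))) * cp D ψ (k + 1) - C (ψ (k + 1)) * cp D ψ k) (r 0) = _
      rw [map_sub, map_mul, map_mul, map_sub, aeval_X, aeval_C, aeval_C, LinearMap.sub_apply,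
        Module.End.mul_apply, Module.End.mul_apply, h1, h0, LinearMap.sub_apply, h.succ k,
        Module.algebraMap_end_apply, Module.algebraMap_end_apply]
      abel

theorem Chain.cyc {T : Module.End K V} {n : ℕ} {r : ℕ → V} {D ψ : ℕ → K}
    (h : Chain T n r D ψ) (v : V) : ∃ q : K[X], aeval T q (r 0) = v := by
  have hv : v ∈ Submodule.span K (Set.range fun i : Fin n => r i) := by
    rw [h.span_eq]; trivial
  refine Submodule.span_induction (p := fun v _ => ∃ q : K[X], aeval T q (r 0) = v)
    ?_ ?_ ?_ ?_ hv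
  · rintro _ ⟨i, rfl⟩
    exact ⟨_, h.cp_apply i⟩
  · exact ⟨0, by simp⟩
  · rintro x y _ _ ⟨p, hp⟩ ⟨q, hq⟩
    exact ⟨p + q, by rw [map_add, LinearMap.add_apply, hp, hq]⟩
  · rintro a x _ ⟨p, hp⟩
    exact ⟨a • p, by rw [map_smul, LinearMap.smul_apply, hp]⟩

/-- the minimal polynomial of a chain -/
theorem Chain.minpoly_cp [FiniteDimensional K V] {T : Module.End K V} {n : ℕ} {r : ℕ → V}
    {D ψ : ℕ → K} (h : Chain T n r D ψ) : minpoly K T = cp D ψ n := by
  have hmon : (minpoly K T).Monic := minpoly.monic (Algebra.IsIntegral.isIntegral T)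
  have hz : aeval T (cp D ψ n) = 0 := by
    ext v
    obtain ⟨q, rfl⟩ := h.cyc v
    rw [← Module.End.mul_apply, ← map_mul, mul_comm, map_mul, Module.End.mul_apply,
      h.cp_apply, h.r_end n le_rfl, map_zero, LinearMap.zero_apply]
  refine (Polynomial.eq_of_monic_of_dvd_of_natDegree_le hmon (cp_monic D ψ n).1
    (minpoly.dvd K T hz) ?_).symm
  rw [(cp_monic D ψ n).2, h.natDegree_minpoly]

theorem prod_eq_cp (μ : ℕ → K) (n : ℕ) :
    ∏ i ∈ Finset.range n, (X - C (μ i)) = cp μ (fun _ => 0) n := by
  induction n using Nat.strong_induction_on with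
  | _ n ih =>
    match n, ih with
    | 0, _ => simp [cp]
    | 1, _ => simp [cp]
    | n + 2, ih =>
      rw [Finset.prod_range_succ, ih (n + 1) (by omega)]
      show _ = (X - C (μ (n + 1))) * cp μ (fun _ => 0) (n + 1) - C 0 * cp μ (fun _ => 0) n
      rw [map_zero, zero_mul, sub_zero, mul_comm]

/-- comparison of coefficients -/
theorem Chain.minpoly_eq_iff [FiniteDimensional K V] {T : Module.End K V} {n : ℕ} {r : ℕ → V}
    {D ψ : ℕ → K} (h : Chain T n r D ψ) (μ : ℕ → K) :
    minpoly K T = ∏ i ∈ Finset.range n, (X - C (μ i)) ↔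
      ∀ k, k < n → ca D ψ n k = ca μ (fun _ => 0) n k := by
  rw [h.minpoly_cp, prod_eq_cp]
  constructor
  · intro he k _
    rw [← cp_coeff, ← cp_coeff, he]
  · intro he
    ext k
    rcases lt_trichotomy k n with hk | hk | hk
    · rw [cp_coeff, cp_coeff, he k hk]
    · subst hk
      have h1 := (cp_monic D ψ k)
      have h2 := (cp_monic μ (fun _ => (0 : K)) k)
      have e1 : (cp D ψ k).coeff k = 1 := by
        have := h1.1.coeff_natDegree; rwa [h1.2] at this
      have e2 : (cp μ (fun _ => (0 : K)) k).coeff k = 1 := by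
        have := h2.1.coeff_natDegree; rwa [h2.2] at this
      rw [e1, e2]
    · rw [coeff_eq_zero_of_natDegree_lt (by rw [(cp_monic D ψ n).2]; exact hk),
        coeff_eq_zero_of_natDegree_lt (by rw [(cp_monic μ (fun _ => (0 : K)) n).2]; exact hk)]

end TDP
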