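import Pool.Agent.Lib.MP_d0515f_al.TraceBase
import Pool.Agent.Lib.MP_d0515f_al.Num

/-! The trace of a power of the centred tridiagonal operator as a sum over closed walks. -/

namespace TDP

open Module

variable {K V : Type*} [Field K] [AddCommGroup V] [Module K V]

/-- centred quadratic diagonal -/
def cD (n : ℕ) (s a : K) (j : ℕ) : K :=
  s * ((j : K) - ((n : K) - 1) / 2) + a * (((j : K) - ((n : K) - 1) / 2) ^ 2
    - ((n : K) ^ 2 - 1) / 12)

/-- centred quartic off-diagonal product -/
def cψ (n : ℕ) (p q F : K) (j : ℕ) : K :=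
  (((j : K) - (n : K) / 2) ^ 2 - (n : K) ^ 2 / 4) *
    (p * ((j : K) - (n : K) / 2) ^ 2 + q * ((j : K) - (n : K) / 2) + F)

/-- up weight -/
def Uf (n x : K) : K := x + (n + 1) / 2
/-- diagonal weight -/
def Df (n s a x : K) : K := s * x + a * (x ^ 2 - (n ^ 2 - 1) / 12)
/-- down weight -/
def Xf (n p q F x : K) : K := (x - 1 / 2 - n / 2) * (p * (x - 1 / 2) ^ 2 + q * (x - 1 / 2) + F)

/-- rescaled chain, indexed by the integers -/
noncomputable def ee (r : ℕ → V) (j : ℤ) : V :=
  if 0 ≤ j then ((j.toNat.factorial : K)⁻¹) • r j.toNat else 0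

theorem ee_neg (r : ℕ → V) {j : ℤ} (h : j < 0) : ee (K := K) r j = 0 := by
  simp [ee, not_le.mpr h]

theorem ee_nat (r : ℕ → V) (j : ℕ) : ee (K := K) r (j : ℤ) = ((j.factorial : K)⁻¹) • r j := by
  simp [ee]

/-- the factorials below `n` do not vanish -/
theorem fact_ne {n : ℕ} (hN : ∀ l : ℕ, 0 < l → l < n → (l : K) ≠ 0) {m : ℕ} (hm : m < n) :
    ((m.factorial : ℕ) : K) ≠ 0 := by
  induction m with
  | zero => simp
  | succ m ih =>
    rw [Nat.factorial_succ, Nat.cast_mul]
    exact mul_ne_zero (hN (m + 1) (Nat.succ_pos m) hm) (ih (by omega))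

theorem ee_step' [Num17 K] {T : Module.End K V} {n : ℕ}
    (hN : ∀ l : ℕ, 0 < l → l < n → (l : K) ≠ 0) {r : ℕ → V} {s a p q F : K}
    (h : Chain T n r (cD n s a) (cψ n p q F)) (j : ℤ) :
    T (ee (K := K) r j) = Uf (n : K) ((j : K) - ((n : K) - 1) / 2) • ee (K := K) r (j + 1)
      + Df (n : K) s a ((j : K) - ((n : K) - 1) / 2) • ee (K := K) r j
      + Xf (n : K) p q F ((j : K) - ((n : K) - 1) / 2) • ee (K := K) r (j - 1) := by
  have h2 := nz2 (K := K)
  have h12 := nz12 (K := K)
  have h4 := nz4 (K := K)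
  rcases lt_or_ge j (-1) with hj | hj
  · rw [ee_neg r (by omega : j < 0), ee_neg r (by omega : j + 1 < 0), ee_neg r (by omega : j - 1 < 0)]
    simp
  rcases eq_or_lt_of_le hj with hj | hj
  · subst hj
    have : Uf (n : K) (((-1 : ℤ) : K) - ((n : K) - 1) / 2) = 0 := by
      simp only [Uf]; push_cast; field_simp; ring
    rw [this, ee_neg r (by omega : (-1 : ℤ) < 0), ee_neg r (by omega : (-1 : ℤ) - 1 < 0), map_zero,
      zero_smul, smul_zero, smul_zero, add_zero, add_zero]
  obtain ⟨m, rfl⟩ : ∃ m : ℕ, j = (m : ℤ) := ⟨j.toNat, by omega⟩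
  have e1 : ee (K := K) r ((m : ℤ) + 1) = (((m + 1).factorial : K)⁻¹) • r (m + 1) := by
    have := ee_nat (K := K) r (m + 1)
    push_cast at this
    rw [this]
  rcases lt_or_ge m n with hmn | hmn
  · have hf : ((m.factorial : ℕ) : K) ≠ 0 := fact_ne hN hmn
    rw [e1, ee_nat]
    have hU : Uf (n : K) (((m : ℤ) : K) - ((n : K) - 1) / 2) • (((m + 1).factorial : K)⁻¹) •
        r (m + 1) = ((m.factorial : K)⁻¹) • r (m + 1) := by
      rcases eq_or_lt_of_le (Nat.succ_le_of_lt hmn) with h3 | h3
      · have h4 : r (m + 1) = 0 := h.r_end (m + 1) (by omega)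
        rw [h4, smul_zero, smul_zero, smul_zero]
      · rw [smul_smul]
        congr 1
        simp only [Uf]
        rw [Nat.factorial_succ]
        have hm : ((m : K) + 1) ≠ 0 := by
          have := hN (m + 1) (Nat.succ_pos m) h3
          push_cast at this
          exact this
        push_cast
        field_simp
        ring
    rw [hU]
    rcases Nat.eq_zero_or_pos m with rfl | hm
    · rw [ee_neg r (by norm_num)]
      simp only [map_smul, h.zero, smul_add, smul_smul, smul_zero, add_zero]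
      congr 1
      congr 1
      simp [cD, Df]
    · obtain ⟨l, rfl⟩ : ∃ l, m = l + 1 := ⟨m - 1, by omega⟩
      have e2 : ee (K := K) r (((l + 1 : ℕ) : ℤ) - 1) = ((l.factorial : K)⁻¹) • r l := by
        rw [show (((l + 1 : ℕ) : ℤ) - 1) = (l : ℤ) by push_cast; ring, ee_nat]
      rw [e2, map_smul, h.succ]
      simp only [smul_add, smul_smul]
      congr 1
      · congr 1
        congr 1
        simp only [cD, Df]
        push_cast
        ring
      · congr 1
        rw [Nat.factorial_succ]
        have hl : ((l : K) + 1) ≠ 0 := by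
          have := hN (l + 1) (Nat.succ_pos l) hmn
          push_cast at this
          exact this
        have hlf : ((l.factorial : ℕ) : K) ≠ 0 := fact_ne hN (by omega)
        simp only [cψ, Xf]
        push_cast
        field_simp
        ring
  · have h3 : r m = 0 := h.r_end m hmn
    have h4 : r (m + 1) = 0 := h.r_end (m + 1) (by omega)
    rw [e1, ee_nat, h3, h4, smul_zero, smul_zero, smul_zero, smul_zero, map_zero, zero_add,
      zero_add]
    rcases eq_or_lt_of_le hmn with h5 | h5
    · subst h5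
      have : Xf (n : K) p q F (((n : ℤ) : K) - ((n : K) - 1) / 2) = 0 := by
        have e3 : ((((n : ℤ) : K) - ((n : K) - 1) / 2) - 1 / 2 - (n : K) / 2) = 0 := by
          push_cast
          field_simp
          ring
        simp only [Xf]
        rw [e3, zero_mul]
      rw [this, zero_smul]
    · have e2 : ee (K := K) r ((m : ℤ) - 1) = 0 := by
        have h6 : (m : ℤ) - 1 = ((m - 1 : ℕ) : ℤ) := by omega
        rw [h6, ee_nat, h.r_end (m - 1) (by omega), smul_zero]
      rw [e2, smul_zero]

theorem ee_step [CharZero K] {T : Module.End K V} {n : ℕ} {r : ℕ → V} {s a p q F : K}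
    (h : Chain T n r (cD n s a) (cψ n p q F)) (j : ℤ) :
    T (ee (K := K) r j) = Uf (n : K) ((j : K) - ((n : K) - 1) / 2) • ee (K := K) r (j + 1)
      + Df (n : K) s a ((j : K) - ((n : K) - 1) / 2) • ee (K := K) r j
      + Xf (n : K) p q F ((j : K) - ((n : K) - 1) / 2) • ee (K := K) r (j - 1) :=
  ee_step' (fun l hl _ => by exact_mod_cast hl.ne') h j

theorem trace_eq' [Num17 K] {T : Module.End K V} {n : ℕ}
    (hN : ∀ l : ℕ, 0 < l → l < n → (l : K) ≠ 0) {r : ℕ → V} {s a p q F : K}
    (h : Chain T n r (cD n s a) (cψ n p q F)) (k : ℕ) :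
    LinearMap.trace K V (T ^ k) = ∑ j ∈ Finset.range n,
      co (Uf (n : K)) (Df (n : K) s a) (Xf (n : K) p q F) k 0 ((j : K) - ((n : K) - 1) / 2) := by
  let b : Basis (Fin n) K V := Basis.mk h.li h.span_eq.ge
  have hb : ∀ i : Fin n, b i = r i := fun i => by simp [b]
  have hrepr : ∀ (l : ℤ) (i : Fin n), b.repr (ee (K := K) r l) i =
      if l = (i : ℕ) then (((i : ℕ).factorial : K)⁻¹) else 0 := by
    intro l i
    rcases lt_or_ge l 0 with hl | hl
    · rw [ee_neg r hl]
      have : l ≠ ((i : ℕ) : ℤ) := by omega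
      simp [this]
    · obtain ⟨m, rfl⟩ : ∃ m : ℕ, l = (m : ℤ) := ⟨l.toNat, by omega⟩
      rw [ee_nat]
      rcases lt_or_ge m n with hm | hm
      · have : r m = b ⟨m, hm⟩ := by rw [hb]
        rw [this, map_smul, Basis.repr_self]
        by_cases hmi : m = (i : ℕ)
        · subst hmi
          simp
        · have h1 : (⟨m, hm⟩ : Fin n) ≠ i := by
            intro h2
            apply hmi
            rw [← h2]
          have h3 : (m : ℤ) ≠ ((i : ℕ) : ℤ) := by exact_mod_cast hmi
          simp [h1, h3]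
      · rw [h.r_end m hm]
        have h3 : (m : ℤ) ≠ ((i : ℕ) : ℤ) := by
          have := i.2
          omega
        simp [h3]
  rw [LinearMap.trace_eq_matrix_trace K b, Matrix.trace]
  rw [Finset.sum_range]
  apply Finset.sum_congr rfl
  intro i _
  rw [Matrix.diag_apply, LinearMap.toMatrix_apply]
  have hf : (((i : ℕ).factorial : ℕ) : K) ≠ 0 := fact_ne hN i.2
  have hbi : b i = (((i : ℕ).factorial : ℕ) : K) • ee (K := K) r ((i : ℕ) : ℤ) := by
    rw [ee_nat, smul_smul, mul_inv_cancel₀ hf, one_smul, hb]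
  rw [hbi, map_smul, pow_apply_e T (ee (K := K) r) (fun j : ℤ => (j : K) - ((n : K) - 1) / 2)
    (Uf (n : K)) (Df (n : K) s a) (Xf (n : K) p q F) (by intro j; push_cast; ring)
    (fun j => ee_step' hN h j) k k le_rfl]
  rw [map_smul, map_sum, Finsupp.smul_apply, Finsupp.finsetSum_apply,
    Finset.sum_eq_single (0 : ℤ)]
  · rw [map_smul, Finsupp.smul_apply, hrepr]
    simp only [add_zero, if_true, smul_eq_mul]
    push_cast
    field_simp
  · intro m _ hm
    rw [map_smul, Finsupp.smul_apply, hrepr]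
    have : ((i : ℕ) : ℤ) + m ≠ ((i : ℕ) : ℤ) := by omega
    simp [this]
  · intro h0
    exfalso
    apply h0
    simp

theorem trace_eq [CharZero K] {T : Module.End K V} {n : ℕ} {r : ℕ → V} {s a p q F : K}
    (h : Chain T n r (cD n s a) (cψ n p q F)) (k : ℕ) :
    LinearMap.trace K V (T ^ k) = ∑ j ∈ Finset.range n,
      co (Uf (n : K)) (Df (n : K) s a) (Xf (n : K) p q F) k 0 ((j : K) - ((n : K) - 1) / 2) :=
  trace_eq' (fun l hl _ => by exact_mod_cast hl.ne') h k

end TDP
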