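import Pool.Agent.Lib.MP_d0515f_al.SmallA
import Pool.Agent.Lib.MP_d0515f_al.Num
import Pool.Agent.Lib.MP_d0515f_al.TraceSum
import Pool.Agent.Lib.MP_d0515f_al.MuSum

/-! Small diameters, part B: the conditions on the coefficients of the characteristic polynomial,
in reduced form. -/

namespace TDP

variable {K : Type*} [Field K] [Num17 K]


/-- the quadratic invariant -/
def iQ (a e : K) : K := a ^ 2 + 3 * e ^ 2

/-- the cubic invariant -/
def iP (a e : K) : K := a ^ 3 - 9 * a * e ^ 2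

/-- condition of degree 2 -/
def rel2 (N ρ w g : K) : Prop := 15 * w = 15 * ρ - (N - 4) * g ^ 2

/-- condition of degree 3 -/
def rel3 (N a e y w g : K) : Prop :=
  3780 * (e * y) = 1260 * w * (a + 2 * g) - 21 * (N - 4) * a * (iQ a e - 4 * g ^ 2)
    + 5 * (N - 16) * (iP a e + 8 * g ^ 3)

/-- condition of degree 4 -/
def rel4 (N a e z w g : K) : Prop :=
  56700 * (e ^ 2 * z) = 630 * w * (3 * iQ a e - 10 * a ^ 2 + 20 * a * g + 68 * g ^ 2)
    + (iQ a e - 4 * g ^ 2) * (105 * (N - 4) * a ^ 2 + 42 * (19 - N) * iQ a e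
      + 42 * (64 - N) * g ^ 2)
    + 25 * (N - 16) * a * (iP a e + 8 * g ^ 3)

/-- condition of degree 5 -/
def rel5 (N a e w g : K) : Prop :=
  33 * w * (5 * iP a e - 21 * g * iQ a e + 124 * g ^ 3)
    = (4 * N - 1) * iP a e * iQ a e - 11 * (N - 4) * g ^ 2 * iP a e
      + 11 * (N - 16) * g ^ 3 * iQ a e + (1024 - 4 * N) * g ^ 5

/-- condition of degree 6 -/
def rel6 (N a e w g : K) : Prop :=
  195 * w * (2625 * g * iP a e - 441 * iQ a e ^ 2 - 7497 * g ^ 2 * iQ a e + 58044 * g ^ 4)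
    + 250 * (4 * N - 1) * iP a e ^ 2 + 8125 * (N - 16) * g ^ 3 * iP a e
    + 441 * (4 * N - 1) * iQ a e ^ 3 - 5733 * (N - 4) * g ^ 2 * iQ a e ^ 2
    + 5733 * (64 - N) * g ^ 4 * iQ a e + 2764 * (N - 1024) * g ^ 6 = 0

theorem fz (a b c d e f g : ℕ) {x y : K}
    (h : (2 : K) ^ a * 3 ^ b * 5 ^ c * 7 ^ d * 11 ^ e * 13 ^ f * 17 ^ g * (x - y) = 0) : x = y := by
  have hn : (2 : K) ^ a * 3 ^ b * 5 ^ c * 7 ^ d * 11 ^ e * 13 ^ f * 17 ^ g ≠ 0 :=
    mul_ne_zero (mul_ne_zero (mul_ne_zero (mul_ne_zero (mul_ne_zero (mul_ne_zero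
      (pow_ne_zero _ Num17.two) (pow_ne_zero _ Num17.three)) (pow_ne_zero _ Num17.five))
      (pow_ne_zero _ Num17.seven)) (pow_ne_zero _ Num17.eleven)) (pow_ne_zero _ Num17.thirteen))
      (pow_ne_zero _ Num17.seventeen)
  exact sub_eq_zero.1 ((mul_eq_zero.1 h).resolve_left hn)

theorem ex2 (b : K) : ∃ x : K, b = 2 * x :=
  ⟨b / 2, by have h2 := nz2 (K := K); field_simp⟩

theorem ex60 (b : K) : ∃ x : K, b = 60 * x :=
  ⟨b / 60, by have h2 := nz60 (K := K); field_simp⟩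

theorem cD_int (n j : ℕ) (s a : K) : cD n (2 * s) (60 * a) j =
    s * (2 * (j : K) - n + 1) + 5 * a * (3 * (2 * (j : K) - n + 1) ^ 2 - ((n : K) ^ 2 - 1)) := by
  have h2 := nz2 (K := K)
  have h3 := nz12 (K := K)
  unfold cD
  field_simp
  ring

theorem cψ_int (n j : ℕ) (p q F : K) : cψ n (3600 * p) (120 * q) F j =
    ((j : K) ^ 2 - j * n) * (900 * p * (2 * (j : K) - n) ^ 2 + 60 * q * (2 * (j : K) - n) + F) := by
  have h2 := nz2 (K := K)
  have h3 := nz4 (K := K)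
  unfold cψ
  field_simp
  ring

theorem cμ_int (n j : ℕ) (s a : K) : cμ n (2 * s) (60 * a) j =
    s * (2 * (j : K) - n + 1) + 5 * a * (3 * (2 * (j : K) - n + 1) ^ 2 - ((n : K) ^ 2 - 1)) := by
  have h2 := nz2 (K := K)
  have h3 := nz12 (K := K)
  unfold cμ
  field_simp
  ring

theorem sm4 (b1 b2 c1 c2 F β g ρ : K)
    (hρ : ρ = (b1 + b2) ^ 2 - 4 * F + (16 - 4) / 15 * ((c1 + c2) ^ 2 - 3 * (c1 * c2))) :
    (∀ k, k < 4 → ca (cD 4 (b1 + b2) (c1 + c2)) (cψ 4 (c1 * c2) (b1 * c2 + b2 * c1) F) 4 k =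
      ca (cμ 4 β g) (fun _ => 0) 4 k) ↔
    rel2 16 ρ (β ^ 2) g ∧
      rel3 16 (c1 + c2) (c1 - c2) (b1 ^ 2 - b2 ^ 2) (β ^ 2) g ∧
      rel4 16 (c1 + c2) (c1 - c2) (b1 ^ 2 + b2 ^ 2) (β ^ 2) g := by
  have h15 := nz15 (K := K)
  have hρ15 : 15 * ρ = 15 * (b1 + b2) ^ 2 - 60 * F + (16 - 4) * ((c1 + c2) ^ 2 - 3 * (c1 * c2)) := by
    rw [hρ]
    field_simp
    ring
  clear hρ h15
  obtain ⟨x1, rfl⟩ := ex2 b1
  obtain ⟨x2, rfl⟩ := ex2 b2
  obtain ⟨y1, rfl⟩ := ex60 c1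
  obtain ⟨y2, rfl⟩ := ex60 c2
  obtain ⟨z, rfl⟩ := ex2 β
  obtain ⟨v, rfl⟩ := ex60 g
  rw [show (2 * x1 : K) + 2 * x2 = 2 * (x1 + x2) by ring, show (60 * y1 : K) + 60 * y2 = 60 * (y1 + y2) by ring,
    show (60 * y1 : K) * (60 * y2) = 3600 * (y1 * y2) by ring,
    show (2 * x1 : K) * (60 * y2) + 2 * x2 * (60 * y1) = 120 * (x1 * y2 + x2 * y1) by ring]
  constructor
  · intro h
    have e2 := h 2 (by norm_num)
    have e3 := h 1 (by norm_num)
    have e4 := h 0 (by norm_num)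
    simp only [ca, cD_int, cψ_int, cμ_int] at e2 e3 e4
    push_cast at e2 e3 e4
    clear h
    have r2 : rel2 16 ρ ((2 * z) ^ 2) (60 * v) := by
      unfold rel2
      linear_combination (6) * e2 - (1) * hρ15
    have r2' := r2
    unfold rel2 at r2
    have hF : F = (x1 + x2) ^ 2 + 60 * (16 - 4) * ((y1 + y2) ^ 2 - 3 * (y1 * y2) - v ^ 2) - z ^ 2 := by
      refine fz 2 1 1 0 0 0 0 ?_
      linear_combination (1) * hρ15 + (1) * r2
    subst hF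
    clear e2 hρ15 r2
    have r3 : rel3 16 (60 * (y1 + y2)) (60 * y1 - 60 * y2) ((2 * x1) ^ 2 - (2 * x2) ^ 2) ((2 * z) ^ 2) (60 * v) := by
      unfold rel3 iQ iP
      linear_combination (-630) * e3
    have r4 : rel4 16 (60 * (y1 + y2)) (60 * y1 - 60 * y2) ((2 * x1) ^ 2 + (2 * x2) ^ 2) ((2 * z) ^ 2) (60 * v) := by
      unfold rel3 iQ iP at r3
      unfold rel4 iQ iP
      linear_combination (-12600) * e4 - (-5) * ((60*y1) + (60*y2)) * r3
    exact ⟨r2', r3, r4⟩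
  · rintro ⟨r2, r3, r4⟩
    unfold rel2 at r2
    unfold rel3 iQ iP at r3
    unfold rel4 iQ iP at r4
    have hF : F = (x1 + x2) ^ 2 + 60 * (16 - 4) * ((y1 + y2) ^ 2 - 3 * (y1 * y2) - v ^ 2) - z ^ 2 := by
      refine fz 2 1 1 0 0 0 0 ?_
      linear_combination (1) * hρ15 + (1) * r2
    subst hF
    clear hρ15 r2
    intro k hk
    interval_cases k
    · simp only [ca, cD_int, cψ_int, cμ_int]
      push_cast
      refine fz 3 2 2 1 0 0 0 ?_
      linear_combination (-1) * r4 + (5) * ((60*y1) + (60*y2)) * r3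
    · simp only [ca, cD_int, cψ_int, cμ_int]
      push_cast
      refine fz 1 2 1 1 0 0 0 ?_
      linear_combination (-1) * r3
    · simp only [ca, cD_int, cψ_int, cμ_int]
      push_cast
      ring
    · simp only [ca, cD_int, cψ_int, cμ_int]
      push_cast
      ring

theorem sm5 (b1 b2 c1 c2 F β g ρ : K)
    (hρ : ρ = (b1 + b2) ^ 2 - 4 * F + (25 - 4) / 15 * ((c1 + c2) ^ 2 - 3 * (c1 * c2))) :
    (∀ k, k < 5 → ca (cD 5 (b1 + b2) (c1 + c2)) (cψ 5 (c1 * c2) (b1 * c2 + b2 * c1) F) 5 k =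
      ca (cμ 5 β g) (fun _ => 0) 5 k) ↔
    rel2 25 ρ (β ^ 2) g ∧
      rel3 25 (c1 + c2) (c1 - c2) (b1 ^ 2 - b2 ^ 2) (β ^ 2) g ∧
      rel4 25 (c1 + c2) (c1 - c2) (b1 ^ 2 + b2 ^ 2) (β ^ 2) g ∧
      rel5 25 (c1 + c2) (c1 - c2) (β ^ 2) g := by
  have h15 := nz15 (K := K)
  have hρ15 : 15 * ρ = 15 * (b1 + b2) ^ 2 - 60 * F + (25 - 4) * ((c1 + c2) ^ 2 - 3 * (c1 * c2)) := by
    rw [hρ]
    field_simp
    ring
  clear hρ h15
  obtain ⟨x1, rfl⟩ := ex2 b1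
  obtain ⟨x2, rfl⟩ := ex2 b2
  obtain ⟨y1, rfl⟩ := ex60 c1
  obtain ⟨y2, rfl⟩ := ex60 c2
  obtain ⟨z, rfl⟩ := ex2 β
  obtain ⟨v, rfl⟩ := ex60 g
  rw [show (2 * x1 : K) + 2 * x2 = 2 * (x1 + x2) by ring, show (60 * y1 : K) + 60 * y2 = 60 * (y1 + y2) by ring,
    show (60 * y1 : K) * (60 * y2) = 3600 * (y1 * y2) by ring,
    show (2 * x1 : K) * (60 * y2) + 2 * x2 * (60 * y1) = 120 * (x1 * y2 + x2 * y1) by ring]
  constructor
  · intro h
    have e2 := h 3 (by norm_num)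
    have e3 := h 2 (by norm_num)
    have e4 := h 1 (by norm_num)
    have e5 := h 0 (by norm_num)
    simp only [ca, cD_int, cψ_int, cμ_int] at e2 e3 e4 e5
    push_cast at e2 e3 e4 e5
    clear h
    have r2 : rel2 25 ρ ((2 * z) ^ 2) (60 * v) := by
      unfold rel2
      linear_combination (3) * e2 - (1) * hρ15
    have r2' := r2
    unfold rel2 at r2
    have hF : F = (x1 + x2) ^ 2 + 60 * (25 - 4) * ((y1 + y2) ^ 2 - 3 * (y1 * y2) - v ^ 2) - z ^ 2 := by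
      refine fz 2 1 1 0 0 0 0 ?_
      linear_combination (1) * hρ15 + (1) * r2
    subst hF
    clear e2 hρ15 r2
    have r3 : rel3 25 (60 * (y1 + y2)) (60 * y1 - 60 * y2) ((2 * x1) ^ 2 - (2 * x2) ^ 2) ((2 * z) ^ 2) (60 * v) := by
      unfold rel3 iQ iP
      linear_combination (-180) * e3
    have r4 : rel4 25 (60 * (y1 + y2)) (60 * y1 - 60 * y2) ((2 * x1) ^ 2 + (2 * x2) ^ 2) ((2 * z) ^ 2) (60 * v) := by
      unfold rel3 iQ iP at r3
      unfold rel4 iQ iP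
      linear_combination (-1575) * e4 - (-5) * ((60*y1) + (60*y2)) * r3
    have r5 : rel5 25 (60 * (y1 + y2)) (60 * y1 - 60 * y2) ((2 * z) ^ 2) (60 * v) := by
      unfold rel3 iQ iP at r3
      unfold rel4 iQ iP at r4
      unfold rel5 iQ iP
      refine fz 3 1 1 0 0 0 0 ?_
      linear_combination (17325) * e5 - ((-33) * ((60*y1) + (60*y2)) ^ 2 + (-99) * ((60*y1) - (60*y2)) ^ 2 + (77) * (60*v) ^ 2 + (55) * (2*z) ^ 2) * r3 - (0) * r4
    exact ⟨r2', r3, r4, r5⟩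
  · rintro ⟨r2, r3, r4, r5⟩
    unfold rel2 at r2
    unfold rel3 iQ iP at r3
    unfold rel4 iQ iP at r4
    unfold rel5 iQ iP at r5
    have hF : F = (x1 + x2) ^ 2 + 60 * (25 - 4) * ((y1 + y2) ^ 2 - 3 * (y1 * y2) - v ^ 2) - z ^ 2 := by
      refine fz 2 1 1 0 0 0 0 ?_
      linear_combination (1) * hρ15 + (1) * r2
    subst hF
    clear hρ15 r2
    intro k hk
    interval_cases k
    · simp only [ca, cD_int, cψ_int, cμ_int]
      push_cast
      refine fz 0 2 2 1 1 0 0 ?_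
      linear_combination (120) * r5 + ((-33) * ((60*y1) + (60*y2)) ^ 2 + (-99) * ((60*y1) - (60*y2)) ^ 2 + (77) * (60*v) ^ 2 + (55) * (2*z) ^ 2) * r3 + (0) * r4
    · simp only [ca, cD_int, cψ_int, cμ_int]
      push_cast
      refine fz 0 2 2 1 0 0 0 ?_
      linear_combination (-1) * r4 + (5) * ((60*y1) + (60*y2)) * r3
    · simp only [ca, cD_int, cψ_int, cμ_int]
      push_cast
      refine fz 2 2 1 0 0 0 0 ?_
      linear_combination (-1) * r3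
    · simp only [ca, cD_int, cψ_int, cμ_int]
      push_cast
      ring
    · simp only [ca, cD_int, cψ_int, cμ_int]
      push_cast
      ring

theorem sm6 (b1 b2 c1 c2 F β g ρ : K)
    (hρ : ρ = (b1 + b2) ^ 2 - 4 * F + (36 - 4) / 15 * ((c1 + c2) ^ 2 - 3 * (c1 * c2))) :
    (∀ k, k < 6 → ca (cD 6 (b1 + b2) (c1 + c2)) (cψ 6 (c1 * c2) (b1 * c2 + b2 * c1) F) 6 k =
      ca (cμ 6 β g) (fun _ => 0) 6 k) ↔
    rel2 36 ρ (β ^ 2) g ∧
      rel3 36 (c1 + c2) (c1 - c2) (b1 ^ 2 - b2 ^ 2) (β ^ 2) g ∧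
      rel4 36 (c1 + c2) (c1 - c2) (b1 ^ 2 + b2 ^ 2) (β ^ 2) g ∧
      rel5 36 (c1 + c2) (c1 - c2) (β ^ 2) g ∧
      rel6 36 (c1 + c2) (c1 - c2) (β ^ 2) g := by
  have h15 := nz15 (K := K)
  have hρ15 : 15 * ρ = 15 * (b1 + b2) ^ 2 - 60 * F + (36 - 4) * ((c1 + c2) ^ 2 - 3 * (c1 * c2)) := by
    rw [hρ]
    field_simp
    ring
  clear hρ h15
  obtain ⟨x1, rfl⟩ := ex2 b1
  obtain ⟨x2, rfl⟩ := ex2 b2
  obtain ⟨y1, rfl⟩ := ex60 c1
  obtain ⟨y2, rfl⟩ := ex60 c2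
  obtain ⟨z, rfl⟩ := ex2 β
  obtain ⟨v, rfl⟩ := ex60 g
  rw [show (2 * x1 : K) + 2 * x2 = 2 * (x1 + x2) by ring, show (60 * y1 : K) + 60 * y2 = 60 * (y1 + y2) by ring,
    show (60 * y1 : K) * (60 * y2) = 3600 * (y1 * y2) by ring,
    show (2 * x1 : K) * (60 * y2) + 2 * x2 * (60 * y1) = 120 * (x1 * y2 + x2 * y1) by ring]
  constructor
  · intro h
    have e2 := h 4 (by norm_num)
    have e3 := h 3 (by norm_num)
    have e4 := h 2 (by norm_num)
    have e5 := h 1 (by norm_num)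
    have e6 := h 0 (by norm_num)
    simp only [ca, cD_int, cψ_int, cμ_int] at e2 e3 e4 e5 e6
    push_cast at e2 e3 e4 e5 e6
    clear h
    have r2 : rel2 36 ρ ((2 * z) ^ 2) (60 * v) := by
      unfold rel2
      refine fz 0 0 0 1 0 0 0 ?_
      linear_combination (12) * e2 - (7) * hρ15
    have r2' := r2
    unfold rel2 at r2
    have hF : F = (x1 + x2) ^ 2 + 60 * (36 - 4) * ((y1 + y2) ^ 2 - 3 * (y1 * y2) - v ^ 2) - z ^ 2 := by
      refine fz 2 1 1 0 0 0 0 ?_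
      linear_combination (1) * hρ15 + (1) * r2
    subst hF
    clear e2 hρ15 r2
    have r3 : rel3 36 (60 * (y1 + y2)) (60 * y1 - 60 * y2) ((2 * x1) ^ 2 - (2 * x2) ^ 2) ((2 * z) ^ 2) (60 * v) := by
      unfold rel3 iQ iP
      refine fz 1 0 0 0 0 0 0 ?_
      linear_combination (-135) * e3
    have r4 : rel4 36 (60 * (y1 + y2)) (60 * y1 - 60 * y2) ((2 * x1) ^ 2 + (2 * x2) ^ 2) ((2 * z) ^ 2) (60 * v) := by
      unfold rel3 iQ iP at r3
      unfold rel4 iQ iP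
      linear_combination (-350) * e4 - (-5) * ((60*y1) + (60*y2)) * r3
    have r5 : rel5 36 (60 * (y1 + y2)) (60 * y1 - 60 * y2) ((2 * z) ^ 2) (60 * v) := by
      unfold rel3 iQ iP at r3
      unfold rel4 iQ iP at r4
      unfold rel5 iQ iP
      refine fz 5 3 1 0 0 0 0 ?_
      linear_combination (62370) * e5 - ((-1188) * ((60*y1) + (60*y2)) ^ 2 + (-3564) * ((60*y1) - (60*y2)) ^ 2 + (3872) * (60*v) ^ 2 + (1815) * (2*z) ^ 2) * r3 - (0) * r4
    have r6 : rel6 36 (60 * (y1 + y2)) (60 * y1 - 60 * y2) ((2 * z) ^ 2) (60 * v) := by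
      unfold rel3 iQ iP at r3
      unfold rel4 iQ iP at r4
      unfold rel6 iQ iP
      refine fz 6 2 0 0 0 0 0 ?_
      linear_combination (18574920) * e6 - ((289640) * ((60*y1) + (60*y2)) ^ 3 + (-379080) * ((60*y1) + (60*y2)) * ((60*y1) - (60*y2)) ^ 2 + (-742560) * ((60*y1) + (60*y2)) * (60*v) ^ 2 + (-348075) * ((60*y1) + (60*y2)) * (2*z) ^ 2 + (491400) * ((60*y1) - (60*y2)) * ((2*x1) ^ 2 - (2*x2) ^ 2) + (104000) * (60*v) ^ 3 + (327600) * (60*v) * (2*z) ^ 2) * r3 - ((-19656) * ((60*y1) + (60*y2)) ^ 2 + (-58968) * ((60*y1) - (60*y2)) ^ 2 + (78624) * (60*v) ^ 2 + (36855) * (2*z) ^ 2) * r4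
    exact ⟨r2', r3, r4, r5, r6⟩
  · rintro ⟨r2, r3, r4, r5, r6⟩
    unfold rel2 at r2
    unfold rel3 iQ iP at r3
    unfold rel4 iQ iP at r4
    unfold rel5 iQ iP at r5
    unfold rel6 iQ iP at r6
    have hF : F = (x1 + x2) ^ 2 + 60 * (36 - 4) * ((y1 + y2) ^ 2 - 3 * (y1 * y2) - v ^ 2) - z ^ 2 := by
      refine fz 2 1 1 0 0 0 0 ?_
      linear_combination (1) * hρ15 + (1) * r2
    subst hF
    clear hρ15 r2
    intro k hk
    interval_cases k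
    · simp only [ca, cD_int, cψ_int, cμ_int]
      push_cast
      refine fz 3 6 1 2 0 1 0 ?_
      linear_combination (576) * r6 + ((289640) * ((60*y1) + (60*y2)) ^ 3 + (-379080) * ((60*y1) + (60*y2)) * ((60*y1) - (60*y2)) ^ 2 + (-742560) * ((60*y1) + (60*y2)) * (60*v) ^ 2 + (-348075) * ((60*y1) + (60*y2)) * (2*z) ^ 2 + (491400) * ((60*y1) - (60*y2)) * ((2*x1) ^ 2 - (2*x2) ^ 2) + (104000) * (60*v) ^ 3 + (327600) * (60*v) * (2*z) ^ 2) * r3 + ((-19656) * ((60*y1) + (60*y2)) ^ 2 + (-58968) * ((60*y1) - (60*y2)) ^ 2 + (78624) * (60*v) ^ 2 + (36855) * (2*z) ^ 2) * r4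
    · simp only [ca, cD_int, cψ_int, cμ_int]
      push_cast
      refine fz 1 4 1 1 1 0 0 ?_
      linear_combination (4320) * r5 + ((-1188) * ((60*y1) + (60*y2)) ^ 2 + (-3564) * ((60*y1) - (60*y2)) ^ 2 + (3872) * (60*v) ^ 2 + (1815) * (2*z) ^ 2) * r3 + (0) * r4
    · simp only [ca, cD_int, cψ_int, cμ_int]
      push_cast
      refine fz 1 0 2 1 0 0 0 ?_
      linear_combination (-1) * r4 + (5) * ((60*y1) + (60*y2)) * r3
    · simp only [ca, cD_int, cψ_int, cμ_int]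
      push_cast
      refine fz 0 3 1 0 0 0 0 ?_
      linear_combination (-2) * r3
    · simp only [ca, cD_int, cψ_int, cμ_int]
      push_cast
      ring
    · simp only [ca, cD_int, cψ_int, cμ_int]
      push_cast
      ring

end TDP
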