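import Pool.Agent.Lib.MP_d0515f_al.SmallB

/-! Small diameters, part C: the case `n = 7` (diameter `6`). -/

namespace TDP

variable {K : Type*} [Field K] [Num17 K]

/-- condition of degree 7 for `n = 7` -/
def rel7 (a e w g : K) : Prop :=
  130 * iP a e * iQ a e ^ 2 - 765 * iP a e * iQ a e * g ^ 2 - 255 * iP a e * iQ a e * w
    + 1255 * iP a e * g ^ 4 + 130 * iP a e * g ^ 2 * w + 135 * iP a e * w ^ 2
    + 242 * iQ a e ^ 2 * g ^ 3 + 462 * iQ a e ^ 2 * g * w - 891 * iQ a e * g ^ 5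
    - 1998 * iQ a e * g ^ 3 * w - 567 * iQ a e * g * w ^ 2 + 1892 * g ^ 7
    - 6520 * g ^ 5 * w + 3348 * g ^ 3 * w ^ 2 = 0

theorem sm7 (b1 b2 c1 c2 F β g ρ : K)
    (hρ : ρ = (b1 + b2) ^ 2 - 4 * F + (49 - 4) / 15 * ((c1 + c2) ^ 2 - 3 * (c1 * c2))) :
    (∀ k, k < 7 → ca (cD 7 (b1 + b2) (c1 + c2)) (cψ 7 (c1 * c2) (b1 * c2 + b2 * c1) F) 7 k =
      ca (cμ 7 β g) (fun _ => 0) 7 k) ↔
    rel2 49 ρ (β ^ 2) g ∧
      rel3 49 (c1 + c2) (c1 - c2) (b1 ^ 2 - b2 ^ 2) (β ^ 2) g ∧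
      rel4 49 (c1 + c2) (c1 - c2) (b1 ^ 2 + b2 ^ 2) (β ^ 2) g ∧
      rel5 49 (c1 + c2) (c1 - c2) (β ^ 2) g ∧
      rel6 49 (c1 + c2) (c1 - c2) (β ^ 2) g ∧
      rel7 (c1 + c2) (c1 - c2) (β ^ 2) g := by
  have h15 := nz15 (K := K)
  have hρ15 : 15 * ρ = 15 * (b1 + b2) ^ 2 - 60 * F + (49 - 4) * ((c1 + c2) ^ 2 - 3 * (c1 * c2)) := by
    rw [hρ]
    field_simp
    ring
  clear hρ h15
  obtain ⟨x1, rfl⟩ := ex2 b1
  obtain ⟨x2, rfl⟩ := ex2 b2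
  obtain ⟨y1, rfl⟩ := ex60 c1
  obtain ⟨y2, rfl⟩ := ex60 c2
  obtain ⟨z, rfl⟩ := ex2 β
  obtain ⟨v, rfl⟩ := ex60 g
  rw [show (2 * x1 : K) + 2 * x2 = 2 * (x1 + x2) by ring, show (60 * y1 : K) + 60 * y2 = 60 * (y1 + y2) by ring,
    show (60 * y1 : K) * (60 * y2) = 3600 * (y1 * y2) by ring,
    show (2 * x1 : K) * (60 * y2) + 2 * x2 * (60 * y1) = 120 * (x1 * y2 + x2 * y1) by ring]
  constructor
  · intro h
    have e2 := h 5 (by norm_num)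
    have e3 := h 4 (by norm_num)
    have e4 := h 3 (by norm_num)
    have e5 := h 2 (by norm_num)
    have e6 := h 1 (by norm_num)
    have e7 := h 0 (by norm_num)
    simp only [ca, cD_int, cψ_int, cμ_int] at e2 e3 e4 e5 e6 e7
    push_cast at e2 e3 e4 e5 e6 e7
    clear h
    have r2 : rel2 49 ρ ((2 * z) ^ 2) (60 * v) := by
      unfold rel2
      refine fz 1 0 0 1 0 0 0 ?_
      linear_combination (15) * e2 - (14) * hρ15
    have r2' := r2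
    unfold rel2 at r2
    have hF : F = (x1 + x2) ^ 2 + 60 * (49 - 4) * ((y1 + y2) ^ 2 - 3 * (y1 * y2) - v ^ 2) - z ^ 2 := by
      refine fz 2 1 1 0 0 0 0 ?_
      linear_combination (1) * hρ15 + (1) * r2
    subst hF
    clear e2 hρ15 r2
    have r3 : rel3 49 (60 * (y1 + y2)) (60 * y1 - 60 * y2) ((2 * x1) ^ 2 - (2 * x2) ^ 2) ((2 * z) ^ 2) (60 * v) := by
      unfold rel3 iQ iP
      linear_combination (-30) * e3
    have r4 : rel4 49 (60 * (y1 + y2)) (60 * y1 - 60 * y2) ((2 * x1) ^ 2 + (2 * x2) ^ 2) ((2 * z) ^ 2) (60 * v) := by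
      unfold rel3 iQ iP at r3
      unfold rel4 iQ iP
      linear_combination (-105) * e4 - (-5) * ((60*y1) + (60*y2)) * r3
    have r5 : rel5 49 (60 * (y1 + y2)) (60 * y1 - 60 * y2) ((2 * z) ^ 2) (60 * v) := by
      unfold rel3 iQ iP at r3
      unfold rel4 iQ iP at r4
      unfold rel5 iQ iP
      refine fz 5 2 1 0 0 0 0 ?_
      linear_combination (3780) * e5 - (1) * (-396 * ((60*y1) + (60*y2)) ^ 2 + -1188 * ((60*y1) - (60*y2)) ^ 2 + 1674 * (60*v) ^ 2 + 558 * (2*z) ^ 2) * r3 - (0) * r4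
    have r6 : rel6 49 (60 * (y1 + y2)) (60 * y1 - 60 * y2) ((2 * z) ^ 2) (60 * v) := by
      unfold rel3 iQ iP at r3
      unfold rel4 iQ iP at r4
      unfold rel6 iQ iP
      refine fz 7 1 1 0 0 0 0 ?_
      linear_combination (5159700) * e6 - ((1034475) * ((60*y1) + (60*y2)) ^ 3 + (-772200) * ((60*y1) + (60*y2)) * ((60*y1) - (60*y2)) ^ 2 + (-3255525) * ((60*y1) + (60*y2)) * (60*v) ^ 2 + (-1085175) * ((60*y1) + (60*y2)) * (2*z) ^ 2 + (1535625) * ((60*y1) - (60*y2)) * ((2*x1) ^ 2 - (2*x2) ^ 2) + (536250) * (60*v) ^ 3 + (1023750) * (60*v) * (2*z) ^ 2) * r3 - (91) * (-720 * ((60*y1) + (60*y2)) ^ 2 + -2160 * ((60*y1) - (60*y2)) ^ 2 + 3780 * (60*v) ^ 2 + 1260 * (2*z) ^ 2) * r4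
    have r7 : rel7 (60 * (y1 + y2)) (60 * y1 - 60 * y2) ((2 * z) ^ 2) (60 * v) := by
      unfold rel3 iQ iP at r3
      unfold rel4 iQ iP at r4
      unfold rel7 iQ iP
      refine fz 5 3 2 0 0 0 0 ?_
      linear_combination (-56700) * e7 - (-15) * (-564 * ((60*y1) + (60*y2)) ^ 4 + -1584 * ((60*y1) + (60*y2)) ^ 2 * ((60*y1) - (60*y2)) ^ 2 + 1872 * ((60*y1) + (60*y2)) ^ 2 * (60*v) ^ 2 + 624 * ((60*y1) + (60*y2)) ^ 2 * (2*z) ^ 2 + -900 * ((60*y1) + (60*y2)) * ((60*y1) - (60*y2)) * ((2*x1) ^ 2 - (2*x2) ^ 2) + -2376 * ((60*y1) - (60*y2)) ^ 4 + 2916 * ((60*y1) - (60*y2)) ^ 2 * (60*v) ^ 2 + 972 * ((60*y1) - (60*y2)) ^ 2 * (2*z) ^ 2 + -2064 * (60*v) ^ 4 + 744 * (60*v) ^ 2 * (2*z) ^ 2 + -216 * (2*z) ^ 4) * r3 - (-1) * (900 * ((60*y1) + (60*y2)) ^ 3 + -2700 * ((60*y1) + (60*y2)) * (60*v) ^ 2 + -900 * ((60*y1) + (60*y2)) * (2*z) ^ 2 + 2700 * ((60*y1) - (60*y2))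 * ((2*x1) ^ 2 - (2*x2) ^ 2)) * r4
    exact ⟨r2', r3, r4, r5, r6, r7⟩
  · rintro ⟨r2, r3, r4, r5, r6, r7⟩
    unfold rel2 at r2
    unfold rel3 iQ iP at r3
    unfold rel4 iQ iP at r4
    unfold rel5 iQ iP at r5
    unfold rel6 iQ iP at r6
    unfold rel7 iQ iP at r7
    have hF : F = (x1 + x2) ^ 2 + 60 * (49 - 4) * ((y1 + y2) ^ 2 - 3 * (y1 * y2) - v ^ 2) - z ^ 2 := by
      refine fz 2 1 1 0 0 0 0 ?_
      linear_combination (1) * hρ15 + (1) * r2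
    subst hF
    clear hρ15 r2
    intro k hk
    interval_cases k
    · simp only [ca, cD_int, cψ_int, cμ_int]
      push_cast
      refine fz 2 4 2 1 0 0 0 ?_
      linear_combination (-21600) * r7 + (15) * (-564 * ((60*y1) + (60*y2)) ^ 4 + -1584 * ((60*y1) + (60*y2)) ^ 2 * ((60*y1) - (60*y2)) ^ 2 + 1872 * ((60*y1) + (60*y2)) ^ 2 * (60*v) ^ 2 + 624 * ((60*y1) + (60*y2)) ^ 2 * (2*z) ^ 2 + -900 * ((60*y1) + (60*y2)) * ((60*y1) - (60*y2)) * ((2*x1) ^ 2 - (2*x2) ^ 2) + -2376 * ((60*y1) - (60*y2)) ^ 4 + 2916 * ((60*y1) - (60*y2)) ^ 2 * (60*v) ^ 2 + 972 * ((60*y1) - (60*y2)) ^ 2 * (2*z) ^ 2 + -2064 * (60*v) ^ 4 + 744 * (60*v) ^ 2 * (2*z) ^ 2 + -216 * (2*z) ^ 4) * r3 + (1) * (900 * ((60*y1) + (60*y2)) ^ 3 + -2700 * ((60*y1) + (60*y2)) * (60*v) ^ 2 + -900 * ((60*y1) + (60*y2)) * (2*z) ^ 2 + 2700 * ((60*y1) - (60*y2)) * ((2*x1) ^ 2 - (2*x2) ^ 2)) * r4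
    · simp only [ca, cD_int, cψ_int, cμ_int]
      push_cast
      refine fz 2 4 2 2 0 1 0 ?_
      linear_combination (1920) * r6 + ((1034475) * ((60*y1) + (60*y2)) ^ 3 + (-772200) * ((60*y1) + (60*y2)) * ((60*y1) - (60*y2)) ^ 2 + (-3255525) * ((60*y1) + (60*y2)) * (60*v) ^ 2 + (-1085175) * ((60*y1) + (60*y2)) * (2*z) ^ 2 + (1535625) * ((60*y1) - (60*y2)) * ((2*x1) ^ 2 - (2*x2) ^ 2) + (536250) * (60*v) ^ 3 + (1023750) * (60*v) * (2*z) ^ 2) * r3 + (91) * (-720 * ((60*y1) + (60*y2)) ^ 2 + -2160 * ((60*y1) - (60*y2)) ^ 2 + 3780 * (60*v) ^ 2 + 1260 * (2*z) ^ 2) * r4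
    · simp only [ca, cD_int, cψ_int, cμ_int]
      push_cast
      refine fz 2 3 1 1 0 0 0 ?_
      linear_combination (1440) * r5 + (1) * (-396 * ((60*y1) + (60*y2)) ^ 2 + -1188 * ((60*y1) - (60*y2)) ^ 2 + 1674 * (60*v) ^ 2 + 558 * (2*z) ^ 2) * r3 + (0) * r4
    · simp only [ca, cD_int, cψ_int, cμ_int]
      push_cast
      refine fz 0 1 1 1 0 0 0 ?_
      linear_combination (-1) * r4 + (5) * ((60*y1) + (60*y2)) * r3
    · simp only [ca, cD_int, cψ_int, cμ_int]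
      push_cast
      refine fz 1 1 1 0 0 0 0 ?_
      linear_combination (-1) * r3
    · simp only [ca, cD_int, cψ_int, cμ_int]
      push_cast
      ring
    · simp only [ca, cD_int, cψ_int, cμ_int]
      push_cast
      ring

end TDP
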