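import Pool.Agent.Lib.MP_d0515f_al.SmallC

/-! Small diameters, part D: classification for `n = 7` (diameter `6`). -/

namespace TDP

variable {K : Type*} [Field K] [Num17 K]

theorem kz (a b c d e f g : ℕ)
    (h : (2 : K) ^ a * 3 ^ b * 5 ^ c * 7 ^ d * 11 ^ e * 13 ^ f * 17 ^ g = 0) : False :=
  one_ne_zero (fz a b c d e f g (x := (1 : K)) (y := 0) (by rw [h, zero_mul]))

theorem alg7_g0 (P Q w : K)
    (h5 : P * (13 * Q - 11 * w) = 0) (h6 : 250 * P ^ 2 + 441 * Q ^ 2 * (Q - w) = 0)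
    (h7 : P * (26 * Q ^ 2 - 51 * Q * w + 27 * w ^ 2) = 0) :
    P = 0 ∧ (Q = 0 ∨ w = Q) := by
  have hP : P = 0 := by
    by_contra hP
    have e5 : 13 * Q - 11 * w = 0 := (mul_eq_zero.1 h5).resolve_left hP
    have e7 : 26 * Q ^ 2 - 51 * Q * w + 27 * w ^ 2 = 0 := (mul_eq_zero.1 h7).resolve_left hP
    have hQ2 : 416 * Q ^ 2 = 0 := by
      linear_combination 121 * e7 - (561 * Q - 351 * Q - 297 * w) * e5
    have hQ : Q = 0 := by
      rcases mul_eq_zero.1 hQ2 with h | h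
      · exact (kz (K := K) 5 0 0 0 0 1 0 (by linear_combination (1) * h)).elim
      · exact pow_eq_zero_iff (two_ne_zero) |>.1 h
    have hw : w = 0 := by
      have : 11 * w = 0 := by rw [hQ] at e5; linear_combination -e5
      rcases mul_eq_zero.1 this with h | h
      · exact (kz (K := K) 0 0 0 0 1 0 0 (by linear_combination (1) * h)).elim
      · exact h
    rw [hQ, hw] at h6
    have : 250 * P ^ 2 = 0 := by linear_combination h6
    rcases mul_eq_zero.1 this with h | h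
    · exact (kz (K := K) 1 0 3 0 0 0 0 (by linear_combination (1) * h)).elim
    · exact hP (pow_eq_zero_iff (two_ne_zero) |>.1 h)
  refine ⟨hP, ?_⟩
  rw [hP] at h6
  have h : Q ^ 2 * (Q - w) = 0 := by
    have : 441 * (Q ^ 2 * (Q - w)) = 0 := by linear_combination h6
    rcases mul_eq_zero.1 this with h | h
    · exact (kz (K := K) 0 2 0 2 0 0 0 (by linear_combination (1) * h)).elim
    · exact h
  rcases mul_eq_zero.1 h with h | h
  · exact Or.inl (pow_eq_zero_iff (two_ne_zero) |>.1 h)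
  · exact Or.inr (sub_eq_zero.1 h).symm

theorem alg7_PQ (P Q g w : K) (hg : g ≠ 0)
    (x5 : 65 * P * Q - 165 * P * g ^ 2 - 55 * P * w + 121 * Q * g ^ 3 + 231 * Q * g * w
      + 276 * g ^ 5 - 1364 * g ^ 3 * w = 0)
    (x6 : w * (2625 * P * g - 441 * Q ^ 2 - 7497 * g ^ 2 * Q + 58044 * g ^ 4) + 250 * P ^ 2
      + 1375 * P * g ^ 3 + 441 * Q ^ 3 - 1323 * Q ^ 2 * g ^ 2 + 441 * Q * g ^ 4
      - 13820 * g ^ 6 = 0)
    (x7 : 130 * P * Q ^ 2 - 765 * P * Q * g ^ 2 - 255 * P * Q * w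
      + 1255 * P * g ^ 4 + 130 * P * g ^ 2 * w + 135 * P * w ^ 2
      + 242 * Q ^ 2 * g ^ 3 + 462 * Q ^ 2 * g * w - 891 * Q * g ^ 5
      - 1998 * Q * g ^ 3 * w - 567 * Q * g * w ^ 2 + 1892 * g ^ 7
      - 6520 * g ^ 5 * w + 3348 * g ^ 3 * w ^ 2 = 0) :
    (P = -8 * g ^ 3 ∧ Q = 4 * g ^ 2) ∨ (P = -512 * g ^ 3 ∧ Q = 64 * g ^ 2 ∧ w = 49 * g ^ 2) ∨
      (8 * P = -g ^ 3 ∧ 4 * Q = g ^ 2 ∧ 4 * w = g ^ 2) := by
  have hg2 : g ^ 2 ≠ 0 := pow_ne_zero 2 hg
  -- first elimination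
  have hR : g * ((g ^ 2 - 4 * w) * ((49 * g ^ 2 - w) * (Q - 4 * g ^ 2) ^ 2)) = 0 := by
    have : (-840 : K) * (g * ((g ^ 2 - 4 * w) * ((49 * g ^ 2 - w) * (Q - 4 * g ^ 2) ^ 2))) = 0 := by
      linear_combination (65 * Q - 165 * g ^ 2 - 55 * w) * x7
        - (130 * Q ^ 2 - 765 * Q * g ^ 2 - 255 * Q * w + 1255 * g ^ 4 + 130 * g ^ 2 * w
          + 135 * w ^ 2) * x5
    rcases mul_eq_zero.1 this with h | h
    · exact (kz (K := K) 3 1 1 1 0 0 0 (by linear_combination (-1) * h)).elim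
    · exact h
  -- second elimination
  have hS : (Q - 4 * g ^ 2) ^ 2 * (169 * Q ^ 3 - 13 * Q ^ 2 * g ^ 2 - 455 * Q ^ 2 * w
      + 1024 * Q * g ^ 4 - 4071 * Q * g ^ 2 * w + 407 * Q * w ^ 2 - 1670 * g ^ 6
      + 5511 * g ^ 4 * w + 4664 * g ^ 2 * w ^ 2 - 121 * w ^ 3) = 0 := by
    have : (11025 : K) * ((Q - 4 * g ^ 2) ^ 2 * (169 * Q ^ 3 - 13 * Q ^ 2 * g ^ 2 - 455 * Q ^ 2 * w
      + 1024 * Q * g ^ 4 - 4071 * Q * g ^ 2 * w + 407 * Q * w ^ 2 - 1670 * g ^ 6
      + 5511 * g ^ 4 * w + 4664 * g ^ 2 * w ^ 2 - 121 * w ^ 3)) = 0 := by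
      linear_combination (65 * Q - 165 * g ^ 2 - 55 * w) ^ 2 * x6
        - (250 * (P * (65 * Q - 165 * g ^ 2 - 55 * w)
            - g * (121 * Q * g ^ 2 + 231 * Q * w + 276 * g ^ 4 - 1364 * g ^ 2 * w))
          + (1375 * g ^ 3 + 2625 * g * w) * (65 * Q - 165 * g ^ 2 - 55 * w)) * x5
    rcases mul_eq_zero.1 this with h | h
    · exact (kz (K := K) 0 2 2 2 0 0 0 (by linear_combination (1) * h)).elim
    · exact h
  -- the case Q = 4 g^2
  have hcase : Q = 4 * g ^ 2 → P = -8 * g ^ 3 := by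
    intro hQ
    subst hQ
    have y5 : (P + 8 * g ^ 3) * (19 * g ^ 2 - 11 * w) = 0 := by
      exact fz 0 0 1 0 0 0 0 (by linear_combination (1) * x5)
    have y7 : (P + 8 * g ^ 3) * (275 * g ^ 4 - 890 * g ^ 2 * w + 135 * w ^ 2) = 0 := by
      linear_combination x7
    by_contra hP
    have hP' : P + 8 * g ^ 3 ≠ 0 := fun h => hP (by linear_combination h)
    have z5 := (mul_eq_zero.1 y5).resolve_left hP'
    have z7 := (mul_eq_zero.1 y7).resolve_left hP'
    have : (104000 : K) * g ^ 4 = 0 := by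
      linear_combination (-121) * z7 + (890 * 11 * g ^ 2 - 135 * 11 * w - 135 * 19 * g ^ 2) * z5
    rcases mul_eq_zero.1 this with h | h
    · exact (kz (K := K) 6 0 3 0 0 1 0 (by linear_combination (1) * h)).elim
    · exact pow_ne_zero 4 hg h
  rcases mul_eq_zero.1 hR with h | h
  · exact absurd h hg
  rcases mul_eq_zero.1 h with h | h
  · -- 4 w = g^2
    obtain ⟨k, hk⟩ : ∃ k : K, g = 2 * k := ex2 g
    have hw : w = k ^ 2 := by
      rw [hk] at h
      exact fz 2 0 0 0 0 0 0 (by linear_combination (-1) * h)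
    rcases mul_eq_zero.1 hS with h' | h'
    · have hQ : Q = 4 * g ^ 2 := by
        have := pow_eq_zero_iff (two_ne_zero) |>.1 h'
        linear_combination this
      exact Or.inl ⟨hcase hQ, hQ⟩
    · rw [hw, hk] at h'
      have h3 : (169 : K) * (Q - k ^ 2) ^ 3 = 0 := by linear_combination h'
      have h4 : Q - k ^ 2 = 0 := by
        rcases mul_eq_zero.1 h3 with h | h
        · exact (kz (K := K) 0 0 0 0 0 2 0 (by linear_combination (1) * h)).elim
        · exact pow_eq_zero_iff (three_ne_zero) |>.1 h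
      have hQ : Q = k ^ 2 := by linear_combination h4
      right; right
      refine ⟨?_, by rw [hQ, hk]; ring, by rw [hw, hk]; ring⟩
      have : g ^ 2 * (8 * P + g ^ 3) = 0 := by
        rw [hQ, hw, hk] at x5
        rw [hk]
        exact fz 0 0 2 0 0 1 0 (by linear_combination (-16) * x5)
      have := (mul_eq_zero.1 this).resolve_left hg2
      linear_combination this
  rcases mul_eq_zero.1 h with h | h
  · -- w = 49 g^2
    have hw : w = 49 * g ^ 2 := by linear_combination -h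
    rcases mul_eq_zero.1 hS with h' | h'
    · have hQ : Q = 4 * g ^ 2 := by
        have := pow_eq_zero_iff (two_ne_zero) |>.1 h'
        linear_combination this
      exact Or.inl ⟨hcase hQ, hQ⟩
    · rw [hw] at h'
      have h3 : (169 : K) * ((Q - 64 * g ^ 2) ^ 2 * (Q - 4 * g ^ 2)) = 0 := by
        linear_combination h'
      rcases mul_eq_zero.1 h3 with h | h
      · exact (kz (K := K) 0 0 0 0 0 2 0 (by linear_combination (1) * h)).elim
      rcases mul_eq_zero.1 h with h | h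
      · have h4 := pow_eq_zero_iff (two_ne_zero) |>.1 h
        have hQ : Q = 64 * g ^ 2 := by linear_combination h4
        right; left
        refine ⟨?_, hQ, hw⟩
        have : g ^ 2 * (P + 512 * g ^ 3) = 0 := by
          rw [hQ, hw] at x5
          exact fz 2 0 2 0 0 1 0 (by linear_combination (1) * x5)
        have := (mul_eq_zero.1 this).resolve_left hg2
        linear_combination this
      · have hQ : Q = 4 * g ^ 2 := by linear_combination h
        exact Or.inl ⟨hcase hQ, hQ⟩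
  · have hQ : Q = 4 * g ^ 2 := by
      have := pow_eq_zero_iff (two_ne_zero) |>.1 h
      linear_combination this
    exact Or.inl ⟨hcase hQ, hQ⟩

end TDP
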