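import Pool.Agent.Lib.MP_d0515f_al.SmallD

/-! Small diameters, part E: classification for `n = 7` (diameter `6`) in terms of the data. -/

namespace TDP

variable {K : Type*} [Field K] [Num17 K]

theorem pow_zero_of {x : K} {n : ℕ} (h : x ^ n = 0) : x = 0 := by
  by_contra hx
  exact pow_ne_zero n hx h

theorem ex5 (b : K) : ∃ x : K, b = 5 * x :=
  ⟨b / 5, by have h2 := nz5 (K := K); field_simp⟩

/-- the three exceptional systems for `n = 7` -/
def Spor7 (b1 b2 c1 c2 ρ : K) : Prop :=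
  (c1 + c2 = 0 ∧ 5 * b1 ^ 2 = c1 ^ 2 ∧ 5 * b2 ^ 2 = c1 ^ 2 ∧ ρ = 12 * c1 ^ 2) ∨
  (c1 = 2 * c2 ∧ 5 * b1 ^ 2 = 4 * c2 ^ 2 ∧ 5 * b2 ^ 2 = -11 * c2 ^ 2 ∧ ρ = 12 * c2 ^ 2) ∨
  (c2 = 2 * c1 ∧ 5 * b2 ^ 2 = 4 * c1 ^ 2 ∧ 5 * b1 ^ 2 = -11 * c1 ^ 2 ∧ ρ = 12 * c1 ^ 2)

theorem disc_id (a e : K) : iP a e ^ 2 - iQ a e ^ 3 = -27 * (e * (a ^ 2 - e ^ 2)) ^ 2 := by
  unfold iP iQ; ring

/-- degenerate case: if `c1 = 0` then `b1 = 0` -/
theorem deg7 (b1 b2 c2 w g : K) (hc2 : c2 ≠ 0)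
    (r3 : rel3 49 (0 + c2) (0 - c2) (b1 ^ 2 - b2 ^ 2) w g)
    (r4 : rel4 49 (0 + c2) (0 - c2) (b1 ^ 2 + b2 ^ 2) w g)
    (h : (iP (0 + c2) (0 - c2) = -8 * g ^ 3 ∧ iQ (0 + c2) (0 - c2) = 4 * g ^ 2) ∨
      (iP (0 + c2) (0 - c2) = -512 * g ^ 3 ∧ iQ (0 + c2) (0 - c2) = 64 * g ^ 2 ∧ w = 49 * g ^ 2) ∨
      (8 * iP (0 + c2) (0 - c2) = -g ^ 3 ∧ 4 * iQ (0 + c2) (0 - c2) = g ^ 2 ∧ 4 * w = g ^ 2)) :
    b1 = 0 := by
  have hc3 : c2 ^ 2 ≠ 0 := pow_ne_zero 2 hc2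
  unfold rel3 at r3
  unfold rel4 at r4
  unfold iP iQ at h r3 r4
  have key : b1 ^ 2 = 0 → b1 = 0 := fun h => pow_zero_of h
  rcases h with ⟨hP, hQ⟩ | ⟨hP, hQ, hw⟩ | ⟨hP, hQ, hw⟩
  · -- c2 = g
    have e2 : c2 ^ 2 = g ^ 2 := by exact fz 2 0 0 0 0 0 0 (by linear_combination (1) * hQ)
    have e3 : c2 ^ 3 = g ^ 3 := by exact fz 3 0 0 0 0 0 0 (by linear_combination (-1) * hP)
    have hcg : c2 = g := by
      have : c2 ^ 2 * (c2 - g) = 0 := by linear_combination e3 - g * e2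
      have := (mul_eq_zero.1 this).resolve_left hc3
      linear_combination this
    subst hcg
    apply key
    have h3 : c2 * (b1 ^ 2 - b2 ^ 2 + w) = 0 := by exact fz 2 3 1 1 0 0 0 (by linear_combination (-1) * r3)
    have h3' := (mul_eq_zero.1 h3).resolve_left hc2
    have h4 : c2 ^ 2 * (b1 ^ 2 + b2 ^ 2 - w) = 0 := by exact fz 2 4 2 1 0 0 0 (by linear_combination (1) * r4)
    have h4' := (mul_eq_zero.1 h4).resolve_left hc3
    exact fz 1 0 0 0 0 0 0 (by linear_combination (1) * h3' + (1) * h4')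
  · have e2 : c2 ^ 2 = 16 * g ^ 2 := by exact fz 2 0 0 0 0 0 0 (by linear_combination (1) * hQ)
    have e3 : c2 ^ 3 = 64 * g ^ 3 := by exact fz 3 0 0 0 0 0 0 (by linear_combination (-1) * hP)
    have hcg : c2 = 4 * g := by
      have : c2 ^ 2 * (c2 - 4 * g) = 0 := by linear_combination e3 - 4 * g * e2
      have := (mul_eq_zero.1 this).resolve_left hc3
      linear_combination this
    subst hw
    subst hcg
    apply key
    have h3 : (4 * g) * (b1 ^ 2 - b2 ^ 2 + 4 * g ^ 2) = 0 := by exact fz 2 3 1 1 0 0 0 (by linear_combination (-1) * r3)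
    have h3' := (mul_eq_zero.1 h3).resolve_left hc2
    have h4 : (4 * g) ^ 2 * (b1 ^ 2 + b2 ^ 2 - 4 * g ^ 2) = 0 := by
      exact fz 2 4 2 1 0 0 0 (by linear_combination (1) * r4)
    have h4' := (mul_eq_zero.1 h4).resolve_left hc3
    exact fz 1 0 0 0 0 0 0 (by linear_combination (1) * h3' + (1) * h4')
  · have e2 : 16 * c2 ^ 2 = g ^ 2 := by linear_combination hQ
    have e3 : 64 * c2 ^ 3 = g ^ 3 := by linear_combination (-1) * hP
    have hcg : g = 4 * c2 := by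
      have : c2 ^ 2 * (4 * c2 - g) = 0 := by
        exact fz 4 0 0 0 0 0 0 (by linear_combination (1) * e3 - (1) * g * e2)
      have := (mul_eq_zero.1 this).resolve_left hc3
      linear_combination -this
    have hw' : w = 4 * c2 ^ 2 := by rw [hcg] at hw; exact fz 2 0 0 0 0 0 0 (by linear_combination (1) * hw)
    subst hw'
    subst hcg
    apply key
    have h3 : c2 * (b1 ^ 2 - b2 ^ 2 + 49 * c2 ^ 2) = 0 := by exact fz 2 3 1 1 0 0 0 (by linear_combination (-1) * r3)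
    have h3' := (mul_eq_zero.1 h3).resolve_left hc2
    have h4 : c2 ^ 2 * (b1 ^ 2 + b2 ^ 2 - 49 * c2 ^ 2) = 0 := by
      exact fz 2 4 2 1 0 0 0 (by linear_combination (1) * r4)
    have h4' := (mul_eq_zero.1 h4).resolve_left hc3
    exact fz 1 0 0 0 0 0 0 (by linear_combination (1) * h3' + (1) * h4')

theorem cls7 (b1 b2 c1 c2 w g ρ : K) (hc : c1 ≠ c2)
    (r2 : rel2 49 ρ w g) (r3 : rel3 49 (c1 + c2) (c1 - c2) (b1 ^ 2 - b2 ^ 2) w g)
    (r4 : rel4 49 (c1 + c2) (c1 - c2) (b1 ^ 2 + b2 ^ 2) w g)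
    (r5 : rel5 49 (c1 + c2) (c1 - c2) w g) (r6 : rel6 49 (c1 + c2) (c1 - c2) w g)
    (r7 : rel7 (c1 + c2) (c1 - c2) w g) :
    (c1 = 0 ∧ b1 = 0) ∨ (c2 = 0 ∧ b2 = 0) ∨ (Spor7 b1 b2 c1 c2 ρ ∧ w = ρ ∧ g = 0) := by
  have he : c1 - c2 ≠ 0 := sub_ne_zero.2 hc
  by_cases hg : g = 0
  · -- g = 0
    subst hg
    have hwρ : w = ρ := by unfold rel2 at r2; exact fz 0 1 1 0 0 0 0 (by linear_combination (1) * r2)
    unfold rel5 at r5
    unfold rel6 at r6
    unfold rel7 at r7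
    have key := alg7_g0 (iP (c1 + c2) (c1 - c2)) (iQ (c1 + c2) (c1 - c2)) w
      (by exact fz 0 1 1 0 0 0 0 (by linear_combination (-1) * r5)) (by exact fz 0 1 1 0 0 1 0 (by linear_combination (1) * r6))
      (by exact fz 0 0 1 0 0 0 0 (by linear_combination (1) * r7))
    obtain ⟨hP, hQ⟩ := key
    have hP' : (c1 + c2) * ((4 * c1 - 2 * c2) * (4 * c2 - 2 * c1)) = 0 := by
      have := hP; unfold iP at this; linear_combination this
    have hQe : iQ (c1 + c2) (c1 - c2) ≠ 0 := by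
      intro h0
      have h := disc_id (c1 + c2) (c1 - c2)
      rw [hP, h0] at h
      have h1 : ((c1 - c2) * ((c1 + c2) ^ 2 - (c1 - c2) ^ 2)) ^ 2 = 0 := by
        exact fz 0 3 0 0 0 0 0 (by linear_combination (1) * h)
      have h2 := pow_zero_of h1
      have h3 := (mul_eq_zero.1 h2).resolve_left he
      unfold iQ at h0
      have h4 : 4 * (c1 - c2) ^ 2 = 0 := by linear_combination h0 - h3
      rcases mul_eq_zero.1 h4 with h | h
      · exact (kz (K := K) 2 0 0 0 0 0 0 (by linear_combination (1) * h)).elim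
      · exact he (pow_zero_of h)
    have hw := hQ.resolve_left hQe
    subst hw
    right; right
    refine ⟨?_, hwρ, rfl⟩
    unfold rel3 at r3
    unfold rel4 at r4
    unfold iQ iP at r3 r4
    unfold iQ at hwρ
    rcases mul_eq_zero.1 hP' with h | h
    · left
      have hc2 : c2 = -c1 := by linear_combination h
      subst hc2
      have hc1 : c1 ≠ 0 := by
        intro h0; apply he; rw [h0]; ring
      have h3 : c1 * (b1 ^ 2 - b2 ^ 2) = 0 := by exact fz 3 3 1 1 0 0 0 (by linear_combination (1) * r3)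
      have h3' := (mul_eq_zero.1 h3).resolve_left hc1
      have h4 : c1 ^ 2 * (5 * (b1 ^ 2 + b2 ^ 2) - 2 * c1 ^ 2) = 0 := by
        exact fz 4 4 1 1 0 0 0 (by linear_combination (1) * r4)
      have h4' := (mul_eq_zero.1 h4).resolve_left (pow_ne_zero 2 hc1)
      refine ⟨h, ?_, ?_, ?_⟩
      · exact fz 1 0 0 0 0 0 0 (by linear_combination (5) * h3' + (1) * h4')
      · exact fz 1 0 0 0 0 0 0 (by linear_combination (-5) * h3' + (1) * h4')
      · linear_combination -hwρ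
    rcases mul_eq_zero.1 h with h | h
    · right; right
      have hc2 : c2 = 2 * c1 := by exact fz 1 0 0 0 0 0 0 (by linear_combination (-1) * h)
      subst hc2
      have hc1 : c1 ≠ 0 := by
        intro h0; apply he; rw [h0]; ring
      have h3 : c1 * (b1 ^ 2 - b2 ^ 2 + 3 * c1 ^ 2) = 0 := by
        exact fz 2 3 1 1 0 0 0 (by linear_combination (-1) * r3)
      have h3' := (mul_eq_zero.1 h3).resolve_left hc1
      have h4 : c1 ^ 2 * (5 * (b1 ^ 2 + b2 ^ 2) + 7 * c1 ^ 2) = 0 := by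
        exact fz 2 4 1 1 0 0 0 (by linear_combination (1) * r4)
      have h4' := (mul_eq_zero.1 h4).resolve_left (pow_ne_zero 2 hc1)
      refine ⟨rfl, ?_, ?_, ?_⟩
      · exact fz 1 0 0 0 0 0 0 (by linear_combination (-5) * h3' + (1) * h4')
      · exact fz 1 0 0 0 0 0 0 (by linear_combination (5) * h3' + (1) * h4')
      · linear_combination -hwρ
    · right; left
      have hc1 : c1 = 2 * c2 := by exact fz 1 0 0 0 0 0 0 (by linear_combination (-1) * h)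
      subst hc1
      have hc2 : c2 ≠ 0 := by
        intro h0; apply he; rw [h0]; ring
      have h3 : c2 * (b1 ^ 2 - b2 ^ 2 - 3 * c2 ^ 2) = 0 := by
        exact fz 2 3 1 1 0 0 0 (by linear_combination (1) * r3)
      have h3' := (mul_eq_zero.1 h3).resolve_left hc2
      have h4 : c2 ^ 2 * (5 * (b1 ^ 2 + b2 ^ 2) + 7 * c2 ^ 2) = 0 := by
        exact fz 2 4 1 1 0 0 0 (by linear_combination (1) * r4)
      have h4' := (mul_eq_zero.1 h4).resolve_left (pow_ne_zero 2 hc2)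
      refine ⟨rfl, ?_, ?_, ?_⟩
      · exact fz 1 0 0 0 0 0 0 (by linear_combination (5) * h3' + (1) * h4')
      · exact fz 1 0 0 0 0 0 0 (by linear_combination (-5) * h3' + (1) * h4')
      · linear_combination -hwρ
  · -- g ≠ 0
    have key := alg7_PQ (iP (c1 + c2) (c1 - c2)) (iQ (c1 + c2) (c1 - c2)) g w hg
      (by unfold rel5 at r5; exact fz 0 1 0 0 0 0 0 (by linear_combination (-1) * r5))
      (by unfold rel6 at r6; exact fz 0 1 1 0 0 1 0 (by linear_combination (1) * r6))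
      (by unfold rel7 at r7; linear_combination r7)
    have hd : iP (c1 + c2) (c1 - c2) ^ 2 - iQ (c1 + c2) (c1 - c2) ^ 3 = 0 := by
      rcases key with ⟨hP, hQ⟩ | ⟨hP, hQ, _⟩ | ⟨hP, hQ, _⟩
      · rw [hP, hQ]; ring
      · rw [hP, hQ]; ring
      · exact fz 6 0 0 0 0 0 0 (by
          linear_combination (8 * iP (c1 + c2) (c1 - c2) - g ^ 3) * hP
            - (16 * iQ (c1 + c2) (c1 - c2) ^ 2 + 4 * iQ (c1 + c2) (c1 - c2) * g ^ 2 + g ^ 4) * hQ)
    rw [disc_id] at hd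
    have h1 : ((c1 - c2) * ((c1 + c2) ^ 2 - (c1 - c2) ^ 2)) ^ 2 = 0 := by
      exact fz 0 3 0 0 0 0 0 (by linear_combination (-1) * hd)
    have h3 := (mul_eq_zero.1 (pow_zero_of h1)).resolve_left he
    have h4 : c1 * c2 = 0 := by exact fz 2 0 0 0 0 0 0 (by linear_combination (1) * h3)
    rcases mul_eq_zero.1 h4 with h | h
    · left
      refine ⟨h, ?_⟩
      subst h
      exact deg7 b1 b2 c2 w g (fun h0 => hc h0.symm) r3 r4 key
    · right; left
      refine ⟨h, ?_⟩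
      subst h
      refine deg7 b2 b1 c1 w g hc ?_ ?_ ?_
      · unfold rel3 iP iQ at r3 ⊢
        linear_combination r3
      · unfold rel4 iP iQ at r4 ⊢
        linear_combination r4
      · have e1 : iP (0 + c1) (0 - c1) = iP (c1 + 0) (c1 - 0) := by unfold iP; ring
        have e2 : iQ (0 + c1) (0 - c1) = iQ (c1 + 0) (c1 - 0) := by unfold iQ; ring
        rw [e1, e2]
        exact key

/-- conversely, the three systems satisfy all relations with `g = 0`, `w = ρ` -/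
theorem cls7_conv (b1 b2 c1 c2 ρ : K) (h : Spor7 b1 b2 c1 c2 ρ) :
    rel2 49 ρ ρ 0 ∧ rel3 49 (c1 + c2) (c1 - c2) (b1 ^ 2 - b2 ^ 2) ρ 0 ∧
    rel4 49 (c1 + c2) (c1 - c2) (b1 ^ 2 + b2 ^ 2) ρ 0 ∧
    rel5 49 (c1 + c2) (c1 - c2) ρ 0 ∧ rel6 49 (c1 + c2) (c1 - c2) ρ 0 ∧
    rel7 (c1 + c2) (c1 - c2) ρ 0 := by
  unfold rel2 rel3 rel4 rel5 rel6 rel7 iP iQ
  rcases h with ⟨hc, h1, h2, hρ⟩ | ⟨hc, h1, h2, hρ⟩ | ⟨hc, h2, h1, hρ⟩
  · have hc2 : c2 = -c1 := by linear_combination hc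
    subst hc2
    obtain ⟨m, rfl⟩ := ex5 c1
    have h1' : b1 ^ 2 = 5 * m ^ 2 := fz 0 0 1 0 0 0 0 (by linear_combination (1) * h1)
    have h2' : b2 ^ 2 = 5 * m ^ 2 := fz 0 0 1 0 0 0 0 (by linear_combination (1) * h2)
    rw [h1', h2', hρ]
    refine ⟨?_, ?_, ?_, ?_, ?_, ?_⟩ <;> ring
  · subst hc
    obtain ⟨m, rfl⟩ := ex5 c2
    have h1' : b1 ^ 2 = 20 * m ^ 2 := fz 0 0 1 0 0 0 0 (by linear_combination (1) * h1)
    have h2' : b2 ^ 2 = -55 * m ^ 2 := fz 0 0 1 0 0 0 0 (by linear_combination (1) * h2)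
    rw [h1', h2', hρ]
    refine ⟨?_, ?_, ?_, ?_, ?_, ?_⟩ <;> ring
  · subst hc
    obtain ⟨m, rfl⟩ := ex5 c1
    have h1' : b1 ^ 2 = -55 * m ^ 2 := fz 0 0 1 0 0 0 0 (by linear_combination (1) * h1)
    have h2' : b2 ^ 2 = 20 * m ^ 2 := fz 0 0 1 0 0 0 0 (by linear_combination (1) * h2)
    rw [h1', h2', hρ]
    refine ⟨?_, ?_, ?_, ?_, ?_, ?_⟩ <;> ring

end TDP
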