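import Pool.Agent.Lib.MP_d0515f_al.Flats
import Pool.Agent.Lib.MP_d0515f_al.Rel

/-! The split form of a Leonard pair with `β = 2`. -/

namespace TDP

open Module

variable {K V : Type*} [Field K] [AddCommGroup V] [Module K V]

/-- split form: `A` is lower bidiagonal and `B` is upper bidiagonal on the basis `r 0, …, r d` -/
structure SplitData (A B : Module.End K V) (d : ℕ) (a b c as bs cs F : K) (r : ℕ → V) :
    Prop where
  rA : ∀ j : ℕ, A (r j) = r (j + 1) + qf a b c (j : K) • r j
  rB0 : B (r 0) = qf as bs cs 0 • r 0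
  rB : ∀ j : ℕ, B (r (j + 1)) = qf as bs cs ((j : K) + 1) • r (j + 1)
    + (((j : K) + 1) * ((j : K) - d) * (c * cs * ((j : K) + 1) ^ 2
        + (cs * b + c * bs + c * cs * ((d : K) - 1)) * ((j : K) + 1) + F)) • r j
  r_end : ∀ j : ℕ, d + 1 ≤ j → r j = 0
  li : LinearIndependent K (fun i : Fin (d + 1) => r i)
  span_eq : Submodule.span K (Set.range fun i : Fin (d + 1) => r i) = ⊤

/-- coefficients above the level vanish -/
theorem coef_vanish {d : ℕ} {L G : ℕ → Submodule K V} {r : ℕ → V}
    (L_mono : ∀ k, L k ≤ L (k + 1)) (flat : ∀ k, L k ⊓ G k = ⊥)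
    (hrL : ∀ k, r k ∈ L (k + 1)) (hrG : ∀ k, k ≤ d → r k ∈ G k) (hr0 : ∀ k, k ≤ d → r k ≠ 0) :
    ∀ n, n ≤ d + 1 → ∀ (g : ℕ → K) (k : ℕ), ∑ i ∈ Finset.range n, g i • r i ∈ L k →
      ∀ i, k ≤ i → i < n → g i = 0 := by
  have hmono : Monotone L := monotone_nat_of_le_succ L_mono
  intro n
  induction n with
  | zero => intro _ g k _ i _ hi; omega
  | succ n ih =>
    intro hn g k hk i hki hi
    have hkn : k ≤ n := by omega
    have h1 : ∑ i ∈ Finset.range n, g i • r i ∈ L n := by
      refine Submodule.sum_mem _ fun i hi => ?_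
      have := Finset.mem_range.1 hi
      exact Submodule.smul_mem _ _ (hmono (by omega : i + 1 ≤ n) (hrL i))
    rw [Finset.sum_range_succ] at hk
    have h2 : g n • r n ∈ L n := by
      have h3 := Submodule.sub_mem _ (hmono hkn hk) h1
      rwa [add_sub_cancel_left] at h3
    have h4 : g n • r n ∈ L n ⊓ G n := ⟨h2, Submodule.smul_mem _ _ (hrG n (by omega))⟩
    rw [flat, Submodule.mem_bot] at h4
    have h5 : g n = 0 := by
      rcases smul_eq_zero.1 h4 with h | h
      · exact h
      · exact absurd h (hr0 n (by omega))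
    rcases eq_or_lt_of_le (Nat.lt_succ_iff.1 hi) with h6 | h6
    · rw [h6]; exact h5
    · refine ih (by omega) g k ?_ i hki h6
      rwa [h5, zero_smul, add_zero] at hk

theorem st_smul (T : Module.End K V) (a b c x l : K) (w : V) :
    st T a b c x (l • w) = l • st T a b c x w := by
  simp only [st, map_smul, smul_sub, smul_comm (qf a b c x) l w]

theorem st_zero (T : Module.End K V) (a b c x : K) : st T a b c x 0 = 0 := by
  simp [st]

/-- a sequence with vanishing third differences and the right end values -/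
theorem quad_seq [Num17 K] {d : ℕ} {ψ : ℕ → K} (hd : ((d : K) + 1) ≠ 0) (h0 : ψ 0 = 0) (hn : ψ (d + 1) = 0)
    (h3 : ∀ j, j + 2 ≤ d → ψ j - 3 * ψ (j + 1) + 3 * ψ (j + 2) - ψ (j + 3) = 0) :
    ∃ β : K, ∀ j, j ≤ d + 1 → ψ j = β * j * ((j : K) - (d + 1)) := by
  have h2 : (2 : K) ≠ 0 := nz2 (K := K)
  set β : K := (ψ 2 - 2 * ψ 1) / 2 with hβ
  set α : K := ψ 1 - β with hα
  have hβ2 : 2 * β = ψ 2 - 2 * ψ 1 := by rw [hβ]; field_simp
  have key : ∀ n, ∀ j, j ≤ n → j ≤ d + 1 → ψ j = α * j + β * (j : K) ^ 2 := by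
    intro n
    induction n with
    | zero =>
      intro j hj _
      have : j = 0 := by omega
      subst this
      simp [h0]
    | succ n ih =>
      intro j hj hjd
      match j, hj, hjd with
      | 0, _, _ => simp [h0]
      | 1, _, _ => simp [hα]
      | 2, _, _ => push_cast; rw [hα]; linear_combination (-1 : K) * hβ2
      | j + 3, hj, hjd =>
        have e := h3 j (by omega)
        have e0 := ih j (by omega) (by omega)
        have e1 := ih (j + 1) (by omega) (by omega)
        have e2 := ih (j + 2) (by omega) (by omega)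
        push_cast at e0 e1 e2 ⊢
        linear_combination (-1 : K) * e + e0 - 3 * e1 + 3 * e2
  have hend := key (d + 1) (d + 1) le_rfl le_rfl
  rw [hn] at hend
  push_cast at hend
  have hαβ : α + β * ((d : K) + 1) = 0 := by
    have : ((d : K) + 1) * (α + β * ((d : K) + 1)) = 0 := by linear_combination -hend
    rcases mul_eq_zero.1 this with h | h
    · exact absurd h hd
    · exact h
  refine ⟨β, fun j hj => ?_⟩
  rw [key j j le_rfl hj]
  linear_combination (j : K) * hαβ

theorem split [Num17 K] [FiniteDimensional K V] {A B : Module.End K V} {d : ℕ}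
    (hK : Good K d)
    {a b c as bs cs : K}
    (h : IsTDPair A B d d (fun i => qf a b c (i : K)) (fun i => qf as bs cs (i : K)))
    (hfin : finrank K V = d + 1) :
    ∃ (F : K) (r : ℕ → V), SplitData A B d a b c as bs cs F r := by
  have LD := h.levelData
  obtain ⟨v, hv, hv0⟩ := Submodule.exists_mem_ne_zero_of_ne_bot h.LT_one_ne_bot
  set L := LT B d (fun i => qf as bs cs ((i : ℕ) : K)) with hLdef
  set G := GE A d (fun i => qf a b c ((i : ℕ) : K)) with hGdef
  set r : ℕ → V := rr A (fun i => qf a b c ((i : ℕ) : K)) v with hr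
  have hmono : Monotone L := monotone_nat_of_le_succ LD.L_mono
  have rstep : ∀ k, r (k + 1) = A (r k) - qf a b c (k : K) • r k := fun k => rfl
  have hrL : ∀ k, r k ∈ L (k + 1) := by
    intro k
    induction k with
    | zero => exact hv
    | succ k ih =>
      rw [rstep]
      exact Submodule.sub_mem _ (LD.A_L _ _ ih) (Submodule.smul_mem _ _ (LD.L_mono _ ih))
  have hrG : ∀ k, k ≤ d + 1 → r k ∈ G k := by
    intro k
    induction k with
    | zero => intro _; rw [LD.G_zero]; exact Submodule.mem_top
    | succ k ih =>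
      intro hk
      rw [rstep]
      exact LD.A_G k (by omega) _ (ih (by omega))
  have rstep0 : ∀ k, r k = 0 → ∀ j, k ≤ j → r j = 0 := by
    intro k hk j hj
    induction j, hj using Nat.le_induction with
    | base => exact hk
    | succ j _ ih => rw [rstep, ih]; simp
  have hrend : r (d + 1) = 0 := by
    have := hrG (d + 1) le_rfl
    rw [LD.G_bot] at this
    exact (Submodule.mem_bot K).1 this
  have r_end : ∀ j : ℕ, d + 1 ≤ j → r j = 0 := fun j hj => rstep0 _ hrend j hj
  have hr0 : ∀ k, k ≤ d → r k ≠ 0 := by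
    intro k hk hk0
    exact hv0 (LD.inj0 v hv (rstep0 k hk0 d hk))
  have hcoef := coef_vanish (K := K) (d := d) (G := G) LD.L_mono LD.flat hrL
    (fun k hk => hrG k (by omega)) hr0
  -- linear independence
  have hext : ∀ g : Fin (d + 1) → K, ∃ g' : ℕ → K, (∀ i : Fin (d + 1), g' i = g i) ∧
      ∑ i, g i • r i = ∑ i ∈ Finset.range (d + 1), g' i • r i := by
    intro g
    refine ⟨fun n => if hn : n < d + 1 then g ⟨n, hn⟩ else 0, fun i => dif_pos i.2, ?_⟩
    rw [← Fin.sum_univ_eq_sum_range (fun n => (if hn : n < d + 1 then g ⟨n, hn⟩ else 0) • r n)]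
    refine Finset.sum_congr rfl fun i _ => ?_
    rw [dif_pos i.2]
  have li : LinearIndependent K (fun i : Fin (d + 1) => r i) := by
    rw [Fintype.linearIndependent_iff]
    intro g hg i
    obtain ⟨g', hg', hs⟩ := hext g
    rw [hs] at hg
    rw [← hg' i]
    refine hcoef (d + 1) le_rfl g' 0 ?_ i (Nat.zero_le _) i.2
    rw [hg]; exact Submodule.zero_mem _
  have span_eq : Submodule.span K (Set.range fun i : Fin (d + 1) => r i) = ⊤ :=
    li.span_eq_top_of_card_eq_finrank' (by rw [Fintype.card_fin, hfin])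
  have hexp : ∀ x : V, ∃ g : ℕ → K, x = ∑ i ∈ Finset.range (d + 1), g i • r i := by
    intro x
    have hx : x ∈ Submodule.span K (Set.range fun i : Fin (d + 1) => r i) := by
      rw [span_eq]; exact Submodule.mem_top
    obtain ⟨g, hg⟩ := (Submodule.mem_span_range_iff_exists_fun K).1 hx
    obtain ⟨g', _, hs⟩ := hext g
    exact ⟨g', by rw [← hs, hg]⟩
  -- the lowering coefficients
  have hlam : ∀ j, j < d → ∃ l : K,
      B (r (j + 1)) = qf as bs cs ((j : K) + 1) • r (j + 1) + l • r j := by
    intro j hj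
    obtain ⟨g, hg⟩ := hexp (B (r (j + 1)) - qf as bs cs ((j : K) + 1) • r (j + 1))
    have hlL : B (r (j + 1)) - qf as bs cs ((j : K) + 1) • r (j + 1) ∈ L (j + 1) := by
      have := LD.B_L (j + 1) _ (hrL (j + 1))
      push_cast at this
      exact this
    have hlG : B (r (j + 1)) - qf as bs cs ((j : K) + 1) • r (j + 1) ∈ G j :=
      Submodule.sub_mem _ (LD.B_G j _ (hrG (j + 1) (by omega)))
        (Submodule.smul_mem _ _ (LD.G_anti j (hrG (j + 1) (by omega))))
    have hg0 : ∀ i, j + 1 ≤ i → i < d + 1 → g i = 0 := by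
      refine hcoef (d + 1) le_rfl g (j + 1) ?_
      rw [← hg]; exact hlL
    have hsum : B (r (j + 1)) - qf as bs cs ((j : K) + 1) • r (j + 1)
        = ∑ i ∈ Finset.range (j + 1), g i • r i := by
      rw [hg]
      symm
      refine Finset.sum_subset (Finset.range_mono (by omega)) fun i hi hi' => ?_
      rw [hg0 i (by simpa using hi') (by simpa using hi), zero_smul]
    rw [Finset.sum_range_succ] at hsum
    have hy : ∑ i ∈ Finset.range j, g i • r i ∈ L j ⊓ G j := by
      constructor
      · refine Submodule.sum_mem _ fun i hi => ?_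
        have := Finset.mem_range.1 hi
        exact Submodule.smul_mem _ _ (hmono (by omega : i + 1 ≤ j) (hrL i))
      · have h1 : ∑ i ∈ Finset.range j, g i • r i
            = (B (r (j + 1)) - qf as bs cs ((j : K) + 1) • r (j + 1)) - g j • r j := by
          rw [hsum, add_sub_cancel_right]
        rw [h1]
        exact Submodule.sub_mem _ hlG (Submodule.smul_mem _ _ (hrG j (by omega)))
    rw [LD.flat, Submodule.mem_bot] at hy
    rw [hy, zero_add] at hsum
    refine ⟨g j, ?_⟩
    rw [← hsum]; abel
  choose! lam hlam using hlam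
  set φ : ℕ → K := fun j => if 1 ≤ j ∧ j ≤ d then lam (j - 1) else 0 with hφ
  have hφ0 : φ 0 = 0 := by simp [hφ]
  have hφn : φ (d + 1) = 0 := by simp [hφ]
  have hφB : ∀ j, B (r (j + 1)) = qf as bs cs ((j : K) + 1) • r (j + 1) + φ (j + 1) • r j := by
    intro j
    rcases lt_or_ge j d with hj | hj
    · have : φ (j + 1) = lam j := by simp [hφ]; omega
      rw [this]; exact hlam j hj
    · have : φ (j + 1) = 0 := by simp [hφ]; omega
      rw [this, r_end (j + 1) (by omega)]; simp
  have hB0 : B (r 0) = qf as bs cs 0 • r 0 := by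
    have := LD.B_L 0 _ (hrL 0)
    rw [LD.L_zero, Submodule.mem_bot, sub_eq_zero] at this
    simpa using this
  have stA : ∀ j : ℕ, st A a b c (j : K) (r j) = r (j + 1) := fun j => rfl
  have stB : ∀ j : ℕ, st B as bs cs ((j : K) + 1) (r (j + 1)) = φ (j + 1) • r j := by
    intro j; rw [st, hφB j]; abel
  have h3 : ∀ j : ℕ, j + 2 ≤ d → φ j - 3 * φ (j + 1) + 3 * φ (j + 2) - φ (j + 3)
      + 3 * ((qf as bs cs ((j : K) + 2) - qf as bs cs ((j : K) + 1))
          * (qf a b c ((j : K) + 2) - qf a b c ((j : K) + 1))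
        - (qf as bs cs ((j : K) + 1) - qf as bs cs (j : K))
          * (qf a b c ((j : K) + 1) - qf a b c (j : K))) = 0 := by
    intro j hj
    have hs := s1 (A := A) (B := B) a b c as bs cs (j : K) (r j) (h.left.rel (r j))
    have e1 : st A a b c ((j : K) - 1) (st B as bs cs (j : K) (r j)) = φ j • r j := by
      cases j with
      | zero =>
        have : st B as bs cs ((0 : ℕ) : K) (r 0) = 0 := by
          simp [st, hB0]
        rw [this, st_zero, hφ0, zero_smul]
      | succ j =>
        push_cast
        rw [stB j, add_sub_cancel_right, st_smul, stA j]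
    have c1 : ((j : K) + 1) = ((j + 1 : ℕ) : K) := by push_cast; ring
    have c2 : ((j : K) + 2) = ((j + 2 : ℕ) : K) := by push_cast; ring
    have a1 : st A a b c ((j : K) + 1) (r (j + 1)) = r (j + 2) := by rw [c1]; exact stA (j + 1)
    have a2 : st A a b c ((j : K) + 2) (r (j + 2)) = r (j + 3) := by rw [c2]; exact stA (j + 2)
    have b1 : st B as bs cs ((j : K) + 2) (r (j + 2)) = φ (j + 2) • r (j + 1) := by
      have := stB (j + 1)
      have e : (((j + 1 : ℕ) : K) + 1) = (j : K) + 2 := by push_cast; ring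
      rwa [e] at this
    have b2 : st B as bs cs ((j : K) + 3) (r (j + 3)) = φ (j + 3) • r (j + 2) := by
      have := stB (j + 2)
      have e : (((j + 2 : ℕ) : K) + 1) = (j : K) + 3 := by push_cast; ring
      rwa [e] at this
    rw [e1, stA j, stB j, a1, b1, a2, b2] at hs
    simp only [st_smul, stA j, a1] at hs
    have hs' : (φ j - 3 * φ (j + 1) + 3 * φ (j + 2) - φ (j + 3)
      + 3 * ((qf as bs cs ((j : K) + 2) - qf as bs cs ((j : K) + 1))
          * (qf a b c ((j : K) + 2) - qf a b c ((j : K) + 1))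
        - (qf as bs cs ((j : K) + 1) - qf as bs cs (j : K))
          * (qf a b c ((j : K) + 1) - qf a b c (j : K)))) • r (j + 2) = 0 := by
      rw [← hs]
      simp only [add_smul, sub_smul, mul_smul]
    rcases smul_eq_zero.1 hs' with h' | h'
    · exact h'
    · exact absurd h' (hr0 _ hj)
  -- subtract the particular solution
  set P : K → K := fun x => x * (x - (d + 1)) * (c * cs * x ^ 2
    + (cs * b + c * bs + c * cs * ((d : K) - 1)) * x) with hP
  have hd1 : ((d : K) + 1) ≠ 0 := by
    have := hK.ne (d + 1) (by omega) (by omega)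
    push_cast at this
    exact this
  obtain ⟨β, hβ⟩ := quad_seq (K := K) (d := d) (ψ := fun j => φ j - P (j : K)) hd1
    (by simp [hφ0, hP]) (by simp only [hφn, hP]; push_cast; ring) (by
      intro j hj
      have e := h3 j hj
      simp only [hP, qf] at e ⊢
      push_cast
      linear_combination e)
  refine ⟨β, r, ?_, hB0, ?_, r_end, li, span_eq⟩
  · intro j
    rw [rstep]; abel
  · intro j
    rcases lt_or_ge j (d + 1) with hj | hj
    · rw [hφB j]
      have e := hβ (j + 1) (by omega)
      simp only [hP] at e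
      push_cast at e
      have e' : φ (j + 1) = ((j : K) + 1) * ((j : K) - d) * (c * cs * ((j : K) + 1) ^ 2
        + (cs * b + c * bs + c * cs * ((d : K) - 1)) * ((j : K) + 1) + β) := by
        linear_combination e
      rw [e']
    · rw [r_end (j + 1) (by omega), r_end j hj]; simp

end TDP
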