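import Pool.Agent.Lib.MP_d0515f_al.SmallE
import Pool.Agent.Lib.MP_d0515f_al.Split
import Pool.Agent.Lib.MP_d0515f_al.TK1
import Pool.Agent.Lib.MP_d0515f_al.TK2

/-! Small diameters, part F: the centred chain of `A + t B`, and feasibility in terms of it. -/

namespace TDP

open Module Polynomial

variable {K V : Type*} [Field K] [Num17 K] [AddCommGroup V] [Module K V]

/-- the centred chain of `A + t B` -/
theorem SplitData.chain {A B : Module.End K V} {d : ℕ} {a b c as bs cs F : K} {r : ℕ → V}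
    (h : SplitData A B d a b c as bs cs F r) (t : K) :
    Chain (A + t • B - ((a + t * as) + (b + t * bs) * d / 2 + (c + t * cs) * (d : K) ^ 2 / 4
        + (c + t * cs) * (((d : K) + 1) ^ 2 - 1) / 12) • (1 : Module.End K V)) (d + 1) r
      (cD (d + 1) ((b + c * d) + t * (bs + cs * d)) (c + t * cs))
      (cψ (d + 1) (c * (t * cs)) ((b + c * d) * (t * cs) + t * (bs + cs * d) * c)
        (t * (F + c * cs * ((d : K) + 1) ^ 2 / 4
          + ((d : K) + 1) / 2 * (cs * b + c * bs + c * cs * ((d : K) - 1))))) where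
  zero := by
    have h0 := h.rA 0
    have h1 := h.rB0
    rw [LinearMap.sub_apply, LinearMap.add_apply, LinearMap.smul_apply, LinearMap.smul_apply,
      Module.End.one_apply, h0, h1]
    simp only [cD, qf, Nat.cast_zero, zero_add]
    push_cast
    have h2 := nz2 (K := K)
    have h4 := nz4 (K := K)
    have h12 := nz12 (K := K)
    match_scalars <;> first | ring1 | (field_simp; ring)
  succ := by
    intro j
    have h0 := h.rA (j + 1)
    have h1 := h.rB j
    rw [LinearMap.sub_apply, LinearMap.add_apply, LinearMap.smul_apply, LinearMap.smul_apply,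
      Module.End.one_apply, h0, h1]
    simp only [cD, cψ, qf]
    push_cast
    have h2 := nz2 (K := K)
    have h4 := nz4 (K := K)
    have h12 := nz12 (K := K)
    match_scalars <;> first | ring1 | (field_simp; ring)
  r_end := h.r_end
  li := h.li
  span_eq := h.span_eq

/-- shifting back -/
theorem Chain.unshift {T : Module.End K V} {κ : K} {n : ℕ} {r : ℕ → V} {D ψ : ℕ → K}
    (h : Chain (T - κ • (1 : Module.End K V)) n r D ψ) : Chain T n r (fun i => D i + κ) ψ where
  zero := by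
    have h0 := h.zero
    rw [LinearMap.sub_apply, LinearMap.smul_apply, Module.End.one_apply, sub_eq_iff_eq_add] at h0
    rw [h0]
    module
  succ := by
    intro j
    have h0 := h.succ j
    rw [LinearMap.sub_apply, LinearMap.smul_apply, Module.End.one_apply, sub_eq_iff_eq_add] at h0
    rw [h0]
    module
  r_end := h.r_end
  li := h.li
  span_eq := h.span_eq

variable [FiniteDimensional K V]

theorem feas_chain {T : Module.End K V} {κ : K} {n : ℕ} (hn : n ≠ 0)
    (hN : ∀ l : ℕ, 0 < l → l ≤ n → (l : K) ≠ 0) {r : ℕ → V}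
    {s a p q F : K}
    (h : Chain (T - κ • (1 : Module.End K V)) n r (cD n s a) (cψ n p q F)) :
    (∃ a0 b0 c0 : K, minpoly K T =
      ∏ i ∈ Finset.range n, (X - C (a0 + b0 * (i : K) + c0 * (i : K) ^ 2))) ↔
    ∃ β γ : K, ∀ k, k < n → ca (cD n s a) (cψ n p q F) n k = ca (cμ n β γ) (fun _ => 0) n k := by
  have h2' := nz2 (K := K)
  have h4' := nz4 (K := K)
  have h12' := nz12 (K := K)
  constructor
  · rintro ⟨a0, b0, c0, hm⟩
    have h1 := rr_eq_zero_of_minpoly (fun i : ℕ => a0 + b0 * (i : K) + c0 * (i : K) ^ 2) hm (r 0)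
    rw [← rr_shift T _ κ] at h1
    have h2 := h.trace_pow _ h1 1
    rw [trace_eq' (fun l hl hl' => hN l hl hl'.le) h 1, sumk1] at h2
    refine ⟨b0 + c0 * ((n : K) - 1), c0, ?_⟩
    have hn' : (n : K) ≠ 0 := hN n (Nat.pos_of_ne_zero hn) le_rfl
    have hμ : ∀ i : ℕ, (a0 + b0 * (i : K) + c0 * (i : K) ^ 2) - κ =
        cμ n (b0 + c0 * ((n : K) - 1)) c0 i + (a0 - κ + b0 * ((n : K) - 1) / 2
          + c0 * ((n : K) - 1) ^ 2 / 4 + c0 * ((n : K) ^ 2 - 1) / 12) := by
      intro i
      simp only [cμ]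
      field_simp
      ring
    have h3 : (n : K) * (a0 - κ + b0 * ((n : K) - 1) / 2
          + c0 * ((n : K) - 1) ^ 2 / 4 + c0 * ((n : K) ^ 2 - 1) / 12) = 0 := by
      simp only [hμ, pow_one] at h2
      rw [Finset.sum_add_distrib, mu1, Finset.sum_const, Finset.card_range, zero_add,
        nsmul_eq_mul] at h2
      exact h2.symm
    have h4 := (mul_eq_zero.1 h3).resolve_left hn'
    have h5 : (fun i : ℕ => (a0 + b0 * (i : K) + c0 * (i : K) ^ 2) - κ) =
        cμ n (b0 + c0 * ((n : K) - 1)) c0 := by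
      funext i
      rw [hμ, h4, add_zero]
    rw [h5] at h1
    exact (h.minpoly_eq_iff _).1 (h.minpoly_eq _ h1)
  · rintro ⟨β, γ, hk⟩
    have h1 := (h.minpoly_eq_iff _).2 hk
    have h2 := rr_eq_zero_of_minpoly _ h1 (r 0)
    have h3 : cμ n β γ = fun i : ℕ => (cμ n β γ i + κ) - κ := by funext i; ring
    rw [h3, rr_shift] at h2
    have h4 := h.unshift.minpoly_eq _ h2
    refine ⟨κ - β * ((n : K) - 1) / 2 + γ * (((n : K) - 1) ^ 2 / 4 - ((n : K) ^ 2 - 1) / 12),
      β - γ * ((n : K) - 1), γ, ?_⟩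
    rw [h4]
    refine Finset.prod_congr rfl fun i _ => ?_
    congr 2
    simp only [cμ]
    field_simp
    ring

/-- the normalised trace form -/
theorem rho_eq {T : Module.End K V} {κ : K} {n : ℕ} (hn : 2 ≤ n)
    (hN : ∀ l : ℕ, 0 < l → l ≤ n + 1 → (l : K) ≠ 0) {r : ℕ → V}
    {b1 b2 c1 c2 F : K}
    (h : Chain (T - κ • (1 : Module.End K V)) n r (cD n (b1 + b2) (c1 + c2))
      (cψ n (c1 * c2) (b1 * c2 + b2 * c1) F)) (hfin : finrank K V = n) :
    12 * ((n : K) * LinearMap.trace K V (T ^ 2) - (LinearMap.trace K V T) ^ 2)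
      / ((n : K) ^ 2 * ((n : K) ^ 2 - 1)) =
    (b1 + b2) ^ 2 - 4 * F + ((n : K) ^ 2 - 4) / 15 * ((c1 + c2) ^ 2 - 3 * (c1 * c2)) := by
  have h1 := trace_eq' (fun l hl hl' => hN l hl (by omega)) h 1
  have h2 := trace_eq' (fun l hl hl' => hN l hl (by omega)) h 2
  rw [sumk1, pow_one, map_sub, map_smul, LinearMap.trace_one, hfin, smul_eq_mul] at h1
  rw [sumk2] at h2
  have e : (T - κ • (1 : Module.End K V)) ^ 2 = T ^ 2 - (2 * κ) • T + (κ ^ 2) • 1 := by
    rw [sq, sub_mul, mul_sub, mul_sub, ← sq]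
    simp only [mul_smul_comm, smul_mul_assoc, mul_one, one_mul, smul_smul]
    module
  rw [e, map_add, map_sub, map_smul, map_smul, LinearMap.trace_one, hfin, smul_eq_mul,
    smul_eq_mul] at h2
  have hn0 : (n : K) ≠ 0 := hN n (by omega) (by omega)
  have hn1 : (n : K) - 1 ≠ 0 := by
    have := hN (n - 1) (by omega) (by omega)
    rwa [Nat.cast_sub (by omega : 1 ≤ n), Nat.cast_one] at this
  have hn2 : (n : K) + 1 ≠ 0 := by
    have := hN (n + 1) (by omega) le_rfl
    rwa [Nat.cast_add, Nat.cast_one] at this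
  have hn3 : (n : K) ^ 2 - 1 ≠ 0 := by
    have : (n : K) ^ 2 - 1 = ((n : K) - 1) * ((n : K) + 1) := by ring
    rw [this]; exact mul_ne_zero hn1 hn2
  have ht : LinearMap.trace K V T = κ * n := by linear_combination h1
  rw [ht] at h2 ⊢
  have h15' := nz15 (K := K)
  have h180' := nz180 (K := K)
  rw [div_eq_iff (mul_ne_zero (pow_ne_zero 2 hn0) hn3)]
  simp only [T2] at h2
  rw [eq_div_iff h180'] at h2
  have e15 : ((b1 + b2) ^ 2 - 4 * F + ((n : K) ^ 2 - 4) / 15 * ((c1 + c2) ^ 2 - 3 * (c1 * c2))) * 15 =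
      15 * (b1 + b2) ^ 2 - 60 * F + ((n : K) ^ 2 - 4) * ((c1 + c2) ^ 2 - 3 * (c1 * c2)) := by
    field_simp
    ring
  refine fz 0 1 1 0 0 0 0 ?_
  linear_combination (n : K) * h2 - ((n : K) ^ 2 * ((n : K) ^ 2 - 1)) * e15

end TDP
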