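import Pool.Agent.Lib.MP_d0515f_al.SmallG

/-! Small diameters, part H: the systematic value for `d = 3, 4, 5`. -/

namespace TDP

open Module Polynomial

variable {K : Type*} [Field K] [Num17 K]

/-- the relations of degree 2, 3, 4 in the case `e = 0` -/
theorem sys_square (m a y z ρ β g : K) (hm : 4 * m ^ 2 - 1 ≠ 0)
    (r2 : rel2 (m ^ 2) ρ (β ^ 2) g) (r3 : rel3 (m ^ 2) a 0 y (β ^ 2) g)
    (r4 : rel4 (m ^ 2) a 0 z (β ^ 2) g) : IsSquare (ρ - (m ^ 2 - 4) / 60 * a ^ 2) := by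
  unfold rel2 at r2
  unfold rel3 iQ iP at r3
  unfold rel4 iQ iP at r4
  obtain ⟨q, hq⟩ : ∃ q : K, q = (m ^ 2 - 4) / 60 * a ^ 2 := ⟨_, rfl⟩
  rw [← hq]
  have hq' : 60 * q = (m ^ 2 - 4) * a ^ 2 := by
    rw [hq]
    have h60 := nz60 (K := K)
    field_simp
  clear hq
  have f3 : (a + 2 * g) * (1260 * β ^ 2 - 21 * (m ^ 2 - 4) * a * (a - 2 * g)
      + 5 * (m ^ 2 - 16) * (a ^ 2 - 2 * a * g + 4 * g ^ 2)) = 0 := by
    linear_combination -r3
  have f4 : (a + 2 * g) * (630 * β ^ 2 * (34 * g - 7 * a)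
      + (a - 2 * g) * ((63 * m ^ 2 + 378) * a ^ 2 + 42 * (64 - m ^ 2) * g ^ 2)
      + 25 * (m ^ 2 - 16) * a * (a ^ 2 - 2 * a * g + 4 * g ^ 2)) = 0 := by
    linear_combination -r4
  by_cases h0 : a + 2 * g = 0
  · refine ⟨β, ?_⟩
    have ha : a = -2 * g := by linear_combination h0
    subst ha
    exact fz 2 1 1 0 0 0 0 (by linear_combination (-4) * r2 - hq')
  have g3 := (mul_eq_zero.1 f3).resolve_left h0
  have g4 := (mul_eq_zero.1 f4).resolve_left h0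
  have g5 : (4 * m ^ 2 - 1) * ((a - 2 * g) * ((2 * a + g) * (a + 8 * g))) = 0 := by
    exact fz 3 0 0 0 0 0 0 (by linear_combination (2) * g4 - (1) * (34 * g - 7 * a) * g3)
  have g6 := (mul_eq_zero.1 g5).resolve_left hm
  rcases mul_eq_zero.1 g6 with h | h
  · refine ⟨β, ?_⟩
    have ha : a = 2 * g := by linear_combination h
    subst ha
    exact fz 2 1 1 0 0 0 0 (by linear_combination (-4) * r2 - hq')
  rcases mul_eq_zero.1 h with h | h
  · have hg : g = -2 * a := by linear_combination h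
    subst hg
    obtain ⟨a, rfl⟩ := ex2 a
    refine ⟨m * a, ?_⟩
    exact fz 2 2 1 1 0 0 0 (by linear_combination (-84) * r2 + (1) * g3 - 21 * hq')
  · have ha : a = -8 * g := by linear_combination h
    subst ha
    refine ⟨2 * g, ?_⟩
    exact fz 2 2 1 1 0 0 0 (by linear_combination (-84) * r2 + (1) * g3 - 21 * hq')

/-- the converse -/
theorem sys_rel (N a y z ρ β : K) (h : ρ - (N - 4) / 60 * a ^ 2 = β ^ 2) :
    rel2 N ρ (β ^ 2) (-a / 2) ∧ rel3 N a 0 y (β ^ 2) (-a / 2) ∧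
    rel4 N a 0 z (β ^ 2) (-a / 2) ∧ rel5 N a 0 (β ^ 2) (-a / 2) ∧
    rel6 N a 0 (β ^ 2) (-a / 2) := by
  have h2 := nz2 (K := K)
  have h60 := nz60 (K := K)
  obtain ⟨a, rfl⟩ := ex60 a
  have e1 : -(60 * a) / 2 = -30 * a := by
    field_simp
    ring
  have e2 : (N - 4) / 60 * (60 * a) ^ 2 = 60 * (N - 4) * a ^ 2 := by
    field_simp
  rw [e2] at h
  rw [e1]
  have hρ : ρ = β ^ 2 + 60 * (N - 4) * a ^ 2 := by linear_combination h
  unfold rel2 rel3 rel4 rel5 rel6 iP iQ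
  rw [hρ]
  refine ⟨?_, ?_, ?_, ?_, ?_⟩ <;> ring

variable {V : Type*} [AddCommGroup V] [Module K V] [FiniteDimensional K V]
  {A B : Module.End K V} {d δ : ℕ} {θ θs : ℕ → K}

theorem mid_sys (hK : Good K d) (hd : 3 ≤ d) (c u v ρ : K) :
    (∃ β γ : K, MidRel d c c u v ρ (β ^ 2) γ) ↔
      IsSquare (ρ - ((d : K) - 1) * ((d : K) + 3) / 15 * c ^ 2) := by
  have e : ρ - ((((d : K) + 1) ^ 2) - 4) / 60 * (c + c) ^ 2 =
      ρ - ((d : K) - 1) * ((d : K) + 3) / 15 * c ^ 2 := by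
    have h15 := nz15 (K := K)
    have h60 := nz60 (K := K)
    field_simp
    ring
  constructor
  · rintro ⟨β, γ, r2, r3, r4, _, _⟩
    rw [sub_self] at r3 r4
    have hm : 4 * ((d : K) + 1) ^ 2 - 1 ≠ 0 := by
      have h1 : (4 * ((d : K) + 1) ^ 2 - 1) = (2 * (d : K) + 1) * (2 * (d : K) + 3) := by ring
      rw [h1]
      exact mul_ne_zero hK.t1 hK.t3
    have := sys_square ((d : K) + 1) (c + c) (u - v) (u + v) ρ β γ hm r2 r3 r4
    rwa [e] at this
  · rintro ⟨β, hβ⟩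
    rw [← e, ← sq] at hβ
    obtain ⟨r2, r3, r4, r5, r6⟩ := sys_rel (((d : K) + 1) ^ 2) (c + c) (u - v) (u + v) ρ β hβ
    refine ⟨β, -(c + c) / 2, r2, ?_, ?_, ?_, ?_⟩
    · rw [sub_self]; exact r3
    · rw [sub_self]; exact r4
    · intro _; rw [sub_self]; exact r5
    · intro _; rw [sub_self]; exact r6

/-- feasibility for `d = 3, 4, 5`: systematic and sporadic values -/
theorem feas_mid' (hK : Good K d)
    (h : IsTDPair A B d δ θ θs) (hβ : BetaTwo d θ) (hβs : BetaTwo δ θs)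
    (hd : 3 ≤ d) (hd' : d ≤ 5) (hfin : finrank K V = d + 1) (t : K) :
    Feasible A B d t ↔
      (cc θ = t * cc θs ∧
        IsSquare (rho A B d t - ((d : K) - 1) * ((d : K) + 3) / 15 * cc θ ^ 2)) ∨
      (cc θ ≠ t * cc θs ∧ ∃ β γ : K, MidRel d (cc θ) (t * cc θs) (bb d θ ^ 2)
        ((t * bb d θs) ^ 2) (rho A B d t) (β ^ 2) γ) := by
  rw [feas_mid hK h hβ hβs hd hd' hfin t]
  by_cases hc : cc θ = t * cc θs
  · rw [← hc, mid_sys hK hd]
    constructor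
    · intro hx; exact Or.inl ⟨rfl, hx⟩
    · rintro (⟨_, hx⟩ | ⟨hx, _⟩)
      · exact hx
      · exact absurd rfl hx
  · constructor
    · intro hx; exact Or.inr ⟨hc, hx⟩
    · rintro (⟨hx, _⟩ | ⟨_, hx⟩)
      · exact absurd hx hc
      · exact hx

end TDP
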