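import Pool.Agent.Lib.MP_d0515f_al.Chain
import Pool.Agent.Lib.MP_d0515f_al.TDefs

/-! Traces of powers of a centred tridiagonal operator as sums over closed walks. -/

namespace TDP

open Module

variable {K V : Type*} [Field K] [AddCommGroup V] [Module K V]

/-- coefficient of `e (j+i)` in `T^k (e j)`, as a function of `x = x_j` -/
def co (u D χ : K → K) : ℕ → ℤ → K → K
  | 0, i, _ => if i = 0 then 1 else 0
  | k + 1, i, x => u x * co u D χ k (i - 1) (x + 1) + D x * co u D χ k i x
      + χ x * co u D χ k (i + 1) (x - 1)

theorem co_eq_zero (u D χ : K → K) (k : ℕ) : ∀ (i : ℤ) (x : K), (k : ℤ) < |i| → co u D χ k i x = 0 := by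
  induction k with
  | zero =>
    intro i x hi
    have : i ≠ 0 := by
      rintro rfl
      simp at hi
    simp [co, this]
  | succ k ih =>
    intro i x hi
    have h1 : (k : ℤ) < |i - 1| := by
      push_cast at hi
      rcases abs_cases i with h | h <;> rcases abs_cases (i - 1) with h' | h' <;> omega
    have h2 : (k : ℤ) < |i| := by push_cast at hi; omega
    have h3 : (k : ℤ) < |i + 1| := by
      push_cast at hi
      rcases abs_cases i with h | h <;> rcases abs_cases (i + 1) with h' | h' <;> omega
    simp [co, ih _ _ h1, ih _ _ h2, ih _ _ h3]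

/-- expansion of `T^k (e j)` -/
theorem pow_apply_e (T : Module.End K V) (e : ℤ → V) (X : ℤ → K) (u D χ : K → K)
    (hX : ∀ j : ℤ, X (j + 1) = X j + 1)
    (hT : ∀ j : ℤ, T (e j) = u (X j) • e (j + 1) + D (X j) • e j + χ (X j) • e (j - 1))
    (k : ℕ) (N : ℕ) (hN : k ≤ N) : ∀ j : ℤ, (T ^ k) (e j) =
      ∑ i ∈ Finset.Icc (-(N : ℤ)) N, co u D χ k i (X j) • e (j + i) := by
  have hX' : ∀ j : ℤ, X (j - 1) = X j - 1 := by
    intro j
    have := hX (j - 1)
    rw [sub_add_cancel] at this
    rw [this]; ring
  induction k with
  | zero =>
    intro j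
    rw [Finset.sum_eq_single (0 : ℤ)]
    · simp [co]
    · intro b _ hb
      simp [co, hb]
    · intro h
      exfalso
      apply h
      simp
  | succ k ih =>
    intro j
    have ih' := ih (by omega)
    rw [pow_succ, Module.End.mul_apply, hT, map_add, map_add, map_smul, map_smul, map_smul,
      ih', ih', ih', hX, hX']
    simp only [co, add_smul, Finset.sum_add_distrib, Finset.smul_sum, smul_smul]
    have key : ∀ (f : ℤ → V) (a : ℤ), (∀ i, (k : ℤ) < |i| → f i = 0) → |a| ≤ 1 →
        ∑ i ∈ Finset.Icc (-(N : ℤ)) N, f i = ∑ i ∈ Finset.Icc (-(N : ℤ)) N, f (i - a) := by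
      intro f a hf ha
      rw [abs_le] at ha
      have hk : (k : ℤ) + 1 ≤ N := by exact_mod_cast hN
      have e1 : ∑ i ∈ Finset.Icc (-(N : ℤ)) N, f i = ∑ i ∈ Finset.Icc (-(k : ℤ)) k, f i := by
        symm
        apply Finset.sum_subset
        · intro i hi
          simp only [Finset.mem_Icc] at hi ⊢
          omega
        · intro i _ hi
          apply hf
          simp only [Finset.mem_Icc, not_and_or, not_le] at hi
          rcases abs_cases i with h | h <;> omega
      have e2 : ∑ i ∈ Finset.Icc (-(N : ℤ)) N, f (i - a) =
          ∑ i ∈ Finset.Icc (-(k : ℤ) + a) (k + a), f (i - a) := by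
        symm
        apply Finset.sum_subset
        · intro i hi
          simp only [Finset.mem_Icc] at hi ⊢
          omega
        · intro i _ hi
          apply hf
          simp only [Finset.mem_Icc, not_and_or, not_le] at hi
          rcases abs_cases (i - a) with h | h <;> omega
      rw [e1, e2]
      apply Finset.sum_nbij' (fun i => i + a) (fun i => i - a)
      · intro i hi
        simp only [Finset.mem_Icc] at hi ⊢
        omega
      · intro i hi
        simp only [Finset.mem_Icc] at hi ⊢
        omega
      · intro i _; ring
      · intro i _; ring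
      · intro i _; ring_nf
    congr 1
    · congr 1
      · rw [key (fun i => (u (X j) * co u D χ k i (X j + 1)) • e (j + 1 + i)) 1]
        · apply Finset.sum_congr rfl
          intro i _
          rw [show j + 1 + (i - 1) = j + i by ring]
        · intro i hi
          simp [co_eq_zero u D χ k i _ hi]
        · simp
    · rw [key (fun i => (χ (X j) * co u D χ k i (X j - 1)) • e (j - 1 + i)) (-1)]
      · apply Finset.sum_congr rfl
        intro i _
        rw [show i - -1 = i + 1 by ring, show j - 1 + (i + 1) = j + i by ring]
      · intro i hi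
        simp [co_eq_zero u D χ k i _ hi]
      · simp

/-- coefficients of a product -/
theorem co_add (u D χ : K → K) (k l : ℕ) (N : ℕ) (hN : l ≤ N) : ∀ (i : ℤ) (x : K),
    co u D χ (l + k) i x = ∑ m ∈ Finset.Icc (-(N : ℤ)) N,
      co u D χ l m x * co u D χ k (i - m) (x + m) := by
  induction l with
  | zero =>
    intro i x
    rw [Finset.sum_eq_single (0 : ℤ)]
    · simp [co]
    · intro b _ hb
      simp [co, hb]
    · intro h
      exfalso
      apply h
      simp
  | succ l ih =>
    intro i x
    have ih' := ih (by omega)
    rw [show l + 1 + k = (l + k) + 1 by ring]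
    have hl : (l : ℤ) + 1 ≤ N := by exact_mod_cast hN
    have key : ∀ (f : ℤ → K) (a : ℤ), (∀ i, (l : ℤ) < |i| → f i = 0) → |a| ≤ 1 →
        ∑ i ∈ Finset.Icc (-(N : ℤ)) N, f i = ∑ i ∈ Finset.Icc (-(N : ℤ)) N, f (i - a) := by
      intro f a hf ha
      rw [abs_le] at ha
      have e1 : ∑ i ∈ Finset.Icc (-(N : ℤ)) N, f i = ∑ i ∈ Finset.Icc (-(l : ℤ)) l, f i := by
        symm
        apply Finset.sum_subset
        · intro i hi
          simp only [Finset.mem_Icc] at hi ⊢
          omega
        · intro i _ hi
          apply hf
          simp only [Finset.mem_Icc, not_and_or, not_le] at hi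
          rcases abs_cases i with h | h <;> omega
      have e2 : ∑ i ∈ Finset.Icc (-(N : ℤ)) N, f (i - a) =
          ∑ i ∈ Finset.Icc (-(l : ℤ) + a) (l + a), f (i - a) := by
        symm
        apply Finset.sum_subset
        · intro i hi
          simp only [Finset.mem_Icc] at hi ⊢
          omega
        · intro i _ hi
          apply hf
          simp only [Finset.mem_Icc, not_and_or, not_le] at hi
          rcases abs_cases (i - a) with h | h <;> omega
      rw [e1, e2]
      apply Finset.sum_nbij' (fun i => i + a) (fun i => i - a)
      · intro i hi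
        simp only [Finset.mem_Icc] at hi ⊢
        omega
      · intro i hi
        simp only [Finset.mem_Icc] at hi ⊢
        omega
      · intro i _; ring
      · intro i _; ring
      · intro i _; ring_nf
    simp only [co]
    rw [ih', ih', ih']
    simp only [add_mul, Finset.sum_add_distrib, Finset.mul_sum]
    congr 1
    · congr 1
      · rw [key (fun m => u x * (co u D χ l m (x + 1) * co u D χ k (i - 1 - m) (x + 1 + (m : K)))) 1]
        · apply Finset.sum_congr rfl
          intro m _
          rw [show i - 1 - (m - 1) = i - m by ring]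
          push_cast
          rw [show x + 1 + ((m : K) - 1) = x + m by ring]
          ring
        · intro i hi
          simp [co_eq_zero u D χ l i _ hi]
        · simp
      · apply Finset.sum_congr rfl
        intro m _
        ring
    · rw [key (fun m => χ x * (co u D χ l m (x - 1) * co u D χ k (i + 1 - m) (x - 1 + (m : K)))) (-1)]
      · apply Finset.sum_congr rfl
        intro m _
        rw [show m - -1 = m + 1 by ring, show i + 1 - (m + 1) = i - m by ring]
        push_cast
        rw [show x - 1 + ((m : K) + 1) = x + m by ring]
        ring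
      · intro i hi
        simp [co_eq_zero u D χ l i _ hi]
      · simp

end TDP
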